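import Pool.Agent.Work.MP_a2bf38_gt.Q.Mfd
import Mathlib.MeasureTheory.Function.Jacobian

/-!
# The measure of a volume form on an open set covered by countably many charts
-/

open scoped ContDiff Topology ENNReal
open Set MeasureTheory Filter Pool.Agent.ToricKRF Pool.Agent.ToricKRF.G Pool.Agent.KRFS

namespace Pool.Agent.KRFQ

section

variable {M : Type} [TopologicalSpace M] [MeasurableSpace M] [BorelSpace M] {n : ℕ} {κ : Type}
  {e : κ → OpenPartialHomeomorph M (Cn n)}

theorem measurableSet_symm_preimage (c : κ) {A : Set M} (hA : MeasurableSet A) :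
    MeasurableSet ((e c).symm ⁻¹' A ∩ (e c).target) := by
  have h1 : Continuous ((e c).target.domRestrict (e c).symm) :=
    continuousOn_iff_continuous_domRestrict.1 (e c).continuousOn_symm
  have h2 : MeasurableSet (((↑) : (e c).target → Cn n) ''
      ((e c).target.domRestrict (e c).symm ⁻¹' A)) :=
    (e c).open_target.measurableSet.subtype_image (h1.measurable hA)
  have h3 : ((↑) : (e c).target → Cn n) '' ((e c).target.domRestrict (e c).symm ⁻¹' A) =
      (e c).symm ⁻¹' A ∩ (e c).target := by
    ext z
    simp only [mem_image, mem_preimage, Subtype.exists, mem_inter_iff]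
    constructor
    · rintro ⟨x, hx, h, rfl⟩
      exact ⟨h, hx⟩
    · rintro ⟨h, hz⟩
      exact ⟨z, hz, h, rfl⟩
  rwa [h3] at h2

/-- The measure with density `w c` in the chart `c`. -/
noncomputable def nu (e : κ → OpenPartialHomeomorph M (Cn n)) (w : κ → Cn n → ℝ) (c : κ) :
    Measure M :=
  Measure.map (e c).symm ((volume.restrict (e c).target).withDensity
    (fun z => ENNReal.ofReal (w c z)))

theorem nu_apply (w : κ → Cn n → ℝ) (c : κ) {A : Set M} (hA : MeasurableSet A) :
    nu e w c A = ∫⁻ z in (e c).symm ⁻¹' A ∩ (e c).target, ENNReal.ofReal (w c z) := by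
  have h1 : AEMeasurable (e c).symm ((volume.restrict (e c).target).withDensity
      (fun z => ENNReal.ofReal (w c z))) :=
    ((e c).continuousOn_symm.aemeasurable (e c).open_target.measurableSet).mono_ac
      (withDensity_absolutelyContinuous _ _)
  rw [nu, Measure.map_apply_of_aemeasurable h1 hA, withDensity_apply',
    Measure.restrict_restrict' (e c).open_target.measurableSet]

theorem nu_congr {w : κ → Cn n → ℝ} (holo : ∀ c c', HolOn (tr e c c') (dom e c c'))
    (hw : ∀ c c', ∀ z ∈ dom e c c', w c z = |(fderiv ℝ (tr e c c') z).det| * w c' (tr e c c' z))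
    (c c' : κ) {A : Set M} (hA : MeasurableSet A) (h : A ⊆ (e c).source)
    (h' : A ⊆ (e c').source) : nu e w c A = nu e w c' A := by
  set S : Set (Cn n) := (e c).symm ⁻¹' A ∩ (e c).target with hS
  have hSd : S ⊆ dom e c c' := fun z hz => ⟨hz.2, h' hz.1⟩
  have himg : tr e c c' '' S = (e c').symm ⁻¹' A ∩ (e c').target := by
    ext z
    constructor
    · rintro ⟨x, hx, rfl⟩
      refine ⟨?_, tr_mem_target (hSd hx)⟩
      rw [mem_preimage, symm_tr (hSd hx)]
      exact hx.1
    · rintro ⟨hz, hz'⟩
      have hd : z ∈ dom e c' c := ⟨hz', h hz⟩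
      refine ⟨tr e c' c z, ⟨?_, tr_mem_target hd⟩, tr_tr hd⟩
      rw [mem_preimage, symm_tr hd]
      exact hz
  have hinj : InjOn (tr e c c') S := fun x hx y hy hxy => by
    rw [← tr_tr (hSd hx), hxy, tr_tr (hSd hy)]
  have hder : ∀ z ∈ S, HasFDerivWithinAt (tr e c c') (fderiv ℝ (tr e c c') z) S z := fun z hz =>
    (((holo c c').1.differentiableOn (by simp)).differentiableAt
      ((isOpen_dom c c').mem_nhds (hSd hz))).hasFDerivAt.hasFDerivWithinAt
  have hSm : MeasurableSet S := measurableSet_symm_preimage c hA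
  have hHaar : (volume : Measure (Cn n)).IsAddHaarMeasure :=
    Measure.prod.instIsAddHaarMeasure (G := Fin n → ℝ) (H := Fin n → ℝ) volume volume
  rw [nu_apply w c hA, nu_apply w c' hA, ← himg,
    lintegral_image_eq_lintegral_abs_det_fderiv_mul volume hSm hder hinj]
  refine setLIntegral_congr_fun hSm fun z hz => ?_
  rw [hw c c' z (hSd hz), ENNReal.ofReal_mul (abs_nonneg _)]

theorem nu_source (w : κ → Cn n → ℝ) (c : κ) {A : Set M} (hA : MeasurableSet A) :
    nu e w c (A ∩ (e c).source) = nu e w c A := by
  rw [nu_apply w c (hA.inter (e c).open_source.measurableSet), nu_apply w c hA]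
  congr 2
  ext z
  simp only [mem_inter_iff, mem_preimage]
  constructor
  · rintro ⟨⟨h1, -⟩, h2⟩
    exact ⟨h1, h2⟩
  · rintro ⟨h1, h2⟩
    exact ⟨⟨h1, (e c).map_target h2⟩, h2⟩

theorem exists_measure (s : ℕ → κ) {V : Set M} (hV : V = ⋃ i, (e (s i)).source)
    (hsub : ∀ c, (e c).source ⊆ V) (holo : ∀ c c', HolOn (tr e c c') (dom e c c'))
    {w : κ → Cn n → ℝ} (hw : ∀ c c', ∀ z ∈ dom e c c',
      w c z = |(fderiv ℝ (tr e c c') z).det| * w c' (tr e c c' z)) :
    ∃ μ : Measure M, μ Vᶜ = 0 ∧ ∀ c, μ.restrict (e c).source =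
      Measure.map (e c).symm ((volume.restrict (e c).target).withDensity
        (fun z => ENNReal.ofReal (w c z))) := by
  set D : ℕ → Set M := disjointed fun i => (e (s i)).source with hD
  have hDm : ∀ i, MeasurableSet (D i) := fun i =>
    MeasurableSet.disjointed (fun i => (e (s i)).open_source.measurableSet) i
  have hDs : ∀ i, D i ⊆ (e (s i)).source := fun i => disjointed_subset _ i
  have hDd : Pairwise (Function.onFun Disjoint D) := disjoint_disjointed _
  have hDu : ⋃ i, D i = V := by rw [hV, hD, iUnion_disjointed]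
  have hVm : MeasurableSet V := by
    rw [hV]
    exact MeasurableSet.iUnion fun i => (e (s i)).open_source.measurableSet
  refine ⟨Measure.sum fun i => (nu e w (s i)).restrict (D i), ?_, fun c => ?_⟩
  · rw [Measure.sum_apply _ hVm.compl]
    refine ENNReal.tsum_eq_zero.2 fun i => ?_
    rw [Measure.restrict_apply hVm.compl]
    have : Vᶜ ∩ D i = ∅ := by
      ext x
      simp only [mem_inter_iff, mem_compl_iff, mem_empty_iff_false, iff_false, not_and]
      intro hx hxD
      exact hx (hDu ▸ mem_iUnion.2 ⟨i, hxD⟩)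
    rw [this, measure_empty]
  · change _ = nu e w c
    refine Measure.ext fun A hA => ?_
    have hsm := (e c).open_source.measurableSet
    rw [Measure.restrict_apply hA, Measure.sum_apply _ (hA.inter hsm)]
    have h1 : ∀ i, (nu e w (s i)).restrict (D i) (A ∩ (e c).source) =
        nu e w c (A ∩ (e c).source ∩ D i) := by
      intro i
      rw [Measure.restrict_apply (hA.inter hsm)]
      exact nu_congr holo hw (s i) c ((hA.inter hsm).inter (hDm i))
        (inter_subset_right.trans (hDs i)) (inter_subset_left.trans inter_subset_right)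
    simp only [h1]
    rw [← measure_iUnion, ← inter_iUnion, hDu, inter_eq_left.2 (inter_subset_right.trans (hsub c)),
      nu_source w c hA]
    · exact fun i j hij => (hDd hij).mono inter_subset_right inter_subset_right
    · exact fun i => (hA.inter hsm).inter (hDm i)

/-- the measure of the volume form of `L2D` -/
theorem L2D.exists_measure {V : Set M} {w g : κ → Cn n → ℝ} (h : L2D e V w g) (s : ℕ → κ)
    (hs : V ⊆ ⋃ i, (e (s i)).source) :
    ∃ μ : Measure M, μ Vᶜ = 0 ∧ ∀ c, μ.restrict (e c).source =
      Measure.map (e c).symm ((volume.restrict (e c).target).withDensity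
        (fun z => ENNReal.ofReal (w c z))) :=
  KRFQ.exists_measure s (hs.antisymm (iUnion_subset fun i => h.sub (s i))) h.sub h.holo h.w_compat

end

end Pool.Agent.KRFQ
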