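import Pool.Agent.Work.MP_a2bf38_gt.Q.Green

/-!
# Test functions; the pairing of a smooth function with the Laplacians of test functions
-/

open scoped ContDiff Topology ComplexOrder Matrix
open Set MeasureTheory Filter Pool.Agent.ToricKRF Pool.Agent.ToricKRF.G Pool.Agent.KRFS

namespace Pool.Agent.KRFQ

variable {M : Type} [TopologicalSpace M] {n : ℕ} {κ : Type}
  {e : κ → OpenPartialHomeomorph M (Cn n)} {V : Set M} {w g : κ → Cn n → ℝ}

/-- Smooth functions with compact support in `V`. -/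
def Test (e : κ → OpenPartialHomeomorph M (Cn n)) (V : Set M) (f : M → ℂ) : Prop :=
  Sm e f ∧ ∃ K : Set M, IsCompact K ∧ K ⊆ V ∧ ∀ p ∉ K, f p = 0

theorem Test.zero : Test e V fun _ => 0 :=
  ⟨Sm.const 0, ∅, isCompact_empty, empty_subset _, fun _ _ => rfl⟩

theorem Test.add {f₁ f₂ : M → ℂ} (h₁ : Test e V f₁) (h₂ : Test e V f₂) :
    Test e V fun p => f₁ p + f₂ p := by
  obtain ⟨s₁, K₁, hK₁, hV₁, z₁⟩ := h₁
  obtain ⟨s₂, K₂, hK₂, hV₂, z₂⟩ := h₂
  refine ⟨s₁.add s₂, K₁ ∪ K₂, hK₁.union hK₂, union_subset hV₁ hV₂, fun p hp => ?_⟩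
  change f₁ p + f₂ p = 0
  rw [z₁ p fun hm => hp (Or.inl hm), z₂ p fun hm => hp (Or.inr hm), add_zero]

theorem Test.smul {f : M → ℂ} (h : Test e V f) (a : ℂ) : Test e V fun p => a * f p := by
  obtain ⟨s, K, hK, hV, z⟩ := h
  refine ⟨(Sm.const a).mul s, K, hK, hV, fun p hp => ?_⟩
  change a * f p = 0
  rw [z p hp, mul_zero]

theorem gradv_add' {G : Cn n → ℝ} {f₁ f₂ : Cn n → ℂ} {z : Cn n} (h₁ : DifferentiableAt ℝ f₁ z)
    (h₂ : DifferentiableAt ℝ f₂ z) (j : Fin n) :
    gradv G (fun x => f₁ x + f₂ x) z j = gradv G f₁ z j + gradv G f₂ z j := by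
  simp only [gradv, dzb_add h₁ h₂, mul_add, Finset.sum_add_distrib]

theorem gradv_smul {G : Cn n → ℝ} {f : Cn n → ℂ} {z : Cn n} (hf : DifferentiableAt ℝ f z)
    (a : ℂ) (j : Fin n) : gradv G (fun x => a * f x) z j = a * gradv G f z j := by
  simp only [gradv]
  rw [Finset.mul_sum]
  refine Finset.sum_congr rfl fun k _ => ?_
  rw [dzb_mul (differentiableAt_const a) hf, dzb_const]
  ring

theorem L2D.Lap_of_notMem (h : L2D e V w g) {f : M → ℂ} {p : M} (hp : p ∉ V) :
    Lap e w g f p = 0 := by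
  rw [Lap, divg, h.notMem hp, neg_zero]

theorem L2D.Lap_eq (h : L2D e V w g) {f : M → ℂ} (hf : Sm e f) {p : M} {c : κ}
    (hc : p ∈ (e c).source) : Lap e w g f p = -∑ j, (dz j (fun x => grd e g f c x j) (e c p) -
      dz j (nlog (w c)) (e c p) * grd e g f c (e c p) j) := by
  have hz := (e c).map_source hc
  have e1 := h.pb_divg (h.Fld_grd hf) hz
  rw [pb, (e c).left_inv hc] at e1
  rw [Lap, e1, dv_eq (e c).open_target (h.w_smooth c) (h.w_pos c) ((h.Fld_grd hf).smooth c) hz]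

theorem L2D.Lap_add (h : L2D e V w g) {f₁ f₂ : M → ℂ} (h₁ : Sm e f₁) (h₂ : Sm e f₂) (p : M) :
    Lap e w g (fun p => f₁ p + f₂ p) p = Lap e w g f₁ p + Lap e w g f₂ p := by
  by_cases hp : p ∈ V
  · obtain ⟨c, hc⟩ := h.cover p hp
    have hz := (e c).map_source hc
    have hU := (e c).open_target
    have e1 : ∀ j, ∀ x ∈ (e c).target, grd e g (fun p => f₁ p + f₂ p) c x j =
        grd e g f₁ c x j + grd e g f₂ c x j := fun j x hx =>
      gradv_add' (diffAtC hU (h₁ c) hx) (diffAtC hU (h₂ c) hx) j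
    rw [h.Lap_eq (h₁.add h₂) hc, h.Lap_eq h₁ hc, h.Lap_eq h₂ hc, ← neg_add,
      ← Finset.sum_add_distrib]
    congr 1
    refine Finset.sum_congr rfl fun j _ => ?_
    have e2 : (fun x => grd e g (fun p => f₁ p + f₂ p) c x j) =ᶠ[𝓝 (e c p)]
        fun x => grd e g f₁ c x j + grd e g f₂ c x j := by
      filter_upwards [hU.mem_nhds hz] with x hx using e1 j x hx
    rw [dz_congr e2, dz_add (diffAtC hU ((h.Fld_grd h₁).smooth c j) hz)
      (diffAtC hU ((h.Fld_grd h₂).smooth c j) hz), e1 j _ hz]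
    ring
  · rw [h.Lap_of_notMem hp, h.Lap_of_notMem hp, h.Lap_of_notMem hp, add_zero]

theorem L2D.Lap_smul (h : L2D e V w g) {f : M → ℂ} (hf : Sm e f) (a : ℂ) (p : M) :
    Lap e w g (fun p => a * f p) p = a * Lap e w g f p := by
  by_cases hp : p ∈ V
  · obtain ⟨c, hc⟩ := h.cover p hp
    have hz := (e c).map_source hc
    have hU := (e c).open_target
    have e1 : ∀ j, ∀ x ∈ (e c).target, grd e g (fun p => a * f p) c x j =
        a * grd e g f c x j := fun j x hx => gradv_smul (diffAtC hU (hf c) hx) a j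
    rw [h.Lap_eq ((Sm.const a).mul hf) hc, h.Lap_eq hf hc, mul_neg, Finset.mul_sum]
    congr 1
    refine Finset.sum_congr rfl fun j _ => ?_
    have e2 : (fun x => grd e g (fun p => a * f p) c x j) =ᶠ[𝓝 (e c p)]
        fun x => a * grd e g f c x j := by
      filter_upwards [hU.mem_nhds hz] with x hx using e1 j x hx
    rw [dz_congr e2, dz_mul (differentiableAt_const a)
      (diffAtC hU ((h.Fld_grd hf).smooth c j) hz), e1 j _ hz, dz_const]
    ring
  · rw [h.Lap_of_notMem hp, h.Lap_of_notMem hp, mul_zero]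

section

variable [MeasurableSpace M] [BorelSpace M] [T2Space M] {μ : Measure M}

omit [MeasurableSpace M] [BorelSpace M] in
theorem L2D.Lap_zero' (h : L2D e V w g) {f : M → ℂ} (hf : Sm e f) {K : Set M}
    (hK : IsCompact K) (h0 : ∀ p ∉ K, f p = 0) : ∀ p ∉ K, Lap e w g f p = 0 := by
  intro p hp
  rw [Lap, h.divg_zero (h.Fld_grd hf) (grd_zero (g := g) hK h0) p hp, neg_zero]

theorem IsDens.memLp_test (hμ : IsDens e w μ) (h : L2D e V w g) {F : M → ℂ} (hF : Test e V F) :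
    MemLp F 2 μ := by
  obtain ⟨s, K, hK, hKV, z⟩ := hF
  have hc : Continuous F := Sm.continuous (V := V) h.cover s
    ((tsupport_sub_of_compact hK z).trans hKV)
  rw [memLp_two_iff_integrable_sq_norm hc.aestronglyMeasurable]
  have h1 : Integrable (fun p => F p * (starRingEnd ℂ) (F p)) μ := by
    refine hμ.integrable h hK hKV ?_ fun p hp => by rw [z p hp, zero_mul]
    exact hc.mul (Complex.continuous_conj.comp hc)
  refine h1.re.congr (Eventually.of_forall fun p => ?_)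
  simp only [RCLike.re_to_complex]
  rw [Complex.mul_conj, Complex.ofReal_re, Complex.normSq_eq_norm_sq]

omit [MeasurableSpace M] [BorelSpace M] in
theorem L2D.Test_Lap (h : L2D e V w g) {f : M → ℂ} (hf : Test e V f) :
    Test e V (Lap e w g f) := by
  obtain ⟨s, K, hK, hKV, z⟩ := hf
  exact ⟨h.Sm_Lap s, K, hK, hKV, h.Lap_zero' s hK z⟩

/-- The pairing of `χ` with `Lap f`. -/
theorem IsDens.pair_le (hμ : IsDens e w μ) (h : L2D e V w g)
    (hpos : ∀ c, ∀ z ∈ (e c).target, ∀ u, 0 ≤ levz (fun x => -Real.log (w c x)) u z)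
    {χ : M → ℂ} (hχ : Sm e χ) {B : M → ℝ} (hB0 : ∀ p, 0 ≤ B p) (hBi : Integrable B μ)
    (hB : ∀ c, ∀ z ∈ (e c).target, ∀ u : Cn n,
      ‖∑ j, dzb j (pb e c χ) z * (starRingEnd ℂ) (cc u j)‖ ^ 2 ≤
        B ((e c).symm z) * levz (fun x => -Real.log (w c x)) u z)
    {f : M → ℂ} (hf : Test e V f) :
    ‖∫ p, (starRingEnd ℂ) (χ p) * Lap e w g f p ∂μ‖ ≤
      √(∫ p, B p ∂μ) * √(∫ p, ‖Lap e w g f p‖ ^ 2 ∂μ) := by
  obtain ⟨s, K, hK, hKV, z⟩ := hf
  have hW := h.Fld_grd s
  have hX0 : ∀ c, ∀ z ∈ (e c).target, (e c).symm z ∉ K → grd e g f c =ᶠ[𝓝 z] fun _ => 0 :=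
    fun c => grd_zero (g := g) hK z c
  have e1 : ∫ p, (starRingEnd ℂ) (χ p) * Lap e w g f p ∂μ =
      ∫ p, act e (grd e g f) (fun p => (starRingEnd ℂ) (χ p)) p ∂μ := by
    have h1 := hμ.ibp h hW hχ.conj hK hKV (Or.inr hX0)
    have h2 : ∀ p, (starRingEnd ℂ) (χ p) * Lap e w g f p =
        -((starRingEnd ℂ) (χ p) * divg e w (grd e g f) p) := by
      intro p
      rw [Lap]
      ring
    simp only [h2]
    rw [integral_neg, h1, neg_neg]
  have key : ∀ p, ‖act e (grd e g f) (fun p => (starRingEnd ℂ) (χ p)) p‖ ^ 2 ≤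
      B p * (Phi e w g f p).re ∧ 0 ≤ (Phi e w g f p).re := by
    intro p
    by_cases hp : p ∈ V
    · obtain ⟨c, hc⟩ := h.cover p hp
      have hz := (e c).map_source hc
      have e2 := h.pb_act hW hχ.conj hz
      have e3 := h.pb_Phi s hz
      rw [pb, (e c).left_inv hc] at e2 e3
      rw [e2, e3, Complex.ofReal_re]
      refine ⟨?_, hpos c _ hz _⟩
      have h3 := hB c _ hz (ofv (grd e g f c (e c p)))
      rw [(e c).left_inv hc] at h3
      refine le_trans (le_of_eq ?_) h3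
      congr 1
      rw [← RCLike.norm_conj, map_sum]
      congr 1
      refine Finset.sum_congr rfl fun j _ => ?_
      have h4 : pb e c (fun p => (starRingEnd ℂ) (χ p)) =
          fun x => (starRingEnd ℂ) (pb e c χ x) := rfl
      rw [cc_ofv, map_mul, h4, dz_conj (diffAtC (e c).open_target (hχ c) hz),
        Complex.conj_conj]
      ring
    · rw [act, h.notMem hp, Phi, h.notMem hp]
      simp
  have zP := h.Phi_zero s hK z
  have iP : Integrable (Phi e w g f) μ := hμ.integrable h hK hKV (Sm.continuous (V := V)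
    h.cover (h.Sm_Phi s) ((tsupport_sub_of_compact hK zP).trans hKV)) zP
  have iP' : Integrable (fun p => (Phi e w g f p).re) μ := iP.re
  have m1 : MemLp (fun p => √(B p)) 2 μ := by
    rw [memLp_two_iff_integrable_sq
      (Real.continuous_sqrt.comp_aestronglyMeasurable hBi.aestronglyMeasurable)]
    exact hBi.congr (Eventually.of_forall fun p => (Real.sq_sqrt (hB0 p)).symm)
  have m2 : MemLp (fun p => √(Phi e w g f p).re) 2 μ := by
    rw [memLp_two_iff_integrable_sq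
      (Real.continuous_sqrt.comp_aestronglyMeasurable iP'.aestronglyMeasurable)]
    exact iP'.congr (Eventually.of_forall fun p => (Real.sq_sqrt (key p).2).symm)
  have h5 : ∫ p, √(B p) * √(Phi e w g f p).re ∂μ ≤
      √(∫ p, B p ∂μ) * √(∫ p, (Phi e w g f p).re ∂μ) := by
    have h6 := integral_mul_le_Lp_mul_Lq_of_nonneg (μ := μ) (p := 2) (q := 2)
      Real.HolderConjugate.two_two (Eventually.of_forall fun p => Real.sqrt_nonneg (B p))
      (Eventually.of_forall fun p => Real.sqrt_nonneg (Phi e w g f p).re)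
      (by simpa using m1) (by simpa using m2)
    have e7 : ∀ p, √(B p) ^ (2 : ℝ) = B p := fun p => by
      rw [Real.rpow_two, Real.sq_sqrt (hB0 p)]
    have e8 : ∀ p, √(Phi e w g f p).re ^ (2 : ℝ) = (Phi e w g f p).re := fun p => by
      rw [Real.rpow_two, Real.sq_sqrt (key p).2]
    simp only [e7, e8] at h6
    rwa [← Real.sqrt_eq_rpow, ← Real.sqrt_eq_rpow] at h6
  have h6 : ∫ p, ‖act e (grd e g f) (fun p => (starRingEnd ℂ) (χ p)) p‖ ∂μ ≤
      ∫ p, √(B p) * √(Phi e w g f p).re ∂μ := by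
    refine integral_mono_of_nonneg (Eventually.of_forall fun p => norm_nonneg _)
      (m1.integrable_mul m2) (Eventually.of_forall fun p => ?_)
    change ‖act e (grd e g f) (fun p => (starRingEnd ℂ) (χ p)) p‖ ≤
      √(B p) * √(Phi e w g f p).re
    rw [← Real.sqrt_mul (hB0 p)]
    exact Real.le_sqrt_of_sq_le (key p).1
  rw [e1]
  calc ‖∫ p, act e (grd e g f) (fun p => (starRingEnd ℂ) (χ p)) p ∂μ‖
      ≤ ∫ p, ‖act e (grd e g f) (fun p => (starRingEnd ℂ) (χ p)) p‖ ∂μ :=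
        norm_integral_le_integral_norm _
    _ ≤ √(∫ p, B p ∂μ) * √(∫ p, (Phi e w g f p).re ∂μ) := h6.trans h5
    _ ≤ √(∫ p, B p ∂μ) * √(∫ p, ‖Lap e w g f p‖ ^ 2 ∂μ) :=
        mul_le_mul_of_nonneg_left (Real.sqrt_le_sqrt (hμ.bochner h s hK hKV z))
          (Real.sqrt_nonneg _)

end

end Pool.Agent.KRFQ
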