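import Pool.Agent.Work.MP_a2bf38_gt.Q.Gam

/-!
# `∂` and `∂bar` of a function with compact support (helper39)
-/

open scoped ContDiff Topology ComplexOrder Matrix
open Set MeasureTheory Filter Pool.Agent.ToricKRF Pool.Agent.ToricKRF.G Pool.Agent.KRFS

namespace Pool.Agent.KRFQ

/-! ### The chart -/

section

variable {n : ℕ}

/-- The entries of the inverse matrix. -/
noncomputable def ubd (g : Cn n → ℝ) (z : Cn n) : ℝ := ∑ j, ∑ k, ‖((Hm g z)ᵀ)⁻¹ j k‖

theorem gamc_re_le (g : Cn n → ℝ) (f : Cn n → ℂ) (z : Cn n) :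
    (gamc g f f z).re ≤ ubd g z * ∑ k, ‖dzb k f z‖ ^ 2 := by
  set S : ℝ := ∑ k, ‖dzb k f z‖ ^ 2 with hS
  have hle : ∀ k, ‖dzb k f z‖ ^ 2 ≤ S := fun k =>
    Finset.single_le_sum (f := fun k => ‖dzb k f z‖ ^ 2) (fun i _ => sq_nonneg _)
      (Finset.mem_univ k)
  have hprod : ∀ j k, ‖dzb k f z‖ * ‖dzb j f z‖ ≤ S := by
    intro j k
    have h1 := hle j
    have h2 := hle k
    nlinarith [sq_nonneg (‖dzb k f z‖ - ‖dzb j f z‖)]
  calc (gamc g f f z).re ≤ ‖gamc g f f z‖ := Complex.re_le_norm _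
    _ ≤ ∑ j, ‖gradv g f z j * (starRingEnd ℂ) (dzb j f z)‖ := norm_sum_le _ _
    _ ≤ ∑ j, ∑ k, ‖((Hm g z)ᵀ)⁻¹ j k‖ * S := by
        refine Finset.sum_le_sum fun j _ => ?_
        rw [norm_mul, RCLike.norm_conj, gradv]
        refine (mul_le_mul_of_nonneg_right (norm_sum_le _ _) (norm_nonneg _)).trans ?_
        rw [Finset.sum_mul]
        refine Finset.sum_le_sum fun k _ => ?_
        rw [norm_mul, mul_assoc]
        exact mul_le_mul_of_nonneg_left (hprod j k) (norm_nonneg _)
    _ = ubd g z * S := by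
        rw [ubd, Finset.sum_mul]
        exact Finset.sum_congr rfl fun j _ => by rw [Finset.sum_mul]

theorem ubd_nonneg (g : Cn n → ℝ) (z : Cn n) : 0 ≤ ubd g z :=
  Finset.sum_nonneg fun _ _ => Finset.sum_nonneg fun _ _ => norm_nonneg _

theorem continuousOn_ubd {g : Cn n → ℝ} {U : Set (Cn n)} (hU : IsOpen U)
    (hg : ContDiffOn ℝ ∞ g U) (hd : ∀ x ∈ U, (Hm g x).det ≠ 0) : ContinuousOn (ubd g) U := by
  unfold ubd
  refine continuousOn_finsetSum _ fun j _ => continuousOn_finsetSum _ fun k _ => ?_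
  refine ContinuousOn.norm (ContDiffOn.continuousOn (𝕜 := ℝ) (n := ∞) ?_)
  refine contDiffOn_inv (A := fun x => (Hm g x)ᵀ) (fun i l => ?_) (fun x hx => ?_) j k
  · exact contDiffOn_Hm hU hg l i
  · rw [Matrix.det_transpose]
    exact hd x hx

/-- The trace of the metric. -/
noncomputable def trm (g : Cn n → ℝ) (z : Cn n) : ℝ := ∑ k, (Hm g z k k).re

theorem continuousOn_trm {g : Cn n → ℝ} {U : Set (Cn n)} (hU : IsOpen U)
    (hg : ContDiffOn ℝ ∞ g U) : ContinuousOn (trm g) U := by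
  unfold trm
  refine continuousOn_finsetSum _ fun k _ => ?_
  exact Complex.continuous_re.comp_continuousOn (contDiffOn_Hm hU hg k k).continuousOn

end

/-! ### The manifold -/

section

variable {M : Type} [TopologicalSpace M] {n : ℕ} {κ : Type}
  {e : κ → OpenPartialHomeomorph M (Cn n)} {V : Set M} {w g : κ → Cn n → ℝ}

theorem L2D.gam_add_re_le (h : L2D e V w g) {f f' : M → ℂ} (hf : Sm e f) (hf' : Sm e f') (p : M) :
    (gam e g (fun q => f q + f' q) (fun q => f q + f' q) p).re ≤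
      2 * (gam e g f f p).re + 2 * (gam e g f' f' p).re := by
  have h1 : gam e g (fun q => f q + f' q) (fun q => f q + f' q) p =
      gam e g f f p + gam e g f f' p + (gam e g f' f p + gam e g f' f' p) := by
    rw [h.gam_add_left hf hf' (hf.add hf'), h.gam_add_right hf hf hf', h.gam_add_right hf' hf hf']
  have h2 : ‖gam e g f f' p‖ ≤ ((gam e g f f p).re + (gam e g f' f' p).re) / 2 := by
    have h3 := h.norm_gam_sq_le hf hf' p
    have h4 := h.gam_nonneg hf p
    have h5 := h.gam_nonneg hf' p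
    refine abs_le_of_sq_le_sq' ?_ (by positivity) |>.2
    nlinarith [sq_nonneg ((gam e g f f p).re - (gam e g f' f' p).re)]
  have h3 : (gam e g f f' p).re ≤ ‖gam e g f f' p‖ := Complex.re_le_norm _
  have h4 : (gam e g f' f p).re = (gam e g f f' p).re := by
    rw [← h.gam_conj hf hf' p, Complex.conj_re]
  rw [h1]
  simp only [Complex.add_re]
  rw [h4]
  linarith

theorem L2D.gam_mul_re_le (h : L2D e V w g) {χ f : M → ℂ} (hχ : Sm e χ) (hf : Sm e f) (p : M) :
    (gam e g (fun q => χ q * f q) (fun q => χ q * f q) p).re ≤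
      2 * ‖χ p‖ ^ 2 * (gam e g f f p).re + 2 * ‖f p‖ ^ 2 * (gam e g χ χ p).re := by
  have hm : Sm e (fun q => χ q * f q) := hχ.mul hf
  have h1 : gam e g (fun q => χ q * f q) (fun q => χ q * f q) p =
      (χ p * (starRingEnd ℂ) (χ p)) * gam e g f f p +
      (χ p * (starRingEnd ℂ) (f p) * gam e g f χ p +
        f p * (starRingEnd ℂ) (χ p) * gam e g χ f p) +
      (f p * (starRingEnd ℂ) (f p)) * gam e g χ χ p := by
    rw [h.gam_mul_left hχ hf hm, h.gam_mul_right hχ hf hf, h.gam_mul_right hχ hχ hf]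
    ring
  have e1 : ((χ p * (starRingEnd ℂ) (χ p)) * gam e g f f p).re = ‖χ p‖ ^ 2 * (gam e g f f p).re := by
    rw [Complex.mul_conj, Complex.re_ofReal_mul, Complex.normSq_eq_norm_sq]
  have e2 : ((f p * (starRingEnd ℂ) (f p)) * gam e g χ χ p).re = ‖f p‖ ^ 2 * (gam e g χ χ p).re := by
    rw [Complex.mul_conj, Complex.re_ofReal_mul, Complex.normSq_eq_norm_sq]
  have e3 : (χ p * (starRingEnd ℂ) (f p) * gam e g f χ p +
      f p * (starRingEnd ℂ) (χ p) * gam e g χ f p).re ≤
      2 * (‖χ p‖ * ‖f p‖ * ‖gam e g f χ p‖) := by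
    have h4 : gam e g χ f p = (starRingEnd ℂ) (gam e g f χ p) := (h.gam_conj hf hχ p).symm
    refine (Complex.re_le_norm _).trans ((norm_add_le _ _).trans ?_)
    rw [h4, norm_mul, norm_mul, norm_mul, norm_mul, RCLike.norm_conj, RCLike.norm_conj,
      RCLike.norm_conj]
    linarith [mul_comm ‖f p‖ ‖χ p‖]
  have h3 := h.norm_gam_sq_le hf hχ p
  have h4 := h.gam_nonneg hf p
  have h5 := h.gam_nonneg hχ p
  have h6 : 2 * (‖χ p‖ * ‖f p‖ * ‖gam e g f χ p‖) ≤
      ‖χ p‖ ^ 2 * (gam e g f f p).re + ‖f p‖ ^ 2 * (gam e g χ χ p).re := by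
    have h7 : (‖χ p‖ * ‖f p‖ * ‖gam e g f χ p‖) ^ 2 ≤
        (‖χ p‖ ^ 2 * (gam e g f f p).re) * (‖f p‖ ^ 2 * (gam e g χ χ p).re) := by
      calc (‖χ p‖ * ‖f p‖ * ‖gam e g f χ p‖) ^ 2 =
          (‖χ p‖ ^ 2 * ‖f p‖ ^ 2) * ‖gam e g f χ p‖ ^ 2 := by ring
        _ ≤ (‖χ p‖ ^ 2 * ‖f p‖ ^ 2) * ((gam e g f f p).re * (gam e g χ χ p).re) :=
            mul_le_mul_of_nonneg_left h3 (by positivity)
        _ = _ := by ring
    set a := ‖χ p‖ ^ 2 * (gam e g f f p).re with ha
    set b := ‖f p‖ ^ 2 * (gam e g χ χ p).re with hb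
    have ha0 : 0 ≤ a := by positivity
    have hb0 : 0 ≤ b := by positivity
    refine abs_le_of_sq_le_sq' ?_ (by positivity) |>.2
    nlinarith [sq_nonneg (a - b)]
  rw [h1, Complex.add_re, Complex.add_re, e1, e2]
  linarith

theorem L2D.gam_sum_re_le (h : L2D e V w g) {ι : Type*} (s : Finset ι) {F : ι → M → ℂ}
    (hF : ∀ i, Sm e (F i)) (p : M) :
    (gam e g (fun q => ∑ i ∈ s, F i q) (fun q => ∑ i ∈ s, F i q) p).re ≤
      2 ^ s.card * ∑ i ∈ s, (gam e g (F i) (F i) p).re := by
  classical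
  induction s using Finset.induction_on with
  | empty =>
      have hc0 : Sm e (fun _ : M => (0 : ℂ)) := Sm.const 0
      have h1 := h.gam_mul_left hc0 hc0 hc0 p
      simp only [mul_zero, zero_mul, add_zero] at h1
      simp [h1]
  | insert i s hi ih =>
      have hs : Sm e (fun q => ∑ i ∈ s, F i q) := Sm.sum fun i _ => hF i
      have h1 := h.gam_add_re_le (hF i) hs p
      simp only [Finset.sum_insert hi, Finset.card_insert_of_notMem hi]
      have h2 : 0 ≤ (gam e g (F i) (F i) p).re := h.gam_nonneg (hF i) p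
      have h3 : (1 : ℝ) ≤ 2 ^ s.card := one_le_pow₀ (by norm_num)
      calc (gam e g (fun q => F i q + ∑ i ∈ s, F i q) (fun q => F i q + ∑ i ∈ s, F i q) p).re
          ≤ 2 * (gam e g (F i) (F i) p).re +
            2 * (gam e g (fun q => ∑ i ∈ s, F i q) (fun q => ∑ i ∈ s, F i q) p).re := h1
        _ ≤ 2 * (gam e g (F i) (F i) p).re +
            2 * (2 ^ s.card * ∑ i ∈ s, (gam e g (F i) (F i) p).re) := by linarith
        _ ≤ 2 ^ (s.card + 1) * ((gam e g (F i) (F i) p).re +
            ∑ i ∈ s, (gam e g (F i) (F i) p).re) := by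
            rw [pow_succ]
            nlinarith

section

variable [MeasurableSpace M] [BorelSpace M] {μ : Measure M}

theorem IsDens.integrable_Sm [T2Space M] (hμ : IsDens e w μ) (h : L2D e V w g) {F : M → ℂ}
    (hF : Sm e F) {K : Set M} (hK : IsCompact K) (hKV : K ⊆ V) (h0 : ∀ p ∉ K, F p = 0) :
    Integrable F μ :=
  hμ.integrable h hK hKV (Sm.continuous (V := V) h.cover hF
    ((tsupport_sub_of_compact hK h0).trans hKV)) h0

theorem IsDens.integrable_gam_re [T2Space M] (hμ : IsDens e w μ) (h : L2D e V w g) {f : M → ℂ}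
    (hf : Sm e f) {K : Set M} (hK : IsCompact K) (hKV : K ⊆ V) (h0 : ∀ p ∉ K, f p = 0) :
    Integrable (fun p => (gam e g f f p).re) μ :=
  (hμ.integrable_Sm h (h.Sm_gam hf hf) hK hKV (h.gam_zero hf hf hK (Or.inl h0))).re

theorem IsDens.integrable_norm_sq [T2Space M] (hμ : IsDens e w μ) (h : L2D e V w g) {f : M → ℂ}
    (hf : Sm e f) {K : Set M} (hK : IsCompact K) (hKV : K ⊆ V) (h0 : ∀ p ∉ K, f p = 0) :
    Integrable (fun p => ‖f p‖ ^ 2) μ := by
  have h1 := (hμ.integrable_Sm h (hf.mul hf.conj) hK hKV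
    (fun p hp => by rw [h0 p hp, zero_mul])).re
  refine h1.congr (Eventually.of_forall fun p => ?_)
  change (f p * (starRingEnd ℂ) (f p)).re = ‖f p‖ ^ 2
  rw [Complex.mul_conj, Complex.ofReal_re, Complex.normSq_eq_norm_sq]

/-- The integral of the gradient form in a chart. -/
theorem IsDens.integral_gam_chart [T2Space M] (hμ : IsDens e w μ) (h : L2D e V w g) {c : κ}
    {K : Set M} (hK : IsCompact K) (hKs : K ⊆ (e c).source) {F : M → ℂ} (hF : Sm e F)
    (h0 : ∀ p ∉ K, F p = 0) :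
    ∫ p, (gam e g F F p).re ∂μ =
      ∫ z in (e c).target, w c z * (gamc (g c) (pb e c F) (pb e c F) z).re := by
  have hKV : K ⊆ V := hKs.trans (h.sub c)
  have hg0 := h.gam_zero hF hF hK (Or.inl h0)
  have hc : Continuous (gam e g F F) := Sm.continuous (V := V) h.cover (h.Sm_gam hF hF)
    ((tsupport_sub_of_compact hK hg0).trans hKV)
  have hi : Integrable (gam e g F F) μ := hμ.integrable h hK hKV hc hg0
  have e1 : ∫ p, (gam e g F F p).re ∂μ = (∫ p, gam e g F F p ∂μ).re := by
    have := integral_re hi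
    simpa only [RCLike.re_to_complex] using this
  have hcs : ∀ p ∉ (e c).source, gam e g F F p = 0 := fun p hp => hg0 p fun hm => hp (hKs hm)
  have hi2 : IntegrableOn (fun z => (w c z : ℂ) * pb e c (gam e g F F) z) (e c).target :=
    (hμ.integrableOn_chart h hc.aestronglyMeasurable).1 hi.integrableOn
  rw [e1, hμ.integral_eq h hc hcs]
  have e2 := integral_re hi2
  simp only [RCLike.re_to_complex] at e2
  rw [← e2]
  refine setIntegral_congr_fun (e c).open_target.measurableSet fun z hz => ?_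
  simp only [Complex.re_ofReal_mul]
  rw [h.pb_gam hF hF hz]

/-- The estimate in a chart. -/
theorem IsDens.chart_N [T2Space M] (hμ : IsDens e w μ) (h : L2D e V w g) {c : κ}
    {K : Set M} (hK : IsCompact K) (hKs : K ⊆ (e c).source) :
    ∃ C, 0 ≤ C ∧ ∀ F : M → ℂ, Sm e F → (∀ p ∉ K, F p = 0) →
      ∫ p, (gam e g (fun q => (starRingEnd ℂ) (F q)) (fun q => (starRingEnd ℂ) (F q)) p).re ∂μ ≤
        C * ∫ p, (gam e g F F p).re ∂μ := by
  set L : Set (Cn n) := e c '' K with hL
  have hLc : IsCompact L := hK.image_of_continuousOn ((e c).continuousOn.mono hKs)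
  have hLt : L ⊆ (e c).target := by
    rintro z ⟨p, hp, rfl⟩
    exact (e c).map_source (hKs hp)
  have hdet : ∀ x ∈ (e c).target, (Hm (g c) x).det ≠ 0 := fun x hx => h.det_ne c hx
  -- the upper bound
  have hc1 : ContinuousOn (fun z => w c z * ubd (g c) z) L :=
    ((h.w_smooth c).continuousOn.mul
      (continuousOn_ubd (e c).open_target (h.g_smooth c) hdet)).mono hLt
  obtain ⟨A, hA⟩ := hLc.exists_bound_of_continuousOn hc1
  have hc2 : ContinuousOn (fun z => trm (g c) z / w c z) L :=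
    ((continuousOn_trm (e c).open_target (h.g_smooth c)).div (h.w_smooth c).continuousOn
      fun z hz => (h.w_pos c z hz).ne').mono hLt
  obtain ⟨B, hB⟩ := hLc.exists_bound_of_continuousOn hc2
  refine ⟨|A| * |B|, by positivity, fun F hF h0 => ?_⟩
  obtain ⟨η, hη, hηc, hηt, hηL, hη1, hη2⟩ := exists_ext hF hK hKs h0
  have hFc : Sm e (fun q => (starRingEnd ℂ) (F q)) := hF.conj
  have h0c : ∀ p ∉ K, (starRingEnd ℂ) (F p) = 0 := fun p hp => by rw [h0 p hp, map_zero]
  rw [hμ.integral_gam_chart h hK hKs hFc h0c, hμ.integral_gam_chart h hK hKs hF h0]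
  -- the derivatives
  have hnear : ∀ z ∈ (e c).target, pb e c F =ᶠ[𝓝 z] η := fun z hz => by
    filter_upwards [(e c).open_target.mem_nhds hz] with x hx using (hη1 x hx).symm
  have hdb : ∀ z ∈ (e c).target, ∀ k, dzb k (pb e c F) z = dzb k η z := fun z hz k =>
    dzb_congr (hnear z hz) k
  have hdbc : ∀ z ∈ (e c).target, ∀ k,
      ‖dzb k (pb e c fun q => (starRingEnd ℂ) (F q)) z‖ = ‖dz k η z‖ := by
    intro z hz k
    have h1 : dzb k (fun x => (starRingEnd ℂ) (pb e c F x)) z =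
        (starRingEnd ℂ) (dz k (pb e c F) z) :=
      dzb_conj (diffAtC (e c).open_target (hF c) hz) k
    have h2 : dz k (pb e c F) z = dz k η z := dz_congr (hnear z hz) k
    change ‖dzb k (fun x => (starRingEnd ℂ) (pb e c F x)) z‖ = _
    rw [h1, RCLike.norm_conj, h2]
  have hmt : MeasurableSet (e c).target := (e c).open_target.measurableSet
  -- integrability in the chart
  have idz : ∀ k, Integrable (fun x => ‖dz k η x‖ ^ 2) := by
    intro k
    have hs : HasCompactSupport (dz k η) :=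
      hηc.mono' ((subset_tsupport _).trans (tsupport_dz_subset k η))
    have hs2 : HasCompactSupport (fun x => ‖dz k η x‖ ^ 2) :=
      hs.comp_left (g := fun y : ℂ => ‖y‖ ^ 2) (by simp)
    have hcn : Continuous (fun x => ‖dz k η x‖ ^ 2) := (contDiff_dz hη k).continuous.norm.pow 2
    exact hcn.integrable_of_hasCompactSupport hs2
  have idzb : ∀ k, Integrable (fun x => ‖dzb k η x‖ ^ 2) := by
    intro k
    have hs : HasCompactSupport (dzb k η) :=
      hηc.mono' ((subset_tsupport _).trans (tsupport_dzb_subset k η))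
    have hs2 : HasCompactSupport (fun x => ‖dzb k η x‖ ^ 2) :=
      hs.comp_left (g := fun y : ℂ => ‖y‖ ^ 2) (by simp)
    have hcn : Continuous (fun x => ‖dzb k η x‖ ^ 2) := (contDiff_dzb hη k).continuous.norm.pow 2
    exact hcn.integrable_of_hasCompactSupport hs2
  have hKV : K ⊆ V := hKs.trans (h.sub c)
  have igam : IntegrableOn (fun z => w c z * (gamc (g c) (pb e c F) (pb e c F) z).re)
      (e c).target := by
    have hg0 := h.gam_zero hF hF hK (Or.inl h0)
    have hc : Continuous (gam e g F F) := Sm.continuous (V := V) h.cover (h.Sm_gam hF hF)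
      ((tsupport_sub_of_compact hK hg0).trans hKV)
    have hi : Integrable (gam e g F F) μ := hμ.integrable h hK hKV hc hg0
    have hi2 : IntegrableOn (fun z => (w c z : ℂ) * pb e c (gam e g F F) z) (e c).target :=
      (hμ.integrableOn_chart h hc.aestronglyMeasurable).1 hi.integrableOn
    refine (IntegrableOn.congr_fun hi2.re (fun z hz => ?_) hmt)
    simp only [RCLike.re_to_complex, Complex.re_ofReal_mul]
    rw [h.pb_gam hF hF hz]
  -- first step
  have s1 : ∫ z in (e c).target, w c z * (gamc (g c) (pb e c fun q => (starRingEnd ℂ) (F q))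
      (pb e c fun q => (starRingEnd ℂ) (F q)) z).re ≤ ∫ z, |A| * ∑ k, ‖dz k η z‖ ^ 2 := by
    have i1 : Integrable (fun z => |A| * ∑ k, ‖dz k η z‖ ^ 2) :=
      (integrable_finsetSum _ fun k _ => idz k).const_mul _
    have p1 : ∀ z ∈ (e c).target, w c z * (gamc (g c) (pb e c fun q => (starRingEnd ℂ) (F q))
        (pb e c fun q => (starRingEnd ℂ) (F q)) z).re ≤ |A| * ∑ k, ‖dz k η z‖ ^ 2 := by
      intro z hz
      have h1 := gamc_re_le (g c) (pb e c fun q => (starRingEnd ℂ) (F q)) z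
      simp only [hdbc z hz] at h1
      by_cases hzL : z ∈ L
      · have h2 := hA z hzL
        rw [Real.norm_eq_abs] at h2
        have h3 : w c z * ubd (g c) z ≤ |A| :=
          (le_abs_self _).trans (h2.trans (le_abs_self _))
        have hS : 0 ≤ ∑ k, ‖dz k η z‖ ^ 2 := Finset.sum_nonneg fun _ _ => sq_nonneg _
        calc _ ≤ w c z * (ubd (g c) z * ∑ k, ‖dz k η z‖ ^ 2) :=
              mul_le_mul_of_nonneg_left h1 (h.w_pos c z hz).le
          _ = (w c z * ubd (g c) z) * ∑ k, ‖dz k η z‖ ^ 2 := by ring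
          _ ≤ _ := mul_le_mul_of_nonneg_right h3 hS
      · have h2 : ∀ k, dz k η z = 0 := fun k => dz_of_notMem (fun hm => hzL (hηL hm)) k
        simp only [h2] at h1 ⊢
        simp only [norm_zero, ne_eq, OfNat.ofNat_ne_zero, not_false_eq_true, zero_pow,
          Finset.sum_const_zero, mul_zero] at h1 ⊢
        exact mul_nonpos_of_nonneg_of_nonpos (h.w_pos c z hz).le h1
    have n1 : ∀ z ∈ (e c).target, 0 ≤ w c z * (gamc (g c) (pb e c fun q => (starRingEnd ℂ) (F q))
        (pb e c fun q => (starRingEnd ℂ) (F q)) z).re := fun z hz =>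
      mul_nonneg (h.w_pos c z hz).le (gamc_self_nonneg (h.posDef c hz) _)
    calc _ ≤ ∫ z in (e c).target, |A| * ∑ k, ‖dz k η z‖ ^ 2 := by
          refine integral_mono_of_nonneg ?_ i1.integrableOn ?_
          · exact (ae_restrict_iff' hmt).2 (Eventually.of_forall n1)
          · exact (ae_restrict_iff' hmt).2 (Eventually.of_forall p1)
      _ ≤ _ := setIntegral_le_integral i1 (Eventually.of_forall fun z =>
          mul_nonneg (abs_nonneg _) (Finset.sum_nonneg fun _ _ => sq_nonneg _))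
  -- second step
  have s2 : ∫ z, |A| * ∑ k, ‖dz k η z‖ ^ 2 = |A| * ∑ k, ∫ z, ‖dzb k η z‖ ^ 2 := by
    rw [integral_const_mul, integral_finsetSum _ fun k _ => idz k]
    congr 1
    exact Finset.sum_congr rfl fun k _ => integral_norm_dz_sq hη hηc k
  have s3 : ∑ k, ∫ z, ‖dzb k η z‖ ^ 2 ≤
      |B| * ∫ z in (e c).target, w c z * (gamc (g c) (pb e c F) (pb e c F) z).re := by
    rw [← integral_finsetSum _ fun k _ => idzb k, ← integral_const_mul]
    rw [← setIntegral_eq_integral_of_forall_compl_eq_zero (s := (e c).target)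
      (f := fun z => ∑ k, ‖dzb k η z‖ ^ 2) (fun z hz => by
        refine Finset.sum_eq_zero fun k _ => ?_
        rw [dzb_of_notMem (fun hm => hz (hηt hm)), norm_zero]
        norm_num)]
    refine setIntegral_mono_on (integrable_finsetSum _ fun k _ => idzb k).integrableOn
      (igam.const_mul _) hmt fun z hz => ?_
    have h1 := sum_dzb_le (h.posDef c hz) (pb e c F)
    simp only [hdb z hz] at h1
    by_cases hzL : z ∈ L
    · have h2 := hB z hzL
      rw [Real.norm_eq_abs] at h2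
      have hw := h.w_pos c z hz
      have h3 : trm (g c) z ≤ |B| * w c z := by
        have h4 : trm (g c) z / w c z ≤ |B| := (le_abs_self _).trans (h2.trans (le_abs_self _))
        rwa [div_le_iff₀ hw] at h4
      have h5 := gamc_self_nonneg (h.posDef c hz) (pb e c F)
      calc _ ≤ trm (g c) z * (gamc (g c) (pb e c F) (pb e c F) z).re := h1
        _ ≤ (|B| * w c z) * (gamc (g c) (pb e c F) (pb e c F) z).re :=
            mul_le_mul_of_nonneg_right h3 h5
        _ = _ := by ring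
    · have h2 : ∀ k, dzb k η z = 0 := fun k => dzb_of_notMem (fun hm => hzL (hηL hm)) k
      have h5 := gamc_self_nonneg (h.posDef c hz) (pb e c F)
      have hw := (h.w_pos c z hz).le
      simp only [h2, norm_zero, ne_eq, OfNat.ofNat_ne_zero, not_false_eq_true, zero_pow,
        Finset.sum_const_zero]
      exact mul_nonneg (abs_nonneg _) (mul_nonneg hw h5)
  calc _ ≤ _ := s1
    _ = _ := s2
    _ ≤ |A| * (|B| * ∫ z in (e c).target, w c z * (gamc (g c) (pb e c F) (pb e c F) z).re) :=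
        mul_le_mul_of_nonneg_left s3 (abs_nonneg _)
    _ = _ := by ring

/-- **Lemma N** -/
theorem IsDens.lemN [T2Space M] (hμ : IsDens e w μ) (h : L2D e V w g) {K : Set M}
    (hK : IsCompact K) (hKV : K ⊆ V) :
    ∃ C, 0 ≤ C ∧ ∀ f : M → ℂ, Sm e f → (∀ p ∉ K, f p = 0) →
      ∫ p, (gam e g (fun q => (starRingEnd ℂ) (f q)) (fun q => (starRingEnd ℂ) (f q)) p).re ∂μ ≤
        C * (∫ p, ‖f p‖ ^ 2 ∂μ + ∫ p, (gam e g f f p).re ∂μ) := by
  classical
  obtain ⟨s, c, ζ, O, hO, hKO, hζ, hsum⟩ := exists_partition h.holo hK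
    (fun p hp => h.cover p (hKV hp))
  set Z : K → M → ℂ := fun i p => (ζ i p : ℂ) with hZ
  have hZs : ∀ i, Sm e (Z i) := fun i c' => contDiffOn_ofReal ((hζ i).1 c')
  choose K' hK' hK's hz using fun i => (hζ i).2.2
  have hZ0 : ∀ i, ∀ p ∉ K' i, Z i p = 0 := fun i p hp => by
    simp only [hZ, hz i p hp, Complex.ofReal_zero]
  choose C hC0 hC using fun i => hμ.chart_N h (hK' i) (hK's i)
  -- bounds for the cut-offs
  have hK'V : ∀ i, K' i ⊆ V := fun i => (hK's i).trans (h.sub _)
  have hZc : ∀ i, Continuous (Z i) := fun i => Sm.continuous (V := V) h.cover (hZs i)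
    ((tsupport_sub_of_compact (hK' i) (hZ0 i)).trans (hK'V i))
  have hG0 : ∀ i, ∀ p ∉ K' i, gam e g (Z i) (Z i) p = 0 := fun i =>
    h.gam_zero (hZs i) (hZs i) (hK' i) (Or.inl (hZ0 i))
  have hGc : ∀ i, Continuous (gam e g (Z i) (Z i)) := fun i => Sm.continuous (V := V) h.cover
    (h.Sm_gam (hZs i) (hZs i)) ((tsupport_sub_of_compact (hK' i) (hG0 i)).trans (hK'V i))
  have hb : ∀ i, ∃ B : ℝ, 0 ≤ B ∧ (∀ p, ‖Z i p‖ ^ 2 ≤ B) ∧ ∀ p, (gam e g (Z i) (Z i) p).re ≤ B := by
    intro i
    obtain ⟨B₁, h1⟩ := (hK' i).exists_bound_of_continuousOn ((hZc i).norm.pow 2).continuousOn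
    obtain ⟨B₂, h2⟩ := (hK' i).exists_bound_of_continuousOn (hGc i).continuousOn
    refine ⟨|B₁| + |B₂|, by positivity, fun p => ?_, fun p => ?_⟩
    · by_cases hp : p ∈ K' i
      · have h3 := h1 p hp
        rw [Real.norm_eq_abs] at h3
        have h4 := (le_abs_self (‖Z i p‖ ^ 2)).trans (h3.trans (le_abs_self B₁))
        have h5 := abs_nonneg B₂
        linarith
      · have h3 : (0 : ℝ) ^ 2 = 0 := by norm_num
        rw [hZ0 i p hp, norm_zero, h3]
        positivity
    · by_cases hp : p ∈ K' i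
      · have h3 := (Complex.re_le_norm _).trans ((h2 p hp).trans (le_abs_self B₂))
        have h5 := abs_nonneg B₁
        linarith
      · rw [hG0 i p hp, Complex.zero_re]
        positivity
  choose B hB0 hB1 hB2 using hb
  refine ⟨2 ^ s.card * ∑ i ∈ s, C i * (2 * B i), by
    exact mul_nonneg (by positivity) (Finset.sum_nonneg fun i _ => mul_nonneg (hC0 i)
      (mul_nonneg (by norm_num) (hB0 i))), fun f hf h0 => ?_⟩
  -- the pieces
  set F : K → M → ℂ := fun i p => Z i p * f p with hFdef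
  have hFs : ∀ i, Sm e (F i) := fun i => (hZs i).mul hf
  have hF0 : ∀ i, ∀ p ∉ K' i, F i p = 0 := fun i p hp => by
    simp only [hFdef, hZ0 i p hp, zero_mul]
  have hF0' : ∀ i, ∀ p ∉ K, F i p = 0 := fun i p hp => by
    simp only [hFdef, h0 p hp, mul_zero]
  set G : K → M → ℂ := fun i p => (starRingEnd ℂ) (F i p) with hGdef
  have hGs : ∀ i, Sm e (G i) := fun i => (hFs i).conj
  have hG0' : ∀ i, ∀ p ∉ K, G i p = 0 := fun i p hp => by
    simp only [hGdef, hF0' i p hp, map_zero]
  have hfc : (fun q => (starRingEnd ℂ) (f q)) = fun q => ∑ i ∈ s, G i q := by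
    funext q
    by_cases hq : q ∈ K
    · simp only [hGdef, hFdef]
      rw [← map_sum, ← Finset.sum_mul]
      have h1 : ∑ i ∈ s, Z i q = 1 := by
        simp only [hZ]
        rw [← Complex.ofReal_sum, hsum q (hKO hq), Complex.ofReal_one]
      rw [h1, one_mul]
    · rw [h0 q hq, map_zero]
      exact (Finset.sum_eq_zero fun i _ => hG0' i q hq).symm
  have iG : ∀ i, Integrable (fun p => (gam e g (G i) (G i) p).re) μ := fun i =>
    hμ.integrable_gam_re h (hGs i) hK hKV (hG0' i)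
  have iF : ∀ i, Integrable (fun p => (gam e g (F i) (F i) p).re) μ := fun i =>
    hμ.integrable_gam_re h (hFs i) hK hKV (hF0' i)
  have i1 := hμ.integrable_norm_sq h hf hK hKV h0
  have i2 := hμ.integrable_gam_re h hf hK hKV h0
  have hS : Sm e (fun q => ∑ i ∈ s, G i q) := Sm.sum fun i _ => hGs i
  have step1 : ∫ p, (gam e g (fun q => (starRingEnd ℂ) (f q))
      (fun q => (starRingEnd ℂ) (f q)) p).re ∂μ ≤
      2 ^ s.card * ∑ i ∈ s, ∫ p, (gam e g (G i) (G i) p).re ∂μ := by
    rw [hfc, ← integral_finsetSum _ fun i _ => iG i, ← integral_const_mul]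
    refine integral_mono (hμ.integrable_gam_re h hS hK hKV fun p hp =>
      Finset.sum_eq_zero fun i _ => hG0' i p hp)
      ((integrable_finsetSum _ fun i _ => iG i).const_mul _) fun p => ?_
    exact h.gam_sum_re_le s hGs p
  have step2 : ∀ i, ∫ p, (gam e g (G i) (G i) p).re ∂μ ≤
      C i * ∫ p, (gam e g (F i) (F i) p).re ∂μ := fun i => hC i (F i) (hFs i) (hF0 i)
  have step3 : ∀ i, ∫ p, (gam e g (F i) (F i) p).re ∂μ ≤
      2 * B i * (∫ p, ‖f p‖ ^ 2 ∂μ + ∫ p, (gam e g f f p).re ∂μ) := by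
    intro i
    rw [← integral_add i1 i2, ← integral_const_mul]
    refine integral_mono (iF i) ((i1.add i2).const_mul _) fun p => ?_
    have h1 := h.gam_mul_re_le (hZs i) hf p
    have h2 := h.gam_nonneg hf p
    have h3 := hB1 i p
    have h4 := hB2 i p
    have h5 : ‖Z i p‖ ^ 2 * (gam e g f f p).re ≤ B i * (gam e g f f p).re :=
      mul_le_mul_of_nonneg_right h3 h2
    have h6 : ‖f p‖ ^ 2 * (gam e g (Z i) (Z i) p).re ≤ ‖f p‖ ^ 2 * B i :=
      mul_le_mul_of_nonneg_left h4 (sq_nonneg _)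
    change (gam e g (fun q => Z i q * f q) (fun q => Z i q * f q) p).re ≤
      2 * B i * (‖f p‖ ^ 2 + (gam e g f f p).re)
    nlinarith
  have hE : 0 ≤ ∫ p, ‖f p‖ ^ 2 ∂μ + ∫ p, (gam e g f f p).re ∂μ :=
    add_nonneg (integral_nonneg fun p => sq_nonneg _) (integral_nonneg fun p => h.gam_nonneg hf p)
  calc _ ≤ _ := step1
    _ ≤ 2 ^ s.card * ∑ i ∈ s, C i * (2 * B i * (∫ p, ‖f p‖ ^ 2 ∂μ +
        ∫ p, (gam e g f f p).re ∂μ)) := by
        refine mul_le_mul_of_nonneg_left (Finset.sum_le_sum fun i _ => ?_) (by positivity)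
        exact (step2 i).trans (mul_le_mul_of_nonneg_left (step3 i) (hC0 i))
    _ = _ := by
        rw [mul_assoc, Finset.sum_mul]
        congr 1
        exact Finset.sum_congr rfl fun i _ => by ring

end

end

end Pool.Agent.KRFQ
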