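import Pool.Agent.Work.MP_a2bf38_gt.Q.RegL
import Pool.Agent.Work.MP_a2bf38_gt.Q.RegN
import Pool.Agent.Work.MP_a2bf38_gt.Q.LapLin

/-!
# Smooth approximation of weakly harmonic functions (helper86)
-/

open scoped ContDiff Topology ComplexOrder Matrix
open Set MeasureTheory Filter Pool.Agent.ToricKRF Pool.Agent.ToricKRF.G Pool.Agent.KRFS

namespace Pool.Agent.KRFQ

/-- the Cauchy-Schwarz inequality for integrals -/
theorem norm_integral_conj_le {α : Type*} [MeasurableSpace α] {μ : Measure α} {A B : α → ℂ}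
    (hA : MemLp A 2 μ) (hB : MemLp B 2 μ) :
    ‖∫ x, A x * (starRingEnd ℂ) (B x) ∂μ‖ ≤ √(∫ x, ‖A x‖ ^ 2 ∂μ) * √(∫ x, ‖B x‖ ^ 2 ∂μ) := by
  have h2 : ENNReal.ofReal 2 = 2 := by norm_num
  have h1 := integral_mul_norm_le_Lp_mul_Lq (μ := μ) (f := A) (g := B) (p := 2) (q := 2)
    ⟨by norm_num, by norm_num, by norm_num⟩ (by rwa [h2]) (by rwa [h2])
  have h3 : ∀ F : α → ℂ, (∫ x, ‖F x‖ ^ (2 : ℝ) ∂μ) ^ (1 / (2 : ℝ)) = √(∫ x, ‖F x‖ ^ 2 ∂μ) := by
    intro F
    rw [Real.sqrt_eq_rpow]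
    congr 1
    refine integral_congr_ae (Eventually.of_forall fun x => ?_)
    simp
  rw [h3, h3] at h1
  refine (norm_integral_le_integral_norm _).trans (le_trans (le_of_eq ?_) h1)
  refine integral_congr_ae (Eventually.of_forall fun x => ?_)
  simp only [norm_mul, RCLike.norm_conj]

theorem integral_lin2 {α : Type*} [MeasurableSpace α] {μ : Measure α} {F G : α → ℝ}
    (hF : Integrable F μ) (hG : Integrable G μ) (a b : ℝ) :
    ∫ x, (a * F x + b * G x) ∂μ = a * ∫ x, F x ∂μ + b * ∫ x, G x ∂μ := by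
  rw [integral_add (hF.const_mul a) (hG.const_mul b), integral_const_mul, integral_const_mul]

theorem integral_lin3 {α : Type*} [MeasurableSpace α] {μ : Measure α} {F G H : α → ℝ}
    (hF : Integrable F μ) (hG : Integrable G μ) (hH : Integrable H μ) (a b c : ℝ) :
    ∫ x, (a * F x + b * G x + c * H x) ∂μ =
      a * ∫ x, F x ∂μ + b * ∫ x, G x ∂μ + c * ∫ x, H x ∂μ := by
  have h1 : Integrable (fun x => a * F x + b * G x) μ := (hF.const_mul a).add (hG.const_mul b)
  rw [integral_add h1 (hH.const_mul c), integral_lin2 hF hG, integral_const_mul]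

variable {M : Type} [TopologicalSpace M] {n : ℕ} {κ : Type}
  {e : κ → OpenPartialHomeomorph M (Cn n)} {V : Set M} {w g : κ → Cn n → ℝ}

theorem Sm.continuousOn' {f : M → ℂ} (hf : Sm e f) (hc : ∀ p ∈ V, ∃ c, p ∈ (e c).source)
    {K : Set M} (hKV : K ⊆ V) : ContinuousOn f K := by
  intro p hp
  obtain ⟨c, hcp⟩ := hc p (hKV hp)
  exact (hf.continuousAt hcp).continuousWithinAt

/-- the commutator of the Laplacian with a cutoff -/
noncomputable def cmt (e : κ → OpenPartialHomeomorph M (Cn n)) (w g : κ → Cn n → ℝ)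
    (χ f : M → ℂ) (p : M) : ℂ :=
  Lap e w g (fun q => χ q * f q) p - χ p * Lap e w g f p

theorem L2D.cmt_eq (h : L2D e V w g) {χ f : M → ℂ} (hχ : Sm e χ)
    (hr : ∀ p, (starRingEnd ℂ) (χ p) = χ p) (hf : Sm e f) (p : M) :
    cmt e w g χ f p = f p * Lap e w g χ p - gam e g f χ p -
      gam e g χ (fun q => (starRingEnd ℂ) (f q)) p := by
  have h1 : (fun q => (starRingEnd ℂ) (χ q)) = χ := funext hr
  rw [cmt, h.Lap_mul hχ hf, h1]
  ring

theorem L2D.Sm_cmt (h : L2D e V w g) {χ f : M → ℂ} (hχ : Sm e χ) (hf : Sm e f) :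
    Sm e (cmt e w g χ f) := (h.Sm_Lap (hχ.mul hf)).sub (hχ.mul (h.Sm_Lap hf))

theorem L2D.cmt_zero [T2Space M] (h : L2D e V w g) {χ f : M → ℂ} (hχ : Sm e χ) (hf : Sm e f)
    {K : Set M} (hK : IsCompact K) (h0 : ∀ p ∉ K, f p = 0) :
    ∀ p ∉ K, cmt e w g χ f p = 0 := by
  intro p hp
  rw [cmt, h.Lap_zero (hχ.mul hf) hK (fun q hq => by rw [h0 q hq, mul_zero]) p hp,
    h.Lap_zero hf hK h0 p hp, mul_zero, sub_zero]

theorem L2D.cmt_zero' [T2Space M] (h : L2D e V w g) {χ f : M → ℂ} (hχ : Sm e χ) (hf : Sm e f)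
    {K : Set M} (hK : IsCompact K) (h0 : ∀ p ∉ K, χ p = 0) :
    ∀ p ∉ K, cmt e w g χ f p = 0 := by
  intro p hp
  rw [cmt, h.Lap_zero (hχ.mul hf) hK (fun q hq => by rw [h0 q hq, zero_mul]) p hp,
    h0 p hp, zero_mul, sub_zero]

theorem L2D.norm_gam_self (h : L2D e V w g) {f : M → ℂ} (hf : Sm e f) (p : M) :
    ‖gam e g f f p‖ = (gam e g f f p).re := by
  conv_lhs => rw [h.gam_self hf p]
  rw [Complex.norm_real, Real.norm_eq_abs, abs_of_nonneg (h.gam_nonneg hf p)]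

/-- the gradient form of a product -/
theorem L2D.gam_mul_self_le (h : L2D e V w g) {χ f : M → ℂ} (hχ : Sm e χ) (hf : Sm e f) (p : M) :
    (gam e g (fun q => χ q * f q) (fun q => χ q * f q) p).re ≤
      2 * (‖χ p‖ ^ 2 * (gam e g f f p).re + ‖f p‖ ^ 2 * (gam e g χ χ p).re) := by
  have h1 : gam e g (fun q => χ q * f q) (fun q => χ q * f q) p =
      χ p * ((starRingEnd ℂ) (χ p) * gam e g f f p + (starRingEnd ℂ) (f p) * gam e g f χ p) +
      f p * ((starRingEnd ℂ) (χ p) * gam e g χ f p + (starRingEnd ℂ) (f p) * gam e g χ χ p) := by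
    rw [h.gam_mul_left hχ hf (hχ.mul hf), h.gam_mul_right hχ hf hf, h.gam_mul_right hχ hχ hf]
  set a := √(gam e g f f p).re with ha
  set b := √(gam e g χ χ p).re with hb
  have ha0 : 0 ≤ a := Real.sqrt_nonneg _
  have hb0 : 0 ≤ b := Real.sqrt_nonneg _
  have ha2 : (gam e g f f p).re = a ^ 2 := (Real.sq_sqrt (h.gam_nonneg hf p)).symm
  have hb2 : (gam e g χ χ p).re = b ^ 2 := (Real.sq_sqrt (h.gam_nonneg hχ p)).symm
  have n1 : ‖gam e g f f p‖ = a ^ 2 := by rw [h.norm_gam_self hf, ha2]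
  have n2 : ‖gam e g χ χ p‖ = b ^ 2 := by rw [h.norm_gam_self hχ, hb2]
  have n3 : ‖gam e g f χ p‖ ≤ a * b := h.norm_gam_le hf hχ p
  have n4 : ‖gam e g χ f p‖ ≤ b * a := h.norm_gam_le hχ hf p
  have hx : 0 ≤ ‖χ p‖ := norm_nonneg _
  have hy : 0 ≤ ‖f p‖ := norm_nonneg _
  have h2 : ‖gam e g (fun q => χ q * f q) (fun q => χ q * f q) p‖ ≤
      ‖χ p‖ * (‖χ p‖ * a ^ 2 + ‖f p‖ * (a * b)) + ‖f p‖ * (‖χ p‖ * (b * a) + ‖f p‖ * b ^ 2) := by
    rw [h1]
    refine (norm_add_le _ _).trans ?_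
    rw [norm_mul, norm_mul]
    refine add_le_add (mul_le_mul_of_nonneg_left ((norm_add_le _ _).trans ?_) hx)
      (mul_le_mul_of_nonneg_left ((norm_add_le _ _).trans ?_) hy)
    · rw [norm_mul, norm_mul, RCLike.norm_conj, RCLike.norm_conj, n1]
      gcongr
    · rw [norm_mul, norm_mul, RCLike.norm_conj, RCLike.norm_conj, n2]
      gcongr
  refine (Complex.re_le_norm _).trans (h2.trans ?_)
  rw [ha2, hb2]
  nlinarith [sq_nonneg (‖χ p‖ * a - ‖f p‖ * b)]

section

variable [MeasurableSpace M] [BorelSpace M] {μ : Measure M}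

theorem IsDens.int_gam [T2Space M] (hμ : IsDens e w μ) (h : L2D e V w g) {f f' : M → ℂ}
    (hf : Sm e f) (hf' : Sm e f') {K : Set M} (hK : IsCompact K) (hKV : K ⊆ V)
    (h0 : ∀ p ∉ K, f p = 0) : Integrable (fun p => (gam e g f f' p).re) μ := by
  have h3 := h.gam_zero hf hf' hK (Or.inl h0)
  have h4 : Integrable (gam e g f f') μ := hμ.integrable h hK hKV ((h.Sm_gam hf hf').continuous
    h.cover ((tsupport_sub_of_compact hK h3).trans hKV)) h3
  exact h4.re

theorem IsDens.int_sq [T2Space M] (hμ : IsDens e w μ) (h : L2D e V w g) {f : M → ℂ}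
    (hf : Sm e f) {K : Set M} (hK : IsCompact K) (hKV : K ⊆ V)
    (h0 : ∀ p ∉ K, f p = 0) : Integrable (fun p => ‖f p‖ ^ 2) μ := by
  have h1 : MemLp f 2 μ := hμ.memLp_test h ⟨hf, K, hK, hKV, h0⟩
  exact (memLp_two_iff_integrable_sq_norm h1.1).1 h1

theorem norm_sub_sub_sq_le (a b c : ℂ) :
    ‖a - b - c‖ ^ 2 ≤ 3 * (‖a‖ ^ 2 + ‖b‖ ^ 2 + ‖c‖ ^ 2) := by
  have h1 : ‖a - b - c‖ ≤ ‖a‖ + ‖b‖ + ‖c‖ :=
    (norm_sub_le _ _).trans (by linarith [norm_sub_le a b])
  have h2 : ‖a - b - c‖ ^ 2 ≤ (‖a‖ + ‖b‖ + ‖c‖) ^ 2 := pow_le_pow_left₀ (norm_nonneg _) h1 2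
  nlinarith [sq_nonneg (‖a‖ - ‖b‖), sq_nonneg (‖a‖ - ‖c‖), sq_nonneg (‖b‖ - ‖c‖)]

/-- The commutator is bounded by the energy. -/
theorem IsDens.cut_bound [T2Space M] (hμ : IsDens e w μ) (h : L2D e V w g) {K : Set M}
    (hK : IsCompact K) (hKV : K ⊆ V) {χ : M → ℂ} (hχ : Sm e χ)
    (hr : ∀ p, (starRingEnd ℂ) (χ p) = χ p) :
    ∃ D, 0 ≤ D ∧ ∀ f, Sm e f → (∀ p ∉ K, f p = 0) →
      ∫ p, ‖cmt e w g χ f p‖ ^ 2 ∂μ ≤
        D ^ 2 * (∫ p, ‖f p‖ ^ 2 ∂μ + ∫ p, (gam e g f f p).re ∂μ) ∧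
      ∫ p, (gam e g (fun q => χ q * f q) (fun q => χ q * f q) p).re ∂μ ≤
        D ^ 2 * (∫ p, ‖f p‖ ^ 2 ∂μ + ∫ p, (gam e g f f p).re ∂μ) := by
  obtain ⟨A, hA⟩ := hK.exists_bound_of_continuousOn ((h.Sm_Lap hχ).continuousOn' h.cover hKV)
  obtain ⟨B', hB'⟩ := hK.exists_bound_of_continuousOn
    ((h.Sm_gam hχ hχ).continuousOn' h.cover hKV)
  obtain ⟨X, hX⟩ := hK.exists_bound_of_continuousOn (hχ.continuousOn' h.cover hKV)
  obtain ⟨C, hC0, hC⟩ := hμ.lemN h hK hKV
  set B := |B'| with hBdef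
  have hB0 : 0 ≤ B := abs_nonneg _
  have hB : ∀ p ∈ K, (gam e g χ χ p).re ≤ B := fun p hp =>
    (Complex.re_le_norm _).trans ((hB' p hp).trans (le_abs_self _))
  have hA2 : ∀ p ∈ K, ‖Lap e w g χ p‖ ^ 2 ≤ A ^ 2 := fun p hp =>
    pow_le_pow_left₀ (norm_nonneg _) (hA p hp) 2
  have hX2 : ∀ p ∈ K, ‖χ p‖ ^ 2 ≤ X ^ 2 := fun p hp =>
    pow_le_pow_left₀ (norm_nonneg _) (hX p hp) 2
  set P := 3 * (A ^ 2 + B + B * C) with hP
  set Q := 2 * (X ^ 2 + B) with hQ
  have hP0 : 0 ≤ P := by positivity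
  have hQ0 : 0 ≤ Q := by positivity
  refine ⟨√(P + Q), Real.sqrt_nonneg _, fun f hf h0 => ?_⟩
  rw [Real.sq_sqrt (add_nonneg hP0 hQ0)]
  have h0c : ∀ p ∉ K, (starRingEnd ℂ) (f p) = 0 := fun p hp => by rw [h0 p hp, map_zero]
  have i1 := hμ.int_sq h hf hK hKV h0
  have i2 := hμ.int_gam h hf hf hK hKV h0
  have i3 := hμ.int_gam h hf.conj hf.conj hK hKV h0c
  have hN := hC f hf h0
  set S1 := ∫ p, ‖f p‖ ^ 2 ∂μ with hS1
  set S2 := ∫ p, (gam e g f f p).re ∂μ with hS2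
  set S3 := ∫ p, (gam e g (fun p => (starRingEnd ℂ) (f p)) (fun p => (starRingEnd ℂ) (f p)) p).re ∂μ
    with hS3
  have s1 : 0 ≤ S1 := integral_nonneg fun p => sq_nonneg _
  have s2 : 0 ≤ S2 := integral_nonneg fun p => h.gam_nonneg hf p
  have s3 : 0 ≤ S3 := integral_nonneg fun p => h.gam_nonneg hf.conj p
  constructor
  · have hle : ∀ p, ‖cmt e w g χ f p‖ ^ 2 ≤ 3 * (A ^ 2 * ‖f p‖ ^ 2 + B * (gam e g f f p).re +
        B * (gam e g (fun p => (starRingEnd ℂ) (f p)) (fun p => (starRingEnd ℂ) (f p)) p).re) := by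
      intro p
      have g1 := h.gam_nonneg hf p
      have g2 := h.gam_nonneg hf.conj p
      by_cases hp : p ∈ K
      · rw [h.cmt_eq hχ hr hf]
        refine (norm_sub_sub_sq_le _ _ _).trans ?_
        have e1 : ‖f p * Lap e w g χ p‖ ^ 2 ≤ A ^ 2 * ‖f p‖ ^ 2 := by
          rw [norm_mul, mul_pow, mul_comm]
          exact mul_le_mul_of_nonneg_right (hA2 p hp) (sq_nonneg _)
        have e2 : ‖gam e g f χ p‖ ^ 2 ≤ B * (gam e g f f p).re := by
          refine (h.norm_gam_sq_le hf hχ p).trans ?_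
          rw [mul_comm]
          exact mul_le_mul_of_nonneg_right (hB p hp) g1
        have e3 : ‖gam e g χ (fun q => (starRingEnd ℂ) (f q)) p‖ ^ 2 ≤ B *
            (gam e g (fun p => (starRingEnd ℂ) (f p)) (fun p => (starRingEnd ℂ) (f p)) p).re :=
          (h.norm_gam_sq_le hχ hf.conj p).trans (mul_le_mul_of_nonneg_right (hB p hp) g2)
        linarith
      · rw [h.cmt_zero hχ hf hK h0 p hp, norm_zero, zero_pow two_ne_zero]
        positivity
    have h5 : ∫ p, ‖cmt e w g χ f p‖ ^ 2 ∂μ ≤ ∫ p, 3 * (A ^ 2 * ‖f p‖ ^ 2 +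
        B * (gam e g f f p).re +
        B * (gam e g (fun p => (starRingEnd ℂ) (f p)) (fun p => (starRingEnd ℂ) (f p)) p).re)
        ∂μ := by
      refine integral_mono_of_nonneg (Eventually.of_forall fun p => sq_nonneg _) ?_
        (Eventually.of_forall hle)
      exact (((i1.const_mul _).add (i2.const_mul _)).add (i3.const_mul _)).const_mul 3
    rw [integral_const_mul, integral_lin3 i1 i2 i3, ← hS1, ← hS2, ← hS3] at h5
    refine h5.trans ?_
    have e1 : B * S3 ≤ B * (C * (S1 + S2)) := mul_le_mul_of_nonneg_left hN hB0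
    have e2 : 0 ≤ Q * (S1 + S2) := mul_nonneg hQ0 (add_nonneg s1 s2)
    have e3 : 0 ≤ A ^ 2 * S2 := mul_nonneg (sq_nonneg _) s2
    have e4 : 0 ≤ B * S1 := mul_nonneg hB0 s1
    rw [hP]
    nlinarith
  · have hle : ∀ p, (gam e g (fun q => χ q * f q) (fun q => χ q * f q) p).re ≤
        2 * (X ^ 2 * (gam e g f f p).re + B * ‖f p‖ ^ 2) := by
      intro p
      have g1 := h.gam_nonneg hf p
      by_cases hp : p ∈ K
      · refine (h.gam_mul_self_le hχ hf p).trans ?_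
        have e1 := mul_le_mul_of_nonneg_right (hX2 p hp) g1
        have e2 := mul_le_mul_of_nonneg_right (hB p hp) (sq_nonneg ‖f p‖)
        linarith
      · rw [h.gam_zero (hχ.mul hf) (hχ.mul hf) hK
          (Or.inl fun q hq => by rw [h0 q hq, mul_zero]) p hp, Complex.zero_re]
        positivity
    have h5 : ∫ p, (gam e g (fun q => χ q * f q) (fun q => χ q * f q) p).re ∂μ ≤
        ∫ p, 2 * (X ^ 2 * (gam e g f f p).re + B * ‖f p‖ ^ 2) ∂μ := by
      refine integral_mono_of_nonneg (Eventually.of_forall fun p =>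
        h.gam_nonneg (hχ.mul hf) p) ?_ (Eventually.of_forall hle)
      exact ((i2.const_mul _).add (i1.const_mul _)).const_mul 2
    rw [integral_const_mul, integral_lin2 i2 i1, ← hS1, ← hS2] at h5
    refine h5.trans ?_
    have e2 : 0 ≤ P * (S1 + S2) := mul_nonneg hP0 (add_nonneg s1 s2)
    have e3 : 0 ≤ X ^ 2 * S1 := mul_nonneg (sq_nonneg _) s1
    have e4 : 0 ≤ B * S2 := mul_nonneg hB0 s2
    rw [hQ]
    nlinarith

/-- the local error -/
theorem IsDens.memLp_err [T2Space M] (hμ : IsDens e w μ) (h : L2D e V w g) {u : M → ℂ}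
    (hu : MemLp u 2 μ) {c : κ} {K : Set M} (hK : IsCompact K) (hKs : K ⊆ (e c).source)
    {v : Cn n → ℂ} (hv : Continuous v) :
    MemLp (K.indicator fun p => extz e c v p - u p) 2 μ := by
  rw [memLp_indicator_iff_restrict hK.isClosed.measurableSet]
  have hfin : IsFiniteMeasure (μ.restrict K) :=
    ⟨by rw [Measure.restrict_apply_univ]; exact hμ.measure_lt_top h hK (hKs.trans (h.sub c))⟩
  have hC : IsCompact (e c '' K) := hK.image_of_continuousOn ((e c).continuousOn.mono hKs)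
  obtain ⟨B, hB⟩ := hC.exists_bound_of_continuousOn hv.continuousOn
  refine MemLp.sub ?_ (hu.restrict K)
  refine MemLp.of_bound (aesm_extz hv).restrict B ?_
  refine (ae_restrict_iff' hK.isClosed.measurableSet).2 (Eventually.of_forall fun p hp => ?_)
  rw [extz_of_mem v (hKs hp)]
  exact hB _ ⟨p, hp, rfl⟩

omit [MeasurableSpace M] [BorelSpace M] in
theorem L2D.Lap_sum (h : L2D e V w g) {ι : Type*} (s : Finset ι) {F : ι → M → ℂ}
    (hF : ∀ i, Sm e (F i)) (p : M) :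
    Lap e w g (fun q => ∑ i ∈ s, F i q) p = ∑ i ∈ s, Lap e w g (F i) p := by
  classical
  induction s using Finset.induction_on with
  | empty =>
    have h1 := h.Lap_smul (Sm.const (e := e) 0) 0 p
    simpa using h1
  | insert a s ha ih =>
    rw [Finset.sum_insert ha, ← ih, ← h.Lap_add (hF a) (Sm.sum fun i _ => hF i)]
    congr 1
    funext q
    rw [Finset.sum_insert ha]

/-- **Lemma A**: a weakly harmonic function is approximated on compact sets by smooth functions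
with small Laplacian in the weak sense. -/
theorem IsDens.lemA [T2Space M] (hμ : IsDens e w μ) (h : L2D e V w g) {u : M → ℂ}
    (hu : MemLp u 2 μ)
    (hweak : ∀ f, Sm e f → (∃ K, IsCompact K ∧ K ⊆ V ∧ ∀ p ∉ K, f p = 0) →
      ∫ p, u p * (starRingEnd ℂ) (Lap e w g f p) ∂μ = 0)
    {K : Set M} (hK : IsCompact K) (hKV : K ⊆ V) {δ : ℝ} (hδ : 0 < δ) :
    ∃ U : M → ℂ, Sm e U ∧ (∃ K₁, IsCompact K₁ ∧ K₁ ⊆ V ∧ ∀ p ∉ K₁, U p = 0) ∧
      (∫ p in K, ‖U p - u p‖ ^ 2 ∂μ ≤ δ ^ 2) ∧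
      ∀ f, Sm e f → (∀ p ∉ K, f p = 0) →
        ‖∫ p, U p * (starRingEnd ℂ) (Lap e w g f p) ∂μ‖ ≤
          δ * √(∫ p, ‖f p‖ ^ 2 ∂μ + ∫ p, (gam e g f f p).re ∂μ) := by
  classical
  obtain ⟨s, c, ζ, O, hO, hKO, hζ, hsum⟩ :=
    exists_partition h.holo hK fun p hp => h.cover p (hKV hp)
  choose hζs hζn K' hK' hK's hK'0 using hζ
  set χ : K → M → ℂ := fun i p => (ζ i p : ℂ) with hχdef
  have hχ : ∀ i, Sm e (χ i) := fun i c' => contDiffOn_ofReal (hζs i c')
  have hr : ∀ i p, (starRingEnd ℂ) (χ i p) = χ i p := fun i p => Complex.conj_ofReal _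
  have hχ0 : ∀ i, ∀ p ∉ K' i, χ i p = 0 := fun i p hp => by
    simp only [hχdef, hK'0 i p hp, Complex.ofReal_zero]
  have hχsum : ∀ p ∈ K, ∑ i ∈ s, χ i p = 1 := fun p hp => by
    have := hsum p (hKO hp)
    simp only [hχdef]
    exact_mod_cast this
  have hχ1 : ∀ p ∈ K, ∀ i ∈ s, ‖χ i p‖ ≤ 1 := fun p hp i hi => by
    rw [hχdef]
    simp only [Complex.norm_real, Real.norm_eq_abs, abs_of_nonneg (hζn i p)]
    rw [← hsum p (hKO hp)]
    exact Finset.single_le_sum (f := fun i => ζ i p) (fun j _ => hζn j p) hi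
  choose D hD0 hD using fun i => hμ.cut_bound h hK hKV (hχ i) (hr i)
  set G := ∑ i ∈ s, D i with hG
  have hG0 : 0 ≤ G := Finset.sum_nonneg fun i _ => hD0 i
  set η := δ / (2 * G + s.card + 1) with hηdef
  have hη : 0 < η := by positivity
  choose v hvs hvd hvw using fun i => hμ.lemL h hu hweak (hK' i) (hK's i) hη
  set X : K → M → ℂ := fun i => extz e (c i) (v i) with hX
  set E : K → M → ℂ := fun i => (K' i).indicator fun p => X i p - u p with hE
  have hEm : ∀ i, MemLp (E i) 2 μ := fun i =>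
    hμ.memLp_err h hu (hK' i) (hK's i) (hvs i).continuous
  have hEn : ∀ i, ∫ p, ‖E i p‖ ^ 2 ∂μ ≤ η ^ 2 := by
    intro i
    refine le_trans (le_of_eq ?_) (hvd i)
    rw [← integral_indicator (hK' i).isClosed.measurableSet]
    refine integral_congr_ae (Eventually.of_forall fun p => ?_)
    simp only [hE, indicator]
    split_ifs
    · rfl
    · simp
  have hsm : ∀ i, Sm e fun p => χ i p * X i p := by
    intro i
    refine smooth_of_chart h.holo (hK' i) (hK's i) ?_ fun p hp => by rw [hχ0 i p hp, zero_mul]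
    refine ((hχ i (c i)).mul (hvs i).contDiffOn).congr fun z hz => ?_
    have e1 := pb_extz (e := e) (v i) hz
    simp only [pb] at e1 ⊢
    rw [← e1]
  have hK'V : ∀ i, K' i ⊆ V := fun i => (hK's i).trans (h.sub _)
  refine ⟨fun p => ∑ i ∈ s, χ i p * X i p, Sm.sum fun i _ => hsm i,
    ⟨⋃ i ∈ s, K' i, s.isCompact_biUnion fun i _ => hK' i, iUnion₂_subset fun i _ => hK'V i,
      fun p hp => Finset.sum_eq_zero fun i hi => ?_⟩, ?_, fun f hf h0 => ?_⟩
  · rw [hχ0 i p fun hh => hp (mem_iUnion₂.2 ⟨i, hi, hh⟩), zero_mul]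
  · -- the distance
    have hle : ∀ p ∈ K, ‖∑ i ∈ s, χ i p * X i p - u p‖ ^ 2 ≤
        s.card * ∑ i ∈ s, ‖E i p‖ ^ 2 := by
      intro p hp
      have e1 : ∑ i ∈ s, χ i p * X i p - u p = ∑ i ∈ s, χ i p * E i p := by
        have e2 : u p = ∑ i ∈ s, χ i p * u p := by rw [← Finset.sum_mul, hχsum p hp, one_mul]
        rw [e2, ← Finset.sum_sub_distrib]
        refine Finset.sum_congr rfl fun i _ => ?_
        by_cases hi : p ∈ K' i
        · simp only [hE, indicator_of_mem hi]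
          ring
        · rw [hχ0 i p hi]
          ring
      rw [e1]
      have e3 : ‖∑ i ∈ s, χ i p * E i p‖ ≤ ∑ i ∈ s, ‖E i p‖ := by
        refine (norm_sum_le _ _).trans (Finset.sum_le_sum fun i hi => ?_)
        rw [norm_mul]
        exact mul_le_of_le_one_left (norm_nonneg _) (hχ1 p hp i hi)
      refine (pow_le_pow_left₀ (norm_nonneg _) e3 2).trans ?_
      exact sq_sum_le_card_mul_sum_sq
    have hi : ∀ i, Integrable (fun p => ‖E i p‖ ^ 2) μ := fun i =>
      (memLp_two_iff_integrable_sq_norm (hEm i).1).1 (hEm i)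
    have hI : Integrable (fun p => (s.card : ℝ) * ∑ i ∈ s, ‖E i p‖ ^ 2) μ :=
      (integrable_finsetSum _ fun i _ => hi i).const_mul _
    have h1 : ∫ p in K, ‖∑ i ∈ s, χ i p * X i p - u p‖ ^ 2 ∂μ ≤
        ∫ p in K, (s.card : ℝ) * ∑ i ∈ s, ‖E i p‖ ^ 2 ∂μ := by
      refine integral_mono_of_nonneg (Eventually.of_forall fun p => sq_nonneg _)
        hI.integrableOn ?_
      exact (ae_restrict_iff' hK.isClosed.measurableSet).2 (Eventually.of_forall hle)
    have h2 : ∫ p in K, (s.card : ℝ) * ∑ i ∈ s, ‖E i p‖ ^ 2 ∂μ ≤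
        ∫ p, (s.card : ℝ) * ∑ i ∈ s, ‖E i p‖ ^ 2 ∂μ :=
      setIntegral_le_integral hI (Eventually.of_forall fun p => by positivity)
    have h3 : ∫ p, (s.card : ℝ) * ∑ i ∈ s, ‖E i p‖ ^ 2 ∂μ ≤ (s.card : ℝ) * (s.card * η ^ 2) := by
      rw [integral_const_mul, integral_finsetSum _ fun i _ => hi i]
      refine mul_le_mul_of_nonneg_left ?_ (Nat.cast_nonneg _)
      refine (Finset.sum_le_sum fun i _ => hEn i).trans (le_of_eq ?_)
      rw [Finset.sum_const, nsmul_eq_mul]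
    have h4 : (s.card : ℝ) * (s.card * η ^ 2) ≤ δ ^ 2 := by
      have e1 : (s.card : ℝ) * η ≤ δ := by
        rw [hηdef, mul_div_assoc', div_le_iff₀ (by positivity)]
        nlinarith [mul_nonneg hδ.le hG0]
      have e2 : (s.card : ℝ) * (s.card * η ^ 2) = (s.card * η) ^ 2 := by ring
      rw [e2]
      exact pow_le_pow_left₀ (by positivity) e1 2
    linarith
  · -- the weak equation
    have hfs : ∀ i, Sm e fun q => χ i q * f q := fun i => (hχ i).mul hf
    have hfz : ∀ i, ∀ p ∉ K' i, χ i p * f p = 0 := fun i p hp => by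
      rw [hχ0 i p hp, zero_mul]
    have hLT : ∀ i, MemLp (Lap e w g fun q => χ i q * f q) 2 μ := fun i =>
      hμ.memLp_test h (h.Test_Lap ⟨hfs i, K' i, hK' i, hK'V i, hfz i⟩)
    have hRT : ∀ i, MemLp (cmt e w g (χ i) f) 2 μ := fun i =>
      hμ.memLp_test h ⟨h.Sm_cmt (hχ i) hf, K, hK, hKV, h.cmt_zero (hχ i) hf hK h0⟩
    have hRs : ∀ p, ∑ i ∈ s, cmt e w g (χ i) f p = 0 := by
      intro p
      simp only [cmt]
      rw [Finset.sum_sub_distrib, ← h.Lap_sum s hfs, ← Finset.sum_mul]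
      have e1 : (fun q => ∑ i ∈ s, χ i q * f q) = f := by
        funext q
        rw [← Finset.sum_mul]
        by_cases hq : q ∈ K
        · rw [hχsum q hq, one_mul]
        · rw [h0 q hq, mul_zero]
      rw [e1]
      by_cases hp : p ∈ K
      · rw [hχsum p hp, one_mul, sub_self]
      · rw [h.Lap_zero hf hK h0 p hp, mul_zero, sub_zero]
    have hkey : ∀ i p, X i p * (starRingEnd ℂ) (cmt e w g (χ i) f p) =
        u p * (starRingEnd ℂ) (cmt e w g (χ i) f p) +
          E i p * (starRingEnd ℂ) (cmt e w g (χ i) f p) := by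
      intro i p
      by_cases hp : p ∈ K' i
      · simp only [hE, indicator_of_mem hp]
        ring
      · rw [h.cmt_zero' (hχ i) hf (hK' i) (hχ0 i) p hp]
        simp
    have hpt : ∀ p, (∑ i ∈ s, χ i p * X i p) * (starRingEnd ℂ) (Lap e w g f p) =
        ∑ i ∈ s, X i p * (starRingEnd ℂ) (Lap e w g (fun q => χ i q * f q) p) -
          ∑ i ∈ s, E i p * (starRingEnd ℂ) (cmt e w g (χ i) f p) := by
      intro p
      have e1 : ∑ i ∈ s, E i p * (starRingEnd ℂ) (cmt e w g (χ i) f p) =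
          ∑ i ∈ s, X i p * (starRingEnd ℂ) (cmt e w g (χ i) f p) := by
        have e2 : ∑ i ∈ s, u p * (starRingEnd ℂ) (cmt e w g (χ i) f p) = 0 := by
          rw [← Finset.mul_sum, ← map_sum, hRs p, map_zero, mul_zero]
        rw [← zero_add (∑ i ∈ s, E i p * (starRingEnd ℂ) (cmt e w g (χ i) f p)), ← e2,
          ← Finset.sum_add_distrib]
        exact Finset.sum_congr rfl fun i _ => (hkey i p).symm
      rw [e1, ← Finset.sum_sub_distrib, Finset.sum_mul]
      refine Finset.sum_congr rfl fun i _ => ?_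
      rw [cmt, map_sub, map_mul, hr i p]
      ring
    have hXi : ∀ i, Integrable (fun p => X i p *
        (starRingEnd ℂ) (Lap e w g (fun q => χ i q * f q) p)) μ := by
      intro i
      have e1 : (fun p => X i p * (starRingEnd ℂ) (Lap e w g (fun q => χ i q * f q) p)) =
          fun p => u p * (starRingEnd ℂ) (Lap e w g (fun q => χ i q * f q) p) +
            E i p * (starRingEnd ℂ) (Lap e w g (fun q => χ i q * f q) p) := by
        funext p
        by_cases hp : p ∈ K' i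
        · simp only [hE, indicator_of_mem hp]
          ring
        · rw [h.Lap_zero (hfs i) (hK' i) (hfz i) p hp]
          simp
      rw [e1]
      exact (hu.integrable_mul (hLT i).star).add ((hEm i).integrable_mul (hLT i).star)
    have hEi : ∀ i, Integrable (fun p => E i p * (starRingEnd ℂ) (cmt e w g (χ i) f p)) μ :=
      fun i => (hEm i).integrable_mul (hRT i).star
    set S := ∫ p, ‖f p‖ ^ 2 ∂μ + ∫ p, (gam e g f f p).re ∂μ with hS
    have hS0 : 0 ≤ S := add_nonneg (integral_nonneg fun p => sq_nonneg _)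
      (integral_nonneg fun p => h.gam_nonneg hf p)
    have hDS : ∀ i, √(D i ^ 2 * S) = D i * √S := fun i => by
      rw [Real.sqrt_mul (sq_nonneg _), Real.sqrt_sq (hD0 i)]
    have hb1 : ∀ i, ‖∫ p, X i p * (starRingEnd ℂ) (Lap e w g (fun q => χ i q * f q) p) ∂μ‖ ≤
        η * (D i * √S) := by
      intro i
      refine (hvw i _ (hfs i) (hfz i)).trans ?_
      rw [← hDS]
      exact mul_le_mul_of_nonneg_left (Real.sqrt_le_sqrt (hD i f hf h0).2) hη.le
    have hb2 : ∀ i, ‖∫ p, E i p * (starRingEnd ℂ) (cmt e w g (χ i) f p) ∂μ‖ ≤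
        η * (D i * √S) := by
      intro i
      refine (norm_integral_conj_le (hEm i) (hRT i)).trans ?_
      rw [← hDS]
      refine mul_le_mul ?_ (Real.sqrt_le_sqrt (hD i f hf h0).1) (Real.sqrt_nonneg _) hη.le
      rw [Real.sqrt_le_left hη.le]
      exact hEn i
    simp only [hpt]
    rw [integral_sub (integrable_finsetSum _ fun i _ => hXi i)
      (integrable_finsetSum _ fun i _ => hEi i), integral_finsetSum _ fun i _ => hXi i,
      integral_finsetSum _ fun i _ => hEi i]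
    have h1 : ‖∑ i ∈ s, ∫ p, X i p *
        (starRingEnd ℂ) (Lap e w g (fun q => χ i q * f q) p) ∂μ‖ ≤ η * (G * √S) := by
      refine (norm_sum_le _ _).trans ((Finset.sum_le_sum fun i _ => hb1 i).trans (le_of_eq ?_))
      rw [← Finset.mul_sum, ← Finset.sum_mul]
    have h2 : ‖∑ i ∈ s, ∫ p, E i p *
        (starRingEnd ℂ) (cmt e w g (χ i) f p) ∂μ‖ ≤ η * (G * √S) := by
      refine (norm_sum_le _ _).trans ((Finset.sum_le_sum fun i _ => hb2 i).trans (le_of_eq ?_))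
      rw [← Finset.mul_sum, ← Finset.sum_mul]
    refine (norm_sub_le _ _).trans ((add_le_add h1 h2).trans ?_)
    have h3 : η * (G * √S) + η * (G * √S) = (η * (2 * G)) * √S := by ring
    rw [h3]
    refine mul_le_mul_of_nonneg_right ?_ (Real.sqrt_nonneg _)
    rw [hηdef, div_mul_eq_mul_div, div_le_iff₀ (by positivity)]
    have : 0 ≤ δ * s.card := by positivity
    nlinarith

end

end Pool.Agent.KRFQ
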