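import Pool.Agent.Work.MP_a2bf38_gt.Q.GlobalB
import Pool.Agent.Work.MP_a2bf38_gt.X.NatCalc

/-!
# The exhaustion `-log (1 - |F|²)` and its cut-off functions

`L2D.restr`: restriction to an open set.  `L2D.add_pot`: a plurisubharmonic function may be added
to the potentials of the metric.  `IsExh`: exhaustion functions `ψ` with `|∂bar ψ|_g ≤ 1`.
`L2D.exh`: the case `ψ = -log (1 - |F|²)`.  `IsExh.exists_cutoff`: cut-off functions.
-/

open scoped ContDiff Topology ComplexOrder Matrix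
open Set MeasureTheory Filter Pool.Agent.ToricKRF Pool.Agent.ToricKRF.G Pool.Agent.KRFS

namespace Pool.Agent.KRFQ

/-! ### The function `-log (1 - |y|²)` on the ball -/

section Ball

open Pool.Agent.KRFS.ABP (ip ip_self)

variable {N : ℕ}

/-- `-log (1 - |y|²)` -/
noncomputable def lb (y : Cn N) : ℝ := -Real.log (1 - nsq y)

theorem isOpen_ball1 : IsOpen {y : Cn N | nsq y < 1} :=
  isOpen_lt Pool.Agent.KRFX.NC.contDiff_nsq.continuous continuous_const

theorem contDiffOn_lb : ContDiffOn ℝ ∞ (lb : Cn N → ℝ) {y | nsq y < 1} := by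
  intro y hy
  have h1 : ContDiffAt ℝ ∞ (fun y : Cn N => 1 - nsq y) y :=
    contDiffAt_const.sub Pool.Agent.KRFX.NC.contDiff_nsq.contDiffAt
  exact ((h1.log (sub_pos.2 hy).ne').neg).contDiffWithinAt

theorem D_lb {y : Cn N} (hy : nsq y < 1) (u : Cn N) :
    D u lb y = 2 * ip y u / (1 - nsq y) := by
  have h1 : HasFDerivAt (nsq : Cn N → ℝ) (fderiv ℝ nsq y) y :=
    (Pool.Agent.KRFX.NC.contDiff_nsq.differentiable (by simp) y).hasFDerivAt
  have h2 : HasFDerivAt (fun y : Cn N => 1 - nsq y) (-fderiv ℝ nsq y) y := h1.const_sub 1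
  have h3 := ((h2.log (sub_pos.2 hy).ne').fun_neg).fderiv
  unfold D
  have h4 : (lb : Cn N → ℝ) = fun y => -Real.log (1 - nsq y) := rfl
  rw [h4, h3]
  have h5 := Pool.Agent.KRFX.NC.D_nsq y u
  unfold D at h5
  simp only [neg_apply, smul_apply, smul_eq_mul, h5]
  field_simp

theorem DD_lb {y : Cn N} (hy : nsq y < 1) (u : Cn N) :
    D u (D u lb) y = 2 * nsq u / (1 - nsq y) + (D u lb y) ^ 2 := by
  have h1 : (D u (lb : Cn N → ℝ)) =ᶠ[𝓝 y] fun y => 2 * ip y u / (1 - nsq y) := by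
    filter_upwards [isOpen_ball1.mem_nhds hy] with y' hy'
    exact D_lb hy' u
  have h0 : D u (D u lb) y = fderiv ℝ (fun y => 2 * ip y u / (1 - nsq y)) y u := by
    unfold D at h1 ⊢
    rw [h1.fderiv_eq]
  rw [h0, D_lb hy]
  have h2 : HasFDerivAt (nsq : Cn N → ℝ) (fderiv ℝ nsq y) y :=
    (Pool.Agent.KRFX.NC.contDiff_nsq.differentiable (by simp) y).hasFDerivAt
  have h3 : HasFDerivAt (fun z : Cn N => ip z u) (fderiv ℝ (fun z => ip z u) y) y :=
    ((Pool.Agent.KRFX.NC.contDiff_ip u).differentiable (by simp) y).hasFDerivAt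
  have hne : 1 - nsq y ≠ 0 := (sub_pos.2 hy).ne'
  have h8 : HasFDerivAt (fun z : Cn N => (1 - nsq z)⁻¹)
      (-((1 - nsq y) ^ 2)⁻¹ • (-fderiv ℝ nsq y)) y :=
    (hasDerivAt_inv hne).comp_hasFDerivAt y (h2.const_sub 1)
  have h4 := ((h3.const_mul 2).fun_mul h8).fderiv
  have h7 : (fun z : Cn N => 2 * ip z u / (1 - nsq z)) = fun z => 2 * ip z u * (1 - nsq z)⁻¹ := by
    funext z
    rw [div_eq_mul_inv]
  rw [h7, h4]
  have h5 := Pool.Agent.KRFX.NC.D_nsq y u
  have h6 := Pool.Agent.KRFX.NC.D_ip y u u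
  unfold D at h5 h6
  simp only [smul_apply, add_apply, neg_apply, smul_eq_mul, h5, h6, ip_self]
  field_simp
  ring

theorem levz_lb {y : Cn N} (hy : nsq y < 1) (u : Cn N) :
    levz lb u y = nsq u / (1 - nsq y) + ((D u lb y) ^ 2 + (D (J u) lb y) ^ 2) / 4 := by
  unfold levz
  rw [DD_lb hy, DD_lb hy]
  have h1 : nsq (J u) = nsq u := by
    rw [← ip_self, ← ip_self, Pool.Agent.KRFX.NC.ip_J_J]
  rw [h1]
  ring

theorem le_levz_lb {y : Cn N} (hy : nsq y < 1) (u : Cn N) :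
    ((D u lb y) ^ 2 + (D (J u) lb y) ^ 2) / 4 ≤ levz lb u y := by
  rw [levz_lb hy]
  have h1 : 0 ≤ nsq u / (1 - nsq y) := by
    refine div_nonneg ?_ (sub_pos.2 hy).le
    unfold nsq dotProduct
    exact add_nonneg (Finset.sum_nonneg fun i _ => mul_self_nonneg _)
      (Finset.sum_nonneg fun i _ => mul_self_nonneg _)
  linarith

theorem lb_le_iff {y : Cn N} (hy : nsq y < 1) (R : ℝ) :
    lb y ≤ R ↔ nsq y ≤ 1 - Real.exp (-R) := by
  unfold lb
  rw [neg_le, Real.le_log_iff_exp_le (sub_pos.2 hy)]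
  constructor <;> intro h <;> linarith

end Ball

/-! ### Restriction and addition of potentials -/

section Restr

variable {M : Type} [TopologicalSpace M] {n : ℕ} {κ : Type}
  {e : κ → OpenPartialHomeomorph M (Cn n)} {V : Set M} {w g : κ → Cn n → ℝ}

/-- The charts of the open set `U`. -/
noncomputable def rs (e : κ → OpenPartialHomeomorph M (Cn n)) {U : Set M} (hU : IsOpen U) (c : κ) :
    OpenPartialHomeomorph M (Cn n) := (e c).restrOpen U hU

theorem rs_source {U : Set M} (hU : IsOpen U) (c : κ) :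
    (rs e hU c).source = (e c).source ∩ U := (e c).restrOpen_source U hU

theorem mem_rs_target {U : Set M} (hU : IsOpen U) (c : κ) {z : Cn n} :
    z ∈ (rs e hU c).target ↔ z ∈ (e c).target ∧ (e c).symm z ∈ U := by
  have h1 : (rs e hU c).target = (e c).target ∩ (e c).symm ⁻¹' U := by
    simp [rs, OpenPartialHomeomorph.restrOpen]
  rw [h1]
  rfl

theorem rs_target_sub {U : Set M} (hU : IsOpen U) (c : κ) : (rs e hU c).target ⊆ (e c).target :=
  fun _ hz => ((mem_rs_target hU c).1 hz).1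

theorem rs_symm {U : Set M} (hU : IsOpen U) (c : κ) (z : Cn n) :
    (rs e hU c).symm z = (e c).symm z := rfl

theorem tr_rs {U : Set M} (hU : IsOpen U) (c c' : κ) : tr (rs e hU) c c' = tr e c c' := rfl

theorem pb_rs {A : Type*} {U : Set M} (hU : IsOpen U) (c : κ) (f : M → A) :
    pb (rs e hU) c f = pb e c f := rfl

theorem dom_rs {U : Set M} (hU : IsOpen U) (c c' : κ) : dom (rs e hU) c c' ⊆ dom e c c' := by
  rintro z ⟨h1, h2⟩
  refine ⟨rs_target_sub hU c h1, ?_⟩
  rw [rs_source] at h2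
  exact h2.1

theorem L2D.restr (h : L2D e V w g) {U : Set M} (hU : IsOpen U) : L2D (rs e hU) (V ∩ U) w g where
  sub := fun c p hp => by
    rw [rs_source] at hp
    exact ⟨h.sub c hp.1, hp.2⟩
  cover := fun p hp => by
    obtain ⟨c, hc⟩ := h.cover p hp.1
    exact ⟨c, by rw [rs_source]; exact ⟨hc, hp.2⟩⟩
  holo := fun c c' => ⟨(h.holo c c').1.mono (dom_rs hU c c'),
    fun z hz u => (h.holo c c').2 z (dom_rs hU c c' hz) u⟩
  w_smooth := fun c => (h.w_smooth c).mono (rs_target_sub hU c)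
  w_pos := fun c z hz => h.w_pos c z (rs_target_sub hU c hz)
  w_compat := fun c c' z hz => h.w_compat c c' z (dom_rs hU c c' hz)
  w_lev := fun c c' z hz u => h.w_lev c c' z (dom_rs hU c c' hz) u
  g_smooth := fun c => (h.g_smooth c).mono (rs_target_sub hU c)
  g_pos := fun c z hz u hu => h.g_pos c z (rs_target_sub hU c hz) u hu
  g_compat := fun c c' z hz u => h.g_compat c c' z (dom_rs hU c c' hz) u

/-- The Levi form of a function on `M` in two charts. -/
theorem levz_pb (he : ∀ c c', HolOn (tr e c c') (dom e c c')) {ρ : M → ℝ}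
    (hρ : ∀ c, ContDiffOn ℝ ∞ (pb e c ρ) (e c).target) (c c' : κ) {z : Cn n}
    (hz : z ∈ dom e c c') (u : Cn n) :
    levz (pb e c ρ) u z = levz (pb e c' ρ) (fderiv ℝ (tr e c c') z u) (tr e c c' z) := by
  rw [Bd.levz_congr (pb_eventuallyEq ρ hz) u]
  exact levz_comp (e c').open_target (hρ c') (isOpen_dom c c') (he c c') hz (tr_mem_target hz) u

/-- A plurisubharmonic function may be added to the potentials of the metric. -/
theorem L2D.add_pot (h : L2D e V w g) {ρ : M → ℝ}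
    (hρ : ∀ c, ContDiffOn ℝ ∞ (pb e c ρ) (e c).target)
    (hlev : ∀ c, ∀ z ∈ (e c).target, ∀ u, 0 ≤ levz (pb e c ρ) u z) :
    L2D e V w (fun c z => g c z + pb e c ρ z) where
  sub := h.sub
  cover := h.cover
  holo := h.holo
  w_smooth := h.w_smooth
  w_pos := h.w_pos
  w_compat := h.w_compat
  w_lev := h.w_lev
  g_smooth := fun c => (h.g_smooth c).add (hρ c)
  g_pos := fun c z hz u hu => by
    rw [Bd.levz_add (((h.g_smooth c).contDiffAt ((e c).open_target.mem_nhds hz)).of_le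
      two_le_infty) (((hρ c).contDiffAt ((e c).open_target.mem_nhds hz)).of_le two_le_infty)]
    have h1 := h.g_pos c z hz u hu
    have h2 := hlev c z hz u
    linarith
  g_compat := fun c c' z hz u => by
    have hz' := tr_mem_target hz
    rw [Bd.levz_add (((h.g_smooth c).contDiffAt ((e c).open_target.mem_nhds hz.1)).of_le
      two_le_infty) (((hρ c).contDiffAt ((e c).open_target.mem_nhds hz.1)).of_le two_le_infty),
      Bd.levz_add (((h.g_smooth c').contDiffAt ((e c').open_target.mem_nhds hz')).of_le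
      two_le_infty) (((hρ c').contDiffAt ((e c').open_target.mem_nhds hz')).of_le two_le_infty),
      h.g_compat c c' z hz u, levz_pb h.holo hρ c c' hz u]

end Restr

/-! ### The norm of `∂bar f` -/

section Norm

variable {n : ℕ} {g : Cn n → ℝ} {f : Cn n → ℂ} {U : Set (Cn n)}

theorem levz_zero_vec (f : Cn n → ℝ) (z : Cn n) : levz f 0 z = 0 := by
  have h1 : J (0 : Cn n) = 0 := by
    ext j <;> simp [J]
  unfold levz
  rw [h1]
  unfold D
  rw [map_zero]
  norm_num

/-- `|∂bar f|_g² = ∑ W_j conj (∂_jbar f)` for the gradient `W` of `f`: it is the value of the metric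
on `W`. -/
theorem gnorm_eq (hU : IsOpen U) (hg : ContDiffOn ℝ ∞ g U) {z : Cn n} (hz : z ∈ U)
    (hd : (Hm g z).det ≠ 0) :
    ∑ j, gradv g f z j * (starRingEnd ℂ) (dzb j f z) =
      ((levz g (ofv (gradv g f z)) z : ℝ) : ℂ) := by
  have h1 : ∀ k, ∑ j, Hm g z j k * gradv g f z j = dzb k f z := gradv_spec hd
  have h2 : ∑ k, (starRingEnd ℂ) (gradv g f z k) * dzb k f z =
      ((levz g (ofv (gradv g f z)) z : ℝ) : ℂ) := by
    rw [levz_eq hU hg hz]
    simp only [cc_ofv, ← h1, Finset.mul_sum]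
    rw [Finset.sum_comm]
    exact Finset.sum_congr rfl fun j _ => Finset.sum_congr rfl fun k _ => by ring
  have h3 := congrArg (starRingEnd ℂ) h2
  rw [map_sum, Complex.conj_ofReal] at h3
  rw [← h3]
  exact Finset.sum_congr rfl fun j _ => by rw [map_mul, Complex.conj_conj]

/-- If `|∂bar f (u)|² ≤ A g(u,u)` for all `u`, then `|∂bar f|_g² ≤ A`. -/
theorem gnorm_le (hU : IsOpen U) (hg : ContDiffOn ℝ ∞ g U) {z : Cn n} (hz : z ∈ U)
    (hd : (Hm g z).det ≠ 0) {A : ℝ} (hA : 0 ≤ A)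
    (h : ∀ u, ‖∑ k, dzb k f z * (starRingEnd ℂ) (cc u k)‖ ^ 2 ≤ A * levz g u z) :
    levz g (ofv (gradv g f z)) z ≤ A := by
  have h1 := h (ofv (gradv g f z))
  have h2 : ∑ k, dzb k f z * (starRingEnd ℂ) (cc (ofv (gradv g f z)) k) =
      ((levz g (ofv (gradv g f z)) z : ℝ) : ℂ) := by
    have h3 := congrArg (starRingEnd ℂ) (gnorm_eq (f := f) hU hg hz hd)
    rw [map_sum, Complex.conj_ofReal] at h3
    rw [← h3]
    refine Finset.sum_congr rfl fun j _ => ?_
    rw [map_mul, Complex.conj_conj, cc_ofv, mul_comm]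
  rw [h2, Complex.norm_real, Real.norm_eq_abs, sq_abs] at h1
  set s := levz g (ofv (gradv g f z)) z
  by_contra hs
  rw [not_le] at hs
  have hs0 : 0 < s := hA.trans_lt hs
  nlinarith

/-- `∂bar f (u)` for a real function. -/
theorem norm_dbar_real {f : Cn n → ℝ} {z : Cn n} (hf : DifferentiableAt ℝ f z) (u : Cn n) :
    ‖∑ k, dzb k (fun x => (f x : ℂ)) z * (starRingEnd ℂ) (cc u k)‖ ^ 2 =
      ((D u f z) ^ 2 + (D (J u) f z) ^ 2) / 4 := by
  rw [← dbar_apply]
  have h1 : ∀ v, fderiv ℝ (fun x => (f x : ℂ)) z v = ((fderiv ℝ f z v : ℝ) : ℂ) := by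
    intro v
    have h3 := Complex.ofRealCLM.hasFDerivAt.comp z hf.hasFDerivAt
    have h2 : (fun x => (f x : ℂ)) = Complex.ofRealCLM ∘ f := rfl
    rw [h2, h3.fderiv]
    rfl
  rw [h1, h1, norm_div, div_pow, ← Complex.normSq_eq_norm_sq]
  have h4 : Complex.normSq (((fderiv ℝ f z u : ℝ) : ℂ) + Complex.I * ((fderiv ℝ f z (J u) : ℝ) : ℂ))
      = (fderiv ℝ f z u) ^ 2 + (fderiv ℝ f z (J u)) ^ 2 := by
    rw [Complex.normSq_apply]
    simp
    ring
  rw [h4]
  unfold D
  norm_num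

end Norm

/-! ### Exhaustion functions -/

section Exh

variable {M : Type} [TopologicalSpace M] {n : ℕ} {κ : Type}
  {e : κ → OpenPartialHomeomorph M (Cn n)} {V : Set M} {w g : κ → Cn n → ℝ}

/-- `ψ` is an exhaustion function of `V` with `|∂bar ψ|_g ≤ 1`. -/
structure IsExh (e : κ → OpenPartialHomeomorph M (Cn n)) (V : Set M) (g : κ → Cn n → ℝ)
    (ψ : M → ℝ) : Prop where
  smooth : ∀ c, ContDiffOn ℝ ∞ (pb e c ψ) (e c).target
  cpt : ∀ R : ℝ, IsCompact {p | p ∈ V ∧ ψ p ≤ R}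
  grad : ∀ c, ∀ z ∈ (e c).target, ∀ u,
    ((D u (pb e c ψ) z) ^ 2 + (D (J u) (pb e c ψ) z) ^ 2) / 4 ≤ levz (g c) u z

/-- `|∂bar ψ|_g² = ∑ W_j conj (∂_jbar ψ) ≤ 1` -/
theorem IsExh.norm_le {ψ : M → ℝ} (hψ : IsExh e V g ψ) (h : L2D e V w g) {c : κ} {z : Cn n}
    (hz : z ∈ (e c).target) :
    ∃ s : ℝ, 0 ≤ s ∧ s ≤ 1 ∧ ∑ j, gradv (g c) (pb e c fun p => (ψ p : ℂ)) z j *
      (starRingEnd ℂ) (dzb j (pb e c fun p => (ψ p : ℂ)) z) = (s : ℂ) := by
  refine ⟨_, ?_, ?_, gnorm_eq (e c).open_target (h.g_smooth c) hz (h.det_ne c hz)⟩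
  · by_cases h0 : ofv (gradv (g c) (pb e c fun p => (ψ p : ℂ)) z) = 0
    · rw [h0, levz_zero_vec]
    · exact (h.g_pos c z hz _ h0).le
  · refine gnorm_le (e c).open_target (h.g_smooth c) hz (h.det_ne c hz) zero_le_one fun u => ?_
    rw [one_mul]
    have h1 := norm_dbar_real (f := pb e c ψ)
      (diffAt_of_contDiffOn (e c).open_target (hψ.smooth c) hz) u
    refine le_trans (le_of_eq ?_) (hψ.grad c z hz u)
    exact h1

/-- The exhaustion function `-log (1 - |F|²)`. -/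
theorem L2D.exh (h : L2D e V w g) {N : ℕ} {F : M → Cn N}
    (hF : ∀ c, HolOn (pb e c F) (e c).target) (hlt : ∀ p ∈ V, nsq (F p) < 1)
    (hK : ∀ r < 1, IsCompact {p | p ∈ V ∧ nsq (F p) ≤ r}) :
    L2D e V w (fun c z => g c z + lb (F ((e c).symm z))) ∧
      IsExh e V (fun c z => g c z + lb (F ((e c).symm z))) (fun p => lb (F p)) := by
  have hm : ∀ c, ∀ z ∈ (e c).target, nsq (pb e c F z) < 1 := fun c z hz =>
    hlt _ (h.sub c ((e c).map_target hz))
  have hs : ∀ c, ContDiffOn ℝ ∞ (pb e c fun p => lb (F p)) (e c).target := fun c =>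
    contDiffOn_lb.comp (hF c).1 fun z hz => hm c z hz
  have hl : ∀ c, ∀ z ∈ (e c).target, ∀ u, levz (pb e c fun p => lb (F p)) u z =
      levz lb (fderiv ℝ (pb e c F) z u) (pb e c F z) := fun c z hz u =>
    levz_comp isOpen_ball1 contDiffOn_lb (e c).open_target (hF c) hz (hm c z hz) u
  have hD : ∀ c, ∀ z ∈ (e c).target, ∀ u, D u (pb e c fun p => lb (F p)) z =
      D (fderiv ℝ (pb e c F) z u) lb (pb e c F z) := by
    intro c z hz u
    have h1 : DifferentiableAt ℝ lb (pb e c F z) :=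
      diffAt_of_contDiffOn isOpen_ball1 contDiffOn_lb (hm c z hz)
    have h2 : DifferentiableAt ℝ (pb e c F) z :=
      HolOn.differentiableAt (e c).open_target (hF c) hz
    have h3 := (h1.hasFDerivAt.comp z h2.hasFDerivAt).fderiv
    change fderiv ℝ (lb ∘ pb e c F) z u = _
    rw [h3]
    rfl
  have hgr : ∀ c, ∀ z ∈ (e c).target, ∀ u, ((D u (pb e c fun p => lb (F p)) z) ^ 2 +
      (D (J u) (pb e c fun p => lb (F p)) z) ^ 2) / 4 ≤ levz (pb e c fun p => lb (F p)) u z := by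
    intro c z hz u
    rw [hD c z hz, hD c z hz, hl c z hz, (hF c).2 z hz]
    exact le_levz_lb (hm c z hz) _
  have h2 := h.add_pot hs fun c z hz u => le_trans (by positivity) (hgr c z hz u)
  refine ⟨h2, hs, fun R => ?_, fun c z hz u => ?_⟩
  · have h3 : {p | p ∈ V ∧ lb (F p) ≤ R} = {p | p ∈ V ∧ nsq (F p) ≤ 1 - Real.exp (-R)} := by
      ext p
      simp only [mem_ofPred_eq]
      constructor
      · rintro ⟨h4, h5⟩
        exact ⟨h4, (lb_le_iff (hlt p h4) R).1 h5⟩
      · rintro ⟨h4, h5⟩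
        exact ⟨h4, (lb_le_iff (hlt p h4) R).2 h5⟩
    rw [h3]
    exact hK _ (by linarith [Real.exp_pos (-R)])
  · change _ ≤ levz (fun z => g c z + pb e c (fun p => lb (F p)) z) u z
    rw [Bd.levz_add (((h.g_smooth c).contDiffAt ((e c).open_target.mem_nhds hz)).of_le
      two_le_infty) (((hs c).contDiffAt ((e c).open_target.mem_nhds hz)).of_le two_le_infty)]
    have h5 := hgr c z hz u
    have h6 : 0 ≤ levz (g c) u z := by
      by_cases h0 : u = 0
      · rw [h0, levz_zero_vec]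
      · exact (h.g_pos c z hz u h0).le
    linarith

/-- A smooth cut-off function of one variable. -/
theorem exists_eta : ∃ (η : ℝ → ℝ) (C : ℝ), ContDiff ℝ ∞ η ∧ (∀ t, 0 ≤ η t) ∧ (∀ t, η t ≤ 1) ∧
    (∀ t ≤ 1, η t = 1) ∧ (∀ t, 2 ≤ t → η t = 0) ∧ 0 ≤ C ∧ ∀ t, |deriv η t| ≤ C := by
  set η : ℝ → ℝ := fun t => Real.smoothTransition (2 - t) with hη
  have h1 : ContDiff ℝ ∞ η := Real.smoothTransition.contDiff.comp (contDiff_const.sub contDiff_id)
  have h2 : ∀ t ≤ 1, η t = 1 := fun t ht =>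
    Real.smoothTransition.one_of_one_le (by linarith)
  have h3 : ∀ t, 2 ≤ t → η t = 0 := fun t ht =>
    Real.smoothTransition.zero_of_nonpos (by linarith)
  have h4 : Continuous (deriv η) := (h1.continuous_deriv (by simp))
  obtain ⟨C, hC⟩ := (isCompact_Icc (a := (0 : ℝ)) (b := 3)).exists_bound_of_continuousOn
    h4.continuousOn
  refine ⟨η, max C 0, h1, fun t => Real.smoothTransition.nonneg _,
    fun t => Real.smoothTransition.le_one _, h2, h3, le_max_right _ _, fun t => ?_⟩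
  by_cases ht : t ∈ Icc (0 : ℝ) 3
  · have := hC t ht
    rw [Real.norm_eq_abs] at this
    exact this.trans (le_max_left _ _)
  · have h5 : deriv η t = 0 := by
      rw [mem_Icc, not_and_or, not_le, not_le] at ht
      rcases ht with ht | ht
      · have h6 : η =ᶠ[𝓝 t] fun _ => 1 := by
          filter_upwards [Iio_mem_nhds (show t < 1 by linarith)] with s hs
          exact h2 s (le_of_lt hs)
        rw [h6.deriv_eq, deriv_const]
      · have h6 : η =ᶠ[𝓝 t] fun _ => 0 := by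
          filter_upwards [Ioi_mem_nhds (show 2 < t by linarith)] with s hs
          exact h3 s (le_of_lt hs)
        rw [h6.deriv_eq, deriv_const]
    rw [h5, abs_zero]
    exact le_max_right _ _

/-- Cut-off functions of an exhausted open set. -/
theorem IsExh.exists_cutoff : ∃ C : ℝ, 0 ≤ C ∧ ∀ {M : Type} [TopologicalSpace M] {n : ℕ}
    {κ : Type} {e : κ → OpenPartialHomeomorph M (Cn n)} {V : Set M} {w g : κ → Cn n → ℝ}
    {ψ : M → ℝ}, L2D e V w g → IsExh e V g ψ → ∀ ν : ℝ, 0 < ν → ∃ χ : M → ℝ,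
      (∀ c, ContDiffOn ℝ ∞ (pb e c χ) (e c).target) ∧ (∀ p, 0 ≤ χ p) ∧ (∀ p, χ p ≤ 1) ∧
      (∀ p ∈ V, ψ p ≤ ν → χ p = 1) ∧ (∀ p, p ∉ {p | p ∈ V ∧ ψ p ≤ 2 * ν} → χ p = 0) ∧
      (∀ c, ∀ z ∈ (e c).target, ∀ u, ((D u (pb e c χ) z) ^ 2 + (D (J u) (pb e c χ) z) ^ 2) / 4 ≤
        (C / ν) ^ 2 * levz (g c) u z) ∧
      ∀ c, ∀ z ∈ (e c).target, ∃ s : ℝ, 0 ≤ s ∧ s ≤ (C / ν) ^ 2 ∧
        ∑ j, gradv (g c) (pb e c fun p => (χ p : ℂ)) z j *
          (starRingEnd ℂ) (dzb j (pb e c fun p => (χ p : ℂ)) z) = (s : ℂ) := by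
  obtain ⟨η, C, h1, h2, h3, h4, h5, hC, h6⟩ := exists_eta
  refine ⟨C, hC, ?_⟩
  intro M _ n κ e V w g ψ h hψ ν hν
  classical
  set χ : M → ℝ := fun p => if p ∈ V then η (ψ p / ν) else 0 with hχ
  have hpb : ∀ c, ∀ z ∈ (e c).target, pb e c χ z = η (pb e c ψ z / ν) := by
    intro c z hz
    have : (e c).symm z ∈ V := h.sub c ((e c).map_target hz)
    simp only [pb, hχ, if_pos this]
  have hsm : ∀ c, ContDiffOn ℝ ∞ (pb e c χ) (e c).target := by
    intro c
    have h7 : ContDiffOn ℝ ∞ (fun z => η (pb e c ψ z / ν)) (e c).target :=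
      h1.comp_contDiffOn ((hψ.smooth c).div_const ν)
    exact h7.congr (hpb c)
  have hD : ∀ c, ∀ z ∈ (e c).target, ∀ u, D u (pb e c χ) z =
      deriv η (pb e c ψ z / ν) / ν * D u (pb e c ψ) z := by
    intro c z hz u
    have h7 : pb e c χ =ᶠ[𝓝 z] fun z => η (pb e c ψ z / ν) := by
      filter_upwards [(e c).open_target.mem_nhds hz] with x hx
      exact hpb c x hx
    have h8 : HasFDerivAt (pb e c ψ) (fderiv ℝ (pb e c ψ) z) z :=
      (diffAt_of_contDiffOn (e c).open_target (hψ.smooth c) hz).hasFDerivAt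
    have h9 : HasFDerivAt (fun z => pb e c ψ z / ν) (ν⁻¹ • fderiv ℝ (pb e c ψ) z) z := by
      simpa only [div_eq_inv_mul] using h8.const_mul ν⁻¹
    have h10 : HasDerivAt η (deriv η (pb e c ψ z / ν)) (pb e c ψ z / ν) :=
      (h1.differentiable (by simp) _).hasDerivAt
    have h11 := (h10.comp_hasFDerivAt z h9).fderiv
    unfold D
    rw [h7.fderiv_eq]
    change fderiv ℝ (η ∘ fun z => pb e c ψ z / ν) z u = _
    rw [h11]
    simp only [smul_apply, smul_eq_mul]
    ring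
  have hgr : ∀ c, ∀ z ∈ (e c).target, ∀ u, ((D u (pb e c χ) z) ^ 2 +
      (D (J u) (pb e c χ) z) ^ 2) / 4 ≤ (C / ν) ^ 2 * levz (g c) u z := by
    intro c z hz u
    rw [hD c z hz, hD c z hz]
    have h7 := hψ.grad c z hz u
    have h8 : (deriv η (pb e c ψ z / ν) / ν) ^ 2 ≤ (C / ν) ^ 2 := by
      rw [div_pow, div_pow, ← sq_abs (deriv η _)]
      have := h6 (pb e c ψ z / ν)
      gcongr
    have h9 : 0 ≤ ((D u (pb e c ψ) z) ^ 2 + (D (J u) (pb e c ψ) z) ^ 2) / 4 := by positivity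
    calc ((deriv η (pb e c ψ z / ν) / ν * D u (pb e c ψ) z) ^ 2 +
        (deriv η (pb e c ψ z / ν) / ν * D (J u) (pb e c ψ) z) ^ 2) / 4
        = (deriv η (pb e c ψ z / ν) / ν) ^ 2 *
          (((D u (pb e c ψ) z) ^ 2 + (D (J u) (pb e c ψ) z) ^ 2) / 4) := by ring
      _ ≤ (C / ν) ^ 2 * levz (g c) u z := by
          refine mul_le_mul h8 h7 h9 (by positivity)
  refine ⟨χ, hsm, fun p => ?_, fun p => ?_, fun p hp hp' => ?_, fun p hp => ?_, hgr,
    fun c z hz => ?_⟩
  · simp only [hχ]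
    split_ifs
    · exact h2 _
    · exact le_rfl
  · simp only [hχ]
    split_ifs
    · exact h3 _
    · exact zero_le_one
  · simp only [hχ, if_pos hp]
    exact h4 _ ((div_le_one hν).2 hp')
  · simp only [hχ]
    split_ifs with h7
    · refine h5 _ ?_
      rw [mem_ofPred_eq, not_and, not_le] at hp
      rw [le_div_iff₀ hν]
      exact (hp h7).le
    · rfl
  · refine ⟨_, ?_, ?_, gnorm_eq (e c).open_target (h.g_smooth c) hz (h.det_ne c hz)⟩
    · by_cases h0 : ofv (gradv (g c) (pb e c fun p => (χ p : ℂ)) z) = 0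
      · rw [h0, levz_zero_vec]
      · exact (h.g_pos c z hz _ h0).le
    · refine gnorm_le (e c).open_target (h.g_smooth c) hz (h.det_ne c hz) (sq_nonneg _)
        fun u => ?_
      have h7 := norm_dbar_real (f := pb e c χ)
        (diffAt_of_contDiffOn (e c).open_target (hsm c) hz) u
      exact (le_of_eq h7).trans (hgr c z hz u)

end Exh

end Pool.Agent.KRFQ
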