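import Pool.Agent.Work.MP_a2bf38_gt.Q.Gam
import Pool.Agent.Work.MP_a2bf38_gt.Q.Exh

/-!
# Weakly harmonic functions are weakly holomorphic

From the local approximation lemma (Lemma A of `Q/RegA.lean`, here a hypothesis) and the cut-off
functions of an exhaustion.
-/

open scoped ContDiff Topology ComplexOrder Matrix
open Set MeasureTheory Filter Pool.Agent.ToricKRF Pool.Agent.ToricKRF.G Pool.Agent.KRFS

namespace Pool.Agent.KRFQ

variable {M : Type} [TopologicalSpace M] {n : ℕ} {κ : Type}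
  {e : κ → OpenPartialHomeomorph M (Cn n)} {V : Set M} {w g : κ → Cn n → ℝ}

/-! ### Pointwise estimates -/

/-- The cut-off function as a complex function. -/
theorem Sm.ofReal {χ : M → ℝ} (hχ : ∀ c, ContDiffOn ℝ ∞ (pb e c χ) (e c).target) :
    Sm e (fun p => (χ p : ℂ)) := fun c => contDiffOn_ofReal (hχ c)

theorem L2D.gam_cut (h : L2D e V w g) {χ : M → ℝ} {U : M → ℂ}
    (hχ : Sm e fun p => (χ p : ℂ)) (hU : Sm e U) (p : M) :
    gam e g U (fun q => ((χ q : ℂ) * (χ q : ℂ)) * U q) p = ((χ p ^ 2 * (gam e g U U p).re : ℝ) : ℂ) +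
      2 * (χ p : ℂ) * (starRingEnd ℂ) (U p) * gam e g U (fun q => (χ q : ℂ)) p := by
  rw [h.gam_mul_right (hχ.mul hχ) hU hU p, h.gam_mul_right hχ hU hχ p, h.gam_self hU p]
  simp only [map_mul, Complex.conj_ofReal, Complex.ofReal_re]
  push_cast
  ring

theorem L2D.gam_cut_self (h : L2D e V w g) {χ : M → ℝ} {U : M → ℂ}
    (hχ : Sm e fun p => (χ p : ℂ)) (hU : Sm e U) {Q : ℝ} (p : M)
    (hQ : (gam e g (fun q => (χ q : ℂ)) (fun q => (χ q : ℂ)) p).re ≤ Q) (h0 : 0 ≤ χ p)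
    (h1 : χ p ≤ 1) :
    (gam e g (fun q => ((χ q : ℂ) * (χ q : ℂ)) * U q)
      (fun q => ((χ q : ℂ) * (χ q : ℂ)) * U q) p).re ≤
      2 * (χ p ^ 2 * (gam e g U U p).re) + 8 * (χ p ^ 2 * (Q * ‖U p‖ ^ 2)) := by
  set x : M → ℂ := fun q => (χ q : ℂ) with hx
  have hxx : Sm e fun q => x q * x q := hχ.mul hχ
  set G := (gam e g U U p).re with hG
  set q := (gam e g x x p).re with hq
  set a := gam e g U x p with ha
  have hq0 : 0 ≤ q := h.gam_nonneg hχ p
  have hG0 : 0 ≤ G := h.gam_nonneg hU p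
  have e1 : gam e g U (fun q => x q * x q) p = 2 * (χ p : ℂ) * a := by
    rw [h.gam_mul_right hχ hU hχ p]
    simp only [hx, Complex.conj_ofReal]
    ring
  have e2 : gam e g (fun q => x q * x q) U p = 2 * (χ p : ℂ) * (starRingEnd ℂ) a := by
    rw [← h.gam_conj hU hxx, e1]
    simp only [map_mul, Complex.conj_ofReal, map_ofNat]
  have e3 : gam e g (fun q => x q * x q) (fun q => x q * x q) p = ((4 * χ p ^ 2 * q : ℝ) : ℂ) := by
    rw [h.gam_mul_right hχ hxx hχ p, h.gam_mul_left hχ hχ hχ p, h.gam_self hχ p]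
    simp only [hx, Complex.conj_ofReal]
    push_cast
    ring
  have e4 : gam e g (fun q => (x q * x q) * U q) (fun q => (x q * x q) * U q) p =
      ((χ p ^ 4 * G + 4 * χ p ^ 2 * q * ‖U p‖ ^ 2 : ℝ) : ℂ) +
      2 * (χ p : ℂ) ^ 3 * ((starRingEnd ℂ) (U p) * a) +
      2 * (χ p : ℂ) ^ 3 * (U p * (starRingEnd ℂ) a) := by
    rw [h.gam_mul_left hxx hU (hxx.mul hU) p, h.gam_mul_right hxx hU hU p,
      h.gam_mul_right hxx hxx hU p, e1, e2, e3, h.gam_self hU p]
    have h5 : (starRingEnd ℂ) (U p) * U p = ((‖U p‖ ^ 2 : ℝ) : ℂ) := by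
      rw [mul_comm, Complex.mul_conj, Complex.normSq_eq_norm_sq]
    simp only [hx, map_mul, Complex.conj_ofReal]
    push_cast at h5 ⊢
    linear_combination (4 * (χ p : ℂ) ^ 2 * (q : ℂ)) * h5
  have e5 : (gam e g (fun q => (x q * x q) * U q) (fun q => (x q * x q) * U q) p).re =
      χ p ^ 4 * G + 4 * χ p ^ 2 * q * ‖U p‖ ^ 2 +
      4 * χ p ^ 3 * ((starRingEnd ℂ) (U p) * a).re := by
    rw [e4]
    have h6 : U p * (starRingEnd ℂ) a = (starRingEnd ℂ) ((starRingEnd ℂ) (U p) * a) := by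
      simp
    rw [h6]
    have h7 : ∀ z : ℂ, (2 * (χ p : ℂ) ^ 3 * z).re = 2 * χ p ^ 3 * z.re := by
      intro z
      have : (2 * (χ p : ℂ) ^ 3 : ℂ) = ((2 * χ p ^ 3 : ℝ) : ℂ) := by push_cast; rfl
      rw [this, Complex.re_ofReal_mul]
    rw [Complex.add_re, Complex.add_re, h7, h7, Complex.ofReal_re, Complex.conj_re]
    ring
  rw [e5]
  have h8 : ‖a‖ ^ 2 ≤ G * q := h.norm_gam_sq_le hU hχ p
  have h9 : ((starRingEnd ℂ) (U p) * a).re ≤ ‖U p‖ * ‖a‖ := by
    refine (Complex.re_le_norm _).trans ?_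
    rw [norm_mul, RCLike.norm_conj]
  -- `4 χ³ |U| |a| ≤ χ⁴ G + 4 χ² |U|² q`
  have h10 : 4 * χ p ^ 3 * (‖U p‖ * ‖a‖) ≤ χ p ^ 4 * G + 4 * χ p ^ 2 * q * ‖U p‖ ^ 2 := by
    have h11 : ‖a‖ ≤ √G * √q := by
      rw [← Real.sqrt_mul hG0]
      exact Real.le_sqrt_of_sq_le h8
    have h12 : 4 * χ p ^ 3 * (‖U p‖ * ‖a‖) ≤ 4 * χ p ^ 3 * (‖U p‖ * (√G * √q)) := by
      gcongr
    have h13 : √G ^ 2 = G := Real.sq_sqrt hG0
    have h14 : √q ^ 2 = q := Real.sq_sqrt hq0
    have h15 : (χ p ^ 2 * √G - 2 * χ p * ‖U p‖ * √q) ^ 2 = χ p ^ 4 * √G ^ 2 +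
        4 * χ p ^ 2 * √q ^ 2 * ‖U p‖ ^ 2 - 4 * χ p ^ 3 * (‖U p‖ * (√G * √q)) := by ring
    rw [h13, h14] at h15
    have h16 := sq_nonneg (χ p ^ 2 * √G - 2 * χ p * ‖U p‖ * √q)
    linarith
  have h15 : χ p ^ 4 * G ≤ χ p ^ 2 * G := by
    have : χ p ^ 4 ≤ χ p ^ 2 := pow_le_pow_of_le_one h0 h1 (by norm_num)
    exact mul_le_mul_of_nonneg_right this hG0
  have h16 : 4 * χ p ^ 2 * q * ‖U p‖ ^ 2 ≤ 4 * (χ p ^ 2 * (Q * ‖U p‖ ^ 2)) := by
    have : q * ‖U p‖ ^ 2 ≤ Q * ‖U p‖ ^ 2 := mul_le_mul_of_nonneg_right hQ (sq_nonneg _)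
    nlinarith [sq_nonneg (χ p)]
  have h17 : 4 * χ p ^ 3 * ((starRingEnd ℂ) (U p) * a).re ≤ 4 * χ p ^ 3 * (‖U p‖ * ‖a‖) := by
    gcongr
  linarith

theorem L2D.norm_cross_le (h : L2D e V w g) {χ : M → ℝ} {U : M → ℂ}
    (hχ : Sm e fun p => (χ p : ℂ)) (hU : Sm e U) {Q : ℝ} (p : M)
    (hQ : (gam e g (fun q => (χ q : ℂ)) (fun q => (χ q : ℂ)) p).re ≤ Q) (h0 : 0 ≤ χ p) :
    ‖2 * (χ p : ℂ) * (starRingEnd ℂ) (U p) * gam e g U (fun q => (χ q : ℂ)) p‖ ≤
      χ p ^ 2 * (gam e g U U p).re / 2 + 2 * (Q * ‖U p‖ ^ 2) := by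
  set G := (gam e g U U p).re with hG
  set q := (gam e g (fun q => (χ q : ℂ)) (fun q => (χ q : ℂ)) p).re with hq
  set a := gam e g U (fun q => (χ q : ℂ)) p with ha
  have hq0 : 0 ≤ q := h.gam_nonneg hχ p
  have hG0 : 0 ≤ G := h.gam_nonneg hU p
  have h8 : ‖a‖ ^ 2 ≤ G * q := h.norm_gam_sq_le hU hχ p
  have h1 : ‖2 * (χ p : ℂ) * (starRingEnd ℂ) (U p) * a‖ = 2 * χ p * ‖U p‖ * ‖a‖ := by
    rw [norm_mul, norm_mul, norm_mul, RCLike.norm_conj, Complex.norm_ofNat, Complex.norm_real,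
      Real.norm_of_nonneg h0]
  rw [h1]
  have h11 : ‖a‖ ≤ √G * √q := by
    rw [← Real.sqrt_mul hG0]
    exact Real.le_sqrt_of_sq_le h8
  have h12 : 2 * χ p * ‖U p‖ * ‖a‖ ≤ 2 * χ p * ‖U p‖ * (√G * √q) := by
    gcongr
  have h13 : √G ^ 2 = G := Real.sq_sqrt hG0
  have h14 : √q ^ 2 = q := Real.sq_sqrt hq0
  have h16 : q * ‖U p‖ ^ 2 ≤ Q * ‖U p‖ ^ 2 := mul_le_mul_of_nonneg_right hQ (sq_nonneg _)
  have h17 : (χ p * √G - 2 * ‖U p‖ * √q) ^ 2 = χ p ^ 2 * √G ^ 2 +
      4 * (√q ^ 2 * ‖U p‖ ^ 2) - 2 * (2 * χ p * ‖U p‖ * (√G * √q)) := by ring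
  rw [h13, h14] at h17
  have h18 := sq_nonneg (χ p * √G - 2 * ‖U p‖ * √q)
  linarith

/-! ### The Caccioppoli estimate -/

section Meas

variable [MeasurableSpace M] [BorelSpace M] [T2Space M] {μ : Measure M}

theorem IsDens.integrable_Sm' (hμ : IsDens e w μ) (h : L2D e V w g) {F : M → ℂ} (hF : Sm e F)
    {K : Set M} (hK : IsCompact K) (hKV : K ⊆ V) (h0 : ∀ p ∉ K, F p = 0) : Integrable F μ :=
  hμ.integrable h hK hKV
    (Sm.continuous (V := V) h.cover hF ((tsupport_sub_of_compact hK h0).trans hKV)) h0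

theorem IsDens.integrable_re (hμ : IsDens e w μ) (h : L2D e V w g) {F : M → ℂ} (hF : Sm e F)
    {K : Set M} (hK : IsCompact K) (hKV : K ⊆ V) (h0 : ∀ p ∉ K, F p = 0) :
    Integrable (fun p => (F p).re) μ := (hμ.integrable_Sm' h hF hK hKV h0).re

theorem IsDens.memLp_Sm (hμ : IsDens e w μ) (h : L2D e V w g) {F : M → ℂ} (hF : Sm e F)
    {K : Set M} (hK : IsCompact K) (hKV : K ⊆ V) (h0 : ∀ p ∉ K, F p = 0) : MemLp F 2 μ := by
  have hc : Continuous F :=
    Sm.continuous (V := V) h.cover hF ((tsupport_sub_of_compact hK h0).trans hKV)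
  rw [memLp_two_iff_integrable_sq_norm hc.aestronglyMeasurable]
  have h1 : Integrable (fun p => F p * (starRingEnd ℂ) (F p)) μ := by
    refine hμ.integrable h hK hKV ?_ fun p hp => by rw [h0 p hp, zero_mul]
    exact hc.mul (Complex.continuous_conj.comp hc)
  refine h1.re.congr (Eventually.of_forall fun p => ?_)
  simp only [RCLike.re_to_complex]
  rw [Complex.mul_conj, Complex.ofReal_re, Complex.normSq_eq_norm_sq]

/-- The Caccioppoli estimate for the approximations `U`. -/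
theorem IsDens.caccioppoli (hμ : IsDens e w μ) (h : L2D e V w g) {K : Set M} (hK : IsCompact K)
    (hKV : K ⊆ V) {χ : M → ℝ} (hχ : Sm e fun p => (χ p : ℂ)) (hχ0 : ∀ p, 0 ≤ χ p)
    (hχ1 : ∀ p, χ p ≤ 1) (hχK : ∀ p ∉ K, χ p = 0) {Q : ℝ} (hQ0 : 0 ≤ Q)
    (hQ : ∀ p ∈ V, (gam e g (fun q => (χ q : ℂ)) (fun q => (χ q : ℂ)) p).re ≤ Q)
    {U : M → ℂ} (hU : Sm e U) {K₁ : Set M} (hK₁ : IsCompact K₁) (hK₁V : K₁ ⊆ V)
    (hU0 : ∀ p ∉ K₁, U p = 0) {d : ℝ} (hd : 0 < d) (hd8 : d ≤ 1 / 8)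
    (hw : ∀ f, Sm e f → (∀ p ∉ K, f p = 0) → ‖∫ p, U p * (starRingEnd ℂ) (Lap e w g f p) ∂μ‖ ≤
      d * √((∫ p, ‖f p‖ ^ 2 ∂μ) + ∫ p, (gam e g f f p).re ∂μ)) :
    ∫ p, χ p ^ 2 * (gam e g U U p).re ∂μ ≤
      4 * d * (1 + (1 + 8 * Q) * ∫ p in K, ‖U p‖ ^ 2 ∂μ) + 8 * Q * ∫ p in K, ‖U p‖ ^ 2 ∂μ := by
  set x : M → ℂ := fun p => (χ p : ℂ) with hx
  set f : M → ℂ := fun q => (x q * x q) * U q with hf
  have hfs : Sm e f := (hχ.mul hχ).mul hU
  have hf0 : ∀ p ∉ K, f p = 0 := fun p hp => by simp [hf, hx, hχK p hp]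
  have hV : ∀ p ∉ V, χ p = 0 := fun p hp => hχK p fun h' => hp (hKV h')
  have hQ' : ∀ p, (gam e g x x p).re ≤ Q := fun p => by
    by_cases hp : p ∈ V
    · exact hQ p hp
    · rw [h.gam_notMem _ _ hp]
      exact hQ0
  -- integrability
  have i1 : Integrable (fun p => χ p ^ 2 * (gam e g U U p).re) μ := by
    have h1 := hμ.integrable_re h (F := fun p => (x p * x p) * gam e g U U p)
      ((hχ.mul hχ).mul (h.Sm_gam hU hU)) hK hKV (fun p hp => by simp [hx, hχK p hp])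
    refine h1.congr (Eventually.of_forall fun p => ?_)
    have h2 : (χ p : ℂ) * (χ p : ℂ) = ((χ p ^ 2 : ℝ) : ℂ) := by push_cast; ring
    simp only [hx]
    rw [h2, Complex.re_ofReal_mul]
  have i2 : Integrable (fun p => ‖U p‖ ^ 2) μ :=
    (memLp_two_iff_integrable_sq_norm (hμ.memLp_Sm h hU hK₁ hK₁V hU0).1).1
      (hμ.memLp_Sm h hU hK₁ hK₁V hU0)
  have hKm : MeasurableSet K := hK.isClosed.measurableSet
  have i3 : Integrable (K.indicator fun p => ‖U p‖ ^ 2) μ := i2.indicator hKm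
  have e3 : ∫ p, K.indicator (fun p => ‖U p‖ ^ 2) p ∂μ = ∫ p in K, ‖U p‖ ^ 2 ∂μ :=
    integral_indicator hKm
  set X := ∫ p, χ p ^ 2 * (gam e g U U p).re ∂μ with hX
  set A := ∫ p in K, ‖U p‖ ^ 2 ∂μ with hA
  have hX0 : 0 ≤ X := integral_nonneg fun p => mul_nonneg (sq_nonneg _) (h.gam_nonneg hU p)
  have hA0 : 0 ≤ A := integral_nonneg fun p => sq_nonneg _
  -- the energy of `f`
  have hE : (∫ p, ‖f p‖ ^ 2 ∂μ) + ∫ p, (gam e g f f p).re ∂μ ≤ (1 + 8 * Q) * A + 2 * X := by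
    have h1 : ∫ p, ‖f p‖ ^ 2 ∂μ ≤ A := by
      rw [← e3]
      refine integral_mono_of_nonneg (Eventually.of_forall fun p => sq_nonneg _) i3
        (Eventually.of_forall fun p => ?_)
      by_cases hp : p ∈ K
      · simp only [indicator_of_mem hp, hf, norm_mul, hx, Complex.norm_real,
          Real.norm_of_nonneg (hχ0 p)]
        have h2 : χ p * χ p ≤ 1 := mul_le_one₀ (hχ1 p) (hχ0 p) (hχ1 p)
        have h3 : 0 ≤ χ p * χ p := mul_self_nonneg _
        have h4 : χ p * χ p * ‖U p‖ ≤ 1 * ‖U p‖ := mul_le_mul_of_nonneg_right h2 (norm_nonneg _)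
        rw [one_mul] at h4
        exact pow_le_pow_left₀ (by positivity) h4 2
      · simp only [indicator_of_notMem hp, hf0 p hp, norm_zero]
        norm_num
    have h2 : ∫ p, (gam e g f f p).re ∂μ ≤ 2 * X + 8 * Q * A := by
      have h3 : ∫ p, (2 * (χ p ^ 2 * (gam e g U U p).re) +
          8 * Q * K.indicator (fun p => ‖U p‖ ^ 2) p) ∂μ = 2 * X + 8 * Q * A := by
        rw [integral_add (i1.const_mul 2) (i3.const_mul _), integral_const_mul, integral_const_mul,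
          e3]
      rw [← h3]
      refine integral_mono_of_nonneg (Eventually.of_forall fun p => h.gam_nonneg hfs p)
        ((i1.const_mul 2).add (i3.const_mul _)) (Eventually.of_forall fun p => ?_)
      refine (h.gam_cut_self hχ hU p (hQ' p) (hχ0 p) (hχ1 p)).trans (add_le_add le_rfl ?_)
      by_cases hp : p ∈ K
      · rw [indicator_of_mem hp]
        have h4 : χ p ^ 2 ≤ 1 := pow_le_one₀ (hχ0 p) (hχ1 p)
        have h5 : 0 ≤ Q * ‖U p‖ ^ 2 := by positivity
        nlinarith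
      · rw [indicator_of_notMem hp, hχK p hp]
        norm_num
    linarith
  -- the weak equation
  have hg : ∫ p, U p * (starRingEnd ℂ) (Lap e w g f p) ∂μ = ∫ p, gam e g U f p ∂μ :=
    hμ.green h hU hfs hK hKV (Or.inr hf0)
  have i4 : Integrable (fun p => 2 * (χ p : ℂ) * (starRingEnd ℂ) (U p) * gam e g U x p) μ := by
    refine hμ.integrable_Sm' h ?_ hK hKV fun p hp => by simp [hχK p hp]
    exact (((Sm.const 2).mul hχ).mul hU.conj).mul (h.Sm_gam hU hχ)
  have hcross : ‖∫ p, 2 * (χ p : ℂ) * (starRingEnd ℂ) (U p) * gam e g U x p ∂μ‖ ≤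
      X / 2 + 2 * Q * A := by
    have h3 : ∫ p, (χ p ^ 2 * (gam e g U U p).re / 2 +
        2 * Q * K.indicator (fun p => ‖U p‖ ^ 2) p) ∂μ = X / 2 + 2 * Q * A := by
      rw [integral_add (i1.div_const 2) (i3.const_mul _), integral_div, integral_const_mul, e3]
    rw [← h3]
    refine norm_integral_le_of_norm_le ((i1.div_const 2).add (i3.const_mul _))
      (Eventually.of_forall fun p => ?_)
    by_cases hp : p ∈ K
    · rw [indicator_of_mem hp]
      have h4 := h.norm_cross_le hχ hU p (hQ' p) (hχ0 p)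
      refine h4.trans (le_of_eq ?_)
      ring
    · rw [indicator_of_notMem hp, hχK p hp]
      simp
  have hsum : ∫ p, gam e g U f p ∂μ = (X : ℂ) +
      ∫ p, 2 * (χ p : ℂ) * (starRingEnd ℂ) (U p) * gam e g U x p ∂μ := by
    have i5 : Integrable (fun p => ((χ p ^ 2 * (gam e g U U p).re : ℝ) : ℂ)) μ := i1.ofReal
    rw [hX, ← integral_complex_ofReal, ← integral_add i5 i4]
    exact integral_congr_ae (Eventually.of_forall fun p => h.gam_cut hχ hU p)
  have hmain : X ≤ d * √((1 + 8 * Q) * A + 2 * X) + (X / 2 + 2 * Q * A) := by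
    have h1 : (X : ℂ) = (∫ p, U p * (starRingEnd ℂ) (Lap e w g f p) ∂μ) -
        ∫ p, 2 * (χ p : ℂ) * (starRingEnd ℂ) (U p) * gam e g U x p ∂μ := by
      rw [hg, hsum]
      ring
    have h2 : ‖(X : ℂ)‖ = X := by rw [Complex.norm_real, Real.norm_of_nonneg hX0]
    calc X = ‖(X : ℂ)‖ := h2.symm
      _ ≤ ‖∫ p, U p * (starRingEnd ℂ) (Lap e w g f p) ∂μ‖ +
          ‖∫ p, 2 * (χ p : ℂ) * (starRingEnd ℂ) (U p) * gam e g U x p ∂μ‖ := by
          rw [h1]
          exact norm_sub_le _ _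
      _ ≤ _ := by
          refine add_le_add ((hw f hfs hf0).trans ?_) hcross
          gcongr
  have hroot : √((1 + 8 * Q) * A + 2 * X) ≤ 1 + ((1 + 8 * Q) * A + 2 * X) := by
    have h0 : 0 ≤ (1 + 8 * Q) * A + 2 * X := by positivity
    nlinarith [Real.sq_sqrt h0, Real.sqrt_nonneg ((1 + 8 * Q) * A + 2 * X),
      sq_nonneg (√((1 + 8 * Q) * A + 2 * X) - 1)]
  have h1 : d * √((1 + 8 * Q) * A + 2 * X) ≤ d * (1 + (1 + 8 * Q) * A) + X / 4 := by
    have h2 : d * √((1 + 8 * Q) * A + 2 * X) ≤ d * (1 + ((1 + 8 * Q) * A + 2 * X)) :=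
      mul_le_mul_of_nonneg_left hroot hd.le
    nlinarith
  linarith

/-! ### Integrals over compact subsets of a chart -/

omit [MeasurableSpace M] [BorelSpace M] [T2Space M] in
theorem image_symm {c : κ} {S : Set (Cn n)} (hS : IsCompact S) (hSt : S ⊆ (e c).target) :
    IsCompact ((e c).symm '' S) ∧ (e c).symm '' S ⊆ (e c).source := by
  refine ⟨hS.image_of_continuousOn ((e c).symm.continuousOn.mono hSt), ?_⟩
  rintro _ ⟨z, hz, rfl⟩
  exact (e c).map_target (hSt hz)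

theorem IsDens.setIntegral_chartC (hμ : IsDens e w μ) (h : L2D e V w g) {c : κ} {S : Set (Cn n)}
    (hS : IsCompact S) (hSt : S ⊆ (e c).target) {F : M → ℂ}
    (hF : IntegrableOn F ((e c).symm '' S) μ) :
    IntegrableOn (fun z => (w c z : ℂ) * F ((e c).symm z)) S ∧
      ∫ z in S, (w c z : ℂ) * F ((e c).symm z) = ∫ p in (e c).symm '' S, F p ∂μ := by
  obtain ⟨hLc, hLs⟩ := image_symm (e := e) hS hSt
  set L : Set M := (e c).symm '' S with hL
  have hLm : MeasurableSet L := hLc.isClosed.measurableSet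
  have hSm : MeasurableSet S := hS.isClosed.measurableSet
  have hF' : Integrable (L.indicator F) μ := (integrable_indicator_iff hLm).2 hF
  have hmem : ∀ z ∈ (e c).target, (e c).symm z ∈ L → z ∈ S := by
    rintro z hz ⟨z', hz', h1⟩
    have h2 : z' = z := (e c).symm.injOn (hSt hz') hz h1
    rwa [← h2]
  have h1 := hμ.integral_chart h (c := c) (hF'.1.restrict)
  have h2 := (hμ.integrableOn_chart h (c := c) (hF'.1.restrict)).1 hF'.integrableOn
  have h3 : ∀ z ∈ (e c).target, (w c z : ℂ) * pb e c (L.indicator F) z =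
      S.indicator (fun z => (w c z : ℂ) * F ((e c).symm z)) z := by
    intro z hz
    by_cases hzS : z ∈ S
    · have : (e c).symm z ∈ L := ⟨z, hzS, rfl⟩
      rw [indicator_of_mem hzS, pb, indicator_of_mem this]
    · have : (e c).symm z ∉ L := fun h' => hzS (hmem z hz h')
      rw [indicator_of_notMem hzS, pb, indicator_of_notMem this, mul_zero]
  constructor
  · refine ((h2.mono_set hSt).congr_fun (fun z hz => ?_) hSm)
    have h4 := h3 z (hSt hz)
    rw [indicator_of_mem hz] at h4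
    exact h4
  · rw [setIntegral_indicator hLm, inter_eq_self_of_subset_right hLs,
      setIntegral_congr_fun (e c).open_target.measurableSet h3, setIntegral_indicator hSm,
      inter_eq_self_of_subset_right hSt] at h1
    exact h1.symm

theorem IsDens.setIntegral_chartR (hμ : IsDens e w μ) (h : L2D e V w g) {c : κ} {S : Set (Cn n)}
    (hS : IsCompact S) (hSt : S ⊆ (e c).target) {F : M → ℝ}
    (hF : IntegrableOn F ((e c).symm '' S) μ) :
    IntegrableOn (fun z => w c z * F ((e c).symm z)) S ∧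
      ∫ z in S, w c z * F ((e c).symm z) = ∫ p in (e c).symm '' S, F p ∂μ := by
  have h1 := hμ.setIntegral_chartC h hS hSt (F := fun p => (F p : ℂ)) hF.ofReal
  have h2 : ∀ z, (w c z : ℂ) * (F ((e c).symm z) : ℂ) = ((w c z * F ((e c).symm z) : ℝ) : ℂ) := by
    intro z
    push_cast
    rfl
  simp only [h2] at h1
  constructor
  · have h3 := h1.1.re
    exact h3
  · have h3 := h1.2
    rw [integral_complex_ofReal, integral_complex_ofReal] at h3
    exact_mod_cast h3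

/-! ### The end of the regularity proof -/

theorem IsDens.weak_bound (hμ : IsDens e w μ) (h : L2D e V w g) {u : M → ℂ} (hu : MemLp u 2 μ)
    {c : κ} {k : Fin n} {φ : Cn n → ℂ} (hφ : ContDiff ℝ ∞ φ) (hφc : HasCompactSupport φ)
    (hφt : tsupport φ ⊆ (e c).target) {T W : ℝ} (hT : 0 ≤ T) (hW : 0 ≤ W)
    (hTb : ∀ z ∈ tsupport φ, ∑ k, (Hm (g c) z k k).re ≤ T)
    (hWb : ∀ z ∈ tsupport φ, 1 ≤ W * w c z) {K : Set M} (hLK : (e c).symm '' tsupport φ ⊆ K)
    {U : M → ℂ} (hU : Sm e U) {K₁ : Set M} (hK₁ : IsCompact K₁) (hK₁V : K₁ ⊆ V)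
    (hU0 : ∀ p ∉ K₁, U p = 0) {D X s : ℝ} (hs : 0 < s)
    (hD : ∫ p in K, ‖U p - u p‖ ^ 2 ∂μ ≤ D)
    (hX : ∫ p in (e c).symm '' tsupport φ, (gam e g U U p).re ∂μ ≤ X) :
    ‖∫ z in (e c).target, pb e c u z * dzb k φ z‖ ≤
      s / 2 * ((∫ z, ‖φ z‖ ^ 2) + ∫ z, ‖dzb k φ z‖ ^ 2) + W / (2 * s) * (T * X + D) := by
  set S := tsupport φ with hS
  have hSc : IsCompact S := hφc
  have hSm : MeasurableSet S := hSc.isClosed.measurableSet
  obtain ⟨hLc, hLs⟩ := image_symm (e := e) hSc hφt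
  set L : Set M := (e c).symm '' S with hL
  have hLV : L ⊆ V := hLs.trans (h.sub c)
  have hsub : tsupport (dzb k φ) ⊆ S := tsupport_dzb_subset k φ
  have hdz : ∀ z ∉ S, dzb k φ z = 0 := fun z hz =>
    image_eq_zero_of_notMem_tsupport fun h' => hz (hsub h')
  have hφ0 : ∀ z ∉ S, φ z = 0 := fun z hz => image_eq_zero_of_notMem_tsupport hz
  have hdφ : Continuous (dzb k φ) := (contDiff_dzb hφ k).continuous
  -- continuity
  have hUc : ContinuousOn (pb e c U) S := (hU c).continuousOn.mono hφt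
  have hdU : ContinuousOn (dzb k (pb e c U)) S :=
    (contDiffOn_dzb (e c).open_target (hU c) k).continuousOn.mono hφt
  have hwc : ContinuousOn (fun z => (w c z : ℂ)) S :=
    (contDiffOn_ofReal (h.w_smooth c)).continuousOn.mono hφt
  have hwne : ∀ z ∈ S, (w c z : ℂ) ≠ 0 := fun z hz => by
    exact_mod_cast (h.w_pos c z (hφt hz)).ne'
  -- integrability
  have hUm : MemLp U 2 μ := hμ.memLp_Sm h hU hK₁ hK₁V hU0
  have hum : MemLp (fun p => U p - u p) 2 μ := hUm.sub hu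
  have iu2 : Integrable (fun p => ‖U p - u p‖ ^ 2) μ :=
    (memLp_two_iff_integrable_sq_norm hum.1).1 hum
  have iuL : IntegrableOn u L μ := by
    have : IsFiniteMeasure (μ.restrict L) :=
      ⟨by rw [Measure.restrict_apply_univ]; exact hμ.measure_lt_top h hLc hLV⟩
    exact (hu.restrict L).integrable (by norm_num)
  have iuS : IntegrableOn (fun z => pb e c u z * dzb k φ z) S := by
    have h1 := (hμ.setIntegral_chartC h hSc hφt iuL).1
    have h2 : ContinuousOn (fun z => dzb k φ z / (w c z : ℂ)) S :=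
      hdφ.continuousOn.div hwc hwne
    refine (h1.mul_continuousOn h2 hSc).congr_fun (fun z hz => ?_) hSm
    have := hwne z hz
    simp only [pb]
    field_simp
  have iUS : IntegrableOn (fun z => pb e c U z * dzb k φ z) S :=
    (hUc.mul hdφ.continuousOn).integrableOn_compact hSc
  have idS : IntegrableOn (fun z => dzb k (pb e c U) z * φ z) S :=
    (hdU.mul hφ.continuous.continuousOn).integrableOn_compact hSc
  have iG : Integrable (fun p => (gam e g U U p).re) μ := by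
    refine hμ.integrable_re h (h.Sm_gam hU hU) hK₁ hK₁V ?_
    exact h.gam_zero hU hU hK₁ (Or.inl hU0)
  have q1 := hμ.setIntegral_chartR h hSc hφt iu2.integrableOn
  have q2 := hμ.setIntegral_chartR h hSc hφt iG.integrableOn
  have j1 : Integrable (fun z => ‖dzb k φ z‖ ^ 2) := by
    refine (hdφ.norm.pow 2).integrable_of_hasCompactSupport ?_
    refine HasCompactSupport.intro hSc fun z hz => ?_
    change ‖dzb k φ z‖ ^ 2 = 0
    rw [hdz z hz]
    simp
  have j2 : Integrable (fun z => ‖φ z‖ ^ 2) := by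
    refine (hφ.continuous.norm.pow 2).integrable_of_hasCompactSupport ?_
    refine HasCompactSupport.intro hSc fun z hz => ?_
    change ‖φ z‖ ^ 2 = 0
    rw [hφ0 z hz]
    simp
  -- integration by parts
  have hparts : (∫ z in S, dzb k (pb e c U) z * φ z) + ∫ z in S, pb e c U z * dzb k φ z = 0 := by
    have hcd : ContDiff ℝ ∞ (fun z => pb e c U z * φ z) := by
      refine contDiff_of_support (e c).open_target ((hU c).mul hφ.contDiffOn) ?_
      exact (tsupport_mul_subset_right).trans hφt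
    have hcs : HasCompactSupport (fun z => pb e c U z * φ z) := hφc.mul_left
    have h1 := integral_dzb_eq_zero (hcd.of_le (by simp)) hcs k
    have h2 : ∀ z ∉ S, dzb k (fun z => pb e c U z * φ z) z = 0 := fun z hz =>
      dzb_of_notMem (fun h' => hz (tsupport_mul_subset_right h')) k
    rw [← setIntegral_eq_integral_of_forall_compl_eq_zero h2] at h1
    rw [← integral_add idS iUS, ← h1]
    refine setIntegral_congr_fun hSm fun z hz => ?_
    have h3 := dzb_mul (diffAtC (e c).open_target (hU c) (hφt hz))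
      ((hφ.differentiable (by simp)) z) k
    rw [h3]
  -- the splitting
  have hI : ∫ z in (e c).target, pb e c u z * dzb k φ z =
      (∫ z in S, (pb e c u z - pb e c U z) * dzb k φ z) -
        ∫ z in S, dzb k (pb e c U) z * φ z := by
    rw [setIntegral_eq_of_subset_of_forall_sdiff_eq_zero (e c).open_target.measurableSet hφt
      fun z hz => by rw [hdz z hz.2, mul_zero]]
    have h1 : ∫ z in S, (pb e c u z - pb e c U z) * dzb k φ z =
        (∫ z in S, pb e c u z * dzb k φ z) - ∫ z in S, pb e c U z * dzb k φ z := by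
      rw [← integral_sub iuS iUS]
      refine integral_congr_ae (Eventually.of_forall fun z => ?_)
      simp only
      ring
    rw [h1]
    linear_combination hparts
  have amgm : ∀ a b : ℝ, 0 ≤ a → 0 ≤ b → a * b ≤ s / 2 * b ^ 2 + 1 / (2 * s) * a ^ 2 := by
    intro a b ha hb
    have h1 : s / 2 * b ^ 2 + 1 / (2 * s) * a ^ 2 - a * b = (s * b - a) ^ 2 / (2 * s) := by
      field_simp
      ring
    have h2 : 0 ≤ (s * b - a) ^ 2 / (2 * s) := by positivity
    linarith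
  have hWs : 0 ≤ W / (2 * s) := by positivity
  -- the first term
  have t1 : ‖∫ z in S, (pb e c u z - pb e c U z) * dzb k φ z‖ ≤
      s / 2 * (∫ z, ‖dzb k φ z‖ ^ 2) + W / (2 * s) * D := by
    have h1 : ‖∫ z in S, (pb e c u z - pb e c U z) * dzb k φ z‖ ≤
        ∫ z in S, (s / 2 * ‖dzb k φ z‖ ^ 2 +
          W / (2 * s) * (w c z * ‖U ((e c).symm z) - u ((e c).symm z)‖ ^ 2)) := by
      refine norm_integral_le_of_norm_le ((j1.integrableOn.const_mul _).add
        (q1.1.const_mul _)) ?_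
      refine (ae_restrict_iff' hSm).2 (Eventually.of_forall fun z hz => ?_)
      rw [norm_mul]
      refine (amgm _ _ (norm_nonneg _) (norm_nonneg _)).trans (add_le_add le_rfl ?_)
      have h2 : ‖pb e c u z - pb e c U z‖ = ‖U ((e c).symm z) - u ((e c).symm z)‖ := by
        rw [norm_sub_rev]
        rfl
      rw [h2]
      set a := ‖U ((e c).symm z) - u ((e c).symm z)‖ ^ 2 with ha
      have h3 : a ≤ (W * w c z) * a := by
        have := hWb z hz
        have ha0 : 0 ≤ a := sq_nonneg _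
        nlinarith
      calc 1 / (2 * s) * a ≤ 1 / (2 * s) * ((W * w c z) * a) := by gcongr
        _ = W / (2 * s) * (w c z * a) := by ring
    refine h1.trans ?_
    rw [integral_add (j1.integrableOn.const_mul _) (q1.1.const_mul _), integral_const_mul,
      integral_const_mul, q1.2]
    have h4 : ∫ z in S, ‖dzb k φ z‖ ^ 2 = ∫ z, ‖dzb k φ z‖ ^ 2 :=
      setIntegral_eq_integral_of_forall_compl_eq_zero fun z hz => by
        rw [hdz z hz]
        simp
    rw [h4]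
    have h5 : ∫ p in L, ‖U p - u p‖ ^ 2 ∂μ ≤ D := by
      refine le_trans ?_ hD
      exact setIntegral_mono_set iu2.integrableOn
        (Eventually.of_forall fun p => sq_nonneg _) (Eventually.of_forall hLK)
    gcongr
  -- the second term
  have t2 : ‖∫ z in S, dzb k (pb e c U) z * φ z‖ ≤
      s / 2 * (∫ z, ‖φ z‖ ^ 2) + W / (2 * s) * (T * X) := by
    have h1 : ‖∫ z in S, dzb k (pb e c U) z * φ z‖ ≤
        ∫ z in S, (s / 2 * ‖φ z‖ ^ 2 +
          W / (2 * s) * T * (w c z * (gam e g U U ((e c).symm z)).re)) := by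
      refine norm_integral_le_of_norm_le ((j2.integrableOn.const_mul _).add
        (q2.1.const_mul _)) ?_
      refine (ae_restrict_iff' hSm).2 (Eventually.of_forall fun z hz => ?_)
      rw [norm_mul]
      refine (amgm _ _ (norm_nonneg _) (norm_nonneg _)).trans (add_le_add le_rfl ?_)
      have hz' := hφt hz
      have h2 := sum_dzb_le (h.posDef c hz') (pb e c U)
      have h3 : (gamc (g c) (pb e c U) (pb e c U) z).re = (gam e g U U ((e c).symm z)).re := by
        rw [← h.pb_gam hU hU hz']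
        rfl
      rw [h3] at h2
      set G := (gam e g U U ((e c).symm z)).re with hG
      have hG0 : 0 ≤ G := h.gam_nonneg hU _
      have h4 : ‖dzb k (pb e c U) z‖ ^ 2 ≤ T * G := by
        refine le_trans ?_ (h2.trans (mul_le_mul_of_nonneg_right (hTb z hz) hG0))
        exact Finset.single_le_sum (f := fun k => ‖dzb k (pb e c U) z‖ ^ 2)
          (fun i _ => sq_nonneg _) (Finset.mem_univ k)
      have h5 : G ≤ (W * w c z) * G := by
        have := hWb z hz
        nlinarith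
      calc 1 / (2 * s) * ‖dzb k (pb e c U) z‖ ^ 2 ≤ 1 / (2 * s) * (T * G) := by gcongr
        _ ≤ 1 / (2 * s) * (T * ((W * w c z) * G)) := by gcongr
        _ = W / (2 * s) * T * (w c z * G) := by ring
    refine h1.trans ?_
    rw [integral_add (j2.integrableOn.const_mul _) (q2.1.const_mul _), integral_const_mul,
      integral_const_mul, q2.2]
    have h4 : ∫ z in S, ‖φ z‖ ^ 2 = ∫ z, ‖φ z‖ ^ 2 :=
      setIntegral_eq_integral_of_forall_compl_eq_zero fun z hz => by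
        rw [hφ0 z hz]
        simp
    rw [h4, mul_assoc]
    gcongr
  rw [hI]
  refine (norm_sub_le _ _).trans ((add_le_add t1 t2).trans (le_of_eq ?_))
  ring

/-- **Weakly harmonic functions are weakly holomorphic.** -/
theorem IsDens.weak_holo_of (hμ : IsDens e w μ) (h : L2D e V w g) {ψ : M → ℝ}
    (hψ : IsExh e V g ψ) {u : M → ℂ} (hu : MemLp u 2 μ)
    (hA : ∀ {K : Set M}, IsCompact K → K ⊆ V → ∀ {d : ℝ}, 0 < d → ∃ U : M → ℂ, Sm e U ∧
      (∃ K₁ : Set M, IsCompact K₁ ∧ K₁ ⊆ V ∧ ∀ p ∉ K₁, U p = 0) ∧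
      ∫ p in K, ‖U p - u p‖ ^ 2 ∂μ ≤ d ^ 2 ∧
      ∀ f, Sm e f → (∀ p ∉ K, f p = 0) → ‖∫ p, U p * (starRingEnd ℂ) (Lap e w g f p) ∂μ‖ ≤
        d * √((∫ p, ‖f p‖ ^ 2 ∂μ) + ∫ p, (gam e g f f p).re ∂μ)) :
    ∀ c k, ∀ φ : Cn n → ℂ, ContDiff ℝ ∞ φ → HasCompactSupport φ → tsupport φ ⊆ (e c).target →
      ∫ z in (e c).target, pb e c u z * dzb k φ z = 0 := by
  obtain ⟨C, hC, hcut⟩ := IsExh.exists_cutoff
  intro c k φ hφ hφc hφt
  set S := tsupport φ with hS
  have hSc : IsCompact S := hφc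
  obtain ⟨hLc, hLs⟩ := image_symm (e := e) hSc hφt
  set L : Set M := (e c).symm '' S with hL
  -- constants
  obtain ⟨ν₀, hν₀⟩ := hSc.exists_bound_of_continuousOn ((hψ.smooth c).continuousOn.mono hφt)
  obtain ⟨T, hT⟩ := hSc.exists_bound_of_continuousOn (f := fun z => ∑ k, (Hm (g c) z k k).re) (by
    refine continuousOn_finsetSum _ fun k _ => ?_
    exact Complex.continuous_re.comp_continuousOn
      ((contDiffOn_Hm (e c).open_target (h.g_smooth c) k k).continuousOn.mono hφt))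
  obtain ⟨W, hW⟩ := hSc.exists_bound_of_continuousOn (f := fun z => (w c z)⁻¹)
    (((h.w_smooth c).continuousOn.mono hφt).inv₀ fun z hz => (h.w_pos c z (hφt hz)).ne')
  have hTb : ∀ z ∈ S, ∑ k, (Hm (g c) z k k).re ≤ max T 0 := fun z hz =>
    ((le_abs_self _).trans (hT z hz)).trans (le_max_left _ _)
  have hWb : ∀ z ∈ S, 1 ≤ max W 0 * w c z := by
    intro z hz
    have h1 := h.w_pos c z (hφt hz)
    have h2 : (w c z)⁻¹ ≤ max W 0 := ((le_abs_self _).trans (hW z hz)).trans (le_max_left _ _)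
    rwa [inv_le_iff_one_le_mul₀ h1] at h2
  set T' := max T 0
  set W' := max W 0
  have hT0 : 0 ≤ T' := le_max_right _ _
  have hW0 : 0 ≤ W' := le_max_right _ _
  set P := (∫ z, ‖φ z‖ ^ 2) + ∫ z, ‖dzb k φ z‖ ^ 2 with hP
  have hP0 : 0 ≤ P := add_nonneg (integral_nonneg fun _ => sq_nonneg _)
    (integral_nonneg fun _ => sq_nonneg _)
  have iu : Integrable (fun p => ‖u p‖ ^ 2) μ := (memLp_two_iff_integrable_sq_norm hu.1).1 hu
  set A₀ := ∫ p, ‖u p‖ ^ 2 ∂μ with hA₀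
  have hA₀0 : 0 ≤ A₀ := integral_nonneg fun _ => sq_nonneg _
  set B₀ := 2 * A₀ + 2 with hB₀
  set Z := T' * (4 * (1 + (1 + 8 * C ^ 2) * B₀) + 8 * C ^ 2 * B₀) + 1 with hZ
  have hZ0 : 0 ≤ Z := by positivity
  -- the main estimate
  have key : ∀ s : ℝ, 0 < s → ∀ ν : ℝ, 8 ≤ ν → ν₀ ≤ ν →
      ‖∫ z in (e c).target, pb e c u z * dzb k φ z‖ ≤ s / 2 * P + W' / (2 * s) * (Z / ν) := by
    intro s hs ν hν8 hνν
    have hν : 0 < ν := by linarith
    set K : Set M := {p | p ∈ V ∧ ψ p ≤ 2 * ν} with hKdef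
    have hK : IsCompact K := hψ.cpt _
    have hKV : K ⊆ V := fun p hp => hp.1
    have hd : 0 < 1 / ν := by positivity
    have hd1 : 1 / ν ≤ 1 := by
      rw [div_le_one hν]
      linarith
    obtain ⟨χ, c1, c2, c3, c4, c5, c6, c7⟩ := hcut h hψ ν hν
    obtain ⟨U, hU, ⟨K₁, hK₁, hK₁V, hU0⟩, hUK, hUw⟩ := hA hK hKV hd
    have hχ : Sm e fun p => (χ p : ℂ) := Sm.ofReal c1
    have hLψ : ∀ p ∈ L, ψ p ≤ ν := by
      rintro _ ⟨z, hz, rfl⟩
      have h1 := hν₀ z hz
      rw [Real.norm_eq_abs] at h1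
      exact ((le_abs_self _).trans h1).trans hνν
    have hLV : L ⊆ V := hLs.trans (h.sub c)
    have hLK : L ⊆ K := fun p hp => ⟨hLV hp, (hLψ p hp).trans (by linarith)⟩
    have hQ : ∀ p ∈ V, (gam e g (fun q => (χ q : ℂ)) (fun q => (χ q : ℂ)) p).re ≤
        (C / ν) ^ 2 := by
      intro p hp
      obtain ⟨c', hc'⟩ := h.cover p hp
      rw [h.gam_point hχ hχ hc']
      obtain ⟨t, -, ht, e1⟩ := c7 c' (e c' p) ((e c').map_source hc')
      have h2 : gamc (g c') (pb e c' fun q => (χ q : ℂ)) (pb e c' fun q => (χ q : ℂ)) (e c' p) =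
        (t : ℂ) := e1
      rw [h2, Complex.ofReal_re]
      exact ht
    have hcac := hμ.caccioppoli h hK hKV hχ c2 c3 (fun p hp => c5 p hp) (sq_nonneg (C / ν)) hQ hU
      hK₁ hK₁V hU0 hd (by
        rw [div_le_div_iff₀ hν (by norm_num)]
        linarith) hUw
    set X := ∫ p, χ p ^ 2 * (gam e g U U p).re ∂μ with hX
    set A := ∫ p in K, ‖U p‖ ^ 2 ∂μ with hAdef
    have hA0 : 0 ≤ A := integral_nonneg fun _ => sq_nonneg _
    have hUm : MemLp U 2 μ := hμ.memLp_Sm h hU hK₁ hK₁V hU0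
    have iu2 : Integrable (fun p => ‖U p - u p‖ ^ 2) μ :=
      (memLp_two_iff_integrable_sq_norm (hUm.sub hu).1).1 (hUm.sub hu)
    have hAB : A ≤ B₀ := by
      have h1 : A ≤ ∫ p in K, (2 * ‖U p - u p‖ ^ 2 + 2 * ‖u p‖ ^ 2) ∂μ := by
        refine integral_mono_of_nonneg (Eventually.of_forall fun p => sq_nonneg _)
          ((iu2.integrableOn.const_mul 2).add (iu.integrableOn.const_mul 2))
          (Eventually.of_forall fun p => ?_)
        have h2 : ‖U p‖ ≤ ‖U p - u p‖ + ‖u p‖ := by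
          have := norm_add_le (U p - u p) (u p)
          simpa using this
        have h3 : ‖U p‖ ^ 2 ≤ (‖U p - u p‖ + ‖u p‖) ^ 2 :=
          pow_le_pow_left₀ (norm_nonneg _) h2 2
        change ‖U p‖ ^ 2 ≤ 2 * ‖U p - u p‖ ^ 2 + 2 * ‖u p‖ ^ 2
        nlinarith [sq_nonneg (‖U p - u p‖ - ‖u p‖)]
      rw [integral_add (iu2.integrableOn.const_mul 2) (iu.integrableOn.const_mul 2),
        integral_const_mul, integral_const_mul] at h1
      have h4 : ∫ p in K, ‖u p‖ ^ 2 ∂μ ≤ A₀ :=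
        setIntegral_le_integral iu (Eventually.of_forall fun p => sq_nonneg _)
      have h5 : (1 / ν) ^ 2 ≤ 1 := pow_le_one₀ hd.le hd1
      linarith
    have hXL : ∫ p in L, (gam e g U U p).re ∂μ ≤ X := by
      have hLm : MeasurableSet L := hLc.isClosed.measurableSet
      have h1 : ∫ p in L, (gam e g U U p).re ∂μ =
          ∫ p in L, χ p ^ 2 * (gam e g U U p).re ∂μ := by
        refine setIntegral_congr_fun hLm fun p hp => ?_
        rw [c4 p (hLV hp) (hLψ p hp)]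
        ring
      rw [h1]
      refine setIntegral_le_integral ?_ (Eventually.of_forall fun p =>
        mul_nonneg (sq_nonneg _) (h.gam_nonneg hU p))
      have h1 := hμ.integrable_re h (F := fun p => ((χ p : ℂ) * (χ p : ℂ)) * gam e g U U p)
        ((hχ.mul hχ).mul (h.Sm_gam hU hU)) hK hKV (fun p hp => by simp [c5 p hp])
      refine h1.congr (Eventually.of_forall fun p => ?_)
      have h2 : (χ p : ℂ) * (χ p : ℂ) = ((χ p ^ 2 : ℝ) : ℂ) := by push_cast; ring
      simp only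
      rw [h2, Complex.re_ofReal_mul]
    have hb := hμ.weak_bound h hu (c := c) (k := k) hφ hφc hφt hT0 hW0 hTb hWb hLK hU hK₁ hK₁V hU0
      hs hUK hXL
    refine hb.trans (add_le_add le_rfl ?_)
    refine mul_le_mul_of_nonneg_left ?_ (by positivity)
    -- `T X + d² ≤ Z / ν`
    have h1 : (C / ν) ^ 2 ≤ C ^ 2 * (1 / ν) := by
      have : (C / ν) ^ 2 = C ^ 2 * ((1 / ν) * (1 / ν)) := by ring
      rw [this]
      refine mul_le_mul_of_nonneg_left ?_ (sq_nonneg _)
      exact mul_le_of_le_one_right hd.le hd1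
    have h2 : (C / ν) ^ 2 ≤ C ^ 2 := h1.trans (mul_le_of_le_one_right (sq_nonneg _) hd1)
    have h3 : X ≤ (1 / ν) * (4 * (1 + (1 + 8 * C ^ 2) * B₀) + 8 * C ^ 2 * B₀) := by
      refine hcac.trans ?_
      have hB₀0 : 0 ≤ B₀ := by positivity
      have h4 : (1 + 8 * (C / ν) ^ 2) * A ≤ (1 + 8 * C ^ 2) * B₀ := by
        gcongr
      have h5 : 8 * (C / ν) ^ 2 * A ≤ 8 * (C ^ 2 * (1 / ν)) * B₀ := by
        gcongr
      have h6 : 4 * (1 / ν) * (1 + (1 + 8 * (C / ν) ^ 2) * A) ≤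
          4 * (1 / ν) * (1 + (1 + 8 * C ^ 2) * B₀) := by
        gcongr
      calc _ ≤ 4 * (1 / ν) * (1 + (1 + 8 * C ^ 2) * B₀) + 8 * (C ^ 2 * (1 / ν)) * B₀ :=
            add_le_add h6 h5
        _ = _ := by ring
    have h7 : (1 / ν) ^ 2 ≤ 1 / ν := by
      rw [sq]
      exact mul_le_of_le_one_right hd.le hd1
    calc T' * X + (1 / ν) ^ 2
        ≤ T' * ((1 / ν) * (4 * (1 + (1 + 8 * C ^ 2) * B₀) + 8 * C ^ 2 * B₀)) + 1 / ν := by
          gcongr
      _ = Z / ν := by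
          rw [hZ]
          ring
  -- the limit
  have key2 : ∀ s : ℝ, 0 < s →
      ‖∫ z in (e c).target, pb e c u z * dzb k φ z‖ ≤ s / 2 * P := by
    intro s hs
    have h1 : Tendsto (fun ν : ℝ => s / 2 * P + W' / (2 * s) * (Z / ν)) atTop
        (𝓝 (s / 2 * P + W' / (2 * s) * 0)) :=
      tendsto_const_nhds.add (tendsto_const_nhds.mul (tendsto_const_nhds.div_atTop tendsto_id))
    rw [mul_zero, add_zero] at h1
    refine ge_of_tendsto h1 ?_
    filter_upwards [eventually_ge_atTop 8, eventually_ge_atTop ν₀] with ν h2 h3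
    exact key s hs ν h2 h3
  have h1 : Tendsto (fun s : ℝ => s / 2 * P) (𝓝[>] 0) (𝓝 (0 / 2 * P)) := by
    have : Continuous fun s : ℝ => s / 2 * P := by fun_prop
    exact this.continuousAt.tendsto.mono_left nhdsWithin_le_nhds
  rw [zero_div, zero_mul] at h1
  have h2 : ‖∫ z in (e c).target, pb e c u z * dzb k φ z‖ ≤ 0 := by
    refine ge_of_tendsto h1 ?_
    filter_upwards [self_mem_nhdsWithin] with s hs
    exact key2 s hs
  exact norm_le_zero_iff.1 h2

end Meas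

end Pool.Agent.KRFQ
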