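import Pool.Agent.Work.MP_a2bf38_gt.Q.ThmG
import Pool.Agent.Work.MP_a2bf38_gt.Q.Rep
import Pool.Agent.Work.MP_a2bf38_gt.Q.RegA
import Pool.Agent.Work.MP_a2bf38_gt.Q.RegEnd

/-!
# Theorem G: Hörmander's estimate for the ∂bar-equation on functions
-/

open scoped ContDiff Topology
open Set MeasureTheory Pool.Agent.ToricKRF Pool.Agent.ToricKRF.G Pool.Agent.KRFS Pool.Agent.KRFF

namespace Pool.Agent.KRFQ

/-- **Theorem G.** `μ` is the measure with the densities `w c = e^{-φ} Ω` and `k` is a semipositive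
form with `c₀ k ≤ i ∂ ∂bar (-log w)`.  A smooth function `χ` with `|∂bar χ|^2_k ≤ B` is at distance
at most `c₀⁻¹ ∫ B` from a holomorphic function. -/
theorem IsDens.hormander {M : Type} [TopologicalSpace M] {n : ℕ} {κ : Type}
    {e : κ → OpenPartialHomeomorph M (Cn n)} {V : Set M} {w g : κ → Cn n → ℝ}
    [MeasurableSpace M] [BorelSpace M] [T2Space M] {μ : Measure M}
    (hμ : IsDens e w μ) (h : L2D e V w g) {ψ : M → ℝ} (hψ : IsExh e V g ψ)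
    (s : ℕ → κ) (hs : V ⊆ ⋃ i, (e (s i)).source) (hV : μ Vᶜ = 0)
    {k : κ → Cn n → ℝ} {c₀ : ℝ} (hc₀ : 0 < c₀)
    (hk0 : ∀ c, ∀ z ∈ (e c).target, ∀ u, 0 ≤ levz (k c) u z)
    (curv : ∀ c, ∀ z ∈ (e c).target, ∀ u,
      c₀ * levz (k c) u z ≤ levz (fun x => -Real.log (w c x)) u z)
    {χ : M → ℂ} (hχ : Sm e χ) (hχ2 : MemLp χ 2 μ) {B : M → ℝ} (hB0 : ∀ p, 0 ≤ B p)
    (hBi : Integrable B μ)
    (hB : ∀ c, ∀ z ∈ (e c).target, ∀ u : Cn n,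
      ‖∑ j, dzb j (pb e c χ) z * (starRingEnd ℂ) (cc u j)‖ ^ 2 ≤
        B ((e c).symm z) * levz (k c) u z) :
    ∃ b : M → ℂ, (∀ c, ContDiffOn ℝ ∞ (pb e c b) (e c).target ∧
        ∀ k, ∀ z ∈ (e c).target, dzb k (pb e c b) z = 0) ∧ MemLp b 2 μ ∧
      ∫ p, ‖χ p - b p‖ ^ 2 ∂μ ≤ c₀⁻¹ * ∫ p, B p ∂μ :=
  hμ.hormander_of h
    (fun _ hu hweak => hμ.weak_holo_of h hψ hu fun hK hKV _ hd =>
      hμ.lemA h hu (fun f hf hf' => hweak f ⟨hf, hf'⟩) hK hKV hd)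
    (fun _ ham ha hw => hμ.exists_rep h hV s hs ham ha hw)
    hc₀ hk0 curv hχ hχ2 hB0 hBi hB

end Pool.Agent.KRFQ
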