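import Pool.Agent.Work.MP_a2bf38_gt.Q.Mfd

/-!
# Integration by parts and the invariance of the divergence
-/

open scoped ContDiff Topology ComplexOrder Matrix
open Set MeasureTheory Filter Pool.Agent.ToricKRF Pool.Agent.ToricKRF.G Pool.Agent.KRFS

namespace Pool.Agent.KRFQ

variable {n : ℕ}

theorem dz_smooth_mul {f g : Cn n → ℂ} {U : Set (Cn n)} (hU : IsOpen U)
    (hf : ContDiff ℝ ∞ f) (hfs : tsupport f ⊆ U) (hg : ContDiffOn ℝ ∞ g U) :
    ContDiff ℝ ∞ (fun x => f x * g x) := by
  refine contDiff_of_support hU (hf.contDiffOn.mul hg) ?_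
  exact (tsupport_mul_subset_left (f := f) (g := g)).trans hfs

/-- Integration by parts in a chart. -/
theorem ibp {U : Set (Cn n)} (hU : IsOpen U) {Y : Cn n → Fin n → ℂ}
    (hY : ∀ j, ContDiffOn ℝ ∞ (fun x => Y x j) U) {η : Cn n → ℂ} (hη : ContDiff ℝ ∞ η)
    (hc : HasCompactSupport η) (hs : tsupport η ⊆ U) :
    ∫ z, η z * ∑ j, dz j (fun x => Y x j) z = -∫ z, ∑ j, Y z j * dz j η z := by
  have hF : ∀ j, ContDiff ℝ ∞ (fun x => η x * Y x j) := fun j =>
    dz_smooth_mul hU hη hs (hY j)
  have hFc : ∀ j, HasCompactSupport (fun x => η x * Y x j) := fun j => hc.mul_right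
  have h1 : ∀ z, η z * ∑ j, dz j (fun x => Y x j) z + ∑ j, Y z j * dz j η z =
      ∑ j, dz j (fun x => η x * Y x j) z := by
    intro z
    by_cases hz : z ∈ tsupport η
    · rw [Finset.mul_sum, ← Finset.sum_add_distrib]
      refine Finset.sum_congr rfl fun j _ => ?_
      rw [dz_mul ((hη.differentiable (by simp)) z) (diffAtC hU (hY j) (hs hz))]
      ring
    · have h2 : η z = 0 := image_eq_zero_of_notMem_tsupport hz
      have h3 : ∀ j, dz j (fun x => η x * Y x j) z = 0 := by
        intro j
        have h4 : (fun x => η x * Y x j) =ᶠ[𝓝 z] fun _ => 0 := by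
          filter_upwards [notMem_tsupport_iff_eventuallyEq.1 hz] with x hx
          rw [hx]
          simp
        rw [dz_congr h4, dz_const]
      rw [h2, zero_mul, zero_add]
      refine Finset.sum_congr rfl fun j _ => ?_
      rw [h3, dz_of_notMem hz, mul_zero]
  have i1 : ∀ j, Integrable (fun z => Y z j * dz j η z) := by
    intro j
    have h2 : ContDiff ℝ ∞ (fun x => dz j η x * Y x j) :=
      dz_smooth_mul hU (contDiff_dz hη j) ((tsupport_dz_subset j η).trans hs) (hY j)
    have h3 : HasCompactSupport (fun x => dz j η x * Y x j) :=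
      (hc.mono' ((subset_tsupport _).trans (tsupport_dz_subset j η))).mul_right
    refine (h2.continuous.integrable_of_hasCompactSupport h3).congr
      (Eventually.of_forall fun z => mul_comm _ _)
  have i2 : ∀ j, Integrable (fun z => dz j (fun x => η x * Y x j) z) := by
    intro j
    refine (contDiff_dz (hF j) j).continuous.integrable_of_hasCompactSupport ?_
    exact (hFc j).mono' ((subset_tsupport _).trans (tsupport_dz_subset j _))
  have h5 : ∫ z, ∑ j, dz j (fun x => η x * Y x j) z = 0 := by
    rw [integral_finsetSum _ fun j _ => i2 j]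
    exact Finset.sum_eq_zero fun j _ => integral_dz_eq_zero ((hF j).of_le (by simp)) (hFc j) j
  have h6 : ∀ z, η z * ∑ j, dz j (fun x => Y x j) z =
      ∑ j, dz j (fun x => η x * Y x j) z - ∑ j, Y z j * dz j η z := by
    intro z
    rw [← h1 z]
    ring
  simp only [h6]
  rw [integral_sub (integrable_finsetSum _ fun j _ => i2 j)
    (integrable_finsetSum _ fun j _ => i1 j), h5, zero_sub]

section

variable {M : Type} [TopologicalSpace M] {κ : Type}
  {e : κ → OpenPartialHomeomorph M (Cn n)} {V : Set M} {w g : κ → Cn n → ℝ}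

/-- A smooth vector field of type `(1,0)`. -/
structure Fld (e : κ → OpenPartialHomeomorph M (Cn n)) (X : κ → Cn n → Fin n → ℂ) : Prop where
  smooth : ∀ c j, ContDiffOn ℝ ∞ (fun z => X c z j) (e c).target
  tr : ∀ c c', ∀ z ∈ dom e c c', ∀ l,
    X c' (tr e c c' z) l = ∑ k, Jm (tr e c c') z l k * X c z k

theorem image_tr_dom (c c' : κ) : tr e c c' '' dom e c c' = dom e c' c := by
  ext z
  constructor
  · rintro ⟨x, hx, rfl⟩
    exact tr_mem_dom hx
  · intro hz
    exact ⟨tr e c' c z, tr_mem_dom hz, tr_tr hz⟩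

theorem injOn_tr (c c' : κ) : InjOn (tr e c c') (dom e c c') := by
  intro x hx y hy hxy
  have h1 := congrArg (tr e c' c) hxy
  rwa [tr_tr hx, tr_tr hy] at h1

/-- Change of variables. -/
theorem integral_tr (he : ∀ c c', HolOn (tr e c c') (dom e c c')) (c c' : κ) (F : Cn n → ℂ) :
    ∫ z in dom e c' c, F z =
      ∫ z in dom e c c', |(fderiv ℝ (tr e c c') z).det| • F (tr e c c' z) := by
  have := haarCn (n := n)
  rw [← image_tr_dom c c']
  exact integral_image_eq_integral_abs_det_fderiv_smul volume (isOpen_dom c c').measurableSet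
    (fun z hz => (HolOn.differentiableAt (isOpen_dom c c') (he c c') hz).hasFDerivAt.hasFDerivWithinAt)
    (injOn_tr c c') F

include V w g in
/-- The divergence does not depend on the chart. -/
theorem L2D.dv_tr (h : L2D e V w g) {X : κ → Cn n → Fin n → ℂ} (hX : Fld e X) {c c' : κ}
    {z : Cn n} (hz : z ∈ dom e c c') :
    dv (w c') (X c') (tr e c c' z) = dv (w c) (X c) z := by
  have hd := isOpen_dom (e := e) c c'
  have hd' := isOpen_dom (e := e) c' c
  -- smoothness of the divergences
  have s1 : ContDiffOn ℝ ∞ (dv (w c) (X c)) (e c).target :=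
    contDiffOn_dv (e c).open_target (h.w_smooth c) (h.w_pos c) (hX.smooth c)
  have s2 : ContDiffOn ℝ ∞ (dv (w c') (X c')) (e c').target :=
    contDiffOn_dv (e c').open_target (h.w_smooth c') (h.w_pos c') (hX.smooth c')
  have s3 : ContDiffOn ℝ ∞ (fun x => dv (w c') (X c') (tr e c c' x)) (dom e c c') :=
    s2.comp (h.holo c c').1 fun x hx => tr_mem_target hx
  set δ : Cn n → ℂ := fun x => (w c x : ℂ) * (dv (w c) (X c) x -
    dv (w c') (X c') (tr e c c' x)) with hδ
  have hδs : ContDiffOn ℝ ∞ δ (dom e c c') :=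
    (contDiffOn_ofReal ((h.w_smooth c).mono (dom_sub c c'))).mul
      ((s1.mono (dom_sub c c')).sub s3)
  have key : ∀ η : Cn n → ℝ, ContDiff ℝ ∞ η → HasCompactSupport η → tsupport η ⊆ dom e c c' →
      ∫ x, η x • δ x = 0 := by
    intro η hη hηc hηs
    set ηc : Cn n → ℂ := fun x => (η x : ℂ) with hηcdef
    have hηc1 : ContDiff ℝ ∞ ηc := Complex.ofRealCLM.contDiff.comp hη
    have hηc2 : tsupport ηc ⊆ tsupport η := by
      refine closure_mono fun x hx => ?_
      intro h0
      exact hx (by simp [hηcdef, h0])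
    have hηc3 : HasCompactSupport ηc := hηc.of_isClosed_subset (isClosed_tsupport _) hηc2
    have hηcs : tsupport ηc ⊆ dom e c c' := hηc2.trans hηs
    -- the function in the other chart
    classical
    set η' : Cn n → ℂ := fun y => if y ∈ dom e c' c then ηc (tr e c' c y) else 0 with hη'
    have hη'0 : ∀ y ∉ tr e c c' '' tsupport ηc, η' y = 0 := by
      intro y hy
      by_cases hyd : y ∈ dom e c' c
      · simp only [hη', hyd, if_true]
        refine image_eq_zero_of_notMem_tsupport fun hm => hy ⟨_, hm, tr_tr hyd⟩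
      · simp only [hη', hyd, if_false]
    have hKc : IsCompact (tr e c c' '' tsupport ηc) :=
      hηc3.isCompact.image_of_continuousOn ((h.holo c c').1.continuousOn.mono hηcs)
    have hη's : tsupport η' ⊆ tr e c c' '' tsupport ηc := by
      refine closure_minimal (fun y hy => ?_) hKc.isClosed
      by_contra hy'
      exact hy (hη'0 y hy')
    have hη'd : tsupport η' ⊆ dom e c' c := by
      refine hη's.trans ?_
      rintro y ⟨x, hx, rfl⟩
      exact tr_mem_dom (hηcs hx)
    have hη'c : HasCompactSupport η' := hKc.of_isClosed_subset (isClosed_tsupport _) hη's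
    have hη'sm : ContDiff ℝ ∞ η' := by
      refine contDiff_of_support hd' ?_ hη'd
      refine (hηc1.comp_contDiffOn (h.holo c' c).1).congr fun y hy => ?_
      simp only [hη', hy, if_true, Function.comp_apply]
    have hη'tr : ∀ x ∈ dom e c c', η' (tr e c c' x) = ηc x := by
      intro x hx
      simp only [hη', tr_mem_dom hx, if_true, tr_tr hx]
    -- the vector fields times the densities
    have hY : ∀ j, ContDiffOn ℝ ∞ (fun x => (w c x : ℂ) * X c x j) (dom e c c') := fun j =>
      ((contDiffOn_ofReal (h.w_smooth c)).mul (hX.smooth c j)).mono (dom_sub c c')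
    have hY' : ∀ j, ContDiffOn ℝ ∞ (fun x => (w c' x : ℂ) * X c' x j) (dom e c' c) := fun j =>
      ((contDiffOn_ofReal (h.w_smooth c')).mul (hX.smooth c' j)).mono (dom_sub c' c)
    have a1 := ibp hd hY hηc1 hηc3 hηcs
    have a2 := ibp hd' hY' hη'sm hη'c hη'd
    -- the divergence times the density
    have d1 : ∀ x ∈ (e c).target, (w c x : ℂ) * dv (w c) (X c) x =
        ∑ j, dz j (fun x => (w c x : ℂ) * X c x j) x := by
      intro x hx
      have hw0 : (w c x : ℂ) ≠ 0 := by exact_mod_cast (h.w_pos c x hx).ne'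
      rw [dv, mul_div_cancel₀ _ hw0]
    have d2 : ∀ x ∈ (e c').target, (w c' x : ℂ) * dv (w c') (X c') x =
        ∑ j, dz j (fun x => (w c' x : ℂ) * X c' x j) x := by
      intro x hx
      have hw0 : (w c' x : ℂ) ≠ 0 := by exact_mod_cast (h.w_pos c' x hx).ne'
      rw [dv, mul_div_cancel₀ _ hw0]
    have b1 : ∫ x, ηc x * ((w c x : ℂ) * dv (w c) (X c) x) =
        -∫ z, ∑ j, (w c z : ℂ) * X c z j * dz j ηc z := by
      rw [← a1]
      refine integral_congr_ae (Eventually.of_forall fun x => ?_)
      by_cases hx : x ∈ dom e c c'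
      · simp only [d1 x hx.1]
      · have h2 : ηc x = 0 := image_eq_zero_of_notMem_tsupport fun hm => hx (hηcs hm)
        simp only [h2, zero_mul]
    have b2 : ∫ x, ηc x * ((w c x : ℂ) * dv (w c') (X c') (tr e c c' x)) =
        ∫ y, η' y * ((w c' y : ℂ) * dv (w c') (X c') y) := by
      have e1 : ∫ y, η' y * ((w c' y : ℂ) * dv (w c') (X c') y) =
          ∫ y in dom e c' c, η' y * ((w c' y : ℂ) * dv (w c') (X c') y) := by
        refine (setIntegral_eq_integral_of_forall_compl_eq_zero fun y hy => ?_).symm
        have h2 : η' y = 0 := image_eq_zero_of_notMem_tsupport fun hm => hy (hη'd hm)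
        simp only [h2, zero_mul]
      have e2 : ∫ x, ηc x * ((w c x : ℂ) * dv (w c') (X c') (tr e c c' x)) =
          ∫ x in dom e c c', ηc x * ((w c x : ℂ) * dv (w c') (X c') (tr e c c' x)) := by
        refine (setIntegral_eq_integral_of_forall_compl_eq_zero fun y hy => ?_).symm
        have h2 : ηc y = 0 := image_eq_zero_of_notMem_tsupport fun hm => hy (hηcs hm)
        simp only [h2, zero_mul]
      rw [e1, e2, integral_tr h.holo c c']
      refine setIntegral_congr_fun hd.measurableSet fun x hx => ?_
      rw [hη'tr x hx, h.w_compat c c' x hx, Complex.real_smul]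
      push_cast
      ring
    have b3 : ∫ y, η' y * ((w c' y : ℂ) * dv (w c') (X c') y) =
        -∫ z, ∑ j, (w c' z : ℂ) * X c' z j * dz j η' z := by
      rw [← a2]
      refine integral_congr_ae (Eventually.of_forall fun x => ?_)
      by_cases hx : x ∈ dom e c' c
      · simp only [d2 x hx.1]
      · have h2 : η' x = 0 := image_eq_zero_of_notMem_tsupport fun hm => hx (hη'd hm)
        simp only [h2, zero_mul]
    have b4 : ∫ z, ∑ j, (w c' z : ℂ) * X c' z j * dz j η' z =
        ∫ z, ∑ j, (w c z : ℂ) * X c z j * dz j ηc z := by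
      have e1 : ∫ z, ∑ j, (w c' z : ℂ) * X c' z j * dz j η' z =
          ∫ z in dom e c' c, ∑ j, (w c' z : ℂ) * X c' z j * dz j η' z := by
        refine (setIntegral_eq_integral_of_forall_compl_eq_zero fun y hy => ?_).symm
        refine Finset.sum_eq_zero fun j _ => ?_
        rw [dz_of_notMem (fun hm => hy (hη'd hm)), mul_zero]
      have e2 : ∫ z, ∑ j, (w c z : ℂ) * X c z j * dz j ηc z =
          ∫ z in dom e c c', ∑ j, (w c z : ℂ) * X c z j * dz j ηc z := by
        refine (setIntegral_eq_integral_of_forall_compl_eq_zero fun y hy => ?_).symm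
        refine Finset.sum_eq_zero fun j _ => ?_
        rw [dz_of_notMem (fun hm => hy (hηcs hm)), mul_zero]
      rw [e1, e2, integral_tr h.holo c c']
      refine setIntegral_congr_fun hd.measurableSet fun x hx => ?_
      have h3 : ∀ k, dz k ηc x = ∑ l, dz l η' (tr e c c' x) * Jm (tr e c c') x l k := by
        intro k
        have h4 : ηc =ᶠ[𝓝 x] fun y => η' (tr e c c' y) := by
          filter_upwards [hd.mem_nhds hx] with y hy
          exact (hη'tr y hy).symm
        rw [dz_congr h4]
        exact dz_comp hd (h.holo c c') hx ((hη'sm.differentiable (by simp)) _) k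
      simp only [h3, hX.tr c c' x hx]
      rw [Finset.smul_sum]
      have h5 : ∀ l, |(fderiv ℝ (tr e c c') x).det| • ((w c' (tr e c c' x) : ℂ) *
          (∑ k, Jm (tr e c c') x l k * X c x k) * dz l η' (tr e c c' x)) =
          ∑ k, (w c x : ℂ) * X c x k * (dz l η' (tr e c c' x) * Jm (tr e c c') x l k) := by
        intro l
        rw [h.w_compat c c' x hx, Complex.real_smul, Finset.mul_sum, Finset.sum_mul,
          Finset.mul_sum]
        refine Finset.sum_congr rfl fun k _ => ?_
        push_cast
        ring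
      simp only [h5]
      rw [Finset.sum_comm]
      exact Finset.sum_congr rfl fun k _ => by rw [Finset.mul_sum]
    have i1 : Integrable (fun x => ηc x * ((w c x : ℂ) * dv (w c) (X c) x)) := by
      refine Continuous.integrable_of_hasCompactSupport ?_ hηc3.mul_right
      exact (dz_smooth_mul hd hηc1 hηcs (((contDiffOn_ofReal (h.w_smooth c)).mul s1).mono
        (dom_sub c c'))).continuous
    have i2 : Integrable (fun x => ηc x * ((w c x : ℂ) * dv (w c') (X c') (tr e c c' x))) := by
      refine Continuous.integrable_of_hasCompactSupport ?_ hηc3.mul_right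
      exact (dz_smooth_mul hd hηc1 hηcs (((contDiffOn_ofReal (h.w_smooth c)).mono
        (dom_sub c c')).mul s3)).continuous
    have e9 : ∀ x, η x • δ x = ηc x * ((w c x : ℂ) * dv (w c) (X c) x) -
        ηc x * ((w c x : ℂ) * dv (w c') (X c') (tr e c c' x)) := by
      intro x
      simp only [hδ, hηcdef, Complex.real_smul]
      ring
    simp only [e9]
    rw [integral_sub i1 i2, b1, b2, b3, b4, sub_self]
  have hae := hd.ae_eq_zero_of_integral_contDiff_smul_eq_zero (μ := volume)
    (hδs.continuousOn.locallyIntegrableOn hd.measurableSet) key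
  have h0 : δ z = 0 := by
    have := haarCn (n := n)
    have h1 : δ =ᵐ[volume.restrict (dom e c c')] fun _ => (0 : ℂ) :=
      (ae_restrict_iff' hd.measurableSet).2 hae
    exact Measure.eqOn_open_of_ae_eq h1 hd hδs.continuousOn continuousOn_const hz
  have hw0 : (w c z : ℂ) ≠ 0 := by exact_mod_cast (h.w_pos c z hz.1).ne'
  rcases mul_eq_zero.1 h0 with h1 | h1
  · exact absurd h1 hw0
  · exact (sub_eq_zero.1 h1).symm

end

end Pool.Agent.KRFQ
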