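import Pool.Agent.Work.MP_a2bf38_gt.Q.Part
import Pool.Agent.Work.MP_a2bf38_gt.Q.Div

/-!
# The measure with the densities `w c`; the integral of a divergence is zero
-/

open scoped ContDiff Topology ComplexOrder Matrix
open Set MeasureTheory Filter Pool.Agent.ToricKRF Pool.Agent.ToricKRF.G Pool.Agent.KRFS

namespace Pool.Agent.KRFQ

section

variable {M : Type} [TopologicalSpace M] {n : ℕ} {κ : Type}

/-- `μ` is the measure with the densities `w c`. -/
structure IsDens [MeasurableSpace M] (e : κ → OpenPartialHomeomorph M (Cn n))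
    (w : κ → Cn n → ℝ) (μ : Measure M) : Prop where
  eq : ∀ c, μ.restrict (e c).source = Measure.map (e c).symm
    ((volume.restrict (e c).target).withDensity fun z => ENNReal.ofReal (w c z))

open Classical in
/-- The function on `M` with the values `F c z` in the charts. -/
noncomputable def glob (e : κ → OpenPartialHomeomorph M (Cn n)) (F : κ → Cn n → ℂ) (p : M) : ℂ :=
  if h : ∃ c, p ∈ (e c).source then F h.choose (e h.choose p) else 0

variable {e : κ → OpenPartialHomeomorph M (Cn n)} {V : Set M} {w g : κ → Cn n → ℝ}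

theorem glob_eq {F : κ → Cn n → ℂ}
    (hF : ∀ c c', ∀ z ∈ dom e c c', F c' (tr e c c' z) = F c z) {c : κ} {p : M}
    (hp : p ∈ (e c).source) : glob e F p = F c (e c p) := by
  have h : ∃ c, p ∈ (e c).source := ⟨c, hp⟩
  rw [glob, dif_pos h]
  have h1 := hF c h.choose (e c p) (mem_dom hp h.choose_spec)
  rw [tr_apply hp] at h1
  exact h1

theorem pb_glob {F : κ → Cn n → ℂ}
    (hF : ∀ c c', ∀ z ∈ dom e c c', F c' (tr e c c' z) = F c z) {c : κ} {z : Cn n}
    (hz : z ∈ (e c).target) : pb e c (glob e F) z = F c z := by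
  rw [pb, glob_eq hF ((e c).map_target hz), (e c).right_inv hz]

theorem Sm_glob {F : κ → Cn n → ℂ}
    (hF : ∀ c c', ∀ z ∈ dom e c c', F c' (tr e c c' z) = F c z)
    (hs : ∀ c, ContDiffOn ℝ ∞ (F c) (e c).target) : Sm e (glob e F) := fun c =>
  (hs c).congr fun _ hz => pb_glob hF hz

section

variable [MeasurableSpace M] [BorelSpace M] {μ : Measure M}

theorem aemeasurable_symm (c : κ) (f : Cn n → ENNReal) :
    AEMeasurable (e c).symm ((volume.restrict (e c).target).withDensity f) := by
  refine AEMeasurable.mono_ac ?_ (withDensity_absolutelyContinuous _ _)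
  exact (e c).symm.continuousOn.aemeasurable (e c).open_target.measurableSet

theorem IsDens.integral_chart (hμ : IsDens e w μ) (h : L2D e V w g) {c : κ} {F : M → ℂ}
    (hF : AEStronglyMeasurable F (μ.restrict (e c).source)) :
    ∫ p in (e c).source, F p ∂μ = ∫ z in (e c).target, (w c z : ℂ) * pb e c F z := by
  have hm : AEMeasurable (fun z => ENNReal.ofReal (w c z)) (volume.restrict (e c).target) :=
    ((h.w_smooth c).continuousOn.aemeasurable (e c).open_target.measurableSet).ennreal_ofReal
  rw [hμ.eq c] at hF ⊢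
  rw [integral_map (aemeasurable_symm c _) hF, integral_withDensity_eq_integral_toReal_smul₀ hm
    (Eventually.of_forall fun z => ENNReal.ofReal_lt_top)]
  refine setIntegral_congr_fun (e c).open_target.measurableSet fun z hz => ?_
  simp only [ENNReal.toReal_ofReal (h.w_pos c z hz).le, Complex.real_smul, pb]

theorem IsDens.integrableOn_chart (hμ : IsDens e w μ) (h : L2D e V w g) {c : κ} {F : M → ℂ}
    (hF : AEStronglyMeasurable F (μ.restrict (e c).source)) :
    IntegrableOn F (e c).source μ ↔
      IntegrableOn (fun z => (w c z : ℂ) * pb e c F z) (e c).target := by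
  have hm : AEMeasurable (fun z => ENNReal.ofReal (w c z)) (volume.restrict (e c).target) :=
    ((h.w_smooth c).continuousOn.aemeasurable (e c).open_target.measurableSet).ennreal_ofReal
  have h1 : IntegrableOn (fun z => (w c z : ℂ) * pb e c F z) (e c).target ↔
      IntegrableOn (fun z => (ENNReal.ofReal (w c z)).toReal • F ((e c).symm z)) (e c).target := by
    refine integrableOn_congr_fun (fun z hz => ?_) (e c).open_target.measurableSet
    simp only [ENNReal.toReal_ofReal (h.w_pos c z hz).le, Complex.real_smul, pb]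
  rw [h1, IntegrableOn, IntegrableOn]
  rw [hμ.eq c] at hF ⊢
  rw [integrable_map_measure hF (aemeasurable_symm c _),
    integrable_withDensity_iff_integrable_smul₀' hm
      (Eventually.of_forall fun z => ENNReal.ofReal_lt_top)]
  rfl

theorem IsDens.measure_lt_top (hμ : IsDens e w μ) (h : L2D e V w g) {K : Set M}
    (hK : IsCompact K) (hKV : K ⊆ V) : μ K < ⊤ := by
  refine hK.measure_lt_top_of_nhdsWithin fun p hp => ?_
  obtain ⟨c, hc⟩ := h.cover p (hKV hp)
  obtain ⟨r, hr, hb⟩ := Metric.isOpen_iff.1 (e c).open_target (e c p) ((e c).map_source hc)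
  have hball : Metric.closedBall (e c p) (r / 2) ⊆ (e c).target :=
    (Metric.closedBall_subset_ball (by linarith)).trans hb
  have hN : (e c).source ∩ e c ⁻¹' Metric.ball (e c p) (r / 2) ∈ 𝓝 p :=
    ((e c).isOpen_inter_preimage Metric.isOpen_ball).mem_nhds
      ⟨hc, Metric.mem_ball_self (by positivity)⟩
  refine ⟨_, mem_nhdsWithin_of_mem_nhds hN, ?_⟩
  have ho := (e c).isOpen_inter_preimage (Metric.isOpen_ball (x := e c p) (ε := r / 2))
  have h1 : μ ((e c).source ∩ e c ⁻¹' Metric.ball (e c p) (r / 2)) =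
      μ.restrict (e c).source ((e c).source ∩ e c ⁻¹' Metric.ball (e c p) (r / 2)) := by
    rw [Measure.restrict_apply ho.measurableSet]
    congr 1
    ext q
    simp only [mem_inter_iff]
    tauto
  rw [h1, hμ.eq c, Measure.map_apply_of_aemeasurable (aemeasurable_symm c _) ho.measurableSet]
  set ν : Measure (Cn n) := (volume.restrict (e c).target).withDensity
    fun z => ENNReal.ofReal (w c z) with hν
  have hsub : (e c).symm ⁻¹' ((e c).source ∩ e c ⁻¹' Metric.ball (e c p) (r / 2)) ⊆
      Metric.closedBall (e c p) (r / 2) ∪ ((e c).target)ᶜ := by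
    intro z hz
    by_cases hzt : z ∈ (e c).target
    · left
      have h2 : e c ((e c).symm z) ∈ Metric.ball (e c p) (r / 2) := hz.2
      rw [(e c).right_inv hzt] at h2
      exact Metric.ball_subset_closedBall h2
    · exact Or.inr hzt
  have h3 : ν ((e c).target)ᶜ = 0 := by
    refine withDensity_absolutelyContinuous _ _ ?_
    rw [Measure.restrict_apply (e c).open_target.measurableSet.compl]
    simp
  have hBc : IsCompact (Metric.closedBall (e c p) (r / 2)) := isCompact_closedBall _ _
  obtain ⟨C, hC⟩ := hBc.exists_bound_of_continuousOn ((h.w_smooth c).continuousOn.mono hball)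
  have h4 : ν (Metric.closedBall (e c p) (r / 2)) < ⊤ := by
    rw [hν, withDensity_apply _ hBc.isClosed.measurableSet]
    have h5 : ∀ᵐ z ∂((volume.restrict (e c).target).restrict (Metric.closedBall (e c p) (r / 2))),
        ENNReal.ofReal (w c z) ≤ ENNReal.ofReal C := by
      refine (ae_restrict_iff' hBc.isClosed.measurableSet).2 (Eventually.of_forall fun z hz => ?_)
      exact ENNReal.ofReal_le_ofReal ((le_abs_self _).trans (hC z hz))
    refine (lintegral_mono_ae h5).trans_lt ?_
    rw [lintegral_const]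
    refine ENNReal.mul_lt_top ENNReal.ofReal_lt_top ?_
    rw [Measure.restrict_apply MeasurableSet.univ, univ_inter]
    refine (Measure.restrict_apply_le _ _).trans_lt ?_
    exact hBc.measure_lt_top
  calc ν ((e c).symm ⁻¹' ((e c).source ∩ e c ⁻¹' Metric.ball (e c p) (r / 2)))
      ≤ ν (Metric.closedBall (e c p) (r / 2)) + ν ((e c).target)ᶜ :=
        (measure_mono hsub).trans (measure_union_le _ _)
    _ < ⊤ := by
        rw [h3, add_zero]
        exact h4

theorem IsDens.integrable [T2Space M] (hμ : IsDens e w μ) (h : L2D e V w g) {F : M → ℂ} {K : Set M}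
    (hK : IsCompact K) (hKV : K ⊆ V) (hF : Continuous F) (h0 : ∀ p ∉ K, F p = 0) :
    Integrable F μ := by
  obtain ⟨C, hC⟩ := hK.exists_bound_of_continuousOn hF.continuousOn
  have h1 : IntegrableOn F K μ := by
    refine Measure.integrableOn_of_bounded (M := C) (hμ.measure_lt_top h hK hKV).ne
      hF.aestronglyMeasurable ?_
    exact ae_restrict_of_forall_mem hK.isClosed.measurableSet hC
  exact (integrableOn_iff_integrable_of_support_subset fun p hp => by
    by_contra hpK
    exact hp (h0 p hpK)).1 h1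

/-- The integral of a function which vanishes off a compact set of the chart `c`. -/
theorem IsDens.integral_eq (hμ : IsDens e w μ) (h : L2D e V w g) {c : κ} {F : M → ℂ}
    (hF : Continuous F) (h0 : ∀ p ∉ (e c).source, F p = 0) :
    ∫ p, F p ∂μ = ∫ z in (e c).target, (w c z : ℂ) * pb e c F z := by
  rw [← hμ.integral_chart h hF.aestronglyMeasurable]
  exact (setIntegral_eq_integral_of_forall_compl_eq_zero h0).symm

/-- The divergence of a field, as a function on `M`. -/
noncomputable def divg (e : κ → OpenPartialHomeomorph M (Cn n)) (w : κ → Cn n → ℝ)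
    (X : κ → Cn n → Fin n → ℂ) : M → ℂ := glob e fun c => dv (w c) (X c)

/-- The derivative `X ζ` of a function, as a function on `M`. -/
noncomputable def act (e : κ → OpenPartialHomeomorph M (Cn n)) (X : κ → Cn n → Fin n → ℂ)
    (ζ : M → ℂ) : M → ℂ := glob e fun c z => ∑ j, X c z j * dz j (pb e c ζ) z

omit [MeasurableSpace M] [BorelSpace M] in
theorem L2D.act_tr (h : L2D e V w g) {X : κ → Cn n → Fin n → ℂ} (hX : Fld e X) {ζ : M → ℂ}
    (hζ : Sm e ζ) (c c' : κ) : ∀ z ∈ dom e c c',
    ∑ j, X c' (tr e c c' z) j * dz j (pb e c' ζ) (tr e c c' z) =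
      ∑ j, X c z j * dz j (pb e c ζ) z := by
  intro z hz
  simp only [dz_pb h.holo hζ hz, hX.tr c c' z hz, Finset.sum_mul, Finset.mul_sum]
  rw [Finset.sum_comm]
  exact Finset.sum_congr rfl fun j _ => Finset.sum_congr rfl fun l _ => by ring

omit [MeasurableSpace M] [BorelSpace M] in
theorem L2D.pb_divg (h : L2D e V w g) {X : κ → Cn n → Fin n → ℂ} (hX : Fld e X) {c : κ}
    {z : Cn n} (hz : z ∈ (e c).target) : pb e c (divg e w X) z = dv (w c) (X c) z :=
  pb_glob (fun _ _ _ hz => h.dv_tr hX hz) hz

omit [MeasurableSpace M] [BorelSpace M] in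
theorem L2D.pb_act (h : L2D e V w g) {X : κ → Cn n → Fin n → ℂ} (hX : Fld e X) {ζ : M → ℂ}
    (hζ : Sm e ζ) {c : κ} {z : Cn n} (hz : z ∈ (e c).target) :
    pb e c (act e X ζ) z = ∑ j, X c z j * dz j (pb e c ζ) z :=
  pb_glob (fun c c' => h.act_tr hX hζ c c') hz

omit [MeasurableSpace M] [BorelSpace M] in
theorem L2D.Sm_divg (h : L2D e V w g) {X : κ → Cn n → Fin n → ℂ} (hX : Fld e X) :
    Sm e (divg e w X) :=
  Sm_glob (fun _ _ _ hz => h.dv_tr hX hz) fun c =>
    contDiffOn_dv (e c).open_target (h.w_smooth c) (h.w_pos c) (hX.smooth c)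

omit [MeasurableSpace M] [BorelSpace M] in
theorem L2D.Sm_act (h : L2D e V w g) {X : κ → Cn n → Fin n → ℂ} (hX : Fld e X) {ζ : M → ℂ}
    (hζ : Sm e ζ) : Sm e (act e X ζ) :=
  Sm_glob (fun c c' => h.act_tr hX hζ c c') fun c =>
    ContDiffOn.sum fun j _ => (hX.smooth c j).mul (contDiffOn_dz (e c).open_target (hζ c) j)

omit [MeasurableSpace M] [BorelSpace M] in
theorem tsupport_sub_of_compact [T2Space M] {F : M → ℂ} {K : Set M} (hK : IsCompact K)
    (h0 : ∀ p ∉ K, F p = 0) : tsupport F ⊆ K :=
  closure_minimal (fun p hp => by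
    by_contra hpK
    exact hp (h0 p hpK)) hK.isClosed

omit [MeasurableSpace M] [BorelSpace M] in
/-- A smooth function with compact support in a chart, as a function on `ℂ^n`. -/
theorem exists_ext [T2Space M] {ζ : M → ℂ} (hζ : Sm e ζ) {c : κ} {K : Set M}
    (hK : IsCompact K) (hKs : K ⊆ (e c).source) (h0 : ∀ p ∉ K, ζ p = 0) :
    ∃ η : Cn n → ℂ, ContDiff ℝ ∞ η ∧ HasCompactSupport η ∧ tsupport η ⊆ (e c).target ∧
      tsupport η ⊆ e c '' K ∧
      (∀ z ∈ (e c).target, η z = pb e c ζ z) ∧ ∀ z ∉ (e c).target, η z = 0 := by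
  classical
  set η : Cn n → ℂ := fun z => if z ∈ (e c).target then pb e c ζ z else 0 with hη
  have hKc : IsCompact (e c '' K) := hK.image_of_continuousOn ((e c).continuousOn.mono hKs)
  have hKt : e c '' K ⊆ (e c).target := by
    rintro z ⟨p, hp, rfl⟩
    exact (e c).map_source (hKs hp)
  have hs : tsupport η ⊆ e c '' K := by
    refine closure_minimal (fun z hz => ?_) hKc.isClosed
    by_contra hzK
    apply hz
    by_cases hzt : z ∈ (e c).target
    · simp only [hη, hzt, if_true]
      refine h0 _ fun hm => hzK ⟨_, hm, (e c).right_inv hzt⟩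
    · simp only [hη, hzt, if_false]
  refine ⟨η, ?_, hKc.of_isClosed_subset (isClosed_tsupport _) hs, hs.trans hKt, hs,
    fun z hz => ?_, fun z hz => ?_⟩
  · refine contDiff_of_support (e c).open_target ?_ (hs.trans hKt)
    refine (hζ c).congr fun z hz => ?_
    simp only [hη, hz, if_true]
  · simp only [hη, hz, if_true]
  · simp only [hη, hz, if_false]

/-- Integration by parts for a function with compact support in the chart `c`. -/
theorem IsDens.ibp_chart [T2Space M] (hμ : IsDens e w μ) (h : L2D e V w g)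
    {X : κ → Cn n → Fin n → ℂ} (hX : Fld e X) {ζ : M → ℂ} (hζ : Sm e ζ) {c : κ} {K : Set M}
    (hK : IsCompact K) (hKs : K ⊆ (e c).source) (h0 : ∀ p ∉ K, ζ p = 0) :
    ∫ p, ζ p * divg e w X p ∂μ = -∫ p, act e X ζ p ∂μ := by
  obtain ⟨η, hη, hηc, hηt, -, hη1, hη2⟩ := exists_ext hζ hK hKs h0
  have hKV : K ⊆ V := hKs.trans (h.sub c)
  have hact0 : ∀ p ∉ K, act e X ζ p = 0 := by
    intro p hp
    by_cases hc : ∃ c', p ∈ (e c').source
    · obtain ⟨c', hc'⟩ := hc
      have h1 := h.pb_act hX hζ ((e c').map_source hc')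
      rw [pb, (e c').left_inv hc'] at h1
      rw [h1]
      refine Finset.sum_eq_zero fun j _ => ?_
      have h2 : pb e c' ζ =ᶠ[𝓝 (e c' p)] fun _ => 0 := by
        have h3 : ∀ᶠ x in 𝓝 (e c' p), (e c').symm x ∈ Kᶜ := by
          refine ((e c').symm.continuousAt ((e c').map_source hc')).eventually ?_
          rw [(e c').left_inv hc']
          exact hK.isClosed.isOpen_compl.mem_nhds hp
        filter_upwards [h3] with x hx
        exact h0 _ hx
      rw [dz_congr h2, dz_const, mul_zero]
    · rw [act, glob, dif_neg hc]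
  have hF1 : Continuous fun p => ζ p * divg e w X p := by
    refine Sm.continuous (V := V) h.cover (hζ.mul (h.Sm_divg hX)) ?_
    refine (tsupport_sub_of_compact hK fun p hp => ?_).trans hKV
    rw [h0 p hp, zero_mul]
  have hF2 : Continuous (act e X ζ) :=
    Sm.continuous (V := V) h.cover (h.Sm_act hX hζ)
      ((tsupport_sub_of_compact hK hact0).trans hKV)
  rw [hμ.integral_eq h hF1 fun p hp => by rw [h0 p fun hm => hp (hKs hm), zero_mul],
    hμ.integral_eq h hF2 fun p hp => hact0 p fun hm => hp (hKs hm)]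
  have hY : ∀ j, ContDiffOn ℝ ∞ (fun x => (w c x : ℂ) * X c x j) (e c).target := fun j =>
    (contDiffOn_ofReal (h.w_smooth c)).mul (hX.smooth c j)
  have h1 := KRFQ.ibp (e c).open_target hY hη hηc hηt
  have e1 : ∫ z in (e c).target, (w c z : ℂ) * pb e c (fun p => ζ p * divg e w X p) z =
      ∫ z, η z * ∑ j, dz j (fun x => (w c x : ℂ) * X c x j) z := by
    rw [← setIntegral_eq_integral_of_forall_compl_eq_zero (s := (e c).target)
      (f := fun z => η z * ∑ j, dz j (fun x => (w c x : ℂ) * X c x j) z)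
      (fun z hz => by rw [hη2 z hz, zero_mul])]
    refine setIntegral_congr_fun (e c).open_target.measurableSet fun z hz => ?_
    have hw0 : (w c z : ℂ) ≠ 0 := by exact_mod_cast (h.w_pos c z hz).ne'
    have h2 : pb e c (fun p => ζ p * divg e w X p) z = pb e c ζ z * pb e c (divg e w X) z := rfl
    rw [h2, h.pb_divg hX hz, hη1 z hz, dv]
    field_simp
  have e2 : ∫ z in (e c).target, (w c z : ℂ) * pb e c (act e X ζ) z =
      ∫ z, ∑ j, (w c z : ℂ) * X c z j * dz j η z := by
    rw [← setIntegral_eq_integral_of_forall_compl_eq_zero (s := (e c).target)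
      (f := fun z => ∑ j, (w c z : ℂ) * X c z j * dz j η z) (fun z hz => by
        refine Finset.sum_eq_zero fun j _ => ?_
        rw [dz_of_notMem (fun hm => hz (hηt hm)), mul_zero])]
    refine setIntegral_congr_fun (e c).open_target.measurableSet fun z hz => ?_
    have h3 : ∀ j, dz j η z = dz j (pb e c ζ) z := by
      intro j
      refine dz_congr ?_ j
      filter_upwards [(e c).open_target.mem_nhds hz] with x hx using hη1 x hx
    simp only [h3]
    rw [h.pb_act hX hζ hz, Finset.mul_sum]
    exact Finset.sum_congr rfl fun j _ => by ring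
  rw [e1, e2, h1]

/-- The integral of the divergence of a field with compact support is zero. -/
theorem IsDens.integral_divg [T2Space M] (hμ : IsDens e w μ) (h : L2D e V w g)
    {X : κ → Cn n → Fin n → ℂ} (hX : Fld e X) {K : Set M} (hK : IsCompact K) (hKV : K ⊆ V)
    (h0 : ∀ c, ∀ z ∈ (e c).target, (e c).symm z ∉ K → X c z = 0) :
    ∫ p, divg e w X p ∂μ = 0 := by
  obtain ⟨s, c, ζ, O, hO, hKO, hζ, hsum⟩ := exists_partition h.holo hK
    (fun p hp => h.cover p (hKV hp))
  set Z : K → M → ℂ := fun i p => (ζ i p : ℂ) with hZ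
  have hZs : ∀ i, Sm e (Z i) := fun i c' => contDiffOn_ofReal ((hζ i).1 c')
  have hS : Sm e (divg e w X) := h.Sm_divg hX
  -- the divergence vanishes off `K`
  have hX0 : ∀ c, ∀ z ∈ (e c).target, (e c).symm z ∉ K → dv (w c) (X c) z = 0 := by
    intro c z hz hzK
    have h3 : ∀ᶠ x in 𝓝 z, (e c).symm x ∈ Kᶜ :=
      ((e c).symm.continuousAt hz).eventually (hK.isClosed.isOpen_compl.mem_nhds hzK)
    have h2 : X c =ᶠ[𝓝 z] fun _ => 0 := by
      filter_upwards [h3, (e c).open_target.mem_nhds hz] with x hx hxt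
      exact h0 c x hxt hx
    rw [dv_congr h2]
    simp [dv, dz_const]
  have hd0 : ∀ p ∉ K, divg e w X p = 0 := by
    intro p hp
    by_cases hc : ∃ c', p ∈ (e c').source
    · obtain ⟨c', hc'⟩ := hc
      have h1 := h.pb_divg hX ((e c').map_source hc')
      rw [pb, (e c').left_inv hc'] at h1
      rw [h1]
      exact hX0 c' _ ((e c').map_source hc') (by rwa [(e c').left_inv hc'])
    · rw [divg, glob, dif_neg hc]
  have hcont : ∀ i, Continuous fun p => Z i p * divg e w X p := by
    intro i
    refine Sm.continuous (V := V) h.cover ((hZs i).mul hS) ?_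
    refine (tsupport_sub_of_compact hK fun p hp => ?_).trans hKV
    rw [hd0 p hp, mul_zero]
  have hint : ∀ i, Integrable (fun p => Z i p * divg e w X p) μ := fun i =>
    hμ.integrable h hK hKV (hcont i) fun p hp => by rw [hd0 p hp, mul_zero]
  have hact0 : ∀ i, ∀ p ∉ K, act e X (Z i) p = 0 := by
    intro i p hp
    by_cases hc : ∃ c', p ∈ (e c').source
    · obtain ⟨c', hc'⟩ := hc
      have h1 := h.pb_act hX (hZs i) ((e c').map_source hc')
      rw [pb, (e c').left_inv hc'] at h1
      rw [h1]
      have h2 := h0 c' _ ((e c').map_source hc') (by rwa [(e c').left_inv hc'])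
      simp [h2]
    · rw [act, glob, dif_neg hc]
  have hcont2 : ∀ i, Continuous (act e X (Z i)) := fun i =>
    Sm.continuous (V := V) h.cover (h.Sm_act hX (hZs i))
      ((tsupport_sub_of_compact hK (hact0 i)).trans hKV)
  have hint2 : ∀ i, Integrable (act e X (Z i)) μ := fun i =>
    hμ.integrable h hK hKV (hcont2 i) (hact0 i)
  have e1 : ∫ p, divg e w X p ∂μ = ∑ i ∈ s, ∫ p, Z i p * divg e w X p ∂μ := by
    rw [← integral_finsetSum _ fun i _ => hint i]
    refine integral_congr_ae (Eventually.of_forall fun p => ?_)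
    simp only
    rw [← Finset.sum_mul]
    by_cases hp : p ∈ K
    · have h1 : ∑ i ∈ s, Z i p = 1 := by
        simp only [hZ]
        rw [← Complex.ofReal_sum, hsum p (hKO hp), Complex.ofReal_one]
      rw [h1, one_mul]
    · rw [hd0 p hp, mul_zero]
  have e2 : ∀ i, ∫ p, Z i p * divg e w X p ∂μ = -∫ p, act e X (Z i) p ∂μ := by
    intro i
    obtain ⟨K', hK', hK's, hz⟩ := (hζ i).2.2
    exact hμ.ibp_chart h hX (hZs i) hK' hK's fun q hq => by simp only [hZ, hz q hq,
      Complex.ofReal_zero]
  rw [e1]
  simp only [e2]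
  rw [Finset.sum_neg_distrib, ← integral_finsetSum _ fun i _ => hint2 i]
  have e3 : ∀ p, ∑ i ∈ s, act e X (Z i) p = 0 := by
    intro p
    by_cases hp : p ∈ K
    · obtain ⟨c', hc'⟩ := h.cover p (hKV hp)
      have hzt := (e c').map_source hc'
      have h1 : ∀ i, act e X (Z i) p =
          ∑ j, X c' (e c' p) j * dz j (pb e c' (Z i)) (e c' p) := by
        intro i
        have h1 := h.pb_act hX (hZs i) hzt
        rwa [pb, (e c').left_inv hc'] at h1
      simp only [h1]
      rw [Finset.sum_comm]
      refine Finset.sum_eq_zero fun j _ => ?_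
      rw [← Finset.mul_sum, ← dz_sum _ fun i _ => diffAtC (e c').open_target (hZs i c') hzt]
      have h2 : (fun y => ∑ i ∈ s, pb e c' (Z i) y) =ᶠ[𝓝 (e c' p)] fun _ => 1 := by
        have h3 : ∀ᶠ x in 𝓝 (e c' p), (e c').symm x ∈ O := by
          refine ((e c').symm.continuousAt hzt).eventually ?_
          rw [(e c').left_inv hc']
          exact hO.mem_nhds (hKO hp)
        filter_upwards [h3] with x hx
        simp only [pb, hZ]
        rw [← Complex.ofReal_sum, hsum _ hx, Complex.ofReal_one]
      rw [dz_congr h2, dz_const, mul_zero]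
    · exact Finset.sum_eq_zero fun i _ => hact0 i p hp
  simp only [e3]
  simp

end

end

end Pool.Agent.KRFQ
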