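import Pool.Agent.Work.MP_a2bf38_gt.Q.Chain

/-!
# The pointwise Bochner identity for a vector field and a density
-/

open scoped ContDiff Topology
open Set MeasureTheory Filter Pool.Agent.ToricKRF Pool.Agent.ToricKRF.G Pool.Agent.KRFS

namespace Pool.Agent.KRFQ

variable {n : ℕ}

theorem diffAtC {E F : Type*} [NormedAddCommGroup E] [NormedSpace ℝ E]
    [NormedAddCommGroup F] [NormedSpace ℝ F] {f : E → F} {U : Set E} (hU : IsOpen U)
    (hf : ContDiffOn ℝ ∞ f U) {x : E} (hx : x ∈ U) : DifferentiableAt ℝ f x :=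
  (hf.differentiableOn (by simp)).differentiableAt (hU.mem_nhds hx)

theorem contDiffOn_conj {f : Cn n → ℂ} {U : Set (Cn n)} (hf : ContDiffOn ℝ ∞ f U) :
    ContDiffOn ℝ ∞ (fun x => (starRingEnd ℂ) (f x)) U :=
  Complex.conjCLE.contDiff.comp_contDiffOn hf

theorem contDiffOn_ofReal {f : Cn n → ℝ} {U : Set (Cn n)} (hf : ContDiffOn ℝ ∞ f U) :
    ContDiffOn ℝ ∞ (fun x => (f x : ℂ)) U :=
  Complex.ofRealCLM.contDiff.comp_contDiffOn hf

/-- The divergence, with respect to the density `w`, of the vector field `∑ X_j ∂_j`. -/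
noncomputable def dv (w : Cn n → ℝ) (X : Cn n → Fin n → ℂ) (z : Cn n) : ℂ :=
  (∑ j, dz j (fun x => (w x : ℂ) * X x j) z) / w z

/-- The function `-log w` with complex values. -/
noncomputable def nlog (w : Cn n → ℝ) (x : Cn n) : ℂ := ((-Real.log (w x) : ℝ) : ℂ)

/-- The complex Hessian `∂_j ∂_kbar f` of a real function. -/
noncomputable def Hm (f : Cn n → ℝ) (z : Cn n) : Matrix (Fin n) (Fin n) ℂ :=
  Matrix.of fun j k => dz j (dzb k (fun x => (f x : ℂ))) z

section

variable {w : Cn n → ℝ} {U : Set (Cn n)}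

theorem contDiffOn_nlog (hw : ContDiffOn ℝ ∞ w U) (hpos : ∀ z ∈ U, 0 < w z) :
    ContDiffOn ℝ ∞ (nlog w) U :=
  contDiffOn_ofReal ((hw.log fun z hz => (hpos z hz).ne').neg)

theorem dz_w (hU : IsOpen U) (hw : ContDiffOn ℝ ∞ w U) (hpos : ∀ z ∈ U, 0 < w z) {z : Cn n}
    (hz : z ∈ U) (j : Fin n) :
    dz j (fun x => (w x : ℂ)) z = -(w z : ℂ) * dz j (nlog w) z := by
  have h0 : ∀ u, fderiv ℝ (fun x => (w x : ℂ)) z u = ((fderiv ℝ w z u : ℝ) : ℂ) := by
    intro u
    have h := Complex.ofRealCLM.hasFDerivAt.comp z (diffAtC hU hw hz).hasFDerivAt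
    have h2 : (fun x => (w x : ℂ)) = Complex.ofRealCLM ∘ w := rfl
    rw [h2, h.fderiv]
    rfl
  have h1 : ∀ u, fderiv ℝ (nlog w) z u = ((-(w z)⁻¹ * fderiv ℝ w z u : ℝ) : ℂ) := by
    intro u
    have h := Complex.ofRealCLM.hasFDerivAt.comp z
      ((diffAtC hU hw hz).hasFDerivAt.log (hpos z hz).ne').neg
    have h2 : nlog w = Complex.ofRealCLM ∘ (-fun x => Real.log (w x)) := rfl
    rw [h2, h.fderiv]
    simp
  have hw0 : (w z : ℂ) ≠ 0 := by exact_mod_cast (hpos z hz).ne'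
  simp only [dz, h0, h1]
  push_cast
  field_simp
  ring

theorem dv_eq (hU : IsOpen U) (hw : ContDiffOn ℝ ∞ w U) (hpos : ∀ z ∈ U, 0 < w z)
    {X : Cn n → Fin n → ℂ} (hX : ∀ j, ContDiffOn ℝ ∞ (fun x => X x j) U) {z : Cn n} (hz : z ∈ U) :
    dv w X z = ∑ j, (dz j (fun x => X x j) z - dz j (nlog w) z * X z j) := by
  have hw0 : (w z : ℂ) ≠ 0 := by exact_mod_cast (hpos z hz).ne'
  rw [dv, div_eq_iff hw0, Finset.sum_mul]
  refine Finset.sum_congr rfl fun j _ => ?_
  rw [dz_mul (diffAtC hU (contDiffOn_ofReal hw) hz) (diffAtC hU (hX j) hz), dz_w hU hw hpos hz]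
  ring

theorem contDiffOn_dv (hU : IsOpen U) (hw : ContDiffOn ℝ ∞ w U) (hpos : ∀ z ∈ U, 0 < w z)
    {X : Cn n → Fin n → ℂ} (hX : ∀ j, ContDiffOn ℝ ∞ (fun x => X x j) U) :
    ContDiffOn ℝ ∞ (dv w X) U := by
  unfold dv
  simp only [div_eq_mul_inv]
  refine (ContDiffOn.sum fun j _ => contDiffOn_dz hU ((contDiffOn_ofReal hw).mul (hX j)) j).mul
    ((contDiffOn_ofReal hw).inv fun z hz => ?_)
  exact_mod_cast (hpos z hz).ne'

theorem dv_congr {X Y : Cn n → Fin n → ℂ} {z : Cn n} (h : X =ᶠ[𝓝 z] Y) : dv w X z = dv w Y z := by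
  simp only [dv]
  congr 1
  refine Finset.sum_congr rfl fun j _ => dz_congr ?_ j
  filter_upwards [h] with x hx
  rw [hx]

theorem Hm_conj (hU : IsOpen U) {f : Cn n → ℝ} (hf : ContDiffOn ℝ ∞ f U) {z : Cn n} (hz : z ∈ U)
    (j k : Fin n) : (starRingEnd ℂ) (Hm f z j k) = Hm f z k j := by
  have hf' := contDiffOn_ofReal hf
  have hr : ∀ x, (starRingEnd ℂ) ((f x : ℂ)) = (f x : ℂ) := fun x => Complex.conj_ofReal _
  change (starRingEnd ℂ) (dz j (dzb k (fun x => (f x : ℂ))) z) =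
    dz k (dzb j (fun x => (f x : ℂ))) z
  rw [← dzb_conj (diffAtC hU (contDiffOn_dzb hU hf' k) hz), dz_dzb hU hf' hz k j]
  refine dzb_congr ?_ j
  filter_upwards [hU.mem_nhds hz] with x hx
  rw [← dz_conj (diffAtC hU hf' hx)]
  simp only [hr]

/-- **Pointwise Bochner identity** for a vector field `W` and a density `w`. -/
theorem bochner_point (hU : IsOpen U) (hw : ContDiffOn ℝ ∞ w U) (hpos : ∀ z ∈ U, 0 < w z)
    {W : Cn n → Fin n → ℂ} (hW : ∀ j, ContDiffOn ℝ ∞ (fun x => W x j) U) {z : Cn n}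
    (hz : z ∈ U) :
    dv w W z * (starRingEnd ℂ) (dv w W z) =
      (∑ j, ∑ k, Hm (fun x => -Real.log (w x)) z j k * W z j * (starRingEnd ℂ) (W z k)) +
      (∑ j, ∑ k, dzb k (fun x => W x j) z * (starRingEnd ℂ) (dzb j (fun x => W x k) z)) +
      dv w (fun x j => W x j * (starRingEnd ℂ) (dv w W x)) z -
      (starRingEnd ℂ) (dv w (fun x k => ∑ j, (starRingEnd ℂ) (W x j) *
        dzb j (fun y => W y k) x) z) := by
  have hφ := contDiffOn_nlog hw hpos
  have hD := contDiffOn_dv hU hw hpos hW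
  have hY : ∀ j, ContDiffOn ℝ ∞ (fun x => W x j * (starRingEnd ℂ) (dv w W x)) U := fun j =>
    (hW j).mul (contDiffOn_conj hD)
  have hN : ∀ k, ContDiffOn ℝ ∞ (fun x => ∑ j, (starRingEnd ℂ) (W x j) *
      dzb j (fun y => W y k) x) U := fun k =>
    ContDiffOn.sum fun j _ => (contDiffOn_conj (hW j)).mul (contDiffOn_dzb hU (hW k) j)
  -- the derivative of the divergence
  have e1 : ∀ j, dzb j (dv w W) z = ∑ k, (dzb j (dz k (fun x => W x k)) z -
      (dzb j (dz k (nlog w)) z * W z k + dz k (nlog w) z * dzb j (fun x => W x k) z)) := by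
    intro j
    have h1 : dv w W =ᶠ[𝓝 z] fun x => ∑ k, (dz k (fun y => W y k) x -
        dz k (nlog w) x * W x k) := by
      filter_upwards [hU.mem_nhds hz] with x hx
      exact dv_eq hU hw hpos hW hx
    rw [dzb_congr h1, dzb_sum]
    · refine Finset.sum_congr rfl fun k _ => ?_
      rw [dzb_sub (diffAtC hU (contDiffOn_dz hU (hW k) k) hz)
        (diffAtC hU ((contDiffOn_dz hU hφ k).mul (hW k)) hz),
        dzb_mul (diffAtC hU (contDiffOn_dz hU hφ k) hz) (diffAtC hU (hW k) hz)]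
    · intro k _
      exact diffAtC hU ((contDiffOn_dz hU (hW k) k).sub ((contDiffOn_dz hU hφ k).mul (hW k))) hz
  have e2 : ∀ j, dz j (fun x => W x j * (starRingEnd ℂ) (dv w W x)) z =
      dz j (fun x => W x j) z * (starRingEnd ℂ) (dv w W z) +
        W z j * (starRingEnd ℂ) (dzb j (dv w W) z) := by
    intro j
    rw [dz_mul (diffAtC hU (hW j) hz) (diffAtC hU (contDiffOn_conj hD) hz),
      dz_conj (diffAtC hU hD hz)]
  have e3 : ∀ k, dz k (fun x => ∑ j, (starRingEnd ℂ) (W x j) * dzb j (fun y => W y k) x) z =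
      ∑ j, ((starRingEnd ℂ) (dzb k (fun x => W x j) z) * dzb j (fun x => W x k) z +
        (starRingEnd ℂ) (W z j) * dz k (dzb j (fun x => W x k)) z) := by
    intro k
    rw [dz_sum]
    · refine Finset.sum_congr rfl fun j _ => ?_
      rw [dz_mul (diffAtC hU (contDiffOn_conj (hW j)) hz)
        (diffAtC hU (contDiffOn_dzb hU (hW k) j) hz), dz_conj (diffAtC hU (hW j) hz)]
    · intro j _
      exact diffAtC hU ((contDiffOn_conj (hW j)).mul (contDiffOn_dzb hU (hW k) j)) hz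
  have e4 : ∀ j k, (starRingEnd ℂ) (dzb j (dz k (nlog w)) z) =
      Hm (fun x => -Real.log (w x)) z j k := by
    intro j k
    rw [← dz_dzb hU hφ hz]
    exact Hm_conj hU ((hw.log fun z hz => (hpos z hz).ne').neg) hz k j
  rw [dv_eq hU hw hpos hY hz, dv_eq hU hw hpos hN hz]
  simp only [e2, e3, e1]
  have e5 : ∀ j k, dz k (dzb j (fun x => W x k)) z = dzb j (dz k (fun x => W x k)) z := fun j k =>
    dz_dzb hU (hW k) hz k j
  simp only [e5, map_sum, map_sub, map_add, map_mul, e4, Complex.conj_conj]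
  have e6 : (∑ j, (dz j (fun x => W x j) z * (starRingEnd ℂ) (dv w W z) +
      W z j * ∑ k, ((starRingEnd ℂ) (dzb j (dz k (fun x => W x k)) z) -
        (Hm (fun x => -Real.log (w x)) z j k * (starRingEnd ℂ) (W z k) +
          (starRingEnd ℂ) (dz k (nlog w) z) * (starRingEnd ℂ) (dzb j (fun x => W x k) z))) -
      dz j (nlog w) z * (W z j * (starRingEnd ℂ) (dv w W z)))) =
      dv w W z * (starRingEnd ℂ) (dv w W z) +
      ∑ j, ∑ k, W z j * ((starRingEnd ℂ) (dzb j (dz k (fun x => W x k)) z) -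
        (Hm (fun x => -Real.log (w x)) z j k * (starRingEnd ℂ) (W z k) +
          (starRingEnd ℂ) (dz k (nlog w) z) * (starRingEnd ℂ) (dzb j (fun x => W x k) z))) := by
    conv_rhs => rw [show dv w W z * (starRingEnd ℂ) (dv w W z) =
      (∑ j, (dz j (fun x => W x j) z - dz j (nlog w) z * W z j)) * (starRingEnd ℂ) (dv w W z) by
        rw [← dv_eq hU hw hpos hW hz]]
    rw [Finset.sum_mul, ← Finset.sum_add_distrib]
    refine Finset.sum_congr rfl fun j _ => ?_
    rw [← Finset.mul_sum]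
    ring
  rw [e6]
  have e7 : (∑ k, (∑ j, (dzb k (fun x => W x j) z * (starRingEnd ℂ) (dzb j (fun x => W x k) z) +
      W z j * (starRingEnd ℂ) (dzb j (dz k (fun x => W x k)) z)) -
      (starRingEnd ℂ) (dz k (nlog w) z) * ∑ j, W z j *
        (starRingEnd ℂ) (dzb j (fun x => W x k) z))) =
      ∑ j, ∑ k, ((dzb k (fun x => W x j) z * (starRingEnd ℂ) (dzb j (fun x => W x k) z) +
      W z j * (starRingEnd ℂ) (dzb j (dz k (fun x => W x k)) z)) -
      (starRingEnd ℂ) (dz k (nlog w) z) * (W z j *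
        (starRingEnd ℂ) (dzb j (fun x => W x k) z))) := by
    rw [Finset.sum_comm]
    refine Finset.sum_congr rfl fun k _ => ?_
    rw [Finset.mul_sum, ← Finset.sum_sub_distrib]
  rw [e7]
  rw [show ∀ a b c d e : ℂ, a = b + c + (a + d) - e ↔ b + c + d - e = 0 from fun a b c d e => by
    constructor <;> intro h <;> linear_combination (-1 : ℂ) * h]
  rw [← Finset.sum_add_distrib, ← Finset.sum_add_distrib, ← Finset.sum_sub_distrib]
  refine Finset.sum_eq_zero fun j _ => ?_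
  rw [← Finset.sum_add_distrib, ← Finset.sum_add_distrib, ← Finset.sum_sub_distrib]
  refine Finset.sum_eq_zero fun k _ => ?_
  ring

end

end Pool.Agent.KRFQ
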