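import Pool.Agent.Work.MP_a2bf38_gt.Q.Wirt
import Pool.Agent.Work.MP_a2bf38_gt.H.Defs

/-!
# Wirtinger derivatives and holomorphic maps
-/

open scoped ContDiff Topology
open Set MeasureTheory Filter Pool.Agent.ToricKRF Pool.Agent.ToricKRF.G Pool.Agent.KRFS

namespace Pool.Agent.KRFQ

variable {n m : ℕ}

theorem eR_eI_sum (u : Cn n) : u = (∑ k, u.1 k • eR k) + ∑ k, u.2 k • eI k := cn_eq_sum u

/-- A real linear map in the complex coordinates. -/
theorem clm_eq (A : Cn n →L[ℝ] ℂ) (u : Cn n) :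
    A u = ∑ l, ((A (eR l) - Complex.I * A (eI l)) / 2 * cc u l +
      (A (eR l) + Complex.I * A (eI l)) / 2 * (starRingEnd ℂ) (cc u l)) := by
  conv_lhs => rw [eR_eI_sum u]
  rw [map_add, map_sum, map_sum, ← Finset.sum_add_distrib]
  refine Finset.sum_congr rfl fun l _ => ?_
  rw [map_smul, map_smul]
  have h1 : cc u l = (u.1 l : ℂ) + (u.2 l : ℂ) * Complex.I := by
    apply Complex.ext <;> simp [cc]
  have h2 : (starRingEnd ℂ) (cc u l) = (u.1 l : ℂ) - (u.2 l : ℂ) * Complex.I := by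
    apply Complex.ext <;> simp [cc]
  rw [h2, h1]
  simp only [Complex.real_smul]
  have h3 : Complex.I * Complex.I = -1 := Complex.I_mul_I
  linear_combination ((u.2 l : ℂ) * A (eI l)) * h3

theorem fderiv_eq (f : Cn n → ℂ) (x u : Cn n) :
    fderiv ℝ f x u = ∑ l, (dz l f x * cc u l + dzb l f x * (starRingEnd ℂ) (cc u l)) :=
  clm_eq _ u

/-- `∂bar f (u) = ∑ ∂_lbar f ubar_l` -/
theorem dbar_apply (f : Cn n → ℂ) (x u : Cn n) :
    (fderiv ℝ f x u + Complex.I * fderiv ℝ f x (J u)) / 2 =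
      ∑ l, dzb l f x * (starRingEnd ℂ) (cc u l) := by
  rw [fderiv_eq, fderiv_eq, Finset.mul_sum, ← Finset.sum_add_distrib, Finset.sum_div]
  refine Finset.sum_congr rfl fun l _ => ?_
  rw [cc_J, map_mul, Complex.conj_I]
  have h3 : Complex.I * Complex.I = -1 := Complex.I_mul_I
  linear_combination ((dz l f x * cc u l - dzb l f x * (starRingEnd ℂ) (cc u l)) / 2) * h3

/-- the coordinate `z_l` as a real linear map -/
noncomputable def ccL (l : Fin m) : Cn m →L[ℝ] ℂ :=
  LinearMap.toContinuousLinearMap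
    { toFun := fun z => cc z l
      map_add' := by
        intro x y
        apply Complex.ext <;> simp [cc]
      map_smul' := by
        intro c x
        apply Complex.ext <;> simp [cc] }

theorem ccL_apply (l : Fin m) (z : Cn m) : ccL l z = cc z l := rfl

theorem cc_add (u v : Cn m) (l : Fin m) : cc (u + v) l = cc u l + cc v l := by
  apply Complex.ext <;> simp [cc]

theorem cc_sub (u v : Cn m) (l : Fin m) : cc (u - v) l = cc u l - cc v l := by
  apply Complex.ext <;> simp [cc]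

theorem cc_smul (r : ℝ) (u : Cn m) (l : Fin m) : cc (r • u) l = r * cc u l := by
  apply Complex.ext <;> simp [cc]

theorem cc_zero (l : Fin m) : cc (0 : Cn m) l = 0 := by
  apply Complex.ext <;> simp [cc]

theorem cc_ext {u v : Cn m} (h : ∀ l, cc u l = cc v l) : u = v := by
  refine Prod.ext ?_ ?_ <;> funext l
  · exact congrArg Complex.re (h l)
  · exact congrArg Complex.im (h l)

theorem cc_eR (k l : Fin n) : cc (eR k) l = if l = k then 1 else 0 := by
  apply Complex.ext
  · by_cases h : l = k <;> simp [cc, eR, h]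
  · by_cases h : l = k <;> simp [cc, eR, h]

theorem cc_eI (k l : Fin n) : cc (eI k) l = if l = k then Complex.I else 0 := by
  rw [← J_eR, cc_J, cc_eR]
  simp

/-- The complex Jacobian matrix. -/
noncomputable def Jm (H : Cn n → Cn m) (z : Cn n) : Matrix (Fin m) (Fin n) ℂ :=
  Matrix.of fun l k => cc (fderiv ℝ H z (eR k)) l

theorem Jm_apply (H : Cn n → Cn m) (z : Cn n) (l : Fin m) (k : Fin n) :
    Jm H z l k = cc (fderiv ℝ H z (eR k)) l := rfl

section Hol

variable {H : Cn n → Cn m} {S : Set (Cn n)}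

theorem HolOn.differentiableAt (hS : IsOpen S) (hH : HolOn H S) {z : Cn n} (hz : z ∈ S) :
    DifferentiableAt ℝ H z :=
  (hH.1.differentiableOn (by simp)).differentiableAt (hS.mem_nhds hz)

/-- The derivative of a holomorphic map in complex coordinates. -/
theorem cc_fderiv (hH : HolOn H S) {z : Cn n} (hz : z ∈ S) (u : Cn n) (l : Fin m) :
    cc (fderiv ℝ H z u) l = ∑ k, Jm H z l k * cc u k := by
  have h1 := clm_eq ((ccL l).comp (fderiv ℝ H z)) u
  simp only [ContinuousLinearMap.comp_apply, ccL_apply] at h1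
  rw [h1]
  refine Finset.sum_congr rfl fun k _ => ?_
  have h2 : cc (fderiv ℝ H z (eI k)) l = Complex.I * Jm H z l k := by
    rw [← J_eR, hH.2 z hz, cc_J]
    rfl
  rw [h2, ← Jm_apply]
  have h3 : Complex.I * Complex.I = -1 := Complex.I_mul_I
  linear_combination ((Jm H z l k * (starRingEnd ℂ) (cc u k) - Jm H z l k * cc u k) / 2) * h3

theorem fderiv_comp_apply (hS : IsOpen S) (hH : HolOn H S) {z : Cn n} (hz : z ∈ S)
    {f : Cn m → ℂ} (hf : DifferentiableAt ℝ f (H z)) (u : Cn n) :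
    fderiv ℝ (fun x => f (H x)) z u = fderiv ℝ f (H z) (fderiv ℝ H z u) := by
  have h := hf.hasFDerivAt.comp z (HolOn.differentiableAt hS hH hz).hasFDerivAt
  have h2 : (fun x => f (H x)) = f ∘ H := rfl
  rw [h2, h.fderiv]
  rfl

theorem dz_comp (hS : IsOpen S) (hH : HolOn H S) {z : Cn n} (hz : z ∈ S)
    {f : Cn m → ℂ} (hf : DifferentiableAt ℝ f (H z)) (k : Fin n) :
    dz k (fun x => f (H x)) z = ∑ l, dz l f (H z) * Jm H z l k := by
  simp only [dz]
  rw [fderiv_comp_apply hS hH hz hf, fderiv_comp_apply hS hH hz hf, ← J_eR, hH.2 z hz,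
    fderiv_eq f, fderiv_eq f, Finset.mul_sum, ← Finset.sum_sub_distrib, Finset.sum_div]
  refine Finset.sum_congr rfl fun l _ => ?_
  rw [cc_J, ← Jm_apply, map_mul, Complex.conj_I]
  have h3 : Complex.I * Complex.I = -1 := Complex.I_mul_I
  simp only [dz, dzb]
  linear_combination ((-(fderiv ℝ f (H z) (eR l) - Complex.I * fderiv ℝ f (H z) (eI l)) / 2 *
    Jm H z l k + (fderiv ℝ f (H z) (eR l) + Complex.I * fderiv ℝ f (H z) (eI l)) / 2 *
    (starRingEnd ℂ) (Jm H z l k)) / 2) * h3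

theorem dzb_comp (hS : IsOpen S) (hH : HolOn H S) {z : Cn n} (hz : z ∈ S)
    {f : Cn m → ℂ} (hf : DifferentiableAt ℝ f (H z)) (k : Fin n) :
    dzb k (fun x => f (H x)) z = ∑ l, dzb l f (H z) * (starRingEnd ℂ) (Jm H z l k) := by
  simp only [dzb]
  rw [fderiv_comp_apply hS hH hz hf, fderiv_comp_apply hS hH hz hf, ← J_eR, hH.2 z hz,
    fderiv_eq f, fderiv_eq f, Finset.mul_sum, ← Finset.sum_add_distrib, Finset.sum_div]
  refine Finset.sum_congr rfl fun l _ => ?_
  rw [cc_J, ← Jm_apply, map_mul, Complex.conj_I]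
  have h3 : Complex.I * Complex.I = -1 := Complex.I_mul_I
  simp only [dz, dzb]
  linear_combination (((fderiv ℝ f (H z) (eR l) - Complex.I * fderiv ℝ f (H z) (eI l)) / 2 *
    Jm H z l k - (fderiv ℝ f (H z) (eR l) + Complex.I * fderiv ℝ f (H z) (eI l)) / 2 *
    (starRingEnd ℂ) (Jm H z l k)) / 2) * h3

theorem contDiffOn_cc (hH : HolOn H S) (l : Fin m) : ContDiffOn ℝ ∞ (fun x => cc (H x) l) S :=
  (ccL l).contDiff.comp_contDiffOn hH.1

theorem dz_cc (hS : IsOpen S) (hH : HolOn H S) {z : Cn n} (hz : z ∈ S) (l : Fin m) (k : Fin n) :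
    dz k (fun x => cc (H x) l) z = Jm H z l k := by
  have h := dz_comp hS hH hz (f := fun y => cc y l) (ccL l).differentiableAt k
  rw [h]
  have h1 : ∀ j, dz j (fun y : Cn m => cc y l) (H z) = if l = j then 1 else 0 := by
    intro j
    simp only [dz]
    have h2 : fderiv ℝ (fun y : Cn m => cc y l) (H z) = ccL l := (ccL l).fderiv
    rw [h2, ccL_apply, ccL_apply, cc_eR, cc_eI]
    by_cases h : l = j
    · simp only [h, if_true, Complex.I_mul_I]
      ring
    · simp [h]
  simp [h1]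

theorem dzb_cc (hS : IsOpen S) (hH : HolOn H S) {z : Cn n} (hz : z ∈ S) (l : Fin m) (k : Fin n) :
    dzb k (fun x => cc (H x) l) z = 0 := by
  have h := dzb_comp hS hH hz (f := fun y => cc y l) (ccL l).differentiableAt k
  rw [h]
  have h1 : ∀ j, dzb j (fun y : Cn m => cc y l) (H z) = 0 := by
    intro j
    simp only [dzb]
    have h2 : fderiv ℝ (fun y : Cn m => cc y l) (H z) = ccL l := (ccL l).fderiv
    rw [h2, ccL_apply, ccL_apply, cc_eR, cc_eI]
    by_cases h : l = j
    · simp only [h, if_true, Complex.I_mul_I]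
      ring
    · simp [h]
  simp [h1]

theorem contDiffOn_Jm (hS : IsOpen S) (hH : HolOn H S) (l : Fin m) (k : Fin n) :
    ContDiffOn ℝ ∞ (fun x => Jm H x l k) S := by
  refine (contDiffOn_dz hS (contDiffOn_cc hH l) k).congr fun x hx => ?_
  exact (dz_cc hS hH hx l k).symm

theorem dzb_Jm (hS : IsOpen S) (hH : HolOn H S) {z : Cn n} (hz : z ∈ S) (l : Fin m)
    (k j : Fin n) : dzb j (fun x => Jm H x l k) z = 0 := by
  have h1 : (fun x => Jm H x l k) =ᶠ[𝓝 z] dz k (fun x => cc (H x) l) := by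
    filter_upwards [hS.mem_nhds hz] with x hx
    exact (dz_cc hS hH hx l k).symm
  rw [dzb_congr h1, ← dz_dzb hS (contDiffOn_cc hH l) hz]
  have h2 : dzb j (fun x => cc (H x) l) =ᶠ[𝓝 z] fun _ => 0 := by
    filter_upwards [hS.mem_nhds hz] with x hx
    exact dzb_cc hS hH hx l j
  rw [dz_congr h2, dz_const]

theorem Jm_comp {k : ℕ} {H' : Cn m → Cn k} {S' : Set (Cn m)} (hS : IsOpen S) (hH : HolOn H S)
    (hS' : IsOpen S') (hH' : HolOn H' S') {z : Cn n} (hz : z ∈ S) (hz' : H z ∈ S') :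
    Jm (fun x => H' (H x)) z = Jm H' (H z) * Jm H z := by
  ext l j
  have h := (HolOn.differentiableAt hS' hH' hz').hasFDerivAt.comp z
    (HolOn.differentiableAt hS hH hz).hasFDerivAt
  have h2 : (fun x => H' (H x)) = H' ∘ H := rfl
  rw [Jm_apply, h2, h.fderiv, ContinuousLinearMap.comp_apply, cc_fderiv hH' hz', Matrix.mul_apply]
  rfl

theorem Jm_id (z : Cn n) : Jm (fun x : Cn n => x) z = 1 := by
  ext l k
  rw [Jm_apply, fderiv_fun_id, ContinuousLinearMap.id_apply, cc_eR, Matrix.one_apply]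

theorem Jm_congr {H' : Cn n → Cn m} {z : Cn n} (h : H =ᶠ[𝓝 z] H') : Jm H z = Jm H' z := by
  ext l k
  rw [Jm_apply, Jm_apply, h.fderiv_eq]

end Hol

end Pool.Agent.KRFQ
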