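import Pool.Agent.Work.MP_a2bf38_gt.Q.Fried

/-!
# Mollifications of weak solutions of a divergence equation in a chart
-/

open scoped ContDiff Topology
open Set MeasureTheory Filter Pool.Agent.ToricKRF Pool.Agent.ToricKRF.G

namespace Pool.Agent.KRFQ

variable {n : ℕ}



/-- The weak operator applied to the conjugate. -/
theorem conj_op {U : Set (Cn n)} (hU : IsOpen U) {a b : Fin n → Fin n → Cn n → ℂ}
    (ha : ∀ j k, ContDiffOn ℝ ∞ (a j k) U) (hb : ∀ j k, ContDiff ℝ ∞ (b j k)) {K : Set (Cn n)}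
    (hKU : K ⊆ U) (hab : ∀ j k, ∀ x ∈ K, b j k =ᶠ[𝓝 x] fun y => (starRingEnd ℂ) (a j k y))
    {f : Cn n → ℂ} (hf : ContDiff ℝ ∞ f) (hs : tsupport f ⊆ K) (x : Cn n) :
    (starRingEnd ℂ) (∑ j, dz j (fun y => ∑ k, a j k y * dzb k f y) x) =
      ∑ j, ∑ k, (dzb j (b j k) x * dz k (fun y => (starRingEnd ℂ) (f y)) x +
        b j k x * dzb j (dz k (fun y => (starRingEnd ℂ) (f y))) x) := by
  set f' : Cn n → ℂ := fun y => (starRingEnd ℂ) (f y) with hf'
  have hf's : ContDiff ℝ ∞ f' := Complex.conjCLE.contDiff.comp hf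
  have hts : tsupport f' ⊆ tsupport f := by
    refine closure_mono fun y hy => ?_
    intro h0
    exact hy (by simp [hf', h0])
  rw [map_sum]
  refine Finset.sum_congr rfl fun j _ => ?_
  by_cases hx : x ∈ tsupport f
  · have hxK := hs hx
    have hxU := hKU hxK
    have hd1 : ∀ k, DifferentiableAt ℝ (a j k) x := fun k =>
      ((ha j k).differentiableOn (by simp)).differentiableAt (hU.mem_nhds hxU)
    have hd2 : ∀ k, DifferentiableAt ℝ (dzb k f) x := fun k =>
      ((contDiff_dzb hf k).differentiable (by simp)) x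
    have hd3 : ∀ k, DifferentiableAt ℝ (b j k) x := fun k => ((hb j k).differentiable (by simp)) x
    have hd4 : ∀ k, DifferentiableAt ℝ (dz k f') x := fun k =>
      ((contDiff_dz hf's k).differentiable (by simp)) x
    have hd5 : DifferentiableAt ℝ (fun y => ∑ k, a j k y * dzb k f y) x :=
      DifferentiableAt.fun_sum fun k _ => (hd1 k).mul (hd2 k)
    rw [← dzb_conj hd5]
    have h1 : (fun y => (starRingEnd ℂ) (∑ k, a j k y * dzb k f y)) =ᶠ[𝓝 x]
        fun y => ∑ k, b j k y * dz k f' y := by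
      filter_upwards [eventually_all.2 fun k => hab j k x hxK] with y hy
      rw [map_sum]
      refine Finset.sum_congr rfl fun k _ => ?_
      rw [map_mul, hy k, hf', dz_conj ((hf.differentiable (by simp)) y)]
    rw [dzb_congr h1, dzb_sum Finset.univ (f := fun k y => b j k y * dz k f' y)
      fun k _ => (hd3 k).mul (hd4 k)]
    refine Finset.sum_congr rfl fun k _ => ?_
    rw [dzb_mul (hd3 k) (hd4 k)]
  · have h1 : (fun y => ∑ k, a j k y * dzb k f y) =ᶠ[𝓝 x] fun _ => 0 := by
      have h2 : ∀ k, dzb k f =ᶠ[𝓝 x] fun _ => 0 := fun k => by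
        have := dzb_congr' (notMem_tsupport_iff_eventuallyEq.1 hx) k
        refine this.trans (Eventually.of_forall fun y => ?_)
        exact dzb_const k 0 y
      filter_upwards [eventually_all.2 h2] with y hy
      simp [hy]
    rw [dz_congr h1, dz_const, map_zero]
    have hx' : x ∉ tsupport f' := fun h => hx (hts h)
    refine (Finset.sum_eq_zero fun k _ => ?_).symm
    rw [dz_of_notMem hx', dzb_of_notMem fun h => hx' (tsupport_dz_subset k f' h)]
    simp

/-- Integration by parts. -/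
theorem integral_mul_dzb {C G : Cn n → ℂ} (hC : ContDiff ℝ ∞ C) (hG : ContDiff ℝ ∞ G)
    (hs : HasCompactSupport G) (k : Fin n) :
    ∫ x, C x * dzb k G x = -∫ x, dzb k C x * G x := by
  have h0 : HasCompactSupport (fun x => C x * G x) := hs.mul_left
  have h1 := integral_dzb_eq_zero ((hC.mul hG).of_le (by simp)) h0 k
  have h2 : ∀ x, dzb k (fun x => C x * G x) x = dzb k C x * G x + C x * dzb k G x := fun x =>
    dzb_mul ((hC.differentiable (by simp)) x) ((hG.differentiable (by simp)) x) k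
  have hs' : HasCompactSupport (dzb k G) :=
    hs.mono' ((subset_tsupport _).trans (tsupport_dzb_subset k G))
  have i1 : Integrable (fun x => dzb k C x * G x) :=
    ((contDiff_dzb hC k).continuous.mul hG.continuous).integrable_of_hasCompactSupport hs.mul_left
  have i2 : Integrable (fun x => C x * dzb k G x) :=
    (hC.continuous.mul (contDiff_dzb hG k).continuous).integrable_of_hasCompactSupport
      hs'.mul_left
  simp only [h2] at h1
  rw [integral_add i1 i2] at h1
  linear_combination h1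

/-- Cauchy-Schwarz. -/
theorem norm_integral_mul_le {A G : Cn n → ℂ} (hA : Continuous A) (hG : Continuous G)
    (hs : HasCompactSupport G) {η : ℝ} (hη : 0 ≤ η) (h : eLpNorm A 2 volume ≤ ENNReal.ofReal η) :
    ‖∫ x, A x * G x‖ ≤ η * √(∫ x, ‖G x‖ ^ 2) := by
  have := haarCn (n := n)
  have h1 : ‖∫ x, A x * G x‖ₑ ≤ eLpNorm A 2 volume * eLpNorm G 2 volume := by
    refine (enorm_integral_le_lintegral_enorm _).trans ?_
    have h2 := eLpNorm_smul_le_mul_eLpNorm (p := 2) (q := 2) (r := 1) (μ := (volume : Measure (Cn n)))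
      hG.aestronglyMeasurable hA.aestronglyMeasurable
    rw [eLpNorm_one_eq_lintegral_enorm] at h2
    simpa [smul_eq_mul] using h2
  have hG2 : MemLp G 2 volume := hG.memLp_of_hasCompactSupport hs
  have h3 : eLpNorm G 2 volume = ENNReal.ofReal √(∫ x, ‖G x‖ ^ 2) := by
    rw [hG2.eLpNorm_eq_integral_rpow_norm (by simp) (by simp), Real.sqrt_eq_rpow]
    congr 2
    · refine integral_congr_ae (Eventually.of_forall fun x => ?_)
      simp
    · simp
  have h4 : ‖∫ x, A x * G x‖ₑ ≤ ENNReal.ofReal (η * √(∫ x, ‖G x‖ ^ 2)) := by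
    rw [ENNReal.ofReal_mul hη, ← h3]
    exact h1.trans (mul_le_mul_left h _)
  rw [← ofReal_norm] at h4
  exact (ENNReal.ofReal_le_ofReal_iff (by positivity)).1 h4


/-- The mollifier is symmetric. -/
theorem integral_mol_mul' {j : Cn n → ℝ} (hj : IsMoll j) {ε : ℝ} (hε : 0 < ε) {u f : Cn n → ℂ}
    (hu : LocallyIntegrable u volume) (hf : Continuous f) (hc : HasCompactSupport f) :
    ∫ x, mol j ε u x * f x = ∫ x, u x * mol j ε f x := by
  have := haarCn (n := n)
  set B : Set (Cn n) := Metric.cthickening ε (tsupport f) with hB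
  have hBc : IsCompact B := hc.isCompact.cthickening
  have hBm : MeasurableSet B := hBc.isClosed.measurableSet
  have hmem : ∀ x ∈ tsupport f, ∀ y, dist y x < ε → y ∈ B := fun x hx y hy =>
    Metric.mem_cthickening_of_dist_le y x ε _ hx hy.le
  have h1 : Integrable (B.indicator u) := by
    rw [integrable_indicator_iff hBm]
    exact hu.integrableOn_isCompact hBc
  have h2 := integral_mol_mul hj hε h1 hf hc
  have h3 : ∀ x, mol j ε (B.indicator u) x * f x = mol j ε u x * f x := by
    intro x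
    by_cases hx : x ∈ tsupport f
    · rw [mol_congr hj hε fun y hy => indicator_of_mem (hmem x hx y (Metric.mem_ball.1 hy)) u]
    · rw [image_eq_zero_of_notMem_tsupport hx, mul_zero, mul_zero]
  have h4 : ∀ x, B.indicator u x * mol j ε f x = u x * mol j ε f x := by
    intro x
    by_cases hx : x ∈ B
    · rw [indicator_of_mem hx]
    · have h5 : mol j ε f x = 0 := by
        refine mol_eq_zero hj hε fun y hy => image_eq_zero_of_notMem_tsupport fun hyt => hx ?_
        rw [Metric.mem_ball, dist_comm] at hy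
        exact hmem y hyt x hy
      rw [h5, mul_zero, mul_zero]
  simpa only [h3, h4] using h2

/-- Moving the mollifier. -/
theorem mol_comm_eq {j : Cn n → ℝ} (hj : IsMoll j) {ε : ℝ} (hε : 0 < ε) {u c G : Cn n → ℂ}
    (hu : LocallyIntegrable u) (hc : ContDiff ℝ ∞ c) (hG : Continuous G)
    (hs : HasCompactSupport G) :
    ∫ x, mol j ε u x * (c x * G x) =
      (∫ x, u x * (c x * mol j ε G x)) + ∫ x, cm j c u ε x * G x := by
  have := haarCn (n := n)
  have hcu : LocallyIntegrable (fun y => c y * u y) := by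
    have h := hu.continuous_smul (g := c) hc.continuous
    simpa [smul_eq_mul] using h
  have h1 : ∫ x, u x * (c x * mol j ε G x) = ∫ x, mol j ε (fun y => c y * u y) x * G x := by
    rw [integral_mol_mul' hj hε hcu hG hs]
    refine integral_congr_ae (Eventually.of_forall fun x => ?_)
    ring
  have i1 : Integrable (fun x => cm j c u ε x * G x) := by
    refine Continuous.integrable_of_hasCompactSupport ?_ hs.mul_left
    refine Continuous.mul ?_ hG
    exact (hc.continuous.mul (mol_contDiff hj hε hu).continuous).sub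
      (mol_contDiff hj hε hcu).continuous
  have i2 : Integrable (fun x => mol j ε (fun y => c y * u y) x * G x) :=
    Continuous.integrable_of_hasCompactSupport
      ((mol_contDiff hj hε hcu).continuous.mul hG) hs.mul_left
  rw [h1, ← integral_add i2 i1]
  refine integral_congr_ae (Eventually.of_forall fun x => ?_)
  simp only [cm]
  ring

theorem int_sum_sum {A B : Fin n → Fin n → Cn n → ℂ} (hA : ∀ j k, Integrable (A j k))
    (hB : ∀ j k, Integrable (B j k)) :
    ∫ x, ∑ j, ∑ k, (A j k x + B j k x) = ∑ j, ∑ k, ((∫ x, A j k x) + ∫ x, B j k x) := by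
  have h : ∀ j k, Integrable (fun x => A j k x + B j k x) := fun j k => (hA j k).add (hB j k)
  rw [integral_finsetSum _ fun j _ => integrable_finsetSum _ fun k _ => h j k]
  refine Finset.sum_congr rfl fun j _ => ?_
  rw [integral_finsetSum _ fun k _ => h j k]
  exact Finset.sum_congr rfl fun k _ => integral_add (hA j k) (hB j k)

/-- The support of a mollification. -/
theorem tsupport_mol_subset {j : Cn n → ℝ} (hj : IsMoll j) {ε r : ℝ} (hε : 0 < ε) (hr : ε ≤ r)
    {f : Cn n → ℂ} {K : Set (Cn n)} (hs : tsupport f ⊆ K) :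
    tsupport (mol j ε f) ⊆ Metric.cthickening r K := by
  refine closure_minimal (fun x hx => ?_) Metric.isClosed_cthickening
  by_contra h
  refine hx (mol_eq_zero hj hε fun y hy => ?_)
  by_contra h2
  refine h ?_
  refine Metric.mem_cthickening_of_dist_le x y r K (hs (subset_tsupport f h2)) ?_
  rw [dist_comm]
  exact (Metric.mem_ball.1 hy).le.trans hr

/-- **A weak solution has almost weakly harmonic mollifications** -/
theorem chart_reg {U : Set (Cn n)} (hU : IsOpen U) {a : Fin n → Fin n → Cn n → ℂ}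
    (ha : ∀ j k, ContDiffOn ℝ ∞ (a j k) U) {K K' : Set (Cn n)} (hK : IsCompact K)
    (hK' : IsCompact K') (hKK : K ⊆ interior K') (hKU : K' ⊆ U) {u : Cn n → ℂ}
    (hu2 : MemLp u 2 volume)
    (hu : ∀ f : Cn n → ℂ, ContDiff ℝ ∞ f → tsupport f ⊆ K' →
      ∫ x, u x * (starRingEnd ℂ) (∑ j, dz j (fun y => ∑ k, a j k y * dzb k f y) x) = 0)
    {ρ : Cn n → ℝ} (hρ : IsMoll ρ) {δ : ℝ} (hδ : 0 < δ) :
    ∃ ε₀ > 0, ∀ ε ∈ Ioo (0 : ℝ) ε₀, ∀ f : Cn n → ℂ, ContDiff ℝ ∞ f → tsupport f ⊆ K →
      ‖∫ x, mol ρ ε u x * (starRingEnd ℂ) (∑ j, dz j (fun y => ∑ k, a j k y * dzb k f y) x)‖ ≤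
        δ * √(∑ k, ∫ x, ‖dzb k f x‖ ^ 2) := by
  have := haarCn (n := n)
  have hul : LocallyIntegrable u := hu2.locallyIntegrable (by norm_num)
  -- the cut-off
  obtain ⟨K₂, hK₂, hK₂a, hK₂U⟩ := exists_compact_between hK' hU hKU
  obtain ⟨χ, hχ1, hχ2, hχ3, hχ4⟩ : ∃ χ : Cn n → ℝ, ContDiff ℝ ∞ χ ∧ HasCompactSupport χ ∧
      tsupport χ ⊆ U ∧ ∀ x ∈ K', χ =ᶠ[𝓝 x] fun _ => 1 := by
    obtain ⟨χ, h1, h2, -⟩ := exists_contMDiffMap_one_nhds_of_subset_interior (n := (⊤ : ℕ∞))
      (modelWithCornersSelf ℝ (Cn n)) hK'.isClosed hK₂a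
    have h3 : tsupport χ ⊆ K₂ := by
      refine closure_minimal (fun x hx => ?_) hK₂.isClosed
      by_contra h
      exact hx (h2 x h)
    exact ⟨χ, χ.contMDiff.contDiff, hK₂.of_isClosed_subset (isClosed_tsupport _) h3,
      h3.trans hK₂U, fun x hx => (Filter.mem_of_superset (nhds_le_nhdsSet hx h1) fun y hy => hy)⟩
  have hχc : ContDiff ℝ ∞ (fun x => (χ x : ℂ)) := Complex.ofRealCLM.contDiff.comp hχ1
  have hχcs : tsupport (fun x => (χ x : ℂ)) ⊆ tsupport χ := by
    refine closure_mono fun y hy => ?_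
    intro h0
    exact hy (by simp [h0])
  have hχcc : HasCompactSupport (fun x => (χ x : ℂ)) :=
    hχ2.of_isClosed_subset (isClosed_tsupport _) hχcs
  let b : Fin n → Fin n → Cn n → ℂ := fun j k y => (χ y : ℂ) * (starRingEnd ℂ) (a j k y)
  have hb : ∀ j k, ContDiff ℝ ∞ (b j k) := fun j k =>
    contDiff_of_support hU (hχc.contDiffOn.mul (Complex.conjCLE.contDiff.comp_contDiffOn (ha j k)))
      ((tsupport_mul_subset_left (f := fun x => (χ x : ℂ))).trans (hχcs.trans hχ3))
  have hbc : ∀ j k, HasCompactSupport (b j k) := fun j k => hχcc.mul_right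
  have hbd : ∀ j k, HasCompactSupport (dzb j (b j k)) := fun j k =>
    (hbc j k).mono' ((subset_tsupport _).trans (tsupport_dzb_subset j _))
  have hab : ∀ j k, ∀ x ∈ K', b j k =ᶠ[𝓝 x] fun y => (starRingEnd ℂ) (a j k y) := by
    intro j k x hx
    filter_upwards [hχ4 x hx] with y hy
    simp [b, hy]
  -- the number ε₀
  set η : ℝ := δ / (2 * (n : ℝ) ^ 2 + 1) with hη
  have hη0 : 0 < η := by positivity
  have hη1 : 2 * (n : ℝ) ^ 2 * η ≤ δ := by
    rw [hη, mul_div_assoc', div_le_iff₀ (by positivity)]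
    nlinarith
  have e1 : ∀ᶠ ε in 𝓝[>] (0 : ℝ), ∀ j k,
      eLpNorm (cm ρ (dzb j (b j k)) u ε) 2 volume ≤ ENNReal.ofReal η ∧
      eLpNorm (dzb j (cm ρ (b j k) u ε)) 2 volume ≤ ENNReal.ofReal η := by
    refine eventually_all.2 fun j => eventually_all.2 fun k => ?_
    have h1 := tendsto_cm hρ (contDiff_dzb (hb j k) j).continuous (hbd j k) hu2
    have h2 := fried_dzb hρ (hb j k) (hbc j k) hu2 j
    exact (h1.eventually (Iic_mem_nhds (ENNReal.ofReal_pos.2 hη0))).and
      (h2.eventually (Iic_mem_nhds (ENNReal.ofReal_pos.2 hη0)))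
  obtain ⟨r, hr, hrK⟩ := hK.exists_cthickening_subset_open isOpen_interior hKK
  have e2 : ∀ᶠ ε in 𝓝[>] (0 : ℝ), ε < r := by
    filter_upwards [Ioo_mem_nhdsGT hr] with ε hε using hε.2
  obtain ⟨ε₀, hε₀, hε₁⟩ := mem_nhdsGT_iff_exists_Ioo_subset.1 (e1.and e2)
  refine ⟨ε₀, hε₀, fun ε hε f hf hfs => ?_⟩
  obtain ⟨hc, hεr⟩ := hε₁ hε
  have hε' : 0 < ε := hε.1
  have hKK' : K ⊆ K' := hKK.trans interior_subset
  have hfc : HasCompactSupport f := hK.of_isClosed_subset (isClosed_tsupport f) hfs
  set g : Cn n → ℂ := fun y => (starRingEnd ℂ) (f y) with hg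
  have hgs : ContDiff ℝ ∞ g := Complex.conjCLE.contDiff.comp hf
  have hgt : tsupport g ⊆ tsupport f := by
    refine closure_mono fun y hy => ?_
    intro h0
    exact hy (by simp [hg, h0])
  have hgc : HasCompactSupport g := hfc.of_isClosed_subset (isClosed_tsupport g) hgt
  have hdz : ∀ k, HasCompactSupport (dz k g) := fun k =>
    hgc.mono' ((subset_tsupport _).trans (tsupport_dz_subset k _))
  have hddz : ∀ j k, HasCompactSupport (dzb j (dz k g)) := fun j k =>
    (hdz k).mono' ((subset_tsupport _).trans (tsupport_dzb_subset j _))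
  have hdzs : ∀ k, ContDiff ℝ ∞ (dz k g) := fun k => contDiff_dz hgs k
  -- the mollified test function
  have hm := mol_contDiff hρ hε' (hgs.continuous.locallyIntegrable (μ := volume))
  set h : Cn n → ℂ := fun y => (starRingEnd ℂ) (mol ρ ε g y) with hh
  have hhs : ContDiff ℝ ∞ h := Complex.conjCLE.contDiff.comp hm
  have hht : tsupport h ⊆ K' := by
    have h1 : tsupport h ⊆ tsupport (mol ρ ε g) := by
      refine closure_mono fun y hy => ?_
      intro h0
      exact hy (by simp [hh, h0])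
    refine h1.trans ?_
    exact (tsupport_mol_subset hρ hε' hεr.le (hgt.trans hfs)).trans (hrK.trans interior_subset)
  have hconj : (fun y => (starRingEnd ℂ) (h y)) = mol ρ ε g := by
    funext y
    simp [hh]
  have hz := hu h hhs hht
  have hmd : ∀ k, dz k (mol ρ ε g) = mol ρ ε (dz k g) := fun k =>
    funext fun x => dz_mol hρ hε' (hgs.of_le (by simp)) hgc k x
  have hmdd : ∀ j k, dzb j (mol ρ ε (dz k g)) = mol ρ ε (dzb j (dz k g)) := fun j k =>
    funext fun x => dzb_mol hρ hε' ((hdzs k).of_le (by simp)) (hdz k) j x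
  simp only [conj_op hU ha hb hKU hab hhs hht, hconj, hmd, hmdd] at hz
  simp only [conj_op hU ha hb hKU hab hf (hfs.trans hKK')]
  change ‖∫ x, mol ρ ε u x * ∑ j, ∑ k, (dzb j (b j k) x * dz k g x +
    b j k x * dzb j (dz k g) x)‖ ≤ _
  have hcb : ∀ j k, LocallyIntegrable (fun y => b j k y * u y) := fun j k => by
    have h := hul.continuous_smul (g := b j k) (hb j k).continuous
    simpa [smul_eq_mul] using h
  have hmu : Continuous (mol ρ ε u) := (mol_contDiff hρ hε' hul).continuous
  -- integrability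
  have i1 : ∀ (j k : Fin n), Integrable (fun x => mol ρ ε u x * (dzb j (b j k) x * dz k g x)) :=
    fun j k => Continuous.integrable_of_hasCompactSupport
      (hmu.mul ((contDiff_dzb (hb j k) j).continuous.mul (hdzs k).continuous))
      (hdz k).mul_left.mul_left
  have i2 : ∀ (j k : Fin n), Integrable (fun x => mol ρ ε u x * (b j k x * dzb j (dz k g) x)) :=
    fun j k => Continuous.integrable_of_hasCompactSupport
      (hmu.mul ((hb j k).continuous.mul (contDiff_dzb (hdzs k) j).continuous))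
      (hddz j k).mul_left.mul_left
  have hint : ∀ {A : Cn n → ℂ}, Continuous A → HasCompactSupport A →
      Integrable (fun x => u x * A x) := by
    intro A hA hAc
    have h := hul.integrable_smul_left_of_hasCompactSupport hA hAc
    refine h.congr (Eventually.of_forall fun x => ?_)
    simp only [smul_eq_mul]
    ring
  have i3 : ∀ (j k : Fin n), Integrable (fun x => u x * (dzb j (b j k) x * mol ρ ε (dz k g) x)) :=
    fun j k => hint ((contDiff_dzb (hb j k) j).continuous.mul (mol_contDiff hρ hε'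
      ((hdzs k).continuous.locallyIntegrable (μ := volume))).continuous) (hbd j k).mul_right
  have i4 : ∀ (j k : Fin n),
      Integrable (fun x => u x * (b j k x * mol ρ ε (dzb j (dz k g)) x)) :=
    fun j k => hint ((hb j k).continuous.mul (mol_contDiff hρ hε'
      ((contDiff_dzb (hdzs k) j).continuous.locallyIntegrable (μ := volume))).continuous)
      (hbc j k).mul_right
  have s1 : ∫ x, mol ρ ε u x * ∑ j, ∑ k, (dzb j (b j k) x * dz k g x +
      b j k x * dzb j (dz k g) x) = ∑ j, ∑ k, ((∫ x, mol ρ ε u x * (dzb j (b j k) x * dz k g x)) +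
        ∫ x, mol ρ ε u x * (b j k x * dzb j (dz k g) x)) := by
    simp only [Finset.mul_sum, mul_add]
    exact int_sum_sum i1 i2
  have s2 : ∑ j, ∑ k, ((∫ x, u x * (dzb j (b j k) x * mol ρ ε (dz k g) x)) +
        ∫ x, u x * (b j k x * mol ρ ε (dzb j (dz k g)) x)) = 0 := by
    rw [← hz]
    simp only [Finset.mul_sum, mul_add]
    exact (int_sum_sum i3 i4).symm
  have s3 : ∀ j k, (∫ x, mol ρ ε u x * (dzb j (b j k) x * dz k g x)) +
        ∫ x, mol ρ ε u x * (b j k x * dzb j (dz k g) x) =
      ((∫ x, u x * (dzb j (b j k) x * mol ρ ε (dz k g) x)) +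
        ∫ x, u x * (b j k x * mol ρ ε (dzb j (dz k g)) x)) +
      ((∫ x, cm ρ (dzb j (b j k)) u ε x * dz k g x) -
        ∫ x, dzb j (cm ρ (b j k) u ε) x * dz k g x) := by
    intro j k
    have hcs : ContDiff ℝ ∞ (cm ρ (b j k) u ε) :=
      ((hb j k).mul (mol_contDiff hρ hε' hul)).sub (mol_contDiff hρ hε' (hcb j k))
    rw [mol_comm_eq hρ hε' hul (contDiff_dzb (hb j k) j) (hdzs k).continuous (hdz k),
      mol_comm_eq hρ hε' hul (hb j k) (contDiff_dzb (hdzs k) j).continuous (hddz j k),
      integral_mul_dzb hcs (hdzs k) (hdz k)]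
    ring
  rw [s1, Finset.sum_congr rfl fun j _ => Finset.sum_congr rfl fun k _ => s3 j k]
  simp only [Finset.sum_add_distrib] at s2 ⊢
  rw [s2, zero_add]
  -- the estimate
  have hk : ∀ k, ∫ x, ‖dz k g x‖ ^ 2 = ∫ x, ‖dzb k f x‖ ^ 2 := by
    intro k
    refine integral_congr_ae (Eventually.of_forall fun x => ?_)
    simp only [hg, dz_conj ((hf.differentiable (by simp)) x), RCLike.norm_conj]
  set S : ℝ := √(∑ k, ∫ x, ‖dzb k f x‖ ^ 2) with hS
  have hkS : ∀ k, √(∫ x, ‖dz k g x‖ ^ 2) ≤ S := by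
    intro k
    rw [hk, hS]
    refine Real.sqrt_le_sqrt ?_
    exact Finset.single_le_sum (f := fun k => ∫ x, ‖dzb k f x‖ ^ 2)
      (fun i _ => integral_nonneg fun x => by positivity) (Finset.mem_univ k)
  have hcm : ∀ {c : Cn n → ℂ}, ContDiff ℝ ∞ c → ContDiff ℝ ∞ (cm ρ c u ε) := by
    intro c hc
    have hcu : LocallyIntegrable (fun y => c y * u y) := by
      have h := hul.continuous_smul (g := c) hc.continuous
      simpa [smul_eq_mul] using h
    exact (hc.mul (mol_contDiff hρ hε' hul)).sub (mol_contDiff hρ hε' hcu)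
  have b1 : ∀ j k, ‖(∫ x, cm ρ (dzb j (b j k)) u ε x * dz k g x) -
      ∫ x, dzb j (cm ρ (b j k) u ε) x * dz k g x‖ ≤ 2 * η * S := by
    intro j k
    refine (norm_sub_le _ _).trans ?_
    have h1 := norm_integral_mul_le (hcm (contDiff_dzb (hb j k) j)).continuous
      (hdzs k).continuous (hdz k) hη0.le (hc j k).1
    have h2 := norm_integral_mul_le (contDiff_dzb (hcm (hb j k)) j).continuous
      (hdzs k).continuous (hdz k) hη0.le (hc j k).2
    have h3 := mul_le_mul_of_nonneg_left (hkS k) hη0.le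
    linarith
  calc _ ≤ ∑ j : Fin n, ∑ k : Fin n, 2 * η * S :=
        norm_sum_le_of_le _ fun j _ => norm_sum_le_of_le _ fun k _ => b1 j k
    _ = 2 * (n : ℝ) ^ 2 * η * S := by
        simp only [Finset.sum_const, Finset.card_univ, Fintype.card_fin, nsmul_eq_mul]
        ring
    _ ≤ δ * S := mul_le_mul_of_nonneg_right hη1 (Real.sqrt_nonneg _)

end Pool.Agent.KRFQ
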