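import Pool.Agent.Work.MP_a2bf38_gt.Q.Sym
import Pool.Agent.Work.MP_a2bf38_gt.Q.Div

/-!
# The gradient form and the Laplacian in a chart (helper86)
-/

open scoped ContDiff Topology ComplexOrder Matrix MatrixOrder
open Set MeasureTheory Filter Pool.Agent.ToricKRF Pool.Agent.ToricKRF.G Pool.Agent.KRFS

namespace Pool.Agent.KRFQ

variable {n : ℕ}

/-! ### Rules for the gradient -/

theorem gradv_congr {g : Cn n → ℝ} {f f' : Cn n → ℂ} {z : Cn n} (h : f =ᶠ[𝓝 z] f') (j : Fin n) :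
    gradv g f z j = gradv g f' z j := by
  unfold gradv
  exact Finset.sum_congr rfl fun k _ => by rw [dzb_congr h]

theorem gradv_add (g : Cn n → ℝ) {f f' : Cn n → ℂ} {z : Cn n} (hf : DifferentiableAt ℝ f z)
    (hf' : DifferentiableAt ℝ f' z) (j : Fin n) :
    gradv g (fun x => f x + f' x) z j = gradv g f z j + gradv g f' z j := by
  unfold gradv
  rw [← Finset.sum_add_distrib]
  exact Finset.sum_congr rfl fun k _ => by rw [dzb_add hf hf']; ring

theorem gradv_sub (g : Cn n → ℝ) {f f' : Cn n → ℂ} {z : Cn n} (hf : DifferentiableAt ℝ f z)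
    (hf' : DifferentiableAt ℝ f' z) (j : Fin n) :
    gradv g (fun x => f x - f' x) z j = gradv g f z j - gradv g f' z j := by
  unfold gradv
  rw [← Finset.sum_sub_distrib]
  exact Finset.sum_congr rfl fun k _ => by rw [dzb_sub hf hf']; ring

theorem gradv_const (g : Cn n → ℝ) (c : ℂ) (z : Cn n) (j : Fin n) :
    gradv g (fun _ => c) z j = 0 := by
  unfold gradv
  exact Finset.sum_eq_zero fun k _ => by rw [dzb_const, mul_zero]

theorem gradv_mul (g : Cn n → ℝ) {f f' : Cn n → ℂ} {z : Cn n} (hf : DifferentiableAt ℝ f z)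
    (hf' : DifferentiableAt ℝ f' z) (j : Fin n) :
    gradv g (fun x => f x * f' x) z j = f z * gradv g f' z j + f' z * gradv g f z j := by
  unfold gradv
  rw [Finset.mul_sum, Finset.mul_sum, ← Finset.sum_add_distrib]
  exact Finset.sum_congr rfl fun k _ => by rw [dzb_mul hf hf']; ring

/-! ### The gradient form and the Laplacian -/

/-- the gradient form -/
noncomputable def gamc (g : Cn n → ℝ) (f f' : Cn n → ℂ) (z : Cn n) : ℂ :=
  ∑ j, gradv g f z j * (starRingEnd ℂ) (dzb j f' z)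

/-- the Laplacian -/
noncomputable def lapc (w g : Cn n → ℝ) (f : Cn n → ℂ) (z : Cn n) : ℂ := dv w (gradv g f) z

theorem dv_smul {w : Cn n → ℝ} {U : Set (Cn n)} (hU : IsOpen U) (hw : ContDiffOn ℝ ∞ w U)
    (hpos : ∀ z ∈ U, 0 < w z) {X : Cn n → Fin n → ℂ}
    (hX : ∀ j, ContDiffOn ℝ ∞ (fun x => X x j) U) {χ : Cn n → ℂ} (hχ : ContDiffOn ℝ ∞ χ U)
    {z : Cn n} (hz : z ∈ U) :
    dv w (fun x j => χ x * X x j) z = χ z * dv w X z + ∑ j, dz j χ z * X z j := by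
  rw [dv_eq hU hw hpos (fun j => hχ.mul (hX j)) hz, dv_eq hU hw hpos hX hz, Finset.mul_sum,
    ← Finset.sum_add_distrib]
  refine Finset.sum_congr rfl fun j _ => ?_
  rw [dz_mul (diffAtC hU hχ hz) (diffAtC hU (hX j) hz)]
  ring

theorem dv_add {w : Cn n → ℝ} {U : Set (Cn n)} (hU : IsOpen U) (hw : ContDiffOn ℝ ∞ w U)
    (hpos : ∀ z ∈ U, 0 < w z) {X Y : Cn n → Fin n → ℂ}
    (hX : ∀ j, ContDiffOn ℝ ∞ (fun x => X x j) U) (hY : ∀ j, ContDiffOn ℝ ∞ (fun x => Y x j) U)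
    {z : Cn n} (hz : z ∈ U) :
    dv w (fun x j => X x j + Y x j) z = dv w X z + dv w Y z := by
  rw [dv_eq hU hw hpos (fun j => (hX j).add (hY j)) hz, dv_eq hU hw hpos hX hz,
    dv_eq hU hw hpos hY hz, ← Finset.sum_add_distrib]
  refine Finset.sum_congr rfl fun j _ => ?_
  rw [dz_add (diffAtC hU (hX j) hz) (diffAtC hU (hY j) hz)]
  ring

theorem lapc_mul {w g : Cn n → ℝ} {U : Set (Cn n)} (hU : IsOpen U) (hw : ContDiffOn ℝ ∞ w U)
    (hpos : ∀ z ∈ U, 0 < w z) (hg : ContDiffOn ℝ ∞ g U) (hd : ∀ x ∈ U, (Hm g x).det ≠ 0)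
    {χ f : Cn n → ℂ} (hχ : ContDiffOn ℝ ∞ χ U) (hf : ContDiffOn ℝ ∞ f U) {z : Cn n}
    (hz : z ∈ U) :
    lapc w g (fun x => χ x * f x) z = χ z * lapc w g f z + f z * lapc w g χ z +
      ((∑ j, dz j χ z * gradv g f z j) + ∑ j, dz j f z * gradv g χ z j) := by
  have h1 : gradv g (fun x => χ x * f x) =ᶠ[𝓝 z]
      fun x j => χ x * gradv g f x j + f x * gradv g χ x j := by
    filter_upwards [hU.mem_nhds hz] with x hx
    funext j
    exact gradv_mul g (diffAtC hU hχ hx) (diffAtC hU hf hx) j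
  have s1 : ∀ j, ContDiffOn ℝ ∞ (fun x => gradv g f x j) U := contDiffOn_gradv hU hg hd hf
  have s2 : ∀ j, ContDiffOn ℝ ∞ (fun x => gradv g χ x j) U := contDiffOn_gradv hU hg hd hχ
  unfold lapc
  rw [dv_congr h1, dv_add hU hw hpos (X := fun x j => χ x * gradv g f x j)
    (Y := fun x j => f x * gradv g χ x j) (fun j => hχ.mul (s1 j)) (fun j => hf.mul (s2 j)) hz,
    dv_smul hU hw hpos s1 hχ hz, dv_smul hU hw hpos s2 hf hz]
  ring

theorem gamc_conj_right {g : Cn n → ℝ} {f χ : Cn n → ℂ} {z : Cn n}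
    (hχ : DifferentiableAt ℝ χ z) :
    gamc g f (fun x => (starRingEnd ℂ) (χ x)) z = ∑ j, dz j χ z * gradv g f z j := by
  unfold gamc
  refine Finset.sum_congr rfl fun j _ => ?_
  rw [dzb_conj hχ, Complex.conj_conj]
  ring

theorem gamc_mul_left (g : Cn n → ℝ) {χ f f' : Cn n → ℂ} {z : Cn n}
    (hχ : DifferentiableAt ℝ χ z) (hf : DifferentiableAt ℝ f z) :
    gamc g (fun x => χ x * f x) f' z = χ z * gamc g f f' z + f z * gamc g χ f' z := by
  unfold gamc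
  rw [Finset.mul_sum, Finset.mul_sum, ← Finset.sum_add_distrib]
  refine Finset.sum_congr rfl fun j _ => ?_
  rw [gradv_mul g hχ hf]
  ring

theorem gamc_mul_right (g : Cn n → ℝ) {χ f f' : Cn n → ℂ} {z : Cn n}
    (hχ : DifferentiableAt ℝ χ z) (hf' : DifferentiableAt ℝ f' z) :
    gamc g f (fun x => χ x * f' x) z = (starRingEnd ℂ) (χ z) * gamc g f f' z +
      (starRingEnd ℂ) (f' z) * gamc g f χ z := by
  unfold gamc
  rw [Finset.mul_sum, Finset.mul_sum, ← Finset.sum_add_distrib]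
  refine Finset.sum_congr rfl fun j _ => ?_
  rw [dzb_mul hχ hf', map_add, map_mul, map_mul]
  ring

theorem gamc_add_left (g : Cn n → ℝ) {f₁ f₂ f' : Cn n → ℂ} {z : Cn n}
    (h1 : DifferentiableAt ℝ f₁ z) (h2 : DifferentiableAt ℝ f₂ z) :
    gamc g (fun x => f₁ x + f₂ x) f' z = gamc g f₁ f' z + gamc g f₂ f' z := by
  unfold gamc
  rw [← Finset.sum_add_distrib]
  refine Finset.sum_congr rfl fun j _ => ?_
  rw [gradv_add g h1 h2]
  ring

theorem gamc_add_right (g : Cn n → ℝ) {f f₁ f₂ : Cn n → ℂ} {z : Cn n}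
    (h1 : DifferentiableAt ℝ f₁ z) (h2 : DifferentiableAt ℝ f₂ z) :
    gamc g f (fun x => f₁ x + f₂ x) z = gamc g f f₁ z + gamc g f f₂ z := by
  unfold gamc
  rw [← Finset.sum_add_distrib]
  refine Finset.sum_congr rfl fun j _ => ?_
  rw [dzb_add h1 h2, map_add]
  ring

theorem gamc_congr {g : Cn n → ℝ} {f₁ f₂ f₁' f₂' : Cn n → ℂ} {z : Cn n} (h1 : f₁ =ᶠ[𝓝 z] f₂)
    (h2 : f₁' =ᶠ[𝓝 z] f₂') : gamc g f₁ f₁' z = gamc g f₂ f₂' z := by
  unfold gamc
  refine Finset.sum_congr rfl fun j _ => ?_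
  rw [gradv_congr h1, dzb_congr h2]

theorem lapc_congr {w g : Cn n → ℝ} {f f' : Cn n → ℂ} {z : Cn n} (h : f =ᶠ[𝓝 z] f') :
    lapc w g f z = lapc w g f' z := by
  unfold lapc
  refine dv_congr ?_
  filter_upwards [h.eventuallyEq_nhds] with x hx
  funext j
  exact gradv_congr hx j

/-! ### The form is positive -/

section

variable {g : Cn n → ℝ} {z : Cn n} (hP : (Hm g z).PosDef)

include hP

/-- the square root of the inverse matrix -/
theorem exists_sqrt : ∃ Q : Matrix (Fin n) (Fin n) ℂ, ((Hm g z)ᵀ)⁻¹ = Qᴴ * Q := by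
  have h1 : (((Hm g z)ᵀ)⁻¹).PosSemidef := (hP.transpose.inv).posSemidef
  obtain ⟨B, hB⟩ := CStarAlgebra.nonneg_iff_eq_star_mul_self.mp h1.nonneg
  exact ⟨B, by rw [hB, Matrix.star_eq_conjTranspose]⟩

omit hP in
theorem gamc_eq (f f' : Cn n → ℂ) {Q : Matrix (Fin n) (Fin n) ℂ}
    (hQ : ((Hm g z)ᵀ)⁻¹ = Qᴴ * Q) :
    gamc g f f' z = ∑ i, Q.mulVec (fun k => dzb k f z) i *
      (starRingEnd ℂ) (Q.mulVec (fun k => dzb k f' z) i) := by
  unfold gamc gradv
  rw [hQ]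
  simp only [Matrix.mul_apply, Matrix.conjTranspose_apply, Matrix.mulVec, dotProduct, map_sum,
    map_mul, Finset.sum_mul, Finset.mul_sum, RCLike.star_def]
  rw [Finset.sum_comm]
  have h1 : ∀ (F : Fin n → Fin n → Fin n → ℂ),
      ∑ k, ∑ j, ∑ i, F i j k = ∑ i, ∑ j, ∑ k, F i j k := by
    intro F
    calc ∑ k, ∑ j, ∑ i, F i j k = ∑ k, ∑ i, ∑ j, F i j k :=
          Finset.sum_congr rfl fun k _ => Finset.sum_comm
      _ = ∑ i, ∑ k, ∑ j, F i j k := Finset.sum_comm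
      _ = _ := Finset.sum_congr rfl fun i _ => Finset.sum_comm
  rw [h1 fun i j k => (starRingEnd ℂ) (Q i j) * Q i k * dzb k f z *
    (starRingEnd ℂ) (dzb j f' z)]
  exact Finset.sum_congr rfl fun i _ => Finset.sum_congr rfl fun j _ =>
    Finset.sum_congr rfl fun k _ => by ring

theorem gamc_conj (f f' : Cn n → ℂ) :
    (starRingEnd ℂ) (gamc g f f' z) = gamc g f' f z := by
  obtain ⟨Q, hQ⟩ := exists_sqrt hP
  rw [gamc_eq f f' hQ, gamc_eq f' f hQ, map_sum]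
  refine Finset.sum_congr rfl fun i _ => ?_
  rw [map_mul, Complex.conj_conj]
  ring

theorem gamc_self (f : Cn n → ℂ) : gamc g f f z = ((gamc g f f z).re : ℂ) := by
  have h := gamc_conj hP f f
  exact (Complex.conj_eq_iff_re.1 h).symm

theorem gamc_self_nonneg (f : Cn n → ℂ) : 0 ≤ (gamc g f f z).re := by
  obtain ⟨Q, hQ⟩ := exists_sqrt hP
  rw [gamc_eq f f hQ, Complex.re_sum]
  refine Finset.sum_nonneg fun i _ => ?_
  rw [Complex.mul_conj, Complex.ofReal_re]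
  exact Complex.normSq_nonneg _

theorem norm_gamc_sq_le (f f' : Cn n → ℂ) :
    ‖gamc g f f' z‖ ^ 2 ≤ (gamc g f f z).re * (gamc g f' f' z).re := by
  obtain ⟨Q, hQ⟩ := exists_sqrt hP
  set a := Q.mulVec (fun k => dzb k f z) with ha
  set b := Q.mulVec (fun k => dzb k f' z) with hb
  have e1 : (gamc g f f z).re = ∑ i, ‖a i‖ ^ 2 := by
    rw [gamc_eq f f hQ, Complex.re_sum]
    refine Finset.sum_congr rfl fun i _ => ?_
    rw [Complex.mul_conj, Complex.ofReal_re, Complex.normSq_eq_norm_sq]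
  have e2 : (gamc g f' f' z).re = ∑ i, ‖b i‖ ^ 2 := by
    rw [gamc_eq f' f' hQ, Complex.re_sum]
    refine Finset.sum_congr rfl fun i _ => ?_
    rw [Complex.mul_conj, Complex.ofReal_re, Complex.normSq_eq_norm_sq]
  rw [e1, e2, gamc_eq f f' hQ]
  have h1 : ‖∑ i, a i * (starRingEnd ℂ) (b i)‖ ≤ ∑ i, ‖a i‖ * ‖b i‖ := by
    refine (norm_sum_le _ _).trans (Finset.sum_le_sum fun i _ => ?_)
    rw [norm_mul, RCLike.norm_conj]
  calc ‖∑ i, a i * (starRingEnd ℂ) (b i)‖ ^ 2 ≤ (∑ i, ‖a i‖ * ‖b i‖) ^ 2 :=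
        pow_le_pow_left₀ (norm_nonneg _) h1 2
    _ ≤ _ := Finset.sum_mul_sq_le_sq_mul_sq _ _ _

/-- the Euclidean length is bounded by the trace of the metric -/
theorem sum_dzb_le (f : Cn n → ℂ) :
    ∑ k, ‖dzb k f z‖ ^ 2 ≤ (∑ k, (Hm g z k k).re) * (gamc g f f z).re := by
  obtain ⟨Q, hQ⟩ := exists_sqrt hP
  have hu : IsUnit ((Hm g z)ᵀ).det := by
    rw [Matrix.det_transpose]
    exact hP.det_pos.ne'.isUnit
  set a := Q.mulVec (fun k => dzb k f z) with ha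
  have e1 : (gamc g f f z).re = ∑ i, ‖a i‖ ^ 2 := by
    rw [gamc_eq f f hQ, Complex.re_sum]
    refine Finset.sum_congr rfl fun i _ => ?_
    rw [Complex.mul_conj, Complex.ofReal_re, Complex.normSq_eq_norm_sq]
  -- `R = Gᵀ Qᴴ` is a left inverse of `Q`
  set R : Matrix (Fin n) (Fin n) ℂ := (Hm g z)ᵀ * Qᴴ with hR
  have hRQ : R * Q = 1 := by
    rw [hR, Matrix.mul_assoc, ← hQ]
    exact Matrix.mul_nonsing_inv _ hu
  have hQR : Q * R = 1 := mul_eq_one_comm.1 hRQ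
  have hRR : R * Rᴴ = (Hm g z)ᵀ := by
    have h1 : Rᴴ = Q * (Hm g z)ᵀ := by
      rw [hR, Matrix.conjTranspose_mul, Matrix.conjTranspose_conjTranspose]
      have h2 : ((Hm g z)ᵀ)ᴴ = (Hm g z)ᵀ := hP.transpose.isHermitian
      rw [h2]
    rw [h1, ← Matrix.mul_assoc, hRQ, Matrix.one_mul]
  have h2 : ∀ k, dzb k f z = ∑ i, R k i * a i := by
    intro k
    have h3 : R.mulVec a = fun k => dzb k f z := by
      rw [ha, Matrix.mulVec_mulVec, hRQ, Matrix.one_mulVec]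
    exact (congrFun h3 k).symm
  have h3 : ∀ k, ‖dzb k f z‖ ^ 2 ≤ (Hm g z k k).re * ∑ i, ‖a i‖ ^ 2 := by
    intro k
    have h4 : (Hm g z k k).re = ∑ i, ‖R k i‖ ^ 2 := by
      have h5 : Hm g z k k = (R * Rᴴ) k k := by rw [hRR, Matrix.transpose_apply]
      rw [h5, Matrix.mul_apply, Complex.re_sum]
      refine Finset.sum_congr rfl fun i _ => ?_
      rw [Matrix.conjTranspose_apply, RCLike.star_def, Complex.mul_conj, Complex.ofReal_re,
        Complex.normSq_eq_norm_sq]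
    rw [h4, h2 k]
    have h5 : ‖∑ i, R k i * a i‖ ≤ ∑ i, ‖R k i‖ * ‖a i‖ :=
      (norm_sum_le _ _).trans (Finset.sum_le_sum fun i _ => (norm_mul _ _).le)
    calc ‖∑ i, R k i * a i‖ ^ 2 ≤ (∑ i, ‖R k i‖ * ‖a i‖) ^ 2 :=
          pow_le_pow_left₀ (norm_nonneg _) h5 2
      _ ≤ _ := Finset.sum_mul_sq_le_sq_mul_sq _ _ _
  rw [e1, Finset.sum_mul]
  exact Finset.sum_le_sum fun k _ => h3 k

end

/-! ### `∂` and `∂bar` have the same size -/

theorem integral_norm_dz_sq {F : Cn n → ℂ} (hF : ContDiff ℝ ∞ F) (hc : HasCompactSupport F)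
    (k : Fin n) : ∫ x, ‖dz k F x‖ ^ 2 = ∫ x, ‖dzb k F x‖ ^ 2 := by
  have hcj : ContDiff ℝ ∞ (fun x => (starRingEnd ℂ) (F x)) :=
    Complex.conjCLE.toContinuousLinearMap.contDiff.comp hF
  have hd : ∀ {H : Cn n → ℂ}, ContDiff ℝ ∞ H → ∀ x, DifferentiableAt ℝ H x := fun hH x =>
    (hH.differentiable (by simp)) x
  -- the two total derivatives
  have i1 : ∫ x, dz k (fun y => (starRingEnd ℂ) (F y) * dzb k F y) x = 0 := by
    refine integral_dz_eq_zero ((hcj.mul (contDiff_dzb hF k)).of_le (by simp)) ?_ k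
    exact (hc.mono' ((subset_tsupport _).trans (tsupport_dzb_subset k F))).mul_left
  have i2 : ∫ x, dzb k (fun y => (starRingEnd ℂ) (F y) * dz k F y) x = 0 := by
    refine integral_dzb_eq_zero ((hcj.mul (contDiff_dz hF k)).of_le (by simp)) ?_ k
    exact (hc.mono' ((subset_tsupport _).trans (tsupport_dz_subset k F))).mul_left
  have e1 : ∀ x, dz k (fun y => (starRingEnd ℂ) (F y) * dzb k F y) x =
      ((‖dzb k F x‖ ^ 2 : ℝ) : ℂ) + (starRingEnd ℂ) (F x) * dz k (dzb k F) x := by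
    intro x
    rw [dz_mul (hd hcj x) (hd (contDiff_dzb hF k) x), dz_conj (hd hF x),
      ← Complex.normSq_eq_norm_sq, ← Complex.mul_conj]
    ring
  have e2 : ∀ x, dzb k (fun y => (starRingEnd ℂ) (F y) * dz k F y) x =
      ((‖dz k F x‖ ^ 2 : ℝ) : ℂ) + (starRingEnd ℂ) (F x) * dz k (dzb k F) x := by
    intro x
    rw [dzb_mul (hd hcj x) (hd (contDiff_dz hF k) x), dzb_conj (hd hF x),
      ← Complex.normSq_eq_norm_sq, ← Complex.mul_conj,
      dz_dzb isOpen_univ hF.contDiffOn (mem_univ x) k k]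
    ring
  have c1 : Integrable (fun x => ((‖dzb k F x‖ ^ 2 : ℝ) : ℂ)) := by
    have h1 : Continuous (fun x => ((‖dzb k F x‖ ^ 2 : ℝ) : ℂ)) :=
      Complex.continuous_ofReal.comp ((contDiff_dzb hF k).continuous.norm.pow 2)
    refine h1.integrable_of_hasCompactSupport ?_
    refine (hc.mono' ((subset_tsupport _).trans (tsupport_dzb_subset k F))).comp_left
      (g := fun y : ℂ => ((‖y‖ ^ 2 : ℝ) : ℂ)) (by simp)
  have c2 : Integrable (fun x => ((‖dz k F x‖ ^ 2 : ℝ) : ℂ)) := by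
    have h1 : Continuous (fun x => ((‖dz k F x‖ ^ 2 : ℝ) : ℂ)) :=
      Complex.continuous_ofReal.comp ((contDiff_dz hF k).continuous.norm.pow 2)
    refine h1.integrable_of_hasCompactSupport ?_
    refine (hc.mono' ((subset_tsupport _).trans (tsupport_dz_subset k F))).comp_left
      (g := fun y : ℂ => ((‖y‖ ^ 2 : ℝ) : ℂ)) (by simp)
  have c3 : Integrable (fun x => (starRingEnd ℂ) (F x) * dz k (dzb k F) x) := by
    refine (hcj.continuous.mul (contDiff_dz (contDiff_dzb hF k) k).continuous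
      ).integrable_of_hasCompactSupport ?_
    exact (hc.comp_left (g := (starRingEnd ℂ)) (by simp)).mul_right
  simp only [e1] at i1
  simp only [e2] at i2
  rw [integral_add c1 c3] at i1
  rw [integral_add c2 c3] at i2
  have h := i2.trans i1.symm
  have h2 := add_right_cancel h
  have h3 : ((∫ x, ‖dz k F x‖ ^ 2 : ℝ) : ℂ) = ((∫ x, ‖dzb k F x‖ ^ 2 : ℝ) : ℂ) := by
    rw [← integral_complex_ofReal, ← integral_complex_ofReal]
    exact h2
  exact_mod_cast h3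

end Pool.Agent.KRFQ
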