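import Pool.Agent.Work.MP_a2bf38_gt.Q.Green
import Pool.Agent.Work.MP_a2bf38_gt.Q.RegLoc

/-!
# The gradient form on the manifold (helper86)
-/

open scoped ContDiff Topology ComplexOrder Matrix
open Set MeasureTheory Filter Pool.Agent.ToricKRF Pool.Agent.ToricKRF.G Pool.Agent.KRFS

namespace Pool.Agent.KRFQ

variable {M : Type} [TopologicalSpace M] {n : ℕ} {κ : Type}
  {e : κ → OpenPartialHomeomorph M (Cn n)} {V : Set M} {w g : κ → Cn n → ℝ}

/-- The gradient form `⟨∂bar f, ∂bar f'⟩`. -/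
noncomputable def gam (e : κ → OpenPartialHomeomorph M (Cn n)) (g : κ → Cn n → ℝ)
    (f f' : M → ℂ) : M → ℂ :=
  act e (grd e g f) fun p => (starRingEnd ℂ) (f' p)

theorem L2D.pb_gam (h : L2D e V w g) {f f' : M → ℂ} (hf : Sm e f) (hf' : Sm e f') {c : κ}
    {z : Cn n} (hz : z ∈ (e c).target) :
    pb e c (gam e g f f') z = gamc (g c) (pb e c f) (pb e c f') z := by
  rw [gam, h.pb_act (h.Fld_grd hf) hf'.conj hz]
  unfold gamc grd
  refine Finset.sum_congr rfl fun j _ => ?_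
  congr 1
  exact dz_conj (diffAtC (e c).open_target (hf' c) hz) j

theorem L2D.gam_point (h : L2D e V w g) {f f' : M → ℂ} (hf : Sm e f) (hf' : Sm e f') {c : κ}
    {p : M} (hp : p ∈ (e c).source) :
    gam e g f f' p = gamc (g c) (pb e c f) (pb e c f') (e c p) := by
  have h1 := h.pb_gam hf hf' ((e c).map_source hp)
  rwa [pb, (e c).left_inv hp] at h1

theorem L2D.gam_notMem (h : L2D e V w g) (f f' : M → ℂ) {p : M} (hp : p ∉ V) :
    gam e g f f' p = 0 := by
  rw [gam, act]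
  exact h.notMem hp _

theorem L2D.Lap_point (h : L2D e V w g) {f : M → ℂ} (hf : Sm e f) {c : κ}
    {p : M} (hp : p ∈ (e c).source) :
    Lap e w g f p = -lapc (w c) (g c) (pb e c f) (e c p) := by
  have h1 := h.pb_divg (h.Fld_grd hf) ((e c).map_source hp)
  rw [pb, (e c).left_inv hp] at h1
  rw [Lap, h1]
  rfl

theorem L2D.pb_Lap (h : L2D e V w g) {f : M → ℂ} (hf : Sm e f) {c : κ}
    {z : Cn n} (hz : z ∈ (e c).target) :
    pb e c (Lap e w g f) z = -lapc (w c) (g c) (pb e c f) z := by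
  have h1 := h.Lap_point hf ((e c).map_target hz)
  rwa [(e c).right_inv hz] at h1

theorem L2D.Lap_notMem (h : L2D e V w g) (f : M → ℂ) {p : M} (hp : p ∉ V) :
    Lap e w g f p = 0 := by
  rw [Lap, divg, h.notMem hp, neg_zero]

theorem L2D.Sm_gam (h : L2D e V w g) {f f' : M → ℂ} (hf : Sm e f) (hf' : Sm e f') :
    Sm e (gam e g f f') := h.Sm_act (h.Fld_grd hf) hf'.conj

/-! ### Algebra -/

theorem Sm.diffAt {f : M → ℂ} (hf : Sm e f) {c : κ} {p : M} (hp : p ∈ (e c).source) :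
    DifferentiableAt ℝ (pb e c f) (e c p) :=
  diffAtC (e c).open_target (hf c) ((e c).map_source hp)

theorem L2D.gam_conj (h : L2D e V w g) {f f' : M → ℂ} (hf : Sm e f) (hf' : Sm e f') (p : M) :
    (starRingEnd ℂ) (gam e g f f' p) = gam e g f' f p := by
  by_cases hp : p ∈ V
  · obtain ⟨c, hc⟩ := h.cover p hp
    rw [h.gam_point hf hf' hc, h.gam_point hf' hf hc]
    exact KRFQ.gamc_conj (h.posDef c ((e c).map_source hc)) _ _
  · rw [h.gam_notMem f f' hp, h.gam_notMem f' f hp, map_zero]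

theorem L2D.gam_self (h : L2D e V w g) {f : M → ℂ} (hf : Sm e f) (p : M) :
    gam e g f f p = ((gam e g f f p).re : ℂ) :=
  (Complex.conj_eq_iff_re.1 (h.gam_conj hf hf p)).symm

theorem L2D.gam_nonneg (h : L2D e V w g) {f : M → ℂ} (hf : Sm e f) (p : M) :
    0 ≤ (gam e g f f p).re := by
  by_cases hp : p ∈ V
  · obtain ⟨c, hc⟩ := h.cover p hp
    rw [h.gam_point hf hf hc]
    exact gamc_self_nonneg (h.posDef c ((e c).map_source hc)) _
  · rw [h.gam_notMem f f hp, Complex.zero_re]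

theorem L2D.norm_gam_sq_le (h : L2D e V w g) {f f' : M → ℂ} (hf : Sm e f) (hf' : Sm e f')
    (p : M) : ‖gam e g f f' p‖ ^ 2 ≤ (gam e g f f p).re * (gam e g f' f' p).re := by
  by_cases hp : p ∈ V
  · obtain ⟨c, hc⟩ := h.cover p hp
    rw [h.gam_point hf hf' hc, h.gam_point hf hf hc, h.gam_point hf' hf' hc]
    exact KRFQ.norm_gamc_sq_le (h.posDef c ((e c).map_source hc)) _ _
  · rw [h.gam_notMem f f' hp, h.gam_notMem f f hp]
    simp

theorem L2D.norm_gam_le (h : L2D e V w g) {f f' : M → ℂ} (hf : Sm e f) (hf' : Sm e f')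
    (p : M) : ‖gam e g f f' p‖ ≤ √(gam e g f f p).re * √(gam e g f' f' p).re := by
  rw [← Real.sqrt_mul (h.gam_nonneg hf p)]
  exact Real.le_sqrt_of_sq_le (h.norm_gam_sq_le hf hf' p)

theorem L2D.gam_mul_left (h : L2D e V w g) {χ f f' : M → ℂ} (hχ : Sm e χ) (hf : Sm e f)
    (hf' : Sm e f') (p : M) : gam e g (fun q => χ q * f q) f' p =
      χ p * gam e g f f' p + f p * gam e g χ f' p := by
  by_cases hp : p ∈ V
  · obtain ⟨c, hc⟩ := h.cover p hp
    rw [h.gam_point (hχ.mul hf) hf' hc, h.gam_point hf hf' hc, h.gam_point hχ hf' hc]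
    have h1 := gamc_mul_left (g c) (f' := pb e c f') (hχ.diffAt hc) (hf.diffAt hc)
    simp only [pb, (e c).left_inv hc] at h1 ⊢
    exact h1
  · simp only [h.gam_notMem _ _ hp, mul_zero, add_zero]

theorem L2D.gam_mul_right (h : L2D e V w g) {χ f f' : M → ℂ} (hχ : Sm e χ) (hf : Sm e f)
    (hf' : Sm e f') (p : M) : gam e g f (fun q => χ q * f' q) p =
      (starRingEnd ℂ) (χ p) * gam e g f f' p + (starRingEnd ℂ) (f' p) * gam e g f χ p := by
  by_cases hp : p ∈ V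
  · obtain ⟨c, hc⟩ := h.cover p hp
    rw [h.gam_point hf (hχ.mul hf') hc, h.gam_point hf hf' hc, h.gam_point hf hχ hc]
    have h1 := gamc_mul_right (g c) (f := pb e c f) (hχ.diffAt hc) (hf'.diffAt hc)
    simp only [pb, (e c).left_inv hc] at h1 ⊢
    exact h1
  · simp only [h.gam_notMem _ _ hp, mul_zero, add_zero]

theorem L2D.gam_add_left (h : L2D e V w g) {f₁ f₂ f' : M → ℂ} (h1 : Sm e f₁) (h2 : Sm e f₂)
    (hf' : Sm e f') (p : M) :
    gam e g (fun q => f₁ q + f₂ q) f' p = gam e g f₁ f' p + gam e g f₂ f' p := by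
  by_cases hp : p ∈ V
  · obtain ⟨c, hc⟩ := h.cover p hp
    rw [h.gam_point (h1.add h2) hf' hc, h.gam_point h1 hf' hc, h.gam_point h2 hf' hc]
    exact gamc_add_left (g c) (h1.diffAt hc) (h2.diffAt hc)
  · simp only [h.gam_notMem _ _ hp, add_zero]

theorem L2D.gam_add_right (h : L2D e V w g) {f f₁ f₂ : M → ℂ} (hf : Sm e f) (h1 : Sm e f₁)
    (h2 : Sm e f₂) (p : M) :
    gam e g f (fun q => f₁ q + f₂ q) p = gam e g f f₁ p + gam e g f f₂ p := by
  by_cases hp : p ∈ V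
  · obtain ⟨c, hc⟩ := h.cover p hp
    rw [h.gam_point hf (h1.add h2) hc, h.gam_point hf h1 hc, h.gam_point hf h2 hc]
    exact gamc_add_right (g c) (h1.diffAt hc) (h2.diffAt hc)
  · simp only [h.gam_notMem _ _ hp, add_zero]

theorem L2D.gam_congr (h : L2D e V w g) {f₁ f₂ f₁' f₂' : M → ℂ} (h1 : Sm e f₁) (h2 : Sm e f₂)
    (h1' : Sm e f₁') (h2' : Sm e f₂') {p : M} (hf : f₁ =ᶠ[𝓝 p] f₂) (hf' : f₁' =ᶠ[𝓝 p] f₂') :
    gam e g f₁ f₁' p = gam e g f₂ f₂' p := by
  by_cases hp : p ∈ V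
  · obtain ⟨c, hc⟩ := h.cover p hp
    rw [h.gam_point h1 h1' hc, h.gam_point h2 h2' hc]
    have hcont : Tendsto (e c).symm (𝓝 (e c p)) (𝓝 p) := by
      have := ((e c).symm.continuousAt ((e c).map_source hc))
      rwa [ContinuousAt, (e c).left_inv hc] at this
    exact KRFQ.gamc_congr (hcont.eventually hf) (hcont.eventually hf')
  · rw [h.gam_notMem _ _ hp, h.gam_notMem _ _ hp]

theorem L2D.Lap_congr (h : L2D e V w g) {f₁ f₂ : M → ℂ} (h1 : Sm e f₁) (h2 : Sm e f₂) {p : M}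
    (hf : f₁ =ᶠ[𝓝 p] f₂) : Lap e w g f₁ p = Lap e w g f₂ p := by
  by_cases hp : p ∈ V
  · obtain ⟨c, hc⟩ := h.cover p hp
    rw [h.Lap_point h1 hc, h.Lap_point h2 hc]
    have hcont : Tendsto (e c).symm (𝓝 (e c p)) (𝓝 p) := by
      have := ((e c).symm.continuousAt ((e c).map_source hc))
      rwa [ContinuousAt, (e c).left_inv hc] at this
    have h3 : lapc (w c) (g c) (pb e c f₁) (e c p) = lapc (w c) (g c) (pb e c f₂) (e c p) :=
      KRFQ.lapc_congr (hcont.eventually hf)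
    rw [h3]
  · rw [h.Lap_notMem _ hp, h.Lap_notMem _ hp]

theorem L2D.Lap_mul (h : L2D e V w g) {χ f : M → ℂ} (hχ : Sm e χ) (hf : Sm e f) (p : M) :
    Lap e w g (fun q => χ q * f q) p = χ p * Lap e w g f p + f p * Lap e w g χ p -
      gam e g f (fun q => (starRingEnd ℂ) (χ q)) p -
      gam e g χ (fun q => (starRingEnd ℂ) (f q)) p := by
  by_cases hp : p ∈ V
  · obtain ⟨c, hc⟩ := h.cover p hp
    have hz := (e c).map_source hc
    rw [h.Lap_point (hχ.mul hf) hc, h.Lap_point hf hc, h.Lap_point hχ hc,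
      h.gam_point hf hχ.conj hc, h.gam_point hχ hf.conj hc]
    have h1 := lapc_mul (e c).open_target (h.w_smooth c) (h.w_pos c) (h.g_smooth c)
      (fun x hx => h.det_ne c hx) (hχ c) (hf c) hz
    have h2 := gamc_conj_right (g := g c) (f := pb e c f) (hχ.diffAt hc)
    have h3 := gamc_conj_right (g := g c) (f := pb e c χ) (hf.diffAt hc)
    rw [← h2, ← h3] at h1
    have e1 : ∀ f : M → ℂ, pb e c f (e c p) = f p := fun f => by rw [pb, (e c).left_inv hc]
    rw [e1, e1] at h1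
    have h4 : lapc (w c) (g c) (pb e c fun q => χ q * f q) (e c p) =
      χ p * lapc (w c) (g c) (pb e c f) (e c p) + f p * lapc (w c) (g c) (pb e c χ) (e c p) +
      (gamc (g c) (pb e c f) (pb e c fun q => (starRingEnd ℂ) (χ q)) (e c p) +
        gamc (g c) (pb e c χ) (pb e c fun q => (starRingEnd ℂ) (f q)) (e c p)) := h1
    rw [h4]
    ring
  · simp only [h.gam_notMem _ _ hp, h.Lap_notMem _ hp, mul_zero, add_zero, sub_zero]

theorem L2D.gam_zero (h : L2D e V w g) {f f' : M → ℂ} (hf : Sm e f) (hf' : Sm e f') {K : Set M}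
    [T2Space M] (hK : IsCompact K) (h0 : (∀ p ∉ K, f p = 0) ∨ ∀ p ∉ K, f' p = 0) :
    ∀ p ∉ K, gam e g f f' p = 0 := by
  intro p hp
  have h1 : ∀ᶠ q in 𝓝 p, q ∉ K := hK.isClosed.isOpen_compl.mem_nhds hp
  have hc0 : Sm e (fun _ : M => (0 : ℂ)) := Sm.const 0
  have z1 : ∀ f : M → ℂ, Sm e f → gam e g (fun _ => 0) f p = 0 := by
    intro f hf
    have := h.gam_mul_left hc0 hc0 hf p
    simpa using this
  rcases h0 with h0 | h0
  · rw [h.gam_congr hf hc0 hf' hf' (h1.mono fun q hq => h0 q hq) EventuallyEq.rfl]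
    exact z1 f' hf'
  · rw [h.gam_congr hf hf hf' hc0 EventuallyEq.rfl (h1.mono fun q hq => h0 q hq),
      ← h.gam_conj hc0 hf, z1 f hf, map_zero]

theorem L2D.Lap_zero (h : L2D e V w g) {f : M → ℂ} (hf : Sm e f) {K : Set M}
    [T2Space M] (hK : IsCompact K) (h0 : ∀ p ∉ K, f p = 0) :
    ∀ p ∉ K, Lap e w g f p = 0 := by
  intro p hp
  have h1 : ∀ᶠ q in 𝓝 p, q ∉ K := hK.isClosed.isOpen_compl.mem_nhds hp
  have hc0 : Sm e (fun _ : M => (0 : ℂ)) := Sm.const 0
  rw [h.Lap_congr hf hc0 (h1.mono fun q hq => h0 q hq)]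
  have h2 := h.Lap_mul hc0 hc0 p
  have h3 := h.gam_mul_left hc0 hc0 (f' := fun _ : M => (0 : ℂ)) hc0 p
  simp only [mul_zero, zero_mul, add_zero, map_zero] at h2 h3
  rw [h2, h3]
  simp

section

variable [MeasurableSpace M] [BorelSpace M] {μ : Measure M}

/-- **Green's formula** -/
theorem IsDens.green [T2Space M] (hμ : IsDens e w μ) (h : L2D e V w g) {f f' : M → ℂ}
    (hf : Sm e f) (hf' : Sm e f') {K : Set M} (hK : IsCompact K) (hKV : K ⊆ V)
    (h0 : (∀ p ∉ K, f p = 0) ∨ ∀ p ∉ K, f' p = 0) :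
    ∫ p, f p * (starRingEnd ℂ) (Lap e w g f' p) ∂μ = ∫ p, gam e g f f' p ∂μ := by
  have h1 := hμ.ibp h (h.Fld_grd hf') hf.conj hK hKV (h0.imp
    (fun h0 p hp => by rw [h0 p hp, map_zero]) fun h0 => grd_zero hK h0)
  have h2 : ∫ p, gam e g f f' p ∂μ =
      (starRingEnd ℂ) (∫ p, act e (grd e g f') (fun p => (starRingEnd ℂ) (f p)) p ∂μ) := by
    rw [← integral_conj]
    exact integral_congr_ae (Eventually.of_forall fun p => (h.gam_conj hf' hf p).symm)
  have h3 : ∫ p, f p * (starRingEnd ℂ) (Lap e w g f' p) ∂μ =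
      -(starRingEnd ℂ) (∫ p, (starRingEnd ℂ) (f p) * divg e w (grd e g f') p ∂μ) := by
    rw [← integral_conj, ← integral_neg]
    refine integral_congr_ae (Eventually.of_forall fun p => ?_)
    simp only [Lap, map_neg, map_mul, Complex.conj_conj]
    ring
  rw [h3, h1, h2, map_neg, neg_neg]

end

end Pool.Agent.KRFQ
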