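import Pool.Agent.Work.MP_a2bf38_gt.Q.Meas

/-!
# The global Bochner inequality
-/

open scoped ContDiff Topology ComplexOrder Matrix
open Set MeasureTheory Filter Pool.Agent.ToricKRF Pool.Agent.ToricKRF.G Pool.Agent.KRFS

namespace Pool.Agent.KRFQ

/-- The point of `ℂ^n` with the complex coordinates `W`. -/
def ofv {n : ℕ} (W : Fin n → ℂ) : Cn n := (fun j => (W j).re, fun j => (W j).im)

theorem cc_ofv {n : ℕ} (W : Fin n → ℂ) (j : Fin n) : cc (ofv W) j = W j := by
  apply Complex.ext <;> simp [cc, ofv]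

section

variable {M : Type} [TopologicalSpace M] {n : ℕ} {κ : Type}

/-- The gradient of `f` in the charts. -/
noncomputable def grd (e : κ → OpenPartialHomeomorph M (Cn n)) (g : κ → Cn n → ℝ) (f : M → ℂ) :
    κ → Cn n → Fin n → ℂ := fun c z => gradv (g c) (pb e c f) z

/-- The operator `f ↦ - div grad f`. -/
noncomputable def Lap (e : κ → OpenPartialHomeomorph M (Cn n)) (w g : κ → Cn n → ℝ) (f : M → ℂ)
    (p : M) : ℂ := -divg e w (grd e g f) p

/-- `Φ(grad f, grad f)`, `Φ` the complex Hessian of `-log w`. -/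
noncomputable def Phi (e : κ → OpenPartialHomeomorph M (Cn n)) (w g : κ → Cn n → ℝ) (f : M → ℂ) :
    M → ℂ := glob e fun c z =>
  ((levz (fun x => -Real.log (w c x)) (ofv (grd e g f c z)) z : ℝ) : ℂ)

variable {e : κ → OpenPartialHomeomorph M (Cn n)} {V : Set M} {w g : κ → Cn n → ℝ}

theorem L2D.Fld_grd (h : L2D e V w g) {f : M → ℂ} (hf : Sm e f) : Fld e (grd e g f) where
  smooth c j := contDiffOn_gradv (e c).open_target (h.g_smooth c) (fun _ hx => h.det_ne c hx)
    (hf c) j
  tr _ _ _ hz l := h.grad_tr hf hz l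

theorem L2D.nlog_smooth (h : L2D e V w g) (c : κ) :
    ContDiffOn ℝ ∞ (fun x => -Real.log (w c x)) (e c).target :=
  ((h.w_smooth c).log fun z hz => (h.w_pos c z hz).ne').neg

theorem L2D.fderiv_ofv (h : L2D e V w g) {f : M → ℂ} (hf : Sm e f) {c c' : κ} {z : Cn n}
    (hz : z ∈ dom e c c') :
    fderiv ℝ (tr e c c') z (ofv (grd e g f c z)) = ofv (grd e g f c' (tr e c c' z)) := by
  refine cc_ext fun l => ?_
  rw [cc_fderiv (h.holo c c') hz, cc_ofv, grd, grd, h.grad_tr hf hz l]
  exact Finset.sum_congr rfl fun k _ => by rw [cc_ofv]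

theorem L2D.Phi_tr (h : L2D e V w g) {f : M → ℂ} (hf : Sm e f) (c c' : κ) :
    ∀ z ∈ dom e c c', ((levz (fun x => -Real.log (w c' x)) (ofv (grd e g f c' (tr e c c' z)))
      (tr e c c' z) : ℝ) : ℂ) =
      ((levz (fun x => -Real.log (w c x)) (ofv (grd e g f c z)) z : ℝ) : ℂ) := by
  intro z hz
  rw [h.w_lev c c' z hz, h.fderiv_ofv hf hz]

theorem L2D.pb_Phi (h : L2D e V w g) {f : M → ℂ} (hf : Sm e f) {c : κ} {z : Cn n}
    (hz : z ∈ (e c).target) : pb e c (Phi e w g f) z =
      ((levz (fun x => -Real.log (w c x)) (ofv (grd e g f c z)) z : ℝ) : ℂ) :=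
  pb_glob (fun c c' => h.Phi_tr hf c c') hz

theorem L2D.Phi_eq (h : L2D e V w g) {f : M → ℂ} (hf : Sm e f) {c : κ} {z : Cn n}
    (hz : z ∈ (e c).target) : pb e c (Phi e w g f) z =
      ∑ j, ∑ k, Hm (fun x => -Real.log (w c x)) z j k * grd e g f c z j *
        (starRingEnd ℂ) (grd e g f c z k) := by
  rw [h.pb_Phi hf hz, levz_eq (e c).open_target (h.nlog_smooth c) hz]
  simp only [cc_ofv]

theorem L2D.Sm_Phi (h : L2D e V w g) {f : M → ℂ} (hf : Sm e f) : Sm e (Phi e w g f) := by
  intro c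
  have h1 : ∀ j, ContDiffOn ℝ ∞ (fun z => grd e g f c z j) (e c).target :=
    (h.Fld_grd hf).smooth c
  refine ContDiffOn.congr ?_ fun z hz => h.Phi_eq hf hz
  refine ContDiffOn.sum fun j _ => ContDiffOn.sum fun k _ => ?_
  exact ((contDiffOn_Hm (e c).open_target (h.nlog_smooth c) j k).mul (h1 j)).mul
    (contDiffOn_conj (h1 k))

theorem L2D.Sm_Lap (h : L2D e V w g) {f : M → ℂ} (hf : Sm e f) : Sm e (Lap e w g f) := fun c =>
  (h.Sm_divg (h.Fld_grd hf) c).neg

/-- The field `W conj (div W)`. -/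
theorem L2D.Fld_Y (h : L2D e V w g) {f : M → ℂ} (hf : Sm e f) :
    Fld e (fun c z j => grd e g f c z j * (starRingEnd ℂ) (dv (w c) (grd e g f c) z)) where
  smooth c j := ((h.Fld_grd hf).smooth c j).mul (contDiffOn_conj
    (contDiffOn_dv (e c).open_target (h.w_smooth c) (h.w_pos c) ((h.Fld_grd hf).smooth c)))
  tr c c' z hz l := by
    rw [h.dv_tr (h.Fld_grd hf) hz, (h.Fld_grd hf).tr c c' z hz l, Finset.sum_mul]
    exact Finset.sum_congr rfl fun k _ => by ring

/-- The field `∑ conj (W_j) ∂_jbar W_k`. -/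
theorem L2D.Fld_N (h : L2D e V w g) {f : M → ℂ} (hf : Sm e f) :
    Fld e (fun c z k => ∑ j, (starRingEnd ℂ) (grd e g f c z j) *
      dzb j (fun y => grd e g f c y k) z) where
  smooth c k := ContDiffOn.sum fun j _ => (contDiffOn_conj ((h.Fld_grd hf).smooth c j)).mul
    (contDiffOn_dzb (e c).open_target ((h.Fld_grd hf).smooth c k) j)
  tr _ _ _ hz l := h.N_tr hf hz l

theorem grd_zero [T2Space M] {f : M → ℂ} {K : Set M} (hK : IsCompact K)
    (h0 : ∀ p ∉ K, f p = 0) (c : κ) : ∀ z ∈ (e c).target, (e c).symm z ∉ K →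
      grd e g f c =ᶠ[𝓝 z] fun _ => 0 := by
  intro z hz hzK
  have h3 : ∀ᶠ x in 𝓝 z, (e c).symm x ∈ Kᶜ :=
    ((e c).symm.continuousAt hz).eventually (hK.isClosed.isOpen_compl.mem_nhds hzK)
  have h2 : pb e c f =ᶠ[𝓝 z] fun _ => 0 := by
    filter_upwards [h3] with x hx
    exact h0 _ hx
  filter_upwards [h2.eventuallyEq_nhds] with x hx
  funext j
  simp only [grd, gradv]
  exact Finset.sum_eq_zero fun k _ => by rw [dzb_congr hx, dzb_const, mul_zero]

theorem L2D.divg_zero [T2Space M] (h : L2D e V w g) {X : κ → Cn n → Fin n → ℂ} (hX : Fld e X)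
    {K : Set M}
    (h0 : ∀ c, ∀ z ∈ (e c).target, (e c).symm z ∉ K → X c =ᶠ[𝓝 z] fun _ => 0) :
    ∀ p ∉ K, divg e w X p = 0 := by
  intro p hp
  by_cases hc : ∃ c', p ∈ (e c').source
  · obtain ⟨c', hc'⟩ := hc
    have h1 := h.pb_divg hX ((e c').map_source hc')
    rw [pb, (e c').left_inv hc'] at h1
    rw [h1, dv_congr (h0 c' _ ((e c').map_source hc') (by rwa [(e c').left_inv hc']))]
    simp [dv, dz_const]
  · rw [divg, glob, dif_neg hc]

theorem L2D.Phi_zero [T2Space M] (h : L2D e V w g) {f : M → ℂ} (hf : Sm e f) {K : Set M}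
    (hK : IsCompact K) (h0 : ∀ p ∉ K, f p = 0) : ∀ p ∉ K, Phi e w g f p = 0 := by
  intro p hp
  by_cases hc : ∃ c', p ∈ (e c').source
  · obtain ⟨c', hc'⟩ := hc
    have hz := (e c').map_source hc'
    have h1 := h.Phi_eq hf hz
    rw [pb, (e c').left_inv hc'] at h1
    rw [h1]
    have h2 : grd e g f c' (e c' p) = 0 :=
      (grd_zero (g := g) hK h0 c' _ hz (by rwa [(e c').left_inv hc'])).self_of_nhds
    simp [h2]
  · rw [Phi, glob, dif_neg hc]

/-- **The global Bochner inequality.** -/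
theorem IsDens.bochner [MeasurableSpace M] [BorelSpace M] [T2Space M] {μ : Measure M}
    (hμ : IsDens e w μ) (h : L2D e V w g) {f : M → ℂ} (hf : Sm e f) {K : Set M}
    (hK : IsCompact K) (hKV : K ⊆ V) (h0 : ∀ p ∉ K, f p = 0) :
    ∫ p, (Phi e w g f p).re ∂μ ≤ ∫ p, ‖Lap e w g f p‖ ^ 2 ∂μ := by
  set W := grd e g f with hW
  have hWF := h.Fld_grd hf
  have hY := h.Fld_Y hf
  have hN := h.Fld_N hf
  set Y : κ → Cn n → Fin n → ℂ := fun c z j =>
    grd e g f c z j * (starRingEnd ℂ) (dv (w c) (grd e g f c) z) with hYdef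
  set N : κ → Cn n → Fin n → ℂ := fun c z k => ∑ j, (starRingEnd ℂ) (grd e g f c z j) *
      dzb j (fun y => grd e g f c y k) z with hNdef
  have hW0 : ∀ c, ∀ z ∈ (e c).target, (e c).symm z ∉ K → W c =ᶠ[𝓝 z] fun _ => 0 := fun c =>
    grd_zero (g := g) hK h0 c
  have hY0 : ∀ c, ∀ z ∈ (e c).target, (e c).symm z ∉ K → Y c =ᶠ[𝓝 z] fun _ => 0 := by
    intro c z hz hzK
    filter_upwards [hW0 c z hz hzK] with x hx
    funext j
    have h1 : grd e g f c x j = 0 := congrFun hx j
    simp only [hYdef, h1, zero_mul, Pi.zero_apply]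
  have hN0 : ∀ c, ∀ z ∈ (e c).target, (e c).symm z ∉ K → N c =ᶠ[𝓝 z] fun _ => 0 := by
    intro c z hz hzK
    filter_upwards [hW0 c z hz hzK] with x hx
    funext k
    simp only [hNdef]
    refine Finset.sum_eq_zero fun j _ => ?_
    have h1 : grd e g f c x j = 0 := congrFun hx j
    rw [h1, map_zero, zero_mul]
  have iY : ∫ p, divg e w Y p ∂μ = 0 := hμ.integral_divg h hY hK hKV fun c z hz hzK =>
    (hY0 c z hz hzK).self_of_nhds
  have iN : ∫ p, divg e w N p ∂μ = 0 := hμ.integral_divg h hN hK hKV fun c z hz hzK =>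
    (hN0 c z hz hzK).self_of_nhds
  -- the functions
  have int : ∀ F : M → ℂ, Sm e F → (∀ p ∉ K, F p = 0) → Integrable F μ := fun F hF hF0 =>
    hμ.integrable h hK hKV (Sm.continuous (V := V) h.cover hF
      ((tsupport_sub_of_compact hK hF0).trans hKV)) hF0
  have sD := h.Sm_divg hWF
  have zD := h.divg_zero hWF hW0
  have zY := h.divg_zero hY hY0
  have zN := h.divg_zero hN hN0
  have zP := h.Phi_zero hf hK h0
  have i1 : Integrable (fun p => divg e w W p * (starRingEnd ℂ) (divg e w W p)) μ :=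
    int _ (sD.mul sD.conj) fun p hp => by rw [zD p hp, zero_mul]
  have i2 : Integrable (Phi e w g f) μ := int _ (h.Sm_Phi hf) zP
  have i3 : Integrable (divg e w Y) μ := int _ (h.Sm_divg hY) zY
  have i4 : Integrable (divg e w N) μ := int _ (h.Sm_divg hN) zN
  have i5 : Integrable (fun p => (starRingEnd ℂ) (divg e w N p)) μ :=
    int _ (h.Sm_divg hN).conj fun p hp => by rw [zN p hp, map_zero]
  have iN' : ∫ p, (starRingEnd ℂ) (divg e w N p) ∂μ = 0 := by
    rw [integral_conj, iN, map_zero]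
  have key : ∀ p, 0 ≤ (divg e w W p * (starRingEnd ℂ) (divg e w W p) - Phi e w g f p -
      divg e w Y p + (starRingEnd ℂ) (divg e w N p)).re := by
    intro p
    by_cases hp : p ∈ K
    · obtain ⟨c, hc⟩ := h.cover p (hKV hp)
      have hz := (e c).map_source hc
      have e1 := h.pb_divg hWF hz
      have e2 := h.Phi_eq hf hz
      have e3 := h.pb_divg hY hz
      have e4 := h.pb_divg hN hz
      rw [pb, (e c).left_inv hc] at e1 e2 e3 e4
      have e5 := bochner_point (e c).open_target (h.w_smooth c) (h.w_pos c) (hWF.smooth c) hz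
      have e6 := grad_trace_nonneg (e c).open_target (h.g_smooth c)
        (fun x hx => h.posDef c hx) (hf c) hz
      rw [e1, e2, e3, e4]
      have e7 : dv (w c) (W c) (e c p) * (starRingEnd ℂ) (dv (w c) (W c) (e c p)) -
          (∑ j, ∑ k, Hm (fun x => -Real.log (w c x)) (e c p) j k * grd e g f c (e c p) j *
            (starRingEnd ℂ) (grd e g f c (e c p) k)) - dv (w c) (Y c) (e c p) +
          (starRingEnd ℂ) (dv (w c) (N c) (e c p)) =
          ∑ j, ∑ k, dzb k (fun x => gradv (g c) (pb e c f) x j) (e c p) *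
            (starRingEnd ℂ) (dzb j (fun x => gradv (g c) (pb e c f) x k) (e c p)) := by
        rw [e5]
        simp only [hYdef, hNdef, grd]
        ring
      rw [e7]
      exact (Complex.nonneg_iff.1 e6).1
    · rw [zD p hp, zP p hp, zY p hp, zN p hp]
      simp
  have h1 : 0 ≤ ∫ p, (divg e w W p * (starRingEnd ℂ) (divg e w W p) - Phi e w g f p -
      divg e w Y p + (starRingEnd ℂ) (divg e w N p)).re ∂μ := integral_nonneg key
  have h2 : ∫ p, (divg e w W p * (starRingEnd ℂ) (divg e w W p) - Phi e w g f p -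
      divg e w Y p + (starRingEnd ℂ) (divg e w N p)).re ∂μ =
      ∫ p, ‖Lap e w g f p‖ ^ 2 ∂μ - ∫ p, (Phi e w g f p).re ∂μ := by
    have e1 : ∀ p, (divg e w W p * (starRingEnd ℂ) (divg e w W p) - Phi e w g f p -
        divg e w Y p + (starRingEnd ℂ) (divg e w N p)).re =
        ‖Lap e w g f p‖ ^ 2 - (Phi e w g f p).re - (divg e w Y p).re + (divg e w N p).re := by
      intro p
      have e2 : divg e w W p * (starRingEnd ℂ) (divg e w W p) =
          ((‖Lap e w g f p‖ ^ 2 : ℝ) : ℂ) := by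
        rw [Complex.mul_conj, Lap, norm_neg, Complex.normSq_eq_norm_sq]
      rw [e2]
      simp only [Complex.add_re, Complex.sub_re, Complex.conj_re, Complex.ofReal_re]
    have j1 : Integrable (fun p => ‖Lap e w g f p‖ ^ 2) μ := by
      refine i1.re.congr (Eventually.of_forall fun p => ?_)
      have e2 : divg e w W p * (starRingEnd ℂ) (divg e w W p) =
          ((‖Lap e w g f p‖ ^ 2 : ℝ) : ℂ) := by
        rw [Complex.mul_conj, Lap, norm_neg, Complex.normSq_eq_norm_sq]
      simp only [e2]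
      exact Complex.ofReal_re _
    simp only [e1]
    have r3 : ∫ p, (divg e w Y p).re ∂μ = 0 := by
      have := integral_re i3
      simp only [RCLike.re_to_complex] at this
      rw [this, iY, Complex.zero_re]
    have r4 : ∫ p, (divg e w N p).re ∂μ = 0 := by
      have := integral_re i4
      simp only [RCLike.re_to_complex] at this
      rw [this, iN, Complex.zero_re]
    have k2 : Integrable (fun p => (Phi e w g f p).re) μ := i2.re
    have k3 : Integrable (fun p => (divg e w Y p).re) μ := i3.re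
    have k4 : Integrable (fun p => (divg e w N p).re) μ := i4.re
    have k5 : Integrable (fun p => ‖Lap e w g f p‖ ^ 2 - (Phi e w g f p).re) μ := j1.sub k2
    have k6 : Integrable (fun p => ‖Lap e w g f p‖ ^ 2 - (Phi e w g f p).re -
      (divg e w Y p).re) μ := k5.sub k3
    rw [integral_add k6 k4, integral_sub k5 k3, integral_sub j1 k2, r3, r4]
    ring
  linarith

end

end Pool.Agent.KRFQ
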