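import Pool.Agent.Work.MP_a2bf38_gt.Q.GlobalB

/-!
# Green's formula
-/

open scoped ContDiff Topology ComplexOrder Matrix
open Set MeasureTheory Filter Pool.Agent.ToricKRF Pool.Agent.ToricKRF.G Pool.Agent.KRFS

namespace Pool.Agent.KRFQ

variable {M : Type} [TopologicalSpace M] {n : ℕ} {κ : Type}
  {e : κ → OpenPartialHomeomorph M (Cn n)} {V : Set M} {w g : κ → Cn n → ℝ}

/-- A function times a field. -/
theorem Fld.smul {X : κ → Cn n → Fin n → ℂ} (hX : Fld e X) {ζ : M → ℂ} (hζ : Sm e ζ) :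
    Fld e (fun c z j => pb e c ζ z * X c z j) where
  smooth c j := (hζ c).mul (hX.smooth c j)
  tr c c' z hz l := by
    rw [pb_tr ζ hz, hX.tr c c' z hz l, Finset.mul_sum]
    exact Finset.sum_congr rfl fun k _ => by ring

/-- `div (ζ X) = ζ div X + X ζ` -/
theorem L2D.divg_smul (h : L2D e V w g) {X : κ → Cn n → Fin n → ℂ} (hX : Fld e X) {ζ : M → ℂ}
    (hζ : Sm e ζ) {p : M} (hp : p ∈ V) :
    divg e w (fun c z j => pb e c ζ z * X c z j) p = ζ p * divg e w X p + act e X ζ p := by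
  obtain ⟨c, hc⟩ := h.cover p hp
  have hz := (e c).map_source hc
  have e1 := h.pb_divg (hX.smul hζ) hz
  have e2 := h.pb_divg hX hz
  have e3 := h.pb_act hX hζ hz
  rw [pb, (e c).left_inv hc] at e1 e2 e3
  rw [e1, e2, e3, dv_eq (e c).open_target (h.w_smooth c) (h.w_pos c)
    (fun j => (hX.smul hζ).smooth c j) hz, dv_eq (e c).open_target (h.w_smooth c) (h.w_pos c)
    (hX.smooth c) hz, Finset.mul_sum, ← Finset.sum_add_distrib]
  refine Finset.sum_congr rfl fun j _ => ?_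
  rw [dz_mul (diffAtC (e c).open_target (hζ c) hz) (diffAtC (e c).open_target (hX.smooth c j) hz)]
  simp only [pb, (e c).left_inv hc]
  ring

section

variable [MeasurableSpace M] [BorelSpace M] [T2Space M] {μ : Measure M}

omit [MeasurableSpace M] [BorelSpace M] [T2Space M] in
theorem L2D.notMem (h : L2D e V w g) {p : M} (hp : p ∉ V) (F : κ → Cn n → ℂ) :
    glob e F p = 0 := by
  rw [glob, dif_neg]
  rintro ⟨c, hc⟩
  exact hp (h.sub c hc)

omit [MeasurableSpace M] [BorelSpace M] in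
theorem L2D.act_zero (h : L2D e V w g) {X : κ → Cn n → Fin n → ℂ} (hX : Fld e X) {ζ : M → ℂ}
    (hζ : Sm e ζ) {K : Set M} (hK : IsCompact K)
    (h0 : (∀ p ∉ K, ζ p = 0) ∨
      ∀ c, ∀ z ∈ (e c).target, (e c).symm z ∉ K → X c =ᶠ[𝓝 z] fun _ => 0) :
    ∀ p ∉ K, act e X ζ p = 0 := by
  intro p hp
  by_cases hpV : p ∈ V
  · obtain ⟨c, hc⟩ := h.cover p hpV
    have hz := (e c).map_source hc
    have e3 := h.pb_act hX hζ hz
    rw [pb, (e c).left_inv hc] at e3
    rw [e3]
    have hpc : (e c).symm (e c p) ∉ K := by rwa [(e c).left_inv hc]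
    refine Finset.sum_eq_zero fun j _ => ?_
    rcases h0 with h1 | h1
    · have h2 : pb e c ζ =ᶠ[𝓝 (e c p)] fun _ => 0 := by
        have h3 : ∀ᶠ x in 𝓝 (e c p), (e c).symm x ∈ Kᶜ :=
          ((e c).symm.continuousAt hz).eventually (hK.isClosed.isOpen_compl.mem_nhds hpc)
        filter_upwards [h3] with x hx
        exact h1 _ hx
      rw [dz_congr h2, dz_const, mul_zero]
    · have h2 : X c (e c p) = 0 := (h1 c _ hz hpc).self_of_nhds
      rw [h2, Pi.zero_apply, zero_mul]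
  · exact h.notMem hpV _

/-- Integration by parts on `M`. -/
theorem IsDens.ibp (hμ : IsDens e w μ) (h : L2D e V w g)
    {X : κ → Cn n → Fin n → ℂ} (hX : Fld e X) {ζ : M → ℂ} (hζ : Sm e ζ) {K : Set M}
    (hK : IsCompact K) (hKV : K ⊆ V)
    (h0 : (∀ p ∉ K, ζ p = 0) ∨
      ∀ c, ∀ z ∈ (e c).target, (e c).symm z ∉ K → X c =ᶠ[𝓝 z] fun _ => 0) :
    ∫ p, ζ p * divg e w X p ∂μ = -∫ p, act e X ζ p ∂μ := by
  have h1 : ∫ p, divg e w (fun c z j => pb e c ζ z * X c z j) p ∂μ = 0 := by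
    refine hμ.integral_divg h (hX.smul hζ) hK hKV fun c z hz hzK => ?_
    funext j
    rcases h0 with h1 | h1
    · have h2 : pb e c ζ z = 0 := h1 _ hzK
      rw [h2, zero_mul, Pi.zero_apply]
    · have h2 : X c z = 0 := (h1 c _ hz hzK).self_of_nhds
      rw [h2, Pi.zero_apply, mul_zero]
  have h2 : ∀ p, divg e w (fun c z j => pb e c ζ z * X c z j) p =
      ζ p * divg e w X p + act e X ζ p := by
    intro p
    by_cases hp : p ∈ V
    · exact h.divg_smul hX hζ hp
    · rw [divg, act, divg, h.notMem hp, h.notMem hp, h.notMem hp, mul_zero, add_zero]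
  have z1 := h.act_zero hX hζ hK h0
  have z2 : ∀ p ∉ K, ζ p * divg e w X p = 0 := by
    intro p hp
    rcases h0 with h3 | h3
    · rw [h3 p hp, zero_mul]
    · rw [h.divg_zero hX h3 p hp, mul_zero]
  have int : ∀ F : M → ℂ, Sm e F → (∀ p ∉ K, F p = 0) → Integrable F μ := fun F hF hF0 =>
    hμ.integrable h hK hKV (Sm.continuous (V := V) h.cover hF
      ((tsupport_sub_of_compact hK hF0).trans hKV)) hF0
  have i1 := int _ (hζ.mul (h.Sm_divg hX)) z2
  have i2 := int _ (h.Sm_act hX hζ) z1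
  simp only [h2] at h1
  rw [integral_add i1 i2] at h1
  exact eq_neg_of_add_eq_zero_left h1

end

end Pool.Agent.KRFQ
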