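import Mathlib

/-!
# The Hilbert space step: an element which is bounded on a subspace is close to its orthogonal
complement
-/

open scoped Topology
open Filter

namespace Pool.Agent.KRFQ

/-- If `⟪x, s⟫` is bounded by `c ‖s‖` on the subspace `S`, then `x` is at distance at most `c` of the
orthogonal complement of `S`; the difference is in the closure of `S`. -/
theorem exists_mem_orthogonal {E : Type*} [NormedAddCommGroup E] [InnerProductSpace ℂ E]
    [CompleteSpace E] (S : Submodule ℂ E) (x : E) {c : ℝ}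
    (hc : 0 ≤ c) (h : ∀ s ∈ S, ‖inner ℂ x s‖ ≤ c * ‖s‖) :
    ∃ a ∈ Sᗮ, x - a ∈ S.topologicalClosure ∧ ‖x - a‖ ≤ c := by
  have hK : ∀ s ∈ S.topologicalClosure, ‖inner ℂ x s‖ ≤ c * ‖s‖ := by
    intro s hs
    have hcl : IsClosed {s : E | ‖inner ℂ x s‖ ≤ c * ‖s‖} :=
      isClosed_le (by fun_prop) (by fun_prop)
    exact closure_minimal (fun s hs => h s hs) hcl hs
  have hcomp : CompleteSpace S.topologicalClosure :=
    S.isClosed_topologicalClosure.completeSpace_coe
  set p : E := S.topologicalClosure.starProjection x with hp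
  have hpm : p ∈ S.topologicalClosure := Submodule.starProjection_apply_mem _ x
  have ho : x - p ∈ (S.topologicalClosure)ᗮ := Submodule.sub_starProjection_mem_orthogonal x
  have hx : x - (x - p) = p := by abel
  refine ⟨x - p, ?_, ?_, ?_⟩
  · rwa [Submodule.orthogonal_closure] at ho
  · rwa [hx]
  · rw [hx]
    have h1 : inner ℂ x p = inner ℂ p p := by
      have h2 : inner ℂ (x - p) p = 0 := (Submodule.mem_orthogonal' _ _).1 ho p hpm
      rw [inner_sub_left, sub_eq_zero] at h2
      exact h2
    have h3 := hK p hpm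
    rw [h1, inner_self_eq_norm_sq_to_K] at h3
    have h4 : ‖(((‖p‖ : ℝ) : ℂ)) ^ 2‖ = ‖p‖ * ‖p‖ := by
      rw [norm_pow, Complex.norm_real, norm_norm, sq]
    have h5 : ‖p‖ * ‖p‖ ≤ c * ‖p‖ := by
      rw [← h4]
      exact h3
    rcases (norm_nonneg p).eq_or_lt with h6 | h6
    · rwa [← h6]
    · exact le_of_mul_le_mul_right h5 h6

end Pool.Agent.KRFQ
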