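import Pool.Agent.Work.MP_a2bf38_gt.Q.Sym

/-!
# An open set of a complex manifold with a density and a Kähler metric: changes of charts
-/

open scoped ContDiff Topology ComplexOrder Matrix
open Set MeasureTheory Filter Pool.Agent.ToricKRF Pool.Agent.ToricKRF.G Pool.Agent.KRFS

namespace Pool.Agent.KRFQ

section

variable {M : Type} [TopologicalSpace M] {n : ℕ} {κ : Type}
  (e : κ → OpenPartialHomeomorph M (Cn n))

/-- Charts `e c` of the open set `V`, densities `w c` of a volume form and local potentials `g c` of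
a Kähler metric. -/
structure L2D (V : Set M) (w g : κ → Cn n → ℝ) : Prop where
  sub : ∀ c, (e c).source ⊆ V
  cover : ∀ p ∈ V, ∃ c, p ∈ (e c).source
  holo : ∀ c c', HolOn (tr e c c') (dom e c c')
  w_smooth : ∀ c, ContDiffOn ℝ ∞ (w c) (e c).target
  w_pos : ∀ c, ∀ z ∈ (e c).target, 0 < w c z
  w_compat : ∀ c c', ∀ z ∈ dom e c c',
    w c z = |(fderiv ℝ (tr e c c') z).det| * w c' (tr e c c' z)
  w_lev : ∀ c c', ∀ z ∈ dom e c c', ∀ u, levz (fun x => -Real.log (w c x)) u z =
    levz (fun x => -Real.log (w c' x)) (fderiv ℝ (tr e c c') z u) (tr e c c' z)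
  g_smooth : ∀ c, ContDiffOn ℝ ∞ (g c) (e c).target
  g_pos : ∀ c, ∀ z ∈ (e c).target, ∀ u, u ≠ 0 → 0 < levz (g c) u z
  g_compat : ∀ c c', ∀ z ∈ dom e c c', ∀ u, levz (g c) u z =
    levz (g c') (fderiv ℝ (tr e c c') z u) (tr e c c' z)

/-- The function `f` in the chart `c`. -/
def pb {A : Type*} (c : κ) (f : M → A) (z : Cn n) : A := f ((e c).symm z)

/-- The function `f` is smooth in all charts. -/
def Sm (f : M → ℂ) : Prop := ∀ c, ContDiffOn ℝ ∞ (pb e c f) (e c).target

end

section

variable {M : Type} [TopologicalSpace M] {n : ℕ} {κ : Type}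
  {e : κ → OpenPartialHomeomorph M (Cn n)}

theorem isOpen_dom (c c' : κ) : IsOpen (dom e c c') :=
  (e c).symm.isOpen_inter_preimage (e c').open_source

theorem dom_sub (c c' : κ) : dom e c c' ⊆ (e c).target := fun _ hz => hz.1

theorem mem_dom {c c' : κ} {p : M} (hp : p ∈ (e c).source) (hp' : p ∈ (e c').source) :
    e c p ∈ dom e c c' :=
  ⟨(e c).map_source hp, by rwa [(e c).left_inv hp]⟩

theorem tr_apply {c c' : κ} {p : M} (hp : p ∈ (e c).source) : tr e c c' (e c p) = e c' p := by
  simp only [tr, (e c).left_inv hp]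

theorem symm_tr {c c' : κ} {z : Cn n} (hz : z ∈ dom e c c') :
    (e c').symm (tr e c c' z) = (e c).symm z := (e c').left_inv hz.2

theorem tr_mem_target {c c' : κ} {z : Cn n} (hz : z ∈ dom e c c') :
    tr e c c' z ∈ (e c').target := (e c').map_source hz.2

theorem tr_mem_dom {c c' : κ} {z : Cn n} (hz : z ∈ dom e c c') : tr e c c' z ∈ dom e c' c := by
  refine ⟨tr_mem_target hz, ?_⟩
  rw [symm_tr hz]
  exact (e c).map_target hz.1

theorem tr_tr {c c' : κ} {z : Cn n} (hz : z ∈ dom e c c') : tr e c' c (tr e c c' z) = z := by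
  change e c ((e c').symm (tr e c c' z)) = z
  rw [symm_tr hz, (e c).right_inv hz.1]

theorem pb_tr {A : Type*} {c c' : κ} (f : M → A) {z : Cn n} (hz : z ∈ dom e c c') :
    pb e c' f (tr e c c' z) = pb e c f z := by
  simp only [pb, symm_tr hz]

theorem pb_eventuallyEq {A : Type*} {c c' : κ} (f : M → A) {z : Cn n} (hz : z ∈ dom e c c') :
    pb e c f =ᶠ[𝓝 z] fun x => pb e c' f (tr e c c' x) := by
  filter_upwards [(isOpen_dom c c').mem_nhds hz] with x hx
  exact (pb_tr f hx).symm

end

section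

variable {M : Type} [TopologicalSpace M] {n : ℕ} {κ : Type}
  {e : κ → OpenPartialHomeomorph M (Cn n)} (he : ∀ c c', HolOn (tr e c c') (dom e c c'))

include he

theorem Jm_tr_mul {c c' : κ} {z : Cn n} (hz : z ∈ dom e c c') :
    Jm (tr e c' c) (tr e c c' z) * Jm (tr e c c') z = 1 := by
  rw [← Jm_comp (isOpen_dom c c') (he c c') (isOpen_dom c' c) (he c' c) hz (tr_mem_dom hz),
    ← Jm_id z]
  refine Jm_congr ?_
  filter_upwards [(isOpen_dom c c').mem_nhds hz] with x hx
  exact tr_tr hx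

theorem Jm_tr_mul' {c c' : κ} {z : Cn n} (hz : z ∈ dom e c c') :
    Jm (tr e c c') z * Jm (tr e c' c) (tr e c c' z) = 1 :=
  mul_eq_one_comm.1 (Jm_tr_mul he hz)

theorem dz_pb {c c' : κ} {f : M → ℂ} (hf : Sm e f) {z : Cn n} (hz : z ∈ dom e c c')
    (k : Fin n) :
    dz k (pb e c f) z = ∑ l, dz l (pb e c' f) (tr e c c' z) * Jm (tr e c c') z l k := by
  rw [dz_congr (pb_eventuallyEq f hz)]
  exact dz_comp (isOpen_dom c c') (he c c') hz
    (diffAtC (e c').open_target (hf c') (tr_mem_target hz)) k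

theorem dzb_pb {c c' : κ} {f : M → ℂ} (hf : Sm e f) {z : Cn n} (hz : z ∈ dom e c c')
    (k : Fin n) :
    dzb k (pb e c f) z = ∑ l, dzb l (pb e c' f) (tr e c c' z) *
      (starRingEnd ℂ) (Jm (tr e c c') z l k) := by
  rw [dzb_congr (pb_eventuallyEq f hz)]
  exact dzb_comp (isOpen_dom c c') (he c c') hz
    (diffAtC (e c').open_target (hf c') (tr_mem_target hz)) k

omit he in
/-- A hermitian form is determined by its values on the diagonal. -/
theorem form_ext {A B : Matrix (Fin n) (Fin n) ℂ}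
    (h : ∀ u : Cn n, ∑ j, ∑ k, A j k * cc u j * (starRingEnd ℂ) (cc u k) =
      ∑ j, ∑ k, B j k * cc u j * (starRingEnd ℂ) (cc u k)) : A = B := by
  set S : Cn n → Cn n → ℂ := fun u v =>
    ∑ j, ∑ k, (A j k - B j k) * cc u j * (starRingEnd ℂ) (cc v k) with hS
  have h0 : ∀ u, S u u = 0 := by
    intro u
    have h1 : S u u = ∑ j, ∑ k, A j k * cc u j * (starRingEnd ℂ) (cc u k) -
        ∑ j, ∑ k, B j k * cc u j * (starRingEnd ℂ) (cc u k) := by
      rw [hS, ← Finset.sum_sub_distrib]
      refine Finset.sum_congr rfl fun j _ => ?_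
      rw [← Finset.sum_sub_distrib]
      exact Finset.sum_congr rfl fun k _ => by ring
    rw [h1, h u, sub_self]
  have hadd : ∀ u v, S (u + v) (u + v) = S u u + S u v + S v u + S v v := by
    intro u v
    simp only [hS, cc_add, map_add]
    rw [← Finset.sum_add_distrib, ← Finset.sum_add_distrib, ← Finset.sum_add_distrib]
    refine Finset.sum_congr rfl fun j _ => ?_
    rw [← Finset.sum_add_distrib, ← Finset.sum_add_distrib, ← Finset.sum_add_distrib]
    exact Finset.sum_congr rfl fun k _ => by ring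
  have h1 : ∀ u v, S u v + S v u = 0 := by
    intro u v
    have := hadd u v
    rw [h0, h0, h0] at this
    linear_combination -this
  have h2 : ∀ u v, S u (J v) = -Complex.I * S u v := by
    intro u v
    simp only [hS, cc_J, map_mul, Complex.conj_I]
    rw [Finset.mul_sum]
    refine Finset.sum_congr rfl fun j _ => ?_
    rw [Finset.mul_sum]
    exact Finset.sum_congr rfl fun k _ => by ring
  have h3 : ∀ u v, S (J v) u = Complex.I * S v u := by
    intro u v
    simp only [hS, cc_J]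
    rw [Finset.mul_sum]
    refine Finset.sum_congr rfl fun j _ => ?_
    rw [Finset.mul_sum]
    exact Finset.sum_congr rfl fun k _ => by ring
  have h4 : ∀ u v, S u v = 0 := by
    intro u v
    have e1 := h1 u v
    have e2 := h1 u (J v)
    rw [h2, h3] at e2
    have e3 : Complex.I * (S v u - S u v) = 0 := by linear_combination e2
    have e4 : S v u - S u v = 0 := by
      rcases mul_eq_zero.1 e3 with h | h
      · exact absurd h Complex.I_ne_zero
      · exact h
    linear_combination (1 / 2 : ℂ) * e1 - (1 / 2 : ℂ) * e4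
  ext j k
  have h5 := h4 (eR j) (eR k)
  simp only [hS, cc_eR] at h5
  simpa [sub_eq_zero] using h5

/-- Complex Hessians under changes of charts. -/
theorem Hm_tr {h : κ → Cn n → ℝ} (hh : ∀ c, ContDiffOn ℝ ∞ (h c) (e c).target) {c c' : κ}
    {z : Cn n} (hz : z ∈ dom e c c')
    (hc : ∀ u, levz (h c) u z = levz (h c') (fderiv ℝ (tr e c c') z u) (tr e c c' z)) :
    Hm (h c) z = (Jm (tr e c c') z)ᵀ * Hm (h c') (tr e c c' z) *
      (Jm (tr e c c') z).map (starRingEnd ℂ) := by
  refine form_ext fun u => ?_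
  rw [← levz_eq (e c).open_target (hh c) hz.1, hc u,
    levz_eq (e c').open_target (hh c') (tr_mem_target hz)]
  simp only [cc_fderiv (he c c') hz, Matrix.mul_apply, Matrix.transpose_apply, Matrix.map_apply,
    map_sum, map_mul, Finset.sum_mul, Finset.mul_sum]
  have h1 : ∀ (F : Fin n → Fin n → Fin n → Fin n → ℂ),
      ∑ l, ∑ m, ∑ k, ∑ j, F l m j k = ∑ j, ∑ k, ∑ m, ∑ l, F l m j k := by
    intro F
    calc ∑ l, ∑ m, ∑ k, ∑ j, F l m j k = ∑ l, ∑ m, ∑ j, ∑ k, F l m j k :=
          Finset.sum_congr rfl fun l _ => Finset.sum_congr rfl fun m _ => Finset.sum_comm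
      _ = ∑ l, ∑ j, ∑ m, ∑ k, F l m j k := Finset.sum_congr rfl fun l _ => Finset.sum_comm
      _ = ∑ j, ∑ l, ∑ m, ∑ k, F l m j k := Finset.sum_comm
      _ = ∑ j, ∑ l, ∑ k, ∑ m, F l m j k :=
          Finset.sum_congr rfl fun j _ => Finset.sum_congr rfl fun l _ => Finset.sum_comm
      _ = ∑ j, ∑ k, ∑ l, ∑ m, F l m j k := Finset.sum_congr rfl fun j _ => Finset.sum_comm
      _ = ∑ j, ∑ k, ∑ m, ∑ l, F l m j k :=
          Finset.sum_congr rfl fun j _ => Finset.sum_congr rfl fun k _ => Finset.sum_comm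
  rw [h1]
  refine Finset.sum_congr rfl fun j _ => Finset.sum_congr rfl fun k _ =>
    Finset.sum_congr rfl fun m _ => Finset.sum_congr rfl fun l _ => ?_
  ring

end

section

variable {M : Type} [TopologicalSpace M] {n : ℕ} {κ : Type}
  {e : κ → OpenPartialHomeomorph M (Cn n)} {V : Set M} {w g : κ → Cn n → ℝ}
  (h : L2D e V w g)

include h

theorem L2D.posDef (c : κ) {z : Cn n} (hz : z ∈ (e c).target) : (Hm (g c) z).PosDef :=
  Hm_posDef (e c).open_target (h.g_smooth c) hz fun u hu => h.g_pos c z hz u hu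

theorem L2D.det_ne (c : κ) {z : Cn n} (hz : z ∈ (e c).target) : (Hm (g c) z).det ≠ 0 :=
  (h.posDef c hz).det_pos.ne'

/-- The gradient under changes of charts. -/
theorem L2D.grad_tr {c c' : κ} {f : M → ℂ} (hf : Sm e f) {z : Cn n} (hz : z ∈ dom e c c')
    (l : Fin n) : gradv (g c') (pb e c' f) (tr e c c' z) l =
      ∑ k, Jm (tr e c c') z l k * gradv (g c) (pb e c f) z k := by
  refine congrFun (gradv_unique (W := fun l => ∑ k, Jm (tr e c c') z l k *
    gradv (g c) (pb e c f) z k) (h.det_ne c' (tr_mem_target hz)) fun m => ?_) l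
  -- the equation in the chart `c`
  have h1 : ∀ k, ∑ j, Hm (g c) z j k * gradv (g c) (pb e c f) z j = dzb k (pb e c f) z :=
    gradv_spec (h.det_ne c hz.1)
  have h2 := Hm_tr h.holo h.g_smooth hz (h.g_compat c c' z hz)
  set A := Jm (tr e c c') z with hA
  set B := Jm (tr e c' c) (tr e c c' z) with hB
  set G' := Hm (g c') (tr e c c' z) with hG'
  have hAB : A * B = 1 := Jm_tr_mul' h.holo hz
  set W := gradv (g c) (pb e c f) z with hW
  set α' : Fin n → ℂ := fun l => dzb l (pb e c' f) (tr e c c' z) with hα'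
  -- in matrix form
  have h3 : (Hm (g c) z)ᵀ.mulVec W = (A.map (starRingEnd ℂ))ᵀ.mulVec α' := by
    funext k
    rw [show (Hm (g c) z)ᵀ.mulVec W k = ∑ j, Hm (g c) z j k * W j from rfl, h1 k,
      dzb_pb h.holo hf hz k]
    simp only [Matrix.mulVec, dotProduct, Matrix.transpose_apply, Matrix.map_apply, hα']
    exact Finset.sum_congr rfl fun l _ => mul_comm _ _
  have h4 : (Hm (g c) z)ᵀ = (A.map (starRingEnd ℂ))ᵀ * (G'ᵀ * A) := by
    rw [h2, Matrix.transpose_mul, Matrix.transpose_mul, Matrix.transpose_transpose]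
  have h5 : ((B.map (starRingEnd ℂ))ᵀ) * ((A.map (starRingEnd ℂ))ᵀ) = 1 := by
    rw [← Matrix.transpose_mul, ← Matrix.map_mul, hAB]
    simp
  have h6 : G'ᵀ.mulVec (A.mulVec W) = α' := by
    have h7 := congrArg (fun v => ((B.map (starRingEnd ℂ))ᵀ).mulVec v) h3
    simp only [Matrix.mulVec_mulVec] at h7
    rw [h5, h4, ← Matrix.mul_assoc, h5, Matrix.one_mul, Matrix.one_mulVec] at h7
    rw [Matrix.mulVec_mulVec, h7]
  exact congrFun h6 m

/-- The vector field `∑ conj (W_j) ∂_jbar W_k` under changes of charts. -/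
theorem L2D.N_tr {c c' : κ} {f : M → ℂ} (hf : Sm e f) {z : Cn n} (hz : z ∈ dom e c c')
    (i : Fin n) :
    ∑ l, (starRingEnd ℂ) (gradv (g c') (pb e c' f) (tr e c c' z) l) *
      dzb l (fun x => gradv (g c') (pb e c' f) x i) (tr e c c' z) =
    ∑ k, Jm (tr e c c') z i k * ∑ j, (starRingEnd ℂ) (gradv (g c) (pb e c f) z j) *
      dzb j (fun x => gradv (g c) (pb e c f) x k) z := by
  have s1 : ∀ k, DifferentiableAt ℝ (fun x => gradv (g c) (pb e c f) x k) z := fun k =>
    diffAtC (e c).open_target (contDiffOn_gradv (e c).open_target (h.g_smooth c)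
      (fun x hx => h.det_ne c hx) (hf c) k) hz.1
  have s2 : DifferentiableAt ℝ (fun x => gradv (g c') (pb e c' f) x i) (tr e c c' z) :=
    diffAtC (e c').open_target (contDiffOn_gradv (e c').open_target (h.g_smooth c')
      (fun x hx => h.det_ne c' hx) (hf c') i) (tr_mem_target hz)
  have s3 : ∀ k, DifferentiableAt ℝ (fun x => Jm (tr e c c') x i k) z := fun k =>
    diffAtC (isOpen_dom c c') (contDiffOn_Jm (isOpen_dom c c') (h.holo c c') i k) hz
  have h1 : ∀ j, ∑ l, dzb l (fun x => gradv (g c') (pb e c' f) x i) (tr e c c' z) *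
      (starRingEnd ℂ) (Jm (tr e c c') z l j) =
      ∑ k, Jm (tr e c c') z i k * dzb j (fun x => gradv (g c) (pb e c f) x k) z := by
    intro j
    rw [← dzb_comp (isOpen_dom c c') (h.holo c c') hz s2 j]
    have h2 : (fun x => gradv (g c') (pb e c' f) (tr e c c' x) i) =ᶠ[𝓝 z]
        fun x => ∑ k, Jm (tr e c c') x i k * gradv (g c) (pb e c f) x k := by
      filter_upwards [(isOpen_dom c c').mem_nhds hz] with x hx
      exact h.grad_tr hf hx i
    rw [dzb_congr h2, dzb_sum _ fun k _ => (s3 k).fun_mul (s1 k)]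
    refine Finset.sum_congr rfl fun k _ => ?_
    rw [dzb_mul (s3 k) (s1 k), dzb_Jm (isOpen_dom c c') (h.holo c c') hz, zero_mul, zero_add]
  have h3 : ∀ l, (starRingEnd ℂ) (gradv (g c') (pb e c' f) (tr e c c' z) l) =
      ∑ j, (starRingEnd ℂ) (Jm (tr e c c') z l j) *
        (starRingEnd ℂ) (gradv (g c) (pb e c f) z j) := by
    intro l
    rw [h.grad_tr hf hz l, map_sum]
    exact Finset.sum_congr rfl fun j _ => map_mul _ _ _
  calc ∑ l, (starRingEnd ℂ) (gradv (g c') (pb e c' f) (tr e c c' z) l) *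
      dzb l (fun x => gradv (g c') (pb e c' f) x i) (tr e c c' z)
      = ∑ j, (starRingEnd ℂ) (gradv (g c) (pb e c f) z j) *
        ∑ l, dzb l (fun x => gradv (g c') (pb e c' f) x i) (tr e c c' z) *
          (starRingEnd ℂ) (Jm (tr e c c') z l j) := by
        simp only [h3, Finset.sum_mul, Finset.mul_sum]
        rw [Finset.sum_comm]
        exact Finset.sum_congr rfl fun j _ => Finset.sum_congr rfl fun l _ => by ring
    _ = _ := by
        simp only [h1, Finset.mul_sum]
        rw [Finset.sum_comm]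
        exact Finset.sum_congr rfl fun k _ => Finset.sum_congr rfl fun j _ => by ring

end

end Pool.Agent.KRFQ
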