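import Pool.Agent.Work.MP_a2bf38_gt.Q.Wirt

/-!
# Mollification on `ℂ^n`
-/

open scoped ContDiff Topology ENNReal Convolution
open Set MeasureTheory Filter Pool.Agent.ToricKRF Pool.Agent.ToricKRF.G

namespace Pool.Agent.KRFQ

variable {n : ℕ}

/-- A mollifier on `ℂ^n`. -/
structure IsMoll (j : Cn n → ℝ) : Prop where
  smooth : ContDiff ℝ ∞ j
  nonneg : ∀ x, 0 ≤ j x
  supp : ∀ x, 1 ≤ ‖x‖ → j x = 0
  int : ∫ x, j x = 1
  even : ∀ x, j (-x) = j x

/-- The scaled mollifier. -/
noncomputable def scl (j : Cn n → ℝ) (ε : ℝ) (x : Cn n) : ℝ := (ε ^ (2 * n))⁻¹ * j (ε⁻¹ • x)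

/-- The mollification of `u`. -/
noncomputable def mol (j : Cn n → ℝ) (ε : ℝ) (u : Cn n → ℂ) (x : Cn n) : ℂ :=
  ∫ y, (scl j ε (x - y) : ℂ) * u y

theorem haar_vol (n : ℕ) : (volume : Measure (Cn n)).IsAddHaarMeasure :=
  Measure.prod.instIsAddHaarMeasure _ _

theorem reg_vol (n : ℕ) : (volume : Measure (Cn n)).Regular := by
  have := haar_vol n
  exact Measure.Regular.of_sigmaCompactSpace_of_isLocallyFiniteMeasure _

theorem neg_vol (n : ℕ) : (volume : Measure (Cn n)).IsNegInvariant := by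
  have := haar_vol n
  have := reg_vol n
  exact Measure.IsAddHaarMeasure.isNegInvariant_of_regular _

theorem finrank_Cn (n : ℕ) : Module.finrank ℝ (Cn n) = 2 * n := by
  rw [show Module.finrank ℝ (Cn n) = Module.finrank ℝ ((Fin n → ℝ) × (Fin n → ℝ)) from rfl,
    Module.finrank_prod]
  simp
  ring

theorem exists_moll (n : ℕ) : ∃ j : Cn n → ℝ, IsMoll j := by
  have := haar_vol n
  let f : ContDiffBump (0 : Cn n) := ⟨1 / 2, 1, by norm_num, by norm_num⟩
  refine ⟨f.normed volume, f.contDiff_normed, fun x => f.nonneg_normed x, fun x hx => ?_,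
    f.integral_normed, fun x => ?_⟩
  · have h : f x = 0 := f.zero_of_le_dist (by simpa [dist_zero_right] using hx)
    simp [ContDiffBump.normed, h]
  · exact f.normed_neg x

theorem IsMoll.compact {j : Cn n → ℝ} (hj : IsMoll j) : HasCompactSupport j := by
  refine HasCompactSupport.intro (isCompact_closedBall (0 : Cn n) 1) fun x hx => hj.supp x ?_
  simp only [Metric.mem_closedBall, dist_zero_right, not_le] at hx
  exact hx.le

theorem scl_smooth {j : Cn n → ℝ} (hj : IsMoll j) (ε : ℝ) : ContDiff ℝ ∞ (scl j ε) :=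
  contDiff_const.mul (hj.smooth.comp (contDiff_const_smul ε⁻¹))

theorem scl_nonneg {j : Cn n → ℝ} (hj : IsMoll j) {ε : ℝ} (hε : 0 < ε) (x : Cn n) :
    0 ≤ scl j ε x := mul_nonneg (by positivity) (hj.nonneg _)

theorem scl_supp {j : Cn n → ℝ} (hj : IsMoll j) {ε : ℝ} (hε : 0 < ε) {x : Cn n} (hx : ε ≤ ‖x‖) :
    scl j ε x = 0 := by
  rw [scl, hj.supp, mul_zero]
  rw [norm_smul, norm_inv, Real.norm_eq_abs, abs_of_pos hε, inv_mul_eq_div]
  exact (one_le_div hε).2 hx

theorem scl_compact {j : Cn n → ℝ} (hj : IsMoll j) {ε : ℝ} (hε : 0 < ε) :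
    HasCompactSupport (scl j ε) := by
  refine HasCompactSupport.intro (isCompact_closedBall (0 : Cn n) ε) fun x hx =>
    scl_supp hj hε ?_
  simp only [Metric.mem_closedBall, dist_zero_right, not_le] at hx
  exact hx.le

theorem scl_even {j : Cn n → ℝ} (hj : IsMoll j) (ε : ℝ) (x : Cn n) : scl j ε (-x) = scl j ε x := by
  rw [scl, scl, smul_neg, hj.even]

theorem scl_int {j : Cn n → ℝ} (hj : IsMoll j) {ε : ℝ} (hε : 0 < ε) : ∫ x, scl j ε x = 1 := by
  have := haar_vol n
  simp only [scl]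
  rw [integral_const_mul, Measure.integral_comp_smul volume j ε⁻¹, finrank_Cn, hj.int]
  have h : (0 : ℝ) < ε ^ (2 * n) := by positivity
  rw [inv_pow, inv_inv, abs_of_pos h, smul_eq_mul, mul_one, inv_mul_cancel₀ h.ne']

/-- mollification is a convolution -/
theorem mol_eq_conv (j : Cn n → ℝ) (ε : ℝ) (u : Cn n → ℂ) :
    mol j ε u = convolution u (scl j ε) (ContinuousLinearMap.lsmul ℝ ℝ : ℝ →L[ℝ] ℂ →L[ℝ] ℂ).flip
      volume := by
  funext x
  simp only [mol, convolution_def, ContinuousLinearMap.flip_apply, ContinuousLinearMap.lsmul_apply,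
    Complex.real_smul]

theorem mol_contDiff {j : Cn n → ℝ} (hj : IsMoll j) {ε : ℝ} (hε : 0 < ε) {u : Cn n → ℂ}
    (hu : LocallyIntegrable u volume) : ContDiff ℝ ∞ (mol j ε u) := by
  have := haar_vol n
  rw [mol_eq_conv]
  exact (scl_compact hj hε).contDiff_convolution_right _ hu (scl_smooth hj ε)

theorem mol_eq_zero {j : Cn n → ℝ} (hj : IsMoll j) {ε : ℝ} (hε : 0 < ε) {u : Cn n → ℂ}
    {x : Cn n} (hu : ∀ y ∈ Metric.ball x ε, u y = 0) : mol j ε u x = 0 := by
  rw [mol]
  refine integral_eq_zero_of_ae (Eventually.of_forall fun y => ?_)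
  by_cases hy : y ∈ Metric.ball x ε
  · simp [hu y hy]
  · have h : ε ≤ ‖x - y‖ := by
      rw [Metric.mem_ball, not_lt, dist_comm, dist_eq_norm] at hy
      exact hy
    simp [scl_supp hj hε h]

theorem mol_congr {j : Cn n → ℝ} (hj : IsMoll j) {ε : ℝ} (hε : 0 < ε) {u v : Cn n → ℂ}
    {x : Cn n} (h : ∀ y ∈ Metric.ball x ε, u y = v y) : mol j ε u x = mol j ε v x := by
  rw [mol, mol]
  refine integral_congr_ae (Eventually.of_forall fun y => ?_)
  by_cases hy : y ∈ Metric.ball x ε
  · simp [h y hy]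
  · have h : ε ≤ ‖x - y‖ := by
      rw [Metric.mem_ball, not_lt, dist_comm, dist_eq_norm] at hy
      exact hy
    simp [scl_supp hj hε h]

theorem mol_compact {j : Cn n → ℝ} (hj : IsMoll j) {ε : ℝ} (hε : 0 < ε) {u : Cn n → ℂ}
    (hu : HasCompactSupport u) : HasCompactSupport (mol j ε u) := by
  rw [mol_eq_conv]
  exact HasCompactSupport.convolution _ hu (scl_compact hj hε)

/-- integrability of the kernel times a locally integrable function -/
theorem scl_mul_integrable {j : Cn n → ℝ} (hj : IsMoll j) {ε : ℝ} (hε : 0 < ε) {u : Cn n → ℂ}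
    (hu : LocallyIntegrable u volume) (x : Cn n) :
    Integrable (fun y => (scl j ε (x - y) : ℂ) * u y) volume := by
  have := haar_vol n
  have h := ((scl_compact hj hε).convolutionExists_right
    (ContinuousLinearMap.lsmul ℝ ℝ : ℝ →L[ℝ] ℂ →L[ℝ] ℂ).flip hu
    (scl_smooth hj ε).continuous) x
  simpa only [ConvolutionExistsAt, ContinuousLinearMap.flip_apply,
    ContinuousLinearMap.lsmul_apply, Complex.real_smul] using h

theorem mol_add {j : Cn n → ℝ} (hj : IsMoll j) {ε : ℝ} (hε : 0 < ε) {u v : Cn n → ℂ}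
    (hu : LocallyIntegrable u volume) (hv : LocallyIntegrable v volume) (x : Cn n) :
    mol j ε (fun y => u y + v y) x = mol j ε u x + mol j ε v x := by
  rw [mol, mol, mol, ← integral_add (scl_mul_integrable hj hε hu x)
    (scl_mul_integrable hj hε hv x)]
  exact integral_congr_ae (Eventually.of_forall fun y => by simp only; ring)

theorem mol_sub {j : Cn n → ℝ} (hj : IsMoll j) {ε : ℝ} (hε : 0 < ε) {u v : Cn n → ℂ}
    (hu : LocallyIntegrable u volume) (hv : LocallyIntegrable v volume) (x : Cn n) :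
    mol j ε (fun y => u y - v y) x = mol j ε u x - mol j ε v x := by
  rw [mol, mol, mol, ← integral_sub (scl_mul_integrable hj hε hu x)
    (scl_mul_integrable hj hε hv x)]
  exact integral_congr_ae (Eventually.of_forall fun y => by simp only; ring)

/-- the derivative of a mollification falls on the kernel -/
theorem fderiv_mol {j : Cn n → ℝ} (hj : IsMoll j) {ε : ℝ} (hε : 0 < ε) {u : Cn n → ℂ}
    (hu : LocallyIntegrable u volume) (x v : Cn n) :
    fderiv ℝ (mol j ε u) x v = ∫ y, (fderiv ℝ (scl j ε) (x - y) v : ℂ) * u y := by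
  have := haar_vol n
  have h := (scl_compact hj hε).hasFDerivAt_convolution_right
    (ContinuousLinearMap.lsmul ℝ ℝ : ℝ →L[ℝ] ℂ →L[ℝ] ℂ).flip hu
    ((scl_smooth hj ε).of_le (by norm_cast)) x
  rw [mol_eq_conv, h.fderiv]
  have hc : ConvolutionExistsAt u (fderiv ℝ (scl j ε)) x
      ((ContinuousLinearMap.lsmul ℝ ℝ : ℝ →L[ℝ] ℂ →L[ℝ] ℂ).flip.precompR (Cn n)) volume :=
    ((scl_compact hj hε).fderiv (𝕜 := ℝ)).convolutionExists_right _ hu
      ((scl_smooth hj ε).continuous_fderiv (by simp)) x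
  rw [convolution_def, ContinuousLinearMap.integral_apply hc]
  refine integral_congr_ae (Eventually.of_forall fun y => ?_)
  simp [ContinuousLinearMap.precompR_apply]

/-- the derivative of a mollification falls on the function -/
theorem fderiv_mol' {j : Cn n → ℝ} (hj : IsMoll j) {ε : ℝ} (hε : 0 < ε) {f : Cn n → ℂ}
    (hf : ContDiff ℝ 1 f) (hc : HasCompactSupport f) (x v : Cn n) :
    fderiv ℝ (mol j ε f) x v = mol j ε (fun y => fderiv ℝ f y v) x := by
  have := haar_vol n
  have := neg_vol n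
  have hs : LocallyIntegrable (scl j ε) (volume : Measure (Cn n)) :=
    (scl_smooth hj ε).continuous.locallyIntegrable
  have h := hc.hasFDerivAt_convolution_left
    (ContinuousLinearMap.lsmul ℝ ℝ : ℝ →L[ℝ] ℂ →L[ℝ] ℂ).flip hf hs x
  rw [mol_eq_conv, h.fderiv, mol_eq_conv]
  have hx : ConvolutionExistsAt (fderiv ℝ f) (scl j ε) x
      ((ContinuousLinearMap.lsmul ℝ ℝ : ℝ →L[ℝ] ℂ →L[ℝ] ℂ).flip.precompL (Cn n)) volume :=
    (hc.fderiv (𝕜 := ℝ)).convolutionExists_left _ (hf.continuous_fderiv (by simp)) hs x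
  rw [convolution_def, ContinuousLinearMap.integral_apply hx, convolution_def]
  refine integral_congr_ae (Eventually.of_forall fun y => ?_)
  simp [ContinuousLinearMap.precompL_apply]

theorem dz_mol {j : Cn n → ℝ} (hj : IsMoll j) {ε : ℝ} (hε : 0 < ε) {f : Cn n → ℂ}
    (hf : ContDiff ℝ 1 f) (hc : HasCompactSupport f) (k : Fin n) (x : Cn n) :
    dz k (mol j ε f) x = mol j ε (dz k f) x := by
  have hl : ∀ v : Cn n, LocallyIntegrable (fun y => fderiv ℝ f y v) volume := fun v =>
    ((hf.continuous_fderiv (by simp)).clm_apply continuous_const).locallyIntegrable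
  rw [dz, fderiv_mol' hj hε hf hc, fderiv_mol' hj hε hf hc, mol, mol, mol, ← integral_const_mul,
    ← integral_sub (scl_mul_integrable hj hε (hl _) x)
      ((scl_mul_integrable hj hε (hl _) x).const_mul _), ← integral_div]
  refine integral_congr_ae (Eventually.of_forall fun y => ?_)
  simp only [dz]
  ring

theorem dzb_mol {j : Cn n → ℝ} (hj : IsMoll j) {ε : ℝ} (hε : 0 < ε) {f : Cn n → ℂ}
    (hf : ContDiff ℝ 1 f) (hc : HasCompactSupport f) (k : Fin n) (x : Cn n) :
    dzb k (mol j ε f) x = mol j ε (dzb k f) x := by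
  have hl : ∀ v : Cn n, LocallyIntegrable (fun y => fderiv ℝ f y v) volume := fun v =>
    ((hf.continuous_fderiv (by simp)).clm_apply continuous_const).locallyIntegrable
  rw [dzb, fderiv_mol' hj hε hf hc, fderiv_mol' hj hε hf hc, mol, mol, mol, ← integral_const_mul,
    ← integral_add (scl_mul_integrable hj hε (hl _) x)
      ((scl_mul_integrable hj hε (hl _) x).const_mul _), ← integral_div]
  refine integral_congr_ae (Eventually.of_forall fun y => ?_)
  simp only [dzb]
  ring

end Pool.Agent.KRFQ
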