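import Pool.Agent.Work.MP_a2bf38_gt.Q.Mfd

/-!
# Smooth functions with compact support in a chart, partitions of unity
-/

open scoped ContDiff Topology ComplexOrder Matrix
open Set MeasureTheory Filter Pool.Agent.ToricKRF Pool.Agent.ToricKRF.G Pool.Agent.KRFS

namespace Pool.Agent.KRFQ

section

variable {M : Type} [TopologicalSpace M] {n : ℕ} {κ : Type}
  {e : κ → OpenPartialHomeomorph M (Cn n)}

/-- A function which is smooth in the chart `c` and vanishes off a compact set of this chart is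
smooth. -/
theorem smooth_of_chart {E : Type*} [NormedAddCommGroup E] [NormedSpace ℝ E] [T2Space M]
    (he : ∀ c c', HolOn (tr e c c') (dom e c c')) {c : κ} {f : M → E} {K : Set M}
    (hK : IsCompact K) (hKs : K ⊆ (e c).source) (hf : ContDiffOn ℝ ∞ (pb e c f) (e c).target)
    (h0 : ∀ q ∉ K, f q = 0) (c' : κ) : ContDiffOn ℝ ∞ (pb e c' f) (e c').target := by
  intro z hz
  refine ContDiffAt.contDiffWithinAt ?_
  by_cases hq : (e c').symm z ∈ K
  · have hd : z ∈ dom e c' c := ⟨hz, hKs hq⟩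
    have h1 : ContDiffAt ℝ ∞ (fun x => pb e c f (tr e c' c x)) z :=
      (hf.contDiffAt ((e c).open_target.mem_nhds (tr_mem_target hd))).comp z
        ((he c' c).1.contDiffAt ((isOpen_dom c' c).mem_nhds hd))
    exact h1.congr_of_eventuallyEq (pb_eventuallyEq f hd)
  · have h1 : ∀ᶠ x in 𝓝 z, (e c').symm x ∈ Kᶜ :=
      ((e c').symm.continuousAt hz).eventually (hK.isClosed.isOpen_compl.mem_nhds hq)
    refine (contDiffAt_const (c := (0 : E))).congr_of_eventuallyEq ?_
    filter_upwards [h1] with x hx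
    exact h0 _ hx

theorem Sm.conj {f : M → ℂ} (hf : Sm e f) : Sm e (fun p => (starRingEnd ℂ) (f p)) := fun c =>
  contDiffOn_conj (hf c)

theorem Sm.add {f g : M → ℂ} (hf : Sm e f) (hg : Sm e g) : Sm e (fun p => f p + g p) := fun c =>
  (hf c).add (hg c)

theorem Sm.mul {f g : M → ℂ} (hf : Sm e f) (hg : Sm e g) : Sm e (fun p => f p * g p) := fun c =>
  (hf c).mul (hg c)

theorem Sm.sub {f g : M → ℂ} (hf : Sm e f) (hg : Sm e g) : Sm e (fun p => f p - g p) := fun c =>
  (hf c).sub (hg c)

theorem Sm.sum {ι : Type*} {s : Finset ι} {f : ι → M → ℂ} (hf : ∀ i ∈ s, Sm e (f i)) :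
    Sm e (fun p => ∑ i ∈ s, f i p) := fun c =>
  ContDiffOn.sum fun i hi => hf i hi c

theorem Sm.const (a : ℂ) : Sm e (fun _ => a) := fun _ => contDiffOn_const

theorem Sm.continuousAt {f : M → ℂ} (hf : Sm e f) {c : κ} {p : M} (hp : p ∈ (e c).source) :
    ContinuousAt f p := by
  have h1 : ContinuousAt (fun q => pb e c f (e c q)) p := by
    refine ContinuousAt.comp (g := pb e c f) ?_ ((e c).continuousAt hp)
    exact (hf c).continuousOn.continuousAt ((e c).open_target.mem_nhds ((e c).map_source hp))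
  refine h1.congr ?_
  filter_upwards [(e c).open_source.mem_nhds hp] with q hq
  simp only [pb, (e c).left_inv hq]

theorem Sm.continuous {f : M → ℂ} {V : Set M} (hc : ∀ p ∈ V, ∃ c, p ∈ (e c).source)
    (hf : Sm e f) (hs : tsupport f ⊆ V) : Continuous f := by
  rw [continuous_iff_continuousAt]
  intro p
  by_cases hp : p ∈ tsupport f
  · obtain ⟨c, hcp⟩ := hc p (hs hp)
    exact hf.continuousAt hcp
  · exact (continuousAt_const (y := (0 : ℂ))).congr (notMem_tsupport_iff_eventuallyEq.1 hp).symm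

/-- A bump function in a chart. -/
theorem exists_bump [T2Space M] (he : ∀ c c', HolOn (tr e c c') (dom e c c')) {c : κ} {p : M}
    (hp : p ∈ (e c).source) : ∃ (b : M → ℝ) (K : Set M), IsCompact K ∧ K ⊆ (e c).source ∧
      (∀ q ∉ K, b q = 0) ∧ (∀ q, 0 ≤ b q) ∧ 0 < b p ∧ Continuous b ∧
      ∀ c', ContDiffOn ℝ ∞ (pb e c' b) (e c').target := by
  classical
  obtain ⟨r, hr, hb⟩ := Metric.isOpen_iff.1 (e c).open_target (e c p) ((e c).map_source hp)
  let f : ContDiffBump (e c p) := ⟨r / 3, r / 2, by positivity, by linarith⟩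
  have hball : Metric.closedBall (e c p) (r / 2) ⊆ (e c).target :=
    (Metric.closedBall_subset_ball (by linarith)).trans hb
  set K : Set M := (e c).symm '' Metric.closedBall (e c p) (r / 2) with hK
  have hKc : IsCompact K :=
    (isCompact_closedBall _ _).image_of_continuousOn ((e c).symm.continuousOn.mono hball)
  have hKs : K ⊆ (e c).source := by
    rintro q ⟨z, hz, rfl⟩
    exact (e c).map_target (hball hz)
  set b : M → ℝ := fun q => if q ∈ (e c).source then f (e c q) else 0 with hbdef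
  have h0 : ∀ q ∉ K, b q = 0 := by
    intro q hq
    by_cases hs : q ∈ (e c).source
    · simp only [hbdef, hs, if_true]
      refine f.zero_of_le_dist ?_
      by_contra hlt
      push Not at hlt
      exact hq ⟨e c q, hlt.le, (e c).left_inv hs⟩
    · simp only [hbdef, hs, if_false]
  have hsm : ContDiffOn ℝ ∞ (pb e c b) (e c).target := by
    have h1 : ContDiffOn ℝ ∞ (fun z => f z) (e c).target := f.contDiff.contDiffOn
    refine h1.congr fun z hz => ?_
    simp only [pb, hbdef, (e c).map_target hz, if_true, (e c).right_inv hz]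
  refine ⟨b, K, hKc, hKs, h0, ?_, ?_, ?_, fun c' => smooth_of_chart he hKc hKs hsm h0 c'⟩
  · intro q
    simp only [hbdef]
    split_ifs
    · exact f.nonneg
    · exact le_rfl
  · simp only [hbdef, hp, if_true]
    exact f.pos_of_mem_ball (Metric.mem_ball_self (by positivity))
  · rw [continuous_iff_continuousAt]
    intro q
    by_cases hq : q ∈ K
    · have hqs := hKs hq
      have h1 : ContinuousAt (fun q => f (e c q)) q :=
        f.continuous.continuousAt.comp ((e c).continuousAt hqs)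
      refine h1.congr ?_
      filter_upwards [(e c).open_source.mem_nhds hqs] with x hx
      simp only [hbdef, hx, if_true]
    · refine (continuousAt_const (y := (0 : ℝ))).congr ?_
      filter_upwards [hKc.isClosed.isOpen_compl.mem_nhds hq] with x hx
      exact (h0 x hx).symm

/-- A smooth function which is `0` for `s ≤ m / 2` and `1 / s` for `s ≥ m`. -/
theorem exists_recip {m : ℝ} (hm : 0 < m) : ∃ η : ℝ → ℝ, ContDiff ℝ ∞ η ∧
    (∀ s, m ≤ s → s * η s = 1) ∧ ∀ s, 0 ≤ η s ∨ s < 0 := by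
  refine ⟨fun s => Real.smoothTransition (2 * s / m - 1) * s⁻¹, ?_, ?_, ?_⟩
  · rw [contDiff_iff_contDiffAt]
    intro s
    by_cases hs : s < m / 2
    · refine (contDiffAt_const (c := (0 : ℝ))).congr_of_eventuallyEq ?_
      filter_upwards [(isOpen_Iio (a := m / 2)).mem_nhds hs] with x hx
      have h1 : 2 * x / m - 1 ≤ 0 := by
        have hx' : x < m / 2 := hx
        rw [sub_nonpos, div_le_one hm]
        linarith
      rw [Real.smoothTransition.zero_of_nonpos h1, zero_mul]
    · push Not at hs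
      have hs0 : s ≠ 0 := by
        have : 0 < m / 2 := by positivity
        exact (this.trans_le hs).ne'
      refine ContDiffAt.mul ?_ (contDiffAt_inv ℝ hs0)
      exact Real.smoothTransition.contDiffAt.comp s
        (((contDiffAt_const.mul contDiffAt_id).div_const _).sub contDiffAt_const)
  · intro s hs
    have hs0 : s ≠ 0 := (hm.trans_le hs).ne'
    have h1 : 1 ≤ 2 * s / m - 1 := by
      rw [le_sub_iff_add_le, le_div_iff₀ hm]
      linarith
    simp only [Real.smoothTransition.one_of_one_le h1, one_mul, mul_inv_cancel₀ hs0]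
  · intro s
    by_cases hs : s < 0
    · exact Or.inr hs
    · push Not at hs
      exact Or.inl (mul_nonneg (Real.smoothTransition.nonneg _) (inv_nonneg.2 hs))

/-- A partition of unity near a compact set. -/
theorem exists_partition [T2Space M] (he : ∀ c c', HolOn (tr e c c') (dom e c c'))
    {K : Set M} (hK : IsCompact K) (hKV : ∀ p ∈ K, ∃ c, p ∈ (e c).source) :
    ∃ (s : Finset K) (c : K → κ) (ζ : K → M → ℝ) (O : Set M), IsOpen O ∧ K ⊆ O ∧
      (∀ i, (∀ c', ContDiffOn ℝ ∞ (pb e c' (ζ i)) (e c').target) ∧ (∀ p, 0 ≤ ζ i p) ∧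
        ∃ K' : Set M, IsCompact K' ∧ K' ⊆ (e (c i)).source ∧ ∀ q ∉ K', ζ i q = 0) ∧
      ∀ p ∈ O, ∑ i ∈ s, ζ i p = 1 := by
  classical
  have hb : ∀ p : K, ∃ (c : κ) (b : M → ℝ) (K' : Set M), (p : M) ∈ (e c).source ∧
      IsCompact K' ∧ K' ⊆ (e c).source ∧ (∀ q ∉ K', b q = 0) ∧ (∀ q, 0 ≤ b q) ∧ 0 < b p ∧
      Continuous b ∧ ∀ c', ContDiffOn ℝ ∞ (pb e c' b) (e c').target := by
    intro p
    obtain ⟨c, hc⟩ := hKV p p.2
    obtain ⟨b, K', h⟩ := exists_bump he hc
    exact ⟨c, b, K', hc, h⟩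
  choose c b K' hc hK' hK's h0 hnn hpos hcont hsm using hb
  obtain ⟨s, hs⟩ := hK.elim_nhds_subcover' (fun p hp => {q | 0 < b ⟨p, hp⟩ q})
    (fun p hp => (isOpen_lt continuous_const (hcont ⟨p, hp⟩)).mem_nhds (hpos ⟨p, hp⟩))
  set S : M → ℝ := fun p => ∑ i ∈ s, b i p with hS
  have hScont : Continuous S := continuous_finsetSum _ fun i _ => hcont i
  have hSnn : ∀ p, 0 ≤ S p := fun p => Finset.sum_nonneg fun i _ => hnn i p
  have hSpos : ∀ p ∈ K, 0 < S p := by
    intro p hp
    have h1 := hs hp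
    simp only [mem_iUnion, mem_ofPred_eq] at h1
    obtain ⟨i, hi, hlt⟩ := h1
    exact Finset.sum_pos' (fun i _ => hnn i p) ⟨i, hi, hlt⟩
  obtain ⟨m, hm, hmK⟩ : ∃ m : ℝ, 0 < m ∧ ∀ p ∈ K, m < S p := by
    by_cases hne : K.Nonempty
    · obtain ⟨p, hp, hmin⟩ := hK.exists_isMinOn hne hScont.continuousOn
      refine ⟨S p / 2, half_pos (hSpos p hp), fun q hq => ?_⟩
      have h1 : S p ≤ S q := hmin hq
      have h2 := hSpos p hp
      linarith
    · exact ⟨1, one_pos, fun p hp => absurd ⟨p, hp⟩ hne⟩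
  obtain ⟨η, hη, hη1, hη2⟩ := exists_recip hm
  refine ⟨s, c, fun i p => b i p * η (S p), {p | m < S p}, isOpen_lt continuous_const hScont,
    hmK, fun i => ⟨fun c' => ?_, fun p => ?_, K' i, hK' i, hK's i, fun q hq => ?_⟩,
    fun p hp => ?_⟩
  · refine (hsm i c').mul (hη.comp_contDiffOn ?_)
    exact ContDiffOn.sum fun j _ => hsm j c'
  · refine mul_nonneg (hnn i p) ?_
    rcases hη2 (S p) with h | h
    · exact h
    · exact absurd h (not_lt.2 (hSnn p))
  · change b i q * η (S q) = 0
    rw [h0 i q hq, zero_mul]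
  · change ∑ i ∈ s, b i p * η (S p) = 1
    rw [← Finset.sum_mul]
    exact hη1 _ (le_of_lt hp)

end

end Pool.Agent.KRFQ
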