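import Pool.Agent.Work.MP_a2bf38_gt.Q.Gam
import Pool.Agent.Work.MP_a2bf38_gt.Q.ChartReg
import Pool.Agent.Work.MP_a2bf38_gt.Q.MeasEx

/-!
# Local approximation of weakly harmonic functions (helper86)
-/

open scoped ContDiff Topology ComplexOrder Matrix
open Set MeasureTheory Filter Pool.Agent.ToricKRF Pool.Agent.ToricKRF.G Pool.Agent.KRFS

namespace Pool.Agent.KRFQ

variable {M : Type} [TopologicalSpace M] {n : ℕ} {κ : Type}
  {e : κ → OpenPartialHomeomorph M (Cn n)} {V : Set M} {w g : κ → Cn n → ℝ}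

/-- the extension by zero of a function in the chart `c` -/
noncomputable def extz (e : κ → OpenPartialHomeomorph M (Cn n)) (c : κ) (f : Cn n → ℂ) (p : M) : ℂ :=
  open Classical in if p ∈ (e c).source then f (e c p) else 0

theorem extz_of_mem {c : κ} (f : Cn n → ℂ) {p : M} (hp : p ∈ (e c).source) :
    extz e c f p = f (e c p) := by
  simp only [extz, hp, if_true]

theorem extz_of_notMem {c : κ} (f : Cn n → ℂ) {p : M} (hp : p ∉ (e c).source) :
    extz e c f p = 0 := by
  simp only [extz, hp, if_false]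

theorem pb_extz {c : κ} (f : Cn n → ℂ) {z : Cn n} (hz : z ∈ (e c).target) :
    pb e c (extz e c f) z = f z := by
  rw [pb, extz_of_mem f ((e c).map_target hz), (e c).right_inv hz]

theorem extz_zero {c : κ} {f : Cn n → ℂ} {C : Set (Cn n)} (h0 : ∀ z ∉ C, f z = 0) :
    ∀ p ∉ (e c).symm '' C, extz e c f p = 0 := by
  intro p hp
  by_cases hs : p ∈ (e c).source
  · rw [extz_of_mem f hs]
    refine h0 _ fun hC => hp ⟨e c p, hC, (e c).left_inv hs⟩
  · exact extz_of_notMem f hs

/-- the image of a compact set of the target -/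
theorem isCompact_symm_image {c : κ} {C : Set (Cn n)} (hC : IsCompact C) (hCt : C ⊆ (e c).target) :
    IsCompact ((e c).symm '' C) :=
  hC.image_of_continuousOn ((e c).continuousOn_symm.mono hCt)

theorem symm_image_sub {c : κ} {C : Set (Cn n)} (hCt : C ⊆ (e c).target) :
    (e c).symm '' C ⊆ (e c).source := by
  rintro _ ⟨z, hz, rfl⟩
  exact (e c).map_target (hCt hz)

theorem Sm_extz [T2Space M] (he : ∀ c c', HolOn (tr e c c') (dom e c c')) {c : κ} {f : Cn n → ℂ}
    (hf : ContDiff ℝ ∞ f) {C : Set (Cn n)} (hC : IsCompact C) (hCt : C ⊆ (e c).target)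
    (h0 : ∀ z ∉ C, f z = 0) : Sm e (extz e c f) := by
  refine smooth_of_chart he (isCompact_symm_image hC hCt) (symm_image_sub hCt) ?_ (extz_zero h0)
  exact hf.contDiffOn.congr fun z hz => pb_extz f hz

/-! ### The coefficients of the Laplacian -/

/-- the coefficients -/
noncomputable def cof (w g : κ → Cn n → ℝ) (c : κ) (j k : Fin n) (z : Cn n) : ℂ :=
  (w c z : ℂ) * ((Hm (g c) z)ᵀ)⁻¹ j k

/-- the operator `w Δ` -/
noncomputable def opc (w g : κ → Cn n → ℝ) (c : κ) (f : Cn n → ℂ) (z : Cn n) : ℂ :=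
  ∑ j, dz j (fun y => ∑ k, cof w g c j k y * dzb k f y) z

theorem opc_eq (w g : κ → Cn n → ℝ) (c : κ) (f : Cn n → ℂ) {z : Cn n} (hw : w c z ≠ 0) :
    opc w g c f z = (w c z : ℂ) * lapc (w c) (g c) f z := by
  have h1 : (w c z : ℂ) ≠ 0 := by exact_mod_cast hw
  rw [lapc, dv, mul_div_cancel₀ _ h1, opc]
  refine Finset.sum_congr rfl fun j _ => ?_
  congr 1
  funext y
  rw [gradv, Finset.mul_sum]
  exact Finset.sum_congr rfl fun k _ => by rw [cof]; ring

theorem opc_notMem (w g : κ → Cn n → ℝ) (c : κ) {f : Cn n → ℂ} {z : Cn n}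
    (hz : z ∉ tsupport f) : opc w g c f z = 0 := by
  rw [opc]
  refine Finset.sum_eq_zero fun j _ => ?_
  have h1 : (fun y => ∑ k, cof w g c j k y * dzb k f y) =ᶠ[𝓝 z] fun _ => 0 := by
    filter_upwards [(isClosed_tsupport f).isOpen_compl.mem_nhds hz] with y hy
    exact Finset.sum_eq_zero fun k _ => by rw [dzb_of_notMem hy, mul_zero]
  rw [dz_congr h1, dz_const]

theorem L2D.cof_smooth (h : L2D e V w g) (c : κ) (j k : Fin n) :
    ContDiffOn ℝ ∞ (cof w g c j k) (e c).target := by
  refine (contDiffOn_ofReal (h.w_smooth c)).mul ?_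
  refine contDiffOn_inv (fun i l => ?_) (fun x hx => ?_) j k
  · exact contDiffOn_Hm (e c).open_target (h.g_smooth c) l i
  · rw [Matrix.det_transpose]
    exact h.det_ne c hx

/-! ### Integrals in a chart -/

section

variable [MeasurableSpace M] [BorelSpace M] {μ : Measure M}

theorem IsDens.aesm_pb (hμ : IsDens e w μ) (h : L2D e V w g) {c : κ} {u : M → ℂ}
    (hu : AEStronglyMeasurable u μ) :
    AEStronglyMeasurable (pb e c u) (volume.restrict (e c).target) := by
  have h1 : AEStronglyMeasurable u (μ.restrict (e c).source) := hu.restrict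
  rw [hμ.eq c] at h1
  have h2 := h1.comp_aemeasurable (aemeasurable_symm c _)
  refine h2.mono_ac ?_
  refine withDensity_absolutelyContinuous' ?_ ?_
  · exact ((h.w_smooth c).continuousOn.aemeasurable
      (e c).open_target.measurableSet).ennreal_ofReal
  · refine (ae_restrict_iff' (e c).open_target.measurableSet).2 (Eventually.of_forall fun z hz => ?_)
    simpa using h.w_pos c z hz

theorem IsDens.setIntegral_chart (hμ : IsDens e w μ) (h : L2D e V w g) {c : κ} {F : M → ℂ}
    (hF : AEStronglyMeasurable F μ) {K : Set M} (hK : MeasurableSet K) (hKs : K ⊆ (e c).source) :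
    ∫ p in K, F p ∂μ = ∫ z in (e c).target ∩ (e c).symm ⁻¹' K, (w c z : ℂ) * pb e c F z := by
  have h1 : ∫ p in K, F p ∂μ = ∫ p in (e c).source, K.indicator F p ∂μ := by
    rw [setIntegral_indicator hK, inter_eq_self_of_subset_right hKs]
  rw [h1, hμ.integral_chart h (hF.indicator hK).restrict]
  have h2 : ∀ z, (w c z : ℂ) * pb e c (K.indicator F) z =
      ((e c).symm ⁻¹' K).indicator (fun z => (w c z : ℂ) * pb e c F z) z := by
    intro z
    by_cases hz : (e c).symm z ∈ K
    · rw [indicator_of_mem (show z ∈ (e c).symm ⁻¹' K from hz), pb, indicator_of_mem hz, pb]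
    · rw [indicator_of_notMem (show z ∉ (e c).symm ⁻¹' K from hz), pb, indicator_of_notMem hz,
        mul_zero]
  simp only [h2]
  have hm : MeasurableSet ((e c).target ∩ (e c).symm ⁻¹' K) := by
    have := measurableSet_symm_preimage (e := e) c hK
    rwa [inter_comm] at this
  rw [← integral_indicator (e c).open_target.measurableSet, ← integral_indicator hm]
  refine integral_congr_ae (Eventually.of_forall fun z => ?_)
  simp only [indicator, mem_inter_iff]
  by_cases h3 : z ∈ (e c).target <;> by_cases h4 : z ∈ (e c).symm ⁻¹' K <;> simp [h3, h4]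

omit [MeasurableSpace M] [BorelSpace M] in
theorem target_inter_preimage {c : κ} {C : Set (Cn n)} (hCt : C ⊆ (e c).target) :
    (e c).target ∩ (e c).symm ⁻¹' ((e c).symm '' C) = C := by
  ext z
  constructor
  · rintro ⟨hz, y, hy, hyz⟩
    have : y = z := (e c).symm.injOn (hCt hy) hz hyz
    rwa [← this]
  · exact fun hz => ⟨hCt hz, z, hz, rfl⟩

theorem IsDens.setIntegral_image [T2Space M] (hμ : IsDens e w μ) (h : L2D e V w g) {c : κ}
    {F : M → ℂ} (hF : AEStronglyMeasurable F μ) {C : Set (Cn n)} (hC : IsCompact C)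
    (hCt : C ⊆ (e c).target) :
    ∫ p in (e c).symm '' C, F p ∂μ = ∫ z in C, (w c z : ℂ) * pb e c F z := by
  rw [hμ.setIntegral_chart h hF (isCompact_symm_image hC hCt).isClosed.measurableSet
    (symm_image_sub hCt), target_inter_preimage hCt]

theorem IsDens.setIntegral_image_real [T2Space M] (hμ : IsDens e w μ) (h : L2D e V w g) {c : κ}
    {F : M → ℝ} (hF : AEStronglyMeasurable F μ) {C : Set (Cn n)} (hC : IsCompact C)
    (hCt : C ⊆ (e c).target) :
    ∫ p in (e c).symm '' C, F p ∂μ = ∫ z in C, w c z * F ((e c).symm z) := by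
  have hF' : AEStronglyMeasurable (fun p => (F p : ℂ)) μ :=
    Complex.continuous_ofReal.comp_aestronglyMeasurable hF
  have h1 := hμ.setIntegral_image h hF' hC hCt
  rw [integral_complex_ofReal] at h1
  have h2 : ∀ z, (w c z : ℂ) * pb e c (fun p => (F p : ℂ)) z =
      ((w c z * F ((e c).symm z) : ℝ) : ℂ) := by
    intro z
    rw [pb]
    push_cast
    rfl
  simp only [h2] at h1
  rw [integral_complex_ofReal] at h1
  exact_mod_cast h1

omit [MeasurableSpace M] [BorelSpace M] in
theorem image_symm_image {c : κ} {K : Set M} (hKs : K ⊆ (e c).source) :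
    (e c).symm '' (e c '' K) = K := by
  rw [image_image]
  ext p
  constructor
  · rintro ⟨q, hq, rfl⟩
    simp only
    rwa [(e c).left_inv (hKs hq)]
  · exact fun hp => ⟨p, hp, (e c).left_inv (hKs hp)⟩

/-- `u` in a compact part of a chart -/
theorem IsDens.memLp_loc (hμ : IsDens e w μ) (h : L2D e V w g) {c : κ} {u : M → ℂ}
    (hu : MemLp u 2 μ) {C : Set (Cn n)} (hC : IsCompact C) (hCt : C ⊆ (e c).target) :
    MemLp (C.indicator (pb e c u)) 2 volume := by
  have hCm : MeasurableSet C := hC.isClosed.measurableSet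
  have h1 : AEStronglyMeasurable (pb e c u) (volume.restrict C) :=
    (hμ.aesm_pb h hu.1).mono_measure (Measure.restrict_mono hCt le_rfl)
  have h2 : AEStronglyMeasurable (C.indicator (pb e c u)) volume :=
    (aestronglyMeasurable_indicator_iff hCm).2 h1
  rw [memLp_two_iff_integrable_sq_norm h2]
  have h3 : Integrable (fun p => ‖u p‖ ^ 2) μ := (memLp_two_iff_integrable_sq_norm hu.1).1 hu
  have h4 : Integrable (fun p => ((‖u p‖ ^ 2 : ℝ) : ℂ)) μ := h3.ofReal
  have h5 := (hμ.integrableOn_chart h (c := c) h4.1.restrict).1 h4.integrableOn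
  have h6 : IntegrableOn (fun z => (w c z : ℂ) * ((‖pb e c u z‖ ^ 2 : ℝ) : ℂ)) C :=
    IntegrableOn.mono_set h5 hCt
  obtain ⟨m, hm, hmw⟩ : ∃ m : ℝ, 0 < m ∧ ∀ z ∈ C, m ≤ w c z := by
    rcases C.eq_empty_or_nonempty with he | hne
    · exact ⟨1, one_pos, fun z hz => by simp [he] at hz⟩
    · obtain ⟨z, hz, hmin⟩ := hC.exists_isMinOn hne ((h.w_smooth c).continuousOn.mono hCt)
      exact ⟨w c z, h.w_pos c z (hCt hz), fun y hy => hmin hy⟩
  have h7 : Integrable (C.indicator fun z => m⁻¹ * (w c z * ‖pb e c u z‖ ^ 2)) := by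
    rw [integrable_indicator_iff hCm]
    have h8 := h6.norm
    refine (Integrable.const_mul h8 m⁻¹).congr ?_
    refine (ae_restrict_iff' hCm).2 (Eventually.of_forall fun z hz => ?_)
    simp only [norm_mul, Complex.norm_real, norm_pow, norm_norm]
    rw [Real.norm_eq_abs, abs_of_pos (h.w_pos c z (hCt hz))]
  refine h7.mono' (h2.norm.pow 2) (Eventually.of_forall fun z => ?_)
  by_cases hz : z ∈ C
  · rw [indicator_of_mem hz, indicator_of_mem hz, Real.norm_eq_abs, abs_of_nonneg (by positivity),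
      ← mul_assoc]
    have h9 : 1 ≤ m⁻¹ * w c z := by
      rw [inv_mul_eq_div, one_le_div hm]
      exact hmw z hz
    nlinarith [sq_nonneg ‖pb e c u z‖]
  · rw [indicator_of_notMem hz, indicator_of_notMem hz]
    simp

/-- the weak equation in a chart -/
theorem IsDens.weak_loc [T2Space M] (hμ : IsDens e w μ) (h : L2D e V w g) {c : κ} {u : M → ℂ}
    (hu : AEStronglyMeasurable u μ)
    (hweak : ∀ f, Sm e f → (∃ K, IsCompact K ∧ K ⊆ V ∧ ∀ p ∉ K, f p = 0) →
      ∫ p, u p * (starRingEnd ℂ) (Lap e w g f p) ∂μ = 0)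
    {C : Set (Cn n)} (hC : IsCompact C) (hCt : C ⊆ (e c).target) {f : Cn n → ℂ}
    (hf : ContDiff ℝ ∞ f) (hfs : tsupport f ⊆ C) :
    ∫ z, C.indicator (pb e c u) z * (starRingEnd ℂ) (opc w g c f z) = 0 := by
  have h0 : ∀ z ∉ C, f z = 0 := fun z hz =>
    image_eq_zero_of_notMem_tsupport fun h => hz (hfs h)
  set K : Set M := (e c).symm '' C with hKdef
  have hK : IsCompact K := isCompact_symm_image hC hCt
  have hKs : K ⊆ (e c).source := symm_image_sub hCt
  have hKV : K ⊆ V := hKs.trans (h.sub c)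
  have hS : Sm e (extz e c f) := Sm_extz h.holo hf hC hCt h0
  have hz0 : ∀ p ∉ K, extz e c f p = 0 := extz_zero h0
  have hL0 := h.Lap_zero hS hK hz0
  have h1 := hweak _ hS ⟨K, hK, hKV, hz0⟩
  have hLc : Continuous (Lap e w g (extz e c f)) :=
    (h.Sm_Lap hS).continuous h.cover ((tsupport_sub_of_compact hK hL0).trans hKV)
  have hm : AEStronglyMeasurable
      (fun p => u p * (starRingEnd ℂ) (Lap e w g (extz e c f) p)) μ :=
    hu.mul (Complex.continuous_conj.comp hLc).aestronglyMeasurable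
  have h2 : ∫ p in K, u p * (starRingEnd ℂ) (Lap e w g (extz e c f) p) ∂μ = 0 := by
    rw [setIntegral_eq_integral_of_forall_compl_eq_zero fun p hp => by rw [hL0 p hp]; simp]
    exact h1
  rw [hKdef, hμ.setIntegral_image h hm hC hCt] at h2
  have h3 : ∫ z in C, (w c z : ℂ) * pb e c
      (fun p => u p * (starRingEnd ℂ) (Lap e w g (extz e c f) p)) z =
      -∫ z in C, pb e c u z * (starRingEnd ℂ) (opc w g c f z) := by
    rw [← integral_neg]
    refine setIntegral_congr_fun hC.isClosed.measurableSet fun z hz => ?_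
    have hzt := hCt hz
    have e1 : Lap e w g (extz e c f) ((e c).symm z) = -lapc (w c) (g c) f z := by
      have e2 := h.pb_Lap hS hzt
      rw [pb] at e2
      rw [e2]
      congr 1
      refine lapc_congr ?_
      filter_upwards [(e c).open_target.mem_nhds hzt] with y hy
      exact pb_extz f hy
    simp only [pb]
    rw [e1, opc_eq w g c f (h.w_pos c z hzt).ne']
    simp only [map_neg, map_mul, Complex.conj_ofReal]
    ring
  rw [h3, neg_eq_zero, ← integral_indicator hC.isClosed.measurableSet] at h2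
  rw [← h2]
  refine integral_congr_ae (Eventually.of_forall fun z => ?_)
  simp only [indicator]
  split_ifs <;> simp

omit [MeasurableSpace M] [BorelSpace M] [TopologicalSpace M] in
theorem integral_sq_le {F : Cn n → ℂ} (hF : AEStronglyMeasurable F volume) {η : ℝ}
    (h : eLpNorm F 2 volume ≤ ENNReal.ofReal η) : ∫ x, ‖F x‖ ^ 2 ≤ η ^ 2 := by
  have h1 : ∫⁻ x, ‖F x‖ₑ ^ 2 ≤ ENNReal.ofReal (η ^ 2) := by
    rw [eLpNorm_two] at h
    have h2 := ENNReal.rpow_le_rpow h (z := (2 : ℝ)) (by norm_num)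
    rw [← ENNReal.rpow_mul] at h2
    norm_num at h2
    refine h2.trans ?_
    rcases le_total 0 η with hη | hη
    · rw [← ENNReal.ofReal_pow hη]
    · rw [ENNReal.ofReal_of_nonpos hη]
      simp
  have hm : AEStronglyMeasurable (fun x => ‖F x‖ ^ 2) volume := hF.norm.pow 2
  rw [integral_eq_lintegral_of_nonneg_ae (Eventually.of_forall fun x => sq_nonneg _) hm]
  have h3 : ∀ x, ENNReal.ofReal (‖F x‖ ^ 2) = ‖F x‖ₑ ^ 2 := by
    intro x
    rw [ENNReal.ofReal_pow (norm_nonneg _), ofReal_norm]
  simp only [h3]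
  exact ENNReal.toReal_le_of_le_ofReal (sq_nonneg η) h1

theorem aesm_extz {c : κ} {v : Cn n → ℂ} (hv : Continuous v) :
    AEStronglyMeasurable (extz e c v) μ := by
  have h1 : extz e c v = (e c).source.indicator fun p => v (e c p) := by
    funext p
    by_cases hp : p ∈ (e c).source
    · rw [extz_of_mem v hp, indicator_of_mem hp]
    · rw [extz_of_notMem v hp, indicator_of_notMem hp]
  rw [h1, aestronglyMeasurable_indicator_iff (e c).open_source.measurableSet]
  exact (hv.comp_continuousOn (e c).continuousOn).aestronglyMeasurable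
    (e c).open_source.measurableSet

/-- **Local approximation.** -/
theorem IsDens.lemL [T2Space M] (hμ : IsDens e w μ) (h : L2D e V w g) {u : M → ℂ}
    (hu : MemLp u 2 μ)
    (hweak : ∀ f, Sm e f → (∃ K, IsCompact K ∧ K ⊆ V ∧ ∀ p ∉ K, f p = 0) →
      ∫ p, u p * (starRingEnd ℂ) (Lap e w g f p) ∂μ = 0)
    {c : κ} {K : Set M} (hK : IsCompact K) (hKs : K ⊆ (e c).source) {δ : ℝ} (hδ : 0 < δ) :
    ∃ v : Cn n → ℂ, ContDiff ℝ ∞ v ∧ ∫ p in K, ‖extz e c v p - u p‖ ^ 2 ∂μ ≤ δ ^ 2 ∧
      ∀ f, Sm e f → (∀ p ∉ K, f p = 0) →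
        ‖∫ p, extz e c v p * (starRingEnd ℂ) (Lap e w g f p) ∂μ‖ ≤
          δ * √(∫ p, (gam e g f f p).re ∂μ) := by
  set C₀ : Set (Cn n) := e c '' K with hC₀def
  have hC₀ : IsCompact C₀ := hK.image_of_continuousOn ((e c).continuousOn.mono hKs)
  have hC₀t : C₀ ⊆ (e c).target := by
    rintro _ ⟨p, hp, rfl⟩
    exact (e c).map_source (hKs hp)
  have hC₀K : (e c).symm '' C₀ = K := image_symm_image hKs
  have hKV : K ⊆ V := hKs.trans (h.sub c)
  obtain ⟨C, hC, hC₀C, hCt⟩ := exists_compact_between hC₀ (e c).open_target hC₀t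
  have hC₀C' : C₀ ⊆ C := hC₀C.trans interior_subset
  have hũ := hμ.memLp_loc h hu hC hCt
  set ũ := C.indicator (pb e c u) with hũdef
  obtain ⟨ρ, hρ⟩ := exists_moll n
  -- bounds on `C₀`
  have hwc : ContinuousOn (w c) C₀ := (h.w_smooth c).continuousOn.mono hC₀t
  obtain ⟨W, hW⟩ := hC₀.exists_bound_of_continuousOn hwc
  obtain ⟨m, hm, hmw⟩ : ∃ m : ℝ, 0 < m ∧ ∀ z ∈ C₀, m ≤ w c z := by
    rcases C₀.eq_empty_or_nonempty with he | hne
    · exact ⟨1, one_pos, fun z hz => by simp [he] at hz⟩
    · obtain ⟨z, hz, hmin⟩ := hC₀.exists_isMinOn hne hwc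
      exact ⟨w c z, h.w_pos c z (hC₀t hz), fun y hy => hmin hy⟩
  have htc : ContinuousOn (fun z => ∑ k, (Hm (g c) z k k).re) C₀ := by
    refine continuousOn_finsetSum _ fun k _ => ?_
    exact Complex.continuous_re.comp_continuousOn
      ((contDiffOn_Hm (e c).open_target (h.g_smooth c) k k).continuousOn.mono hC₀t)
  obtain ⟨T, hT⟩ := hC₀.exists_bound_of_continuousOn htc
  set B : ℝ := |T| / m with hB
  have hB0 : 0 ≤ B := by positivity
  -- the regularization
  have hδ' : 0 < δ / (√B + 1) := by positivity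
  obtain ⟨ε₀, hε₀, hreg⟩ := chart_reg (e c).open_target (h.cof_smooth c) hC₀ hC hC₀C hCt hũ
    (fun f hf hfs => hμ.weak_loc h hu.1 hweak hC hCt hf hfs) hρ hδ'
  have hη : 0 < δ / (√|W| + 1) := by positivity
  have hev : ∀ᶠ ε in 𝓝[>] (0 : ℝ), eLpNorm (fun x => mol ρ ε ũ x - ũ x) 2 volume ≤
      ENNReal.ofReal (δ / (√|W| + 1)) := by
    have h1 := tendsto_mol hρ hũ
    exact (h1.eventually (gt_mem_nhds (ENNReal.ofReal_pos.2 hη))).mono fun ε hε => hε.le
  obtain ⟨ε, hε1, hε2⟩ : ∃ ε ∈ Ioo 0 ε₀, eLpNorm (fun x => mol ρ ε ũ x - ũ x) 2 volume ≤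
      ENNReal.ofReal (δ / (√|W| + 1)) := by
    have h1 : ∀ᶠ ε in 𝓝[>] (0 : ℝ), ε ∈ Ioo 0 ε₀ := Ioo_mem_nhdsGT hε₀
    exact (h1.and hev).exists
  have hloc : LocallyIntegrable ũ volume := loc_of_memLp hũ
  have hvs : ContDiff ℝ ∞ (mol ρ ε ũ) := mol_contDiff hρ hε1.1 hloc
  refine ⟨mol ρ ε ũ, hvs, ?_, fun f hf h0 => ?_⟩
  · -- the distance to `u`
    have hm1 : AEStronglyMeasurable (fun p => ‖extz e c (mol ρ ε ũ) p - u p‖ ^ 2) μ :=
      ((aesm_extz hvs.continuous).sub hu.1).norm.pow 2
    have h1 := hμ.setIntegral_image_real h hm1 hC₀ hC₀t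
    rw [hC₀K] at h1
    rw [h1]
    have hsm : AEStronglyMeasurable (fun x => mol ρ ε ũ x - ũ x) volume :=
      hvs.continuous.aestronglyMeasurable.sub hũ.1
    have h2 := integral_sq_le hsm hε2
    have hint : Integrable (fun x => ‖mol ρ ε ũ x - ũ x‖ ^ 2) volume := by
      have h3 : MemLp (fun x => mol ρ ε ũ x - ũ x) 2 volume :=
        ⟨hsm, hε2.trans_lt ENNReal.ofReal_lt_top⟩
      exact (memLp_two_iff_integrable_sq_norm hsm).1 h3
    have h3 : ∫ z in C₀, w c z * ‖extz e c (mol ρ ε ũ) ((e c).symm z) - u ((e c).symm z)‖ ^ 2 ≤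
        ∫ z in C₀, |W| * ‖mol ρ ε ũ z - ũ z‖ ^ 2 := by
      refine integral_mono_of_nonneg ?_ (hint.const_mul _).integrableOn ?_
      · refine (ae_restrict_iff' hC₀.isClosed.measurableSet).2 (Eventually.of_forall fun z hz => ?_)
        have := (h.w_pos c z (hC₀t hz)).le
        simp only [Pi.zero_apply]
        positivity
      · refine (ae_restrict_iff' hC₀.isClosed.measurableSet).2 (Eventually.of_forall fun z hz => ?_)
        have e1 : extz e c (mol ρ ε ũ) ((e c).symm z) = mol ρ ε ũ z := pb_extz _ (hC₀t hz)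
        have e2 : u ((e c).symm z) = ũ z := by
          rw [hũdef, indicator_of_mem (hC₀C' hz), pb]
        simp only
        rw [e1, e2]
        have e3 : w c z ≤ |W| := by
          have := hW z hz
          rw [Real.norm_eq_abs] at this
          exact ((le_abs_self _).trans this).trans (le_abs_self W)
        exact mul_le_mul_of_nonneg_right e3 (by positivity)
    have h4 : ∫ z in C₀, |W| * ‖mol ρ ε ũ z - ũ z‖ ^ 2 ≤ |W| * (δ / (√|W| + 1)) ^ 2 := by
      rw [integral_const_mul]
      refine mul_le_mul_of_nonneg_left ?_ (abs_nonneg W)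
      exact (setIntegral_le_integral hint (Eventually.of_forall fun z => by positivity)).trans h2
    have h5 : |W| * (δ / (√|W| + 1)) ^ 2 ≤ δ ^ 2 := by
      have e1 : |W| = √|W| ^ 2 := (Real.sq_sqrt (abs_nonneg W)).symm
      have e2 : 0 ≤ √|W| := Real.sqrt_nonneg _
      have e3 : |W| * (δ / (√|W| + 1)) ^ 2 = (√|W| / (√|W| + 1)) ^ 2 * δ ^ 2 := by
        conv_lhs => rw [e1]
        rw [Real.sqrt_sq e2]
        field_simp
      rw [e3]
      have e4 : √|W| / (√|W| + 1) ≤ 1 := by
        rw [div_le_one (by positivity)]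
        linarith
      have e5 : (√|W| / (√|W| + 1)) ^ 2 ≤ 1 := pow_le_one₀ (by positivity) e4
      nlinarith [sq_nonneg δ]
    linarith
  · -- the weak equation
    obtain ⟨η, hηs, hηc, hηt, hηK, hη1, hη2⟩ := exists_ext hf hK hKs h0
    have hL0 := h.Lap_zero hf hK h0
    have hLc : Continuous (Lap e w g f) :=
      (h.Sm_Lap hf).continuous h.cover ((tsupport_sub_of_compact hK hL0).trans hKV)
    have hm1 : AEStronglyMeasurable
        (fun p => extz e c (mol ρ ε ũ) p * (starRingEnd ℂ) (Lap e w g f p)) μ :=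
      (aesm_extz hvs.continuous).mul (Complex.continuous_conj.comp hLc).aestronglyMeasurable
    have h1 : ∫ p, extz e c (mol ρ ε ũ) p * (starRingEnd ℂ) (Lap e w g f p) ∂μ =
        -∫ z, mol ρ ε ũ z * (starRingEnd ℂ) (opc w g c η z) := by
      rw [← setIntegral_eq_integral_of_forall_compl_eq_zero (s := K)
        fun p hp => by rw [hL0 p hp]; simp]
      have h2 := hμ.setIntegral_image h hm1 hC₀ hC₀t
      rw [hC₀K] at h2
      have h3 : ∫ z in C₀, -(mol ρ ε ũ z * (starRingEnd ℂ) (opc w g c η z)) =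
          ∫ z, -(mol ρ ε ũ z * (starRingEnd ℂ) (opc w g c η z)) :=
        setIntegral_eq_integral_of_forall_compl_eq_zero fun z hz => by
          rw [opc_notMem w g c fun hh => hz (hηK hh)]; simp
      rw [h2, ← integral_neg, ← h3]
      refine setIntegral_congr_fun hC₀.isClosed.measurableSet fun z hz => ?_
      have hzt := hC₀t hz
      have e1 : Lap e w g f ((e c).symm z) = -lapc (w c) (g c) η z := by
        have e2 := h.pb_Lap hf hzt
        rw [pb] at e2
        rw [e2]
        congr 1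
        refine lapc_congr ?_
        filter_upwards [(e c).open_target.mem_nhds hzt] with y hy
        exact (hη1 y hy).symm
      have e2 : extz e c (mol ρ ε ũ) ((e c).symm z) = mol ρ ε ũ z := pb_extz _ hzt
      simp only [pb]
      rw [e1, e2, opc_eq w g c η (h.w_pos c z hzt).ne']
      simp only [map_neg, map_mul, Complex.conj_ofReal]
      ring
    have h2 := hreg ε hε1 η hηs hηK
    -- the energy of `η`
    have hgc : Continuous fun p => (gam e g f f p).re := by
      have h3 := h.gam_zero hf hf hK (Or.inl h0)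
      exact Complex.continuous_re.comp ((h.Sm_gam hf hf).continuous h.cover
        ((tsupport_sub_of_compact hK h3).trans hKV))
    have h3 : ∫ p, (gam e g f f p).re ∂μ = ∫ z in C₀, w c z * (gamc (g c) η η z).re := by
      have h4 := hμ.setIntegral_image_real h hgc.aestronglyMeasurable (μ := μ) hC₀ hC₀t
      rw [hC₀K, setIntegral_eq_integral_of_forall_compl_eq_zero fun p hp => by
        rw [h.gam_zero hf hf hK (Or.inl h0) p hp, Complex.zero_re]] at h4
      rw [h4]
      refine setIntegral_congr_fun hC₀.isClosed.measurableSet fun z hz => ?_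
      have e1 := h.pb_gam hf hf (hC₀t hz)
      rw [pb] at e1
      rw [e1]
      congr 2
      have e2 : pb e c f =ᶠ[𝓝 z] η := by
        filter_upwards [(e c).open_target.mem_nhds (hC₀t hz)] with y hy
        exact (hη1 y hy).symm
      exact gamc_congr e2 e2
    have hdz : ∀ k, Integrable (fun x => ‖dzb k η x‖ ^ 2) := by
      intro k
      have h4 : HasCompactSupport (dzb k η) :=
        hηc.mono' ((subset_tsupport _).trans (tsupport_dzb_subset k η))
      have h5 : HasCompactSupport fun x => ‖dzb k η x‖ ^ 2 := by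
        refine HasCompactSupport.intro h4 fun x hx => ?_
        rw [image_eq_zero_of_notMem_tsupport hx, norm_zero]
        norm_num
      exact ((contDiff_dzb hηs k).continuous.norm.pow 2).integrable_of_hasCompactSupport h5
    have hgi : IntegrableOn (fun z => w c z * (gamc (g c) η η z).re) C₀ := by
      refine ContinuousOn.integrableOn_compact hC₀ ?_
      have e0 : ContDiffOn ℝ ∞ (gamc (g c) η η) (e c).target := by
        unfold gamc
        refine ContDiffOn.sum fun j _ => ContDiffOn.mul ?_ (contDiffOn_conj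
          (contDiff_dzb hηs j).contDiffOn)
        exact contDiffOn_gradv (e c).open_target (h.g_smooth c) (fun x hx => h.det_ne c hx)
          hηs.contDiffOn j
      exact hwc.mul (Complex.continuous_re.comp_continuousOn (e0.continuousOn.mono hC₀t))
    have h4 : ∑ k, ∫ x, ‖dzb k η x‖ ^ 2 ≤ B * ∫ p, (gam e g f f p).re ∂μ := by
      rw [← integral_finsetSum _ fun k _ => hdz k, h3, ← integral_const_mul,
        ← setIntegral_eq_integral_of_forall_compl_eq_zero (s := C₀) fun z hz =>
          Finset.sum_eq_zero fun k _ => by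
            rw [dzb_of_notMem fun hh => hz (hηK hh)]; simp]
      refine setIntegral_mono_on (integrable_finsetSum _ fun k _ => hdz k).integrableOn
        (hgi.const_mul B) hC₀.isClosed.measurableSet fun z hz => ?_
      have e1 := sum_dzb_le (h.posDef c (hC₀t hz)) η
      have e2 : 0 ≤ (gamc (g c) η η z).re := gamc_self_nonneg (h.posDef c (hC₀t hz)) η
      have e3 : ∑ k, (Hm (g c) z k k).re ≤ |T| := by
        have := hT z hz
        rw [Real.norm_eq_abs] at this
        exact ((le_abs_self _).trans this).trans (le_abs_self T)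
      have e4 : (1 : ℝ) ≤ w c z / m := by
        rw [le_div_iff₀ hm, one_mul]
        exact hmw z hz
      calc ∑ k, ‖dzb k η z‖ ^ 2 ≤ (∑ k, (Hm (g c) z k k).re) * (gamc (g c) η η z).re := e1
        _ ≤ |T| * (gamc (g c) η η z).re := mul_le_mul_of_nonneg_right e3 e2
        _ ≤ |T| * (gamc (g c) η η z).re * (w c z / m) := by
            have : 0 ≤ |T| * (gamc (g c) η η z).re := mul_nonneg (abs_nonneg T) e2
            nlinarith
        _ = B * (w c z * (gamc (g c) η η z).re) := by
            rw [hB]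
            ring
    have hG0 : 0 ≤ ∫ p, (gam e g f f p).re ∂μ := integral_nonneg fun p => h.gam_nonneg hf p
    rw [h1, norm_neg]
    calc ‖∫ z, mol ρ ε ũ z * (starRingEnd ℂ) (opc w g c η z)‖
        ≤ δ / (√B + 1) * √(∑ k, ∫ x, ‖dzb k η x‖ ^ 2) := h2
      _ ≤ δ / (√B + 1) * (√B * √(∫ p, (gam e g f f p).re ∂μ)) := by
          refine mul_le_mul_of_nonneg_left ?_ hδ'.le
          rw [← Real.sqrt_mul hB0]
          exact Real.sqrt_le_sqrt h4
      _ = δ * (√B / (√B + 1)) * √(∫ p, (gam e g f f p).re ∂μ) := by ring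
      _ ≤ δ * 1 * √(∫ p, (gam e g f f p).re ∂μ) := by
          have e1 : √B / (√B + 1) ≤ 1 := by
            rw [div_le_one (by positivity)]
            linarith
          gcongr
      _ = _ := by rw [mul_one]

end

end Pool.Agent.KRFQ
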