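import Pool.Agent.Work.MP_a2bf38_gt.Q.Bochner

/-!
# The gradient for a Kähler metric with a local potential: symmetry and positivity
-/

open scoped ContDiff Topology ComplexOrder Matrix MatrixOrder
open Set MeasureTheory Filter Pool.Agent.ToricKRF Pool.Agent.ToricKRF.G Pool.Agent.KRFS

namespace Pool.Agent.KRFQ

variable {n : ℕ}

/-! ### The Levi form and the complex Hessian -/

theorem fderiv_fderiv_self {h : Cn n → ℂ} {U : Set (Cn n)} (hU : IsOpen U)
    (hh : ContDiffOn ℝ ∞ h U) {z : Cn n} (hz : z ∈ U) (u : Cn n) :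
    fderiv ℝ (fun y => fderiv ℝ h y u) z u = ∑ l, ∑ k,
      (dz k (dz l h) z * cc u k * cc u l + dzb k (dz l h) z * (starRingEnd ℂ) (cc u k) * cc u l +
      dz k (dzb l h) z * cc u k * (starRingEnd ℂ) (cc u l) +
      dzb k (dzb l h) z * (starRingEnd ℂ) (cc u k) * (starRingEnd ℂ) (cc u l)) := by
  have h1 : (fun y => fderiv ℝ h y u) =
      fun y => ∑ l, (dz l h y * cc u l + dzb l h y * (starRingEnd ℂ) (cc u l)) := by
    funext y
    exact fderiv_eq h y u
  have d1 : ∀ l, DifferentiableAt ℝ (dz l h) z := fun l => diffAtC hU (contDiffOn_dz hU hh l) hz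
  have d2 : ∀ l, DifferentiableAt ℝ (dzb l h) z := fun l => diffAtC hU (contDiffOn_dzb hU hh l) hz
  have h2 : HasFDerivAt (fun y => ∑ l, (dz l h y * cc u l + dzb l h y *
      (starRingEnd ℂ) (cc u l))) (∑ l, (cc u l • fderiv ℝ (dz l h) z +
        (starRingEnd ℂ) (cc u l) • fderiv ℝ (dzb l h) z)) z := by
    refine HasFDerivAt.fun_sum fun l _ => ?_
    exact ((d1 l).hasFDerivAt.mul_const (cc u l)).add
      ((d2 l).hasFDerivAt.mul_const ((starRingEnd ℂ) (cc u l)))
  rw [h1, h2.fderiv, sum_apply]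
  refine Finset.sum_congr rfl fun l _ => ?_
  simp only [add_apply, smul_apply, smul_eq_mul]
  rw [fderiv_eq, fderiv_eq, Finset.mul_sum, Finset.mul_sum, ← Finset.sum_add_distrib]
  refine Finset.sum_congr rfl fun k _ => ?_
  ring

theorem levz_eq {f : Cn n → ℝ} {U : Set (Cn n)} (hU : IsOpen U) (hf : ContDiffOn ℝ ∞ f U)
    {z : Cn n} (hz : z ∈ U) (u : Cn n) :
    ((levz f u z : ℝ) : ℂ) = ∑ j, ∑ k, Hm f z j k * cc u j * (starRingEnd ℂ) (cc u k) := by
  have hf' := contDiffOn_ofReal hf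
  set h : Cn n → ℂ := fun x => (f x : ℂ) with hh
  have h1 : ∀ x ∈ U, ∀ v, fderiv ℝ h x v = ((fderiv ℝ f x v : ℝ) : ℂ) := by
    intro x hx v
    have h3 := Complex.ofRealCLM.hasFDerivAt.comp x (diffAtC hU hf hx).hasFDerivAt
    have h2 : h = Complex.ofRealCLM ∘ f := rfl
    rw [h2, h3.fderiv]
    rfl
  have h4 : ∀ v, ((D v (D v f) z : ℝ) : ℂ) = fderiv ℝ (fun y => fderiv ℝ h y v) z v := by
    intro v
    have h5 : (fun y => fderiv ℝ h y v) =ᶠ[𝓝 z] fun y => ((D v f y : ℝ) : ℂ) := by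
      filter_upwards [hU.mem_nhds hz] with y hy
      exact h1 y hy v
    rw [h5.fderiv_eq]
    have h6 : DifferentiableAt ℝ (D v f) z :=
      diffAt_of_contDiffOn hU (contDiffOn_D hU hf v) hz
    have h3 := Complex.ofRealCLM.hasFDerivAt.comp z h6.hasFDerivAt
    have h2 : (fun y => ((D v f y : ℝ) : ℂ)) = Complex.ofRealCLM ∘ D v f := rfl
    rw [h2, h3.fderiv]
    rfl
  simp only [levz]
  push_cast
  rw [h4, h4, fderiv_fderiv_self hU hf' hz, fderiv_fderiv_self hU hf' hz]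
  simp only [cc_J, map_mul, Complex.conj_I]
  have h7 : ∀ k l, dzb k (dz l h) z = dz l (dzb k h) z := fun k l => (dz_dzb hU hf' hz l k).symm
  have h8 : ∑ l, ∑ k, dz l (dzb k h) z * (starRingEnd ℂ) (cc u k) * cc u l =
      ∑ l, ∑ k, dz k (dzb l h) z * cc u k * (starRingEnd ℂ) (cc u l) := by
    rw [Finset.sum_comm]
    exact Finset.sum_congr rfl fun k _ => Finset.sum_congr rfl fun l _ => by ring
  have h9 : ∑ j, ∑ k, Hm f z j k * cc u j * (starRingEnd ℂ) (cc u k) =
      ∑ l, ∑ k, dz l (dzb k h) z * (starRingEnd ℂ) (cc u k) * cc u l := by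
    refine Finset.sum_congr rfl fun k _ => Finset.sum_congr rfl fun l _ => ?_
    simp only [Hm, Matrix.of_apply]
    ring
  have h10 : (∑ l, ∑ k, (dz k (dz l h) z * cc u k * cc u l +
      dzb k (dz l h) z * (starRingEnd ℂ) (cc u k) * cc u l +
      dz k (dzb l h) z * cc u k * (starRingEnd ℂ) (cc u l) +
      dzb k (dzb l h) z * (starRingEnd ℂ) (cc u k) * (starRingEnd ℂ) (cc u l)) +
      ∑ l, ∑ k, (dz k (dz l h) z * (Complex.I * cc u k) * (Complex.I * cc u l) +
      dzb k (dz l h) z * (-Complex.I * (starRingEnd ℂ) (cc u k)) * (Complex.I * cc u l) +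
      dz k (dzb l h) z * (Complex.I * cc u k) * (-Complex.I * (starRingEnd ℂ) (cc u l)) +
      dzb k (dzb l h) z * (-Complex.I * (starRingEnd ℂ) (cc u k)) *
        (-Complex.I * (starRingEnd ℂ) (cc u l)))) =
      2 * (∑ l, ∑ k, dz l (dzb k h) z * (starRingEnd ℂ) (cc u k) * cc u l) +
      2 * ∑ l, ∑ k, dz k (dzb l h) z * cc u k * (starRingEnd ℂ) (cc u l) := by
    rw [Finset.mul_sum, Finset.mul_sum, ← Finset.sum_add_distrib, ← Finset.sum_add_distrib]
    refine Finset.sum_congr rfl fun l _ => ?_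
    rw [Finset.mul_sum, Finset.mul_sum, ← Finset.sum_add_distrib, ← Finset.sum_add_distrib]
    refine Finset.sum_congr rfl fun k _ => ?_
    rw [h7]
    have h3 : Complex.I * Complex.I = -1 := Complex.I_mul_I
    linear_combination (dz k (dz l h) z * cc u k * cc u l -
      dz l (dzb k h) z * (starRingEnd ℂ) (cc u k) * cc u l -
      dz k (dzb l h) z * cc u k * (starRingEnd ℂ) (cc u l) +
      dzb k (dzb l h) z * (starRingEnd ℂ) (cc u k) * (starRingEnd ℂ) (cc u l)) * h3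
  rw [h10, h9, ← h8]
  ring

theorem Hm_posDef {f : Cn n → ℝ} {U : Set (Cn n)} (hU : IsOpen U) (hf : ContDiffOn ℝ ∞ f U)
    {z : Cn n} (hz : z ∈ U) (hpos : ∀ u ≠ 0, 0 < levz f u z) : (Hm f z).PosDef := by
  refine Matrix.PosDef.of_dotProduct_mulVec_pos ?_ ?_
  · ext j k
    rw [Matrix.conjTranspose_apply, RCLike.star_def]
    exact Hm_conj hU hf hz k j
  · intro x hx
    set u : Cn n := (fun k => (x k).re, fun k => -(x k).im) with hu
    have hcc : ∀ k, cc u k = (starRingEnd ℂ) (x k) := by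
      intro k
      apply Complex.ext <;> simp [cc, hu]
    have hu0 : u ≠ 0 := by
      intro h
      apply hx
      ext k
      have h1 : cc u k = 0 := by
        rw [h]
        exact cc_zero k
      rw [hcc, map_eq_zero] at h1
      simpa using h1
    have h1 : star x ⬝ᵥ (Hm f z).mulVec x = ((levz f u z : ℝ) : ℂ) := by
      rw [levz_eq hU hf hz]
      simp only [dotProduct, Matrix.mulVec, Finset.mul_sum, Pi.star_apply, hcc]
      refine Finset.sum_congr rfl fun k _ => Finset.sum_congr rfl fun l _ => ?_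
      simp only [RCLike.star_def, Complex.conj_conj]
      ring
    rw [h1]
    exact_mod_cast hpos u hu0

/-! ### Smoothness of the inverse matrix -/

theorem contDiffOn_det {ι : Type*} [Fintype ι] [DecidableEq ι] {A : Cn n → Matrix ι ι ℂ}
    {U : Set (Cn n)} (hA : ∀ i j, ContDiffOn ℝ ∞ (fun x => A x i j) U) :
    ContDiffOn ℝ ∞ (fun x => (A x).det) U := by
  simp only [Matrix.det_apply]
  refine ContDiffOn.sum fun σ _ => ?_
  exact (contDiffOn_prod fun i _ => hA _ _).const_smul _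

theorem contDiffOn_inv {ι : Type*} [Fintype ι] [DecidableEq ι] {A : Cn n → Matrix ι ι ℂ}
    {U : Set (Cn n)} (hA : ∀ i j, ContDiffOn ℝ ∞ (fun x => A x i j) U)
    (hd : ∀ x ∈ U, (A x).det ≠ 0) (i j : ι) : ContDiffOn ℝ ∞ (fun x => (A x)⁻¹ i j) U := by
  have h1 : ContDiffOn ℝ ∞ (fun x => (A x).det⁻¹ * (A x).adjugate i j) U := by
    refine ((contDiffOn_det hA).inv hd).mul ?_
    simp only [Matrix.adjugate_apply]
    refine contDiffOn_det fun k l => ?_
    by_cases h : k = j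
    · subst h
      simp only [Matrix.updateRow_self]
      exact contDiffOn_const
    · simp only [Matrix.updateRow_ne h]
      exact hA k l
  refine h1.congr fun x hx => ?_
  rw [Matrix.inv_def, Matrix.smul_apply, Ring.inverse_eq_inv', smul_eq_mul]

/-- The gradient `W` of `f` for the metric with the potential `g`:
`∑ j, g_{j kbar} W_j = ∂_kbar f`. -/
noncomputable def gradv (g : Cn n → ℝ) (f : Cn n → ℂ) (z : Cn n) (j : Fin n) : ℂ :=
  ∑ k, ((Hm g z)ᵀ)⁻¹ j k * dzb k f z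

section

variable {g : Cn n → ℝ} {f : Cn n → ℂ} {U : Set (Cn n)}

theorem contDiffOn_Hm (hU : IsOpen U) (hg : ContDiffOn ℝ ∞ g U) (j k : Fin n) :
    ContDiffOn ℝ ∞ (fun x => Hm g x j k) U :=
  contDiffOn_dz hU (contDiffOn_dzb hU (contDiffOn_ofReal hg) k) j

theorem contDiffOn_gradv (hU : IsOpen U) (hg : ContDiffOn ℝ ∞ g U)
    (hd : ∀ x ∈ U, (Hm g x).det ≠ 0) (hf : ContDiffOn ℝ ∞ f U) (j : Fin n) :
    ContDiffOn ℝ ∞ (fun x => gradv g f x j) U := by
  unfold gradv
  refine ContDiffOn.sum fun k _ => ContDiffOn.mul ?_ (contDiffOn_dzb hU hf k)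
  refine contDiffOn_inv (fun i l => ?_) (fun x hx => ?_) j k
  · exact contDiffOn_Hm hU hg l i
  · rw [Matrix.det_transpose]
    exact hd x hx

theorem gradv_spec {z : Cn n} (hd : (Hm g z).det ≠ 0) (k : Fin n) :
    ∑ j, Hm g z j k * gradv g f z j = dzb k f z := by
  have h1 : IsUnit ((Hm g z)ᵀ).det := by
    rw [Matrix.det_transpose]
    exact hd.isUnit
  have h2 : gradv g f z = ((Hm g z)ᵀ)⁻¹.mulVec (fun k => dzb k f z) := by
    funext j
    rfl
  have h3 : (Hm g z)ᵀ.mulVec (gradv g f z) = fun k => dzb k f z := by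
    rw [h2, Matrix.mulVec_mulVec, Matrix.mul_nonsing_inv _ h1, Matrix.one_mulVec]
  exact congrFun h3 k

theorem gradv_unique {z : Cn n} (hd : (Hm g z).det ≠ 0) {W : Fin n → ℂ}
    (hW : ∀ k, ∑ j, Hm g z j k * W j = dzb k f z) : gradv g f z = W := by
  have h1 : IsUnit ((Hm g z)ᵀ).det := by
    rw [Matrix.det_transpose]
    exact hd.isUnit
  have h2 : gradv g f z = ((Hm g z)ᵀ)⁻¹.mulVec (fun k => dzb k f z) := by
    funext j
    rfl
  have h3 : (Hm g z)ᵀ.mulVec W = fun k => dzb k f z := funext hW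
  rw [h2, ← h3, Matrix.mulVec_mulVec, Matrix.nonsing_inv_mul _ h1, Matrix.one_mulVec]

/-- The matrix `g_{j kbar} ∂_lbar W_j` is symmetric. -/
theorem grad_symm (hU : IsOpen U) (hg : ContDiffOn ℝ ∞ g U)
    (hd : ∀ x ∈ U, (Hm g x).det ≠ 0) (hf : ContDiffOn ℝ ∞ f U) {z : Cn n} (hz : z ∈ U)
    (k l : Fin n) :
    ∑ j, Hm g z j k * dzb l (fun x => gradv g f x j) z =
      ∑ j, Hm g z j l * dzb k (fun x => gradv g f x j) z := by
  have key : ∀ k l, ∑ j, Hm g z j k * dzb l (fun x => gradv g f x j) z =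
      dzb l (dzb k f) z - ∑ j, dzb l (fun x => Hm g x j k) z * gradv g f z j := by
    intro k l
    have h1 : (fun x => ∑ j, Hm g x j k * gradv g f x j) =ᶠ[𝓝 z] dzb k f := by
      filter_upwards [hU.mem_nhds hz] with x hx
      exact gradv_spec (hd x hx) k
    rw [← dzb_congr h1, dzb_sum]
    · rw [← Finset.sum_sub_distrib]
      refine Finset.sum_congr rfl fun j _ => ?_
      rw [dzb_mul (diffAtC hU (contDiffOn_Hm hU hg j k) hz)
        (diffAtC hU (contDiffOn_gradv hU hg hd hf j) hz)]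
      ring
    · intro j _
      exact diffAtC hU ((contDiffOn_Hm hU hg j k).mul (contDiffOn_gradv hU hg hd hf j)) hz
  rw [key, key, dzb_dzb hU hf hz k l]
  congr 1
  refine Finset.sum_congr rfl fun j _ => ?_
  congr 1
  have hg' := contDiffOn_ofReal hg
  have h2 : ∀ k l, dzb l (fun x => Hm g x j k) z =
      dz j (dzb l (dzb k (fun x => (g x : ℂ)))) z := by
    intro k l
    exact (dz_dzb hU (contDiffOn_dzb hU hg' k) hz j l).symm
  rw [h2, h2]
  refine dz_congr ?_ j
  filter_upwards [hU.mem_nhds hz] with x hx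
  exact dzb_dzb hU hg' hx l k

/-- Positivity of `tr (X Xbar)` if `H X` is symmetric. -/
theorem trace_nonneg_of_symm {H X : Matrix (Fin n) (Fin n) ℂ} (hH : H.PosDef)
    (hs : (H * X)ᵀ = H * X) : 0 ≤ ∑ j, ∑ k, X j k * (starRingEnd ℂ) (X k j) := by
  have h0 : IsUnit H.det := hH.det_pos.ne'.isUnit
  have hP : (H⁻¹).PosDef := hH.inv
  set S := H * X with hS
  have hX : X = H⁻¹ * S := by
    rw [hS, ← Matrix.mul_assoc, Matrix.nonsing_inv_mul _ h0, Matrix.one_mul]
  have h1 : ∑ j, ∑ k, X j k * (starRingEnd ℂ) (X k j) = (X * (Xᴴ)ᵀ).trace := by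
    simp only [Matrix.trace, Matrix.diag_apply, Matrix.mul_apply, Matrix.transpose_apply,
      Matrix.conjTranspose_apply, RCLike.star_def]
  have h2 : (Xᴴ)ᵀ = (H⁻¹)ᵀ * Sᴴ := by
    have h3 : (Sᴴ)ᵀ = Sᴴ := by
      ext i j
      rw [Matrix.transpose_apply, Matrix.conjTranspose_apply, Matrix.conjTranspose_apply,
        ← Matrix.transpose_apply S i j, hs]
    conv_lhs => rw [hX]
    rw [Matrix.conjTranspose_mul, Matrix.transpose_mul, h3, hP.isHermitian.eq]
  obtain ⟨B, hB⟩ := CStarAlgebra.nonneg_iff_eq_star_mul_self.mp hP.posSemidef.nonneg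
  have hQ : (S * (H⁻¹)ᵀ * Sᴴ).PosSemidef :=
    hP.transpose.posSemidef.mul_mul_conjTranspose_same S
  have h4 : X * (Xᴴ)ᵀ = star B * (B * (S * (H⁻¹)ᵀ * Sᴴ)) := by
    rw [h2]
    conv_lhs => rw [hX]
    rw [← Matrix.mul_assoc (star B) B, ← hB]
    simp only [Matrix.mul_assoc]
  rw [h1, h4, Matrix.trace_mul_comm, Matrix.star_eq_conjTranspose]
  exact (hQ.mul_mul_conjTranspose_same B).trace_nonneg

/-- `∑ ∂_kbar W_j conj (∂_jbar W_k) ≥ 0` for gradients. -/
theorem grad_trace_nonneg (hU : IsOpen U) (hg : ContDiffOn ℝ ∞ g U)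
    (hpos : ∀ x ∈ U, (Hm g x).PosDef) (hf : ContDiffOn ℝ ∞ f U) {z : Cn n} (hz : z ∈ U) :
    0 ≤ ∑ j, ∑ k, dzb k (fun x => gradv g f x j) z *
      (starRingEnd ℂ) (dzb j (fun x => gradv g f x k) z) := by
  have hd : ∀ x ∈ U, (Hm g x).det ≠ 0 := fun x hx => (hpos x hx).det_pos.ne'
  have h1 : ((Hm g z)ᵀ).PosDef := (hpos z hz).transpose
  refine trace_nonneg_of_symm (H := (Hm g z)ᵀ)
    (X := Matrix.of fun j k => dzb k (fun x => gradv g f x j) z) h1 ?_
  ext l k
  simp only [Matrix.transpose_apply, Matrix.mul_apply, Matrix.of_apply]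
  exact grad_symm hU hg hd hf hz k l

end

end Pool.Agent.KRFQ
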