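import Pool.Agent.Work.MP_a2bf38_gt.Q.LapLin
import Pool.Agent.Work.MP_a2bf38_gt.Q.Hilb

/-!
# Theorem G: Hörmander's theorem, from the regularity of the weakly harmonic functions
-/

open scoped ContDiff Topology ComplexOrder Matrix
open Set MeasureTheory Filter Pool.Agent.ToricKRF Pool.Agent.ToricKRF.G Pool.Agent.KRFS

namespace Pool.Agent.KRFQ

variable {M : Type} [TopologicalSpace M] {n : ℕ} {κ : Type}
  {e : κ → OpenPartialHomeomorph M (Cn n)} {V : Set M} {w g : κ → Cn n → ℝ}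
  [MeasurableSpace M] [BorelSpace M] [T2Space M] {μ : Measure M}

omit [TopologicalSpace M] [BorelSpace M] [T2Space M] in
theorem Lp_norm_sq (F : Lp ℂ 2 μ) : ‖F‖ ^ 2 = ∫ p, ‖F p‖ ^ 2 ∂μ := by
  have h1 : inner ℂ F F = ((‖F‖ : ℝ) : ℂ) ^ 2 := inner_self_eq_norm_sq_to_K F
  rw [L2.inner_def] at h1
  have h2 : ∀ p, inner ℂ (F p) (F p) = ((‖F p‖ ^ 2 : ℝ) : ℂ) := by
    intro p
    rw [inner_self_eq_norm_sq_to_K (𝕜 := ℂ)]
    push_cast
    rfl
  simp only [h2] at h1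
  rw [integral_complex_ofReal] at h1
  exact_mod_cast h1.symm

/-- The space of the Laplacians of the test functions in `L^2`. -/
noncomputable def lapSub (h : L2D e V w g) (μ : Measure M) : Submodule ℂ (Lp ℂ 2 μ) where
  carrier := {F | ∃ f, Test e V f ∧ F =ᵐ[μ] Lap e w g f}
  add_mem' := by
    rintro F₁ F₂ ⟨f₁, h₁, e₁⟩ ⟨f₂, h₂, e₂⟩
    refine ⟨_, h₁.add h₂, ?_⟩
    filter_upwards [Lp.coeFn_add F₁ F₂, e₁, e₂] with p hp hp₁ hp₂
    rw [hp, Pi.add_apply, hp₁, hp₂, h.Lap_add h₁.1 h₂.1]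
  zero_mem' := by
    refine ⟨_, Test.zero, ?_⟩
    filter_upwards [Lp.coeFn_zero ℂ 2 μ] with p hp
    rw [hp]
    have h1 := h.Lap_smul (f := fun _ => (0 : ℂ)) (Sm.const 0) 0 p
    simp only [zero_mul] at h1
    rw [h1]
    rfl
  smul_mem' := by
    rintro a F ⟨f, h₁, e₁⟩
    refine ⟨_, h₁.smul a, ?_⟩
    filter_upwards [Lp.coeFn_smul a F, e₁] with p hp hp₁
    rw [hp, Pi.smul_apply, hp₁, h.Lap_smul h₁.1, smul_eq_mul]

/-- **The Hilbert space step of Theorem G.** -/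
theorem IsDens.exists_orth (hμ : IsDens e w μ) (h : L2D e V w g)
    (hpos : ∀ c, ∀ z ∈ (e c).target, ∀ u, 0 ≤ levz (fun x => -Real.log (w c x)) u z)
    {χ : M → ℂ} (hχ : Sm e χ) (hχ2 : MemLp χ 2 μ) {B : M → ℝ} (hB0 : ∀ p, 0 ≤ B p)
    (hBi : Integrable B μ)
    (hB : ∀ c, ∀ z ∈ (e c).target, ∀ u : Cn n,
      ‖∑ j, dzb j (pb e c χ) z * (starRingEnd ℂ) (cc u j)‖ ^ 2 ≤
        B ((e c).symm z) * levz (fun x => -Real.log (w c x)) u z) :
    ∃ a : M → ℂ, StronglyMeasurable a ∧ MemLp a 2 μ ∧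
      (∀ f, Test e V f → ∫ p, a p * (starRingEnd ℂ) (Lap e w g f p) ∂μ = 0) ∧
      ∫ p, ‖χ p - a p‖ ^ 2 ∂μ ≤ ∫ p, B p ∂μ := by
  set X : Lp ℂ 2 μ := hχ2.toLp χ with hX
  have hXe : X =ᵐ[μ] χ := hχ2.coeFn_toLp
  obtain ⟨a, ha, -, hle⟩ := exists_mem_orthogonal (lapSub h μ) X
    (c := √(∫ p, B p ∂μ)) (Real.sqrt_nonneg _) (by
      rintro F ⟨f, hf, he⟩
      have h1 : inner ℂ X F = ∫ p, (starRingEnd ℂ) (χ p) * Lap e w g f p ∂μ := by
        rw [L2.inner_def]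
        refine integral_congr_ae ?_
        filter_upwards [hXe, he] with p hp hp'
        rw [hp, hp', RCLike.inner_apply]
        ring
      have h2 : ‖F‖ = √(∫ p, ‖Lap e w g f p‖ ^ 2 ∂μ) := by
        rw [← Real.sqrt_sq (norm_nonneg F), Lp_norm_sq]
        congr 1
        refine integral_congr_ae ?_
        filter_upwards [he] with p hp
        rw [hp]
      rw [h1, h2]
      exact hμ.pair_le h hpos hχ hB0 hBi hB hf)
  refine ⟨a, Lp.stronglyMeasurable a, Lp.memLp a, fun f hf => ?_, ?_⟩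
  · have hm : MemLp (Lap e w g f) 2 μ := hμ.memLp_test h (h.Test_Lap hf)
    have h1 : hm.toLp (Lap e w g f) ∈ lapSub h μ := ⟨f, hf, hm.coeFn_toLp⟩
    have h2 := (Submodule.mem_orthogonal _ _).1 ha _ h1
    rw [L2.inner_def] at h2
    rw [← h2]
    refine integral_congr_ae ?_
    filter_upwards [hm.coeFn_toLp] with p hp
    rw [hp, RCLike.inner_apply]
  · have h1 : ∫ p, ‖χ p - a p‖ ^ 2 ∂μ = ‖X - a‖ ^ 2 := by
      rw [Lp_norm_sq]
      refine integral_congr_ae ?_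
      filter_upwards [hXe, Lp.coeFn_sub X a] with p hp hp'
      rw [hp', Pi.sub_apply, hp]
    have h2 : 0 ≤ ∫ p, B p ∂μ := integral_nonneg hB0
    rw [h1, ← Real.sq_sqrt h2]
    exact pow_le_pow_left₀ (norm_nonneg _) hle 2

/-- **Theorem G**, from the regularity theorem `hwk` and the holomorphic representatives `hrep`. -/
theorem IsDens.hormander_of (hμ : IsDens e w μ) (h : L2D e V w g)
    (hwk : ∀ u : M → ℂ, MemLp u 2 μ →
      (∀ f, Test e V f → ∫ p, u p * (starRingEnd ℂ) (Lap e w g f p) ∂μ = 0) →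
      ∀ c k, ∀ φ : Cn n → ℂ, ContDiff ℝ ∞ φ → HasCompactSupport φ → tsupport φ ⊆ (e c).target →
        ∫ z in (e c).target, pb e c u z * dzb k φ z = 0)
    (hrep : ∀ a : M → ℂ, StronglyMeasurable a → MemLp a 2 μ →
      (∀ c k, ∀ φ : Cn n → ℂ, ContDiff ℝ ∞ φ → HasCompactSupport φ → tsupport φ ⊆ (e c).target →
        ∫ z in (e c).target, pb e c a z * dzb k φ z = 0) →
      ∃ b : M → ℂ, (∀ c, ContDiffOn ℝ ∞ (pb e c b) (e c).target ∧
        ∀ k, ∀ z ∈ (e c).target, dzb k (pb e c b) z = 0) ∧ a =ᵐ[μ] b)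
    {k : κ → Cn n → ℝ} {c₀ : ℝ} (hc₀ : 0 < c₀)
    (hk0 : ∀ c, ∀ z ∈ (e c).target, ∀ u, 0 ≤ levz (k c) u z)
    (curv : ∀ c, ∀ z ∈ (e c).target, ∀ u,
      c₀ * levz (k c) u z ≤ levz (fun x => -Real.log (w c x)) u z)
    {χ : M → ℂ} (hχ : Sm e χ) (hχ2 : MemLp χ 2 μ) {B : M → ℝ} (hB0 : ∀ p, 0 ≤ B p)
    (hBi : Integrable B μ)
    (hB : ∀ c, ∀ z ∈ (e c).target, ∀ u : Cn n,
      ‖∑ j, dzb j (pb e c χ) z * (starRingEnd ℂ) (cc u j)‖ ^ 2 ≤
        B ((e c).symm z) * levz (k c) u z) :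
    ∃ b : M → ℂ, (∀ c, ContDiffOn ℝ ∞ (pb e c b) (e c).target ∧
        ∀ k, ∀ z ∈ (e c).target, dzb k (pb e c b) z = 0) ∧ MemLp b 2 μ ∧
      ∫ p, ‖χ p - b p‖ ^ 2 ∂μ ≤ c₀⁻¹ * ∫ p, B p ∂μ := by
  have hpos : ∀ c, ∀ z ∈ (e c).target, ∀ u, 0 ≤ levz (fun x => -Real.log (w c x)) u z :=
    fun c z hz u => (mul_nonneg hc₀.le (hk0 c z hz u)).trans (curv c z hz u)
  obtain ⟨a, ham, ha2, horth, hle⟩ := hμ.exists_orth h hpos hχ hχ2 (B := fun p => c₀⁻¹ * B p)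
    (fun p => mul_nonneg (inv_nonneg.2 hc₀.le) (hB0 p)) (hBi.const_mul _) (by
      intro c z hz u
      refine (hB c z hz u).trans ?_
      rw [mul_assoc, mul_left_comm]
      refine mul_le_mul_of_nonneg_left ?_ (hB0 _)
      rw [le_inv_mul_iff₀ hc₀]
      exact curv c z hz u)
  obtain ⟨b, hb, hab⟩ := hrep a ham ha2 (hwk a ha2 horth)
  refine ⟨b, hb, ha2.ae_eq hab, ?_⟩
  rw [← integral_const_mul]
  refine le_trans (le_of_eq ?_) hle
  refine integral_congr_ae ?_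
  filter_upwards [hab] with p hp
  rw [hp]

end Pool.Agent.KRFQ
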