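import Pool.Agent.Work.MP_a2bf38_gt.G.Herm

/-!
# Wirtinger derivatives of functions on `ℂ^n = ℝ^n × ℝ^n`
-/

open scoped ContDiff Topology
open Set MeasureTheory Filter Pool.Agent.ToricKRF Pool.Agent.ToricKRF.G

namespace Pool.Agent.KRFQ

variable {n : ℕ}

/-- the real direction `x_k` -/
def eR (k : Fin n) : Cn n := (Pi.single k 1, 0)

/-- the real direction `y_k` -/
def eI (k : Fin n) : Cn n := (0, Pi.single k 1)

theorem J_eR (k : Fin n) : J (eR k) = eI k := by
  ext j <;> simp [J, eR, eI]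

theorem J_eI (k : Fin n) : J (eI k) = -eR k := by
  ext j <;> simp [J, eR, eI]

/-- `∂ f / ∂ z_k` -/
noncomputable def dz (k : Fin n) (f : Cn n → ℂ) (x : Cn n) : ℂ :=
  (fderiv ℝ f x (eR k) - Complex.I * fderiv ℝ f x (eI k)) / 2

/-- `∂ f / ∂ zbar_k` -/
noncomputable def dzb (k : Fin n) (f : Cn n → ℂ) (x : Cn n) : ℂ :=
  (fderiv ℝ f x (eR k) + Complex.I * fderiv ℝ f x (eI k)) / 2

theorem dz_congr {f g : Cn n → ℂ} {x : Cn n} (h : f =ᶠ[𝓝 x] g) (k : Fin n) :
    dz k f x = dz k g x := by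
  simp only [dz, h.fderiv_eq]

theorem dzb_congr {f g : Cn n → ℂ} {x : Cn n} (h : f =ᶠ[𝓝 x] g) (k : Fin n) :
    dzb k f x = dzb k g x := by
  simp only [dzb, h.fderiv_eq]

theorem dz_congr' {f g : Cn n → ℂ} {x : Cn n} (h : f =ᶠ[𝓝 x] g) (k : Fin n) :
    dz k f =ᶠ[𝓝 x] dz k g := by
  filter_upwards [h.eventuallyEq_nhds] with y hy using dz_congr hy k

theorem dzb_congr' {f g : Cn n → ℂ} {x : Cn n} (h : f =ᶠ[𝓝 x] g) (k : Fin n) :
    dzb k f =ᶠ[𝓝 x] dzb k g := by
  filter_upwards [h.eventuallyEq_nhds] with y hy using dzb_congr hy k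

theorem dz_const (k : Fin n) (c : ℂ) (x : Cn n) : dz k (fun _ => c) x = 0 := by
  simp [dz]

theorem dzb_const (k : Fin n) (c : ℂ) (x : Cn n) : dzb k (fun _ => c) x = 0 := by
  simp [dzb]

theorem dz_add {f g : Cn n → ℂ} {x : Cn n} (hf : DifferentiableAt ℝ f x)
    (hg : DifferentiableAt ℝ g x) (k : Fin n) :
    dz k (fun y => f y + g y) x = dz k f x + dz k g x := by
  simp only [dz]
  rw [fderiv_fun_add hf hg]
  simp only [add_apply]
  ring

theorem dzb_add {f g : Cn n → ℂ} {x : Cn n} (hf : DifferentiableAt ℝ f x)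
    (hg : DifferentiableAt ℝ g x) (k : Fin n) :
    dzb k (fun y => f y + g y) x = dzb k f x + dzb k g x := by
  simp only [dzb]
  rw [fderiv_fun_add hf hg]
  simp only [add_apply]
  ring

theorem dz_sub {f g : Cn n → ℂ} {x : Cn n} (hf : DifferentiableAt ℝ f x)
    (hg : DifferentiableAt ℝ g x) (k : Fin n) :
    dz k (fun y => f y - g y) x = dz k f x - dz k g x := by
  simp only [dz]
  rw [fderiv_fun_sub hf hg]
  simp only [sub_apply]
  ring

theorem dzb_sub {f g : Cn n → ℂ} {x : Cn n} (hf : DifferentiableAt ℝ f x)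
    (hg : DifferentiableAt ℝ g x) (k : Fin n) :
    dzb k (fun y => f y - g y) x = dzb k f x - dzb k g x := by
  simp only [dzb]
  rw [fderiv_fun_sub hf hg]
  simp only [sub_apply]
  ring

theorem dz_sum {κ : Type*} (s : Finset κ) {f : κ → Cn n → ℂ} {x : Cn n}
    (hf : ∀ i ∈ s, DifferentiableAt ℝ (f i) x) (k : Fin n) :
    dz k (fun y => ∑ i ∈ s, f i y) x = ∑ i ∈ s, dz k (f i) x := by
  simp only [dz]
  rw [fderiv_fun_sum hf]
  simp only [sum_apply]
  rw [Finset.mul_sum, ← Finset.sum_sub_distrib, Finset.sum_div]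

theorem dzb_sum {κ : Type*} (s : Finset κ) {f : κ → Cn n → ℂ} {x : Cn n}
    (hf : ∀ i ∈ s, DifferentiableAt ℝ (f i) x) (k : Fin n) :
    dzb k (fun y => ∑ i ∈ s, f i y) x = ∑ i ∈ s, dzb k (f i) x := by
  simp only [dzb]
  rw [fderiv_fun_sum hf]
  simp only [sum_apply]
  rw [Finset.mul_sum, ← Finset.sum_add_distrib, Finset.sum_div]

theorem dz_mul {f g : Cn n → ℂ} {x : Cn n} (hf : DifferentiableAt ℝ f x)
    (hg : DifferentiableAt ℝ g x) (k : Fin n) :
    dz k (fun y => f y * g y) x = dz k f x * g x + f x * dz k g x := by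
  simp only [dz]
  rw [fderiv_fun_mul hf hg]
  simp only [add_apply, smul_apply, smul_eq_mul]
  ring

theorem dzb_mul {f g : Cn n → ℂ} {x : Cn n} (hf : DifferentiableAt ℝ f x)
    (hg : DifferentiableAt ℝ g x) (k : Fin n) :
    dzb k (fun y => f y * g y) x = dzb k f x * g x + f x * dzb k g x := by
  simp only [dzb]
  rw [fderiv_fun_mul hf hg]
  simp only [add_apply, smul_apply, smul_eq_mul]
  ring

theorem fderiv_conj {f : Cn n → ℂ} {x : Cn n} (hf : DifferentiableAt ℝ f x) (u : Cn n) :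
    fderiv ℝ (fun y => (starRingEnd ℂ) (f y)) x u = (starRingEnd ℂ) (fderiv ℝ f x u) := by
  have h := (Complex.conjCLE.toContinuousLinearMap.hasFDerivAt (x := f x)).comp x hf.hasFDerivAt
  have h2 : (fun y => (starRingEnd ℂ) (f y)) = (Complex.conjCLE.toContinuousLinearMap ∘ f) := by
    funext y
    simp
  rw [h2, h.fderiv]
  simp

theorem differentiableAt_conj {f : Cn n → ℂ} {x : Cn n} (hf : DifferentiableAt ℝ f x) :
    DifferentiableAt ℝ (fun y => (starRingEnd ℂ) (f y)) x := by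
  have h := (Complex.conjCLE.toContinuousLinearMap.differentiableAt (x := f x)).comp x hf
  have h2 : (fun y => (starRingEnd ℂ) (f y)) = (Complex.conjCLE.toContinuousLinearMap ∘ f) := by
    funext y
    simp
  rwa [h2]

theorem dz_conj {f : Cn n → ℂ} {x : Cn n} (hf : DifferentiableAt ℝ f x) (k : Fin n) :
    dz k (fun y => (starRingEnd ℂ) (f y)) x = (starRingEnd ℂ) (dzb k f x) := by
  simp only [dz, dzb, fderiv_conj hf, map_div₀, map_add, map_mul, Complex.conj_I, map_ofNat]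
  ring

theorem dzb_conj {f : Cn n → ℂ} {x : Cn n} (hf : DifferentiableAt ℝ f x) (k : Fin n) :
    dzb k (fun y => (starRingEnd ℂ) (f y)) x = (starRingEnd ℂ) (dz k f x) := by
  simp only [dz, dzb, fderiv_conj hf, map_div₀, map_sub, map_mul, Complex.conj_I, map_ofNat]
  ring

theorem contDiffOn_fderiv_apply {f : Cn n → ℂ} {U : Set (Cn n)} (hU : IsOpen U)
    (hf : ContDiffOn ℝ ∞ f U) (u : Cn n) : ContDiffOn ℝ ∞ (fun x => fderiv ℝ f x u) U := by
  have h1 : ContDiffOn ℝ ∞ (fderiv ℝ f) U :=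
    ((contDiffOn_infty_iff_fderiv_of_isOpen hU).1 hf).2
  exact h1.clm_apply contDiffOn_const

theorem contDiffOn_dz {f : Cn n → ℂ} {U : Set (Cn n)} (hU : IsOpen U)
    (hf : ContDiffOn ℝ ∞ f U) (k : Fin n) : ContDiffOn ℝ ∞ (dz k f) U := by
  unfold dz
  exact ((contDiffOn_fderiv_apply hU hf _).sub
    (contDiffOn_const.mul (contDiffOn_fderiv_apply hU hf _))).div_const 2

theorem contDiffOn_dzb {f : Cn n → ℂ} {U : Set (Cn n)} (hU : IsOpen U)
    (hf : ContDiffOn ℝ ∞ f U) (k : Fin n) : ContDiffOn ℝ ∞ (dzb k f) U := by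
  unfold dzb
  exact ((contDiffOn_fderiv_apply hU hf _).add
    (contDiffOn_const.mul (contDiffOn_fderiv_apply hU hf _))).div_const 2

theorem contDiff_dz {f : Cn n → ℂ} (hf : ContDiff ℝ ∞ f) (k : Fin n) : ContDiff ℝ ∞ (dz k f) := by
  rw [← contDiffOn_univ] at hf ⊢
  exact contDiffOn_dz isOpen_univ hf k

theorem contDiff_dzb {f : Cn n → ℂ} (hf : ContDiff ℝ ∞ f) (k : Fin n) :
    ContDiff ℝ ∞ (dzb k f) := by
  rw [← contDiffOn_univ] at hf ⊢
  exact contDiffOn_dzb isOpen_univ hf k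

theorem fderiv_fderiv_comm {f : Cn n → ℂ} {x : Cn n} {U : Set (Cn n)} (hU : IsOpen U)
    (hf : ContDiffOn ℝ ∞ f U) (hx : x ∈ U) (u w : Cn n) :
    fderiv ℝ (fun y => fderiv ℝ f y u) x w = fderiv ℝ (fun y => fderiv ℝ f y w) x u := by
  have hfa : ContDiffAt ℝ ∞ f x := hf.contDiffAt (hU.mem_nhds hx)
  have hs : IsSymmSndFDerivAt ℝ f x := by
    apply hfa.isSymmSndFDerivAt
    rw [minSmoothness_of_isRCLikeNormedField]
    exact WithTop.coe_le_coe.2 le_top
  have h1 : ContDiffOn ℝ ∞ (fderiv ℝ f) U :=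
    ((contDiffOn_infty_iff_fderiv_of_isOpen hU).1 hf).2
  have h2 : DifferentiableAt ℝ (fderiv ℝ f) x :=
    (h1.differentiableOn (by simp)).differentiableAt (hU.mem_nhds hx)
  have key : ∀ a b : Cn n, fderiv ℝ (fun y => fderiv ℝ f y b) x a =
      fderiv ℝ (fderiv ℝ f) x a b := by
    intro a b
    rw [fderiv_clm_apply h2 (differentiableAt_const b)]
    simp
  rw [key, key]
  exact hs w u

theorem fderiv_dz {f : Cn n → ℂ} {x : Cn n} {U : Set (Cn n)} (hU : IsOpen U)
    (hf : ContDiffOn ℝ ∞ f U) (hx : x ∈ U) (k : Fin n) (u : Cn n) :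
    fderiv ℝ (dz k f) x u = (fderiv ℝ (fun y => fderiv ℝ f y u) x (eR k) -
      Complex.I * fderiv ℝ (fun y => fderiv ℝ f y u) x (eI k)) / 2 := by
  have h1 : ∀ v, DifferentiableAt ℝ (fun y => fderiv ℝ f y v) x := fun v =>
    ((contDiffOn_fderiv_apply hU hf v).differentiableOn (by simp)).differentiableAt
      (hU.mem_nhds hx)
  have h2 : HasFDerivAt (dz k f) ((2 : ℂ)⁻¹ • (fderiv ℝ (fun y => fderiv ℝ f y (eR k)) x -
      Complex.I • fderiv ℝ (fun y => fderiv ℝ f y (eI k)) x)) x := by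
    have h3 := ((h1 (eR k)).hasFDerivAt.sub ((h1 (eI k)).hasFDerivAt.const_mul
      Complex.I)).const_mul (2 : ℂ)⁻¹
    refine h3.congr_of_eventuallyEq (Eventually.of_forall fun y => ?_)
    simp only [dz, Pi.sub_apply]
    ring
  rw [h2.fderiv]
  simp only [smul_apply, sub_apply, smul_eq_mul]
  rw [fderiv_fderiv_comm hU hf hx (eR k) u, fderiv_fderiv_comm hU hf hx (eI k) u]
  ring

theorem fderiv_dzb {f : Cn n → ℂ} {x : Cn n} {U : Set (Cn n)} (hU : IsOpen U)
    (hf : ContDiffOn ℝ ∞ f U) (hx : x ∈ U) (k : Fin n) (u : Cn n) :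
    fderiv ℝ (dzb k f) x u = (fderiv ℝ (fun y => fderiv ℝ f y u) x (eR k) +
      Complex.I * fderiv ℝ (fun y => fderiv ℝ f y u) x (eI k)) / 2 := by
  have h1 : ∀ v, DifferentiableAt ℝ (fun y => fderiv ℝ f y v) x := fun v =>
    ((contDiffOn_fderiv_apply hU hf v).differentiableOn (by simp)).differentiableAt
      (hU.mem_nhds hx)
  have h2 : HasFDerivAt (dzb k f) ((2 : ℂ)⁻¹ • (fderiv ℝ (fun y => fderiv ℝ f y (eR k)) x +
      Complex.I • fderiv ℝ (fun y => fderiv ℝ f y (eI k)) x)) x := by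
    have h3 := ((h1 (eR k)).hasFDerivAt.add ((h1 (eI k)).hasFDerivAt.const_mul
      Complex.I)).const_mul (2 : ℂ)⁻¹
    refine h3.congr_of_eventuallyEq (Eventually.of_forall fun y => ?_)
    simp only [dzb, Pi.add_apply]
    ring
  rw [h2.fderiv]
  simp only [smul_apply, add_apply, smul_eq_mul]
  rw [fderiv_fderiv_comm hU hf hx (eR k) u, fderiv_fderiv_comm hU hf hx (eI k) u]
  ring

/-- `∂_k ∂_lbar = ∂_lbar ∂_k` -/
theorem dz_dzb {f : Cn n → ℂ} {x : Cn n} {U : Set (Cn n)} (hU : IsOpen U)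
    (hf : ContDiffOn ℝ ∞ f U) (hx : x ∈ U) (k l : Fin n) :
    dz k (dzb l f) x = dzb l (dz k f) x := by
  change (fderiv ℝ (dzb l f) x (eR k) - Complex.I * fderiv ℝ (dzb l f) x (eI k)) / 2 =
    (fderiv ℝ (dz k f) x (eR l) + Complex.I * fderiv ℝ (dz k f) x (eI l)) / 2
  rw [fderiv_dzb hU hf hx l, fderiv_dzb hU hf hx l, fderiv_dz hU hf hx k, fderiv_dz hU hf hx k, fderiv_fderiv_comm hU hf hx (eI l) (eR k),
    fderiv_fderiv_comm hU hf hx (eI l) (eI k), fderiv_fderiv_comm hU hf hx (eR l) (eR k),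
    fderiv_fderiv_comm hU hf hx (eR l) (eI k)]
  ring

/-- `∂_kbar ∂_lbar = ∂_lbar ∂_kbar` -/
theorem dzb_dzb {f : Cn n → ℂ} {x : Cn n} {U : Set (Cn n)} (hU : IsOpen U)
    (hf : ContDiffOn ℝ ∞ f U) (hx : x ∈ U) (k l : Fin n) :
    dzb k (dzb l f) x = dzb l (dzb k f) x := by
  change (fderiv ℝ (dzb l f) x (eR k) + Complex.I * fderiv ℝ (dzb l f) x (eI k)) / 2 =
    (fderiv ℝ (dzb k f) x (eR l) + Complex.I * fderiv ℝ (dzb k f) x (eI l)) / 2
  rw [fderiv_dzb hU hf hx l, fderiv_dzb hU hf hx l, fderiv_dzb hU hf hx k, fderiv_dzb hU hf hx k, fderiv_fderiv_comm hU hf hx (eI l) (eR k),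
    fderiv_fderiv_comm hU hf hx (eI l) (eI k), fderiv_fderiv_comm hU hf hx (eR l) (eR k),
    fderiv_fderiv_comm hU hf hx (eR l) (eI k)]
  ring

theorem dz_dz {f : Cn n → ℂ} {x : Cn n} {U : Set (Cn n)} (hU : IsOpen U)
    (hf : ContDiffOn ℝ ∞ f U) (hx : x ∈ U) (k l : Fin n) :
    dz k (dz l f) x = dz l (dz k f) x := by
  change (fderiv ℝ (dz l f) x (eR k) - Complex.I * fderiv ℝ (dz l f) x (eI k)) / 2 =
    (fderiv ℝ (dz k f) x (eR l) - Complex.I * fderiv ℝ (dz k f) x (eI l)) / 2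
  rw [fderiv_dz hU hf hx l, fderiv_dz hU hf hx l, fderiv_dz hU hf hx k, fderiv_dz hU hf hx k, fderiv_fderiv_comm hU hf hx (eI l) (eR k),
    fderiv_fderiv_comm hU hf hx (eI l) (eI k), fderiv_fderiv_comm hU hf hx (eR l) (eR k),
    fderiv_fderiv_comm hU hf hx (eR l) (eI k)]
  ring

/-! ### Support and integrals -/

theorem dz_of_notMem {f : Cn n → ℂ} {x : Cn n} (hx : x ∉ tsupport f) (k : Fin n) :
    dz k f x = 0 := by
  rw [dz_congr (notMem_tsupport_iff_eventuallyEq.1 hx)]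
  exact dz_const k 0 x

theorem dzb_of_notMem {f : Cn n → ℂ} {x : Cn n} (hx : x ∉ tsupport f) (k : Fin n) :
    dzb k f x = 0 := by
  rw [dzb_congr (notMem_tsupport_iff_eventuallyEq.1 hx)]
  exact dzb_const k 0 x

theorem tsupport_dz_subset (k : Fin n) (f : Cn n → ℂ) : tsupport (dz k f) ⊆ tsupport f := by
  refine closure_minimal (fun x hx => ?_) (isClosed_tsupport f)
  by_contra h
  exact hx (dz_of_notMem h k)

theorem tsupport_dzb_subset (k : Fin n) (f : Cn n → ℂ) : tsupport (dzb k f) ⊆ tsupport f := by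
  refine closure_minimal (fun x hx => ?_) (isClosed_tsupport f)
  by_contra h
  exact hx (dzb_of_notMem h k)

theorem haarCn : (volume : Measure (Cn n)).IsAddHaarMeasure :=
  Measure.prod.instIsAddHaarMeasure (G := Fin n → ℝ) (H := Fin n → ℝ) volume volume

theorem integral_fderiv_eq_zero {f : Cn n → ℂ} (hf : ContDiff ℝ 1 f) (hs : HasCompactSupport f)
    (u : Cn n) : ∫ x, fderiv ℝ f x u = 0 := by
  have := haarCn (n := n)
  have h1 : Integrable (fun x => fderiv ℝ f x u) := by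
    have h2 : Continuous (fun x => fderiv ℝ f x u) :=
      (hf.continuous_fderiv (by simp)).clm_apply continuous_const
    exact h2.integrable_of_hasCompactSupport (hs.fderiv_apply (𝕜 := ℝ) u)
  have h3 : Integrable f := hf.continuous.integrable_of_hasCompactSupport hs
  have h := integral_mul_fderiv_eq_neg_fderiv_mul_of_integrable (μ := (volume : Measure (Cn n)))
    (f := fun _ : Cn n => (1 : ℂ)) (g := f) (v := u) (by simp) (by simpa using h1)
    (by simpa using h3) (fun x _ => differentiableAt_const _)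
    (fun x _ => (hf.differentiable (by simp)) x)
  simpa using h

theorem integral_dz_eq_zero {f : Cn n → ℂ} (hf : ContDiff ℝ 1 f) (hs : HasCompactSupport f)
    (k : Fin n) : ∫ x, dz k f x = 0 := by
  have h1 : ∀ u : Cn n, Integrable (fun x => fderiv ℝ f x u) := fun u => by
    have h2 : Continuous (fun x => fderiv ℝ f x u) :=
      (hf.continuous_fderiv (by simp)).clm_apply continuous_const
    exact h2.integrable_of_hasCompactSupport (hs.fderiv_apply (𝕜 := ℝ) u)
  simp only [dz]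
  rw [integral_div, integral_sub (h1 _) ((h1 _).const_mul _), integral_const_mul,
    integral_fderiv_eq_zero hf hs, integral_fderiv_eq_zero hf hs]
  simp

theorem integral_dzb_eq_zero {f : Cn n → ℂ} (hf : ContDiff ℝ 1 f) (hs : HasCompactSupport f)
    (k : Fin n) : ∫ x, dzb k f x = 0 := by
  have h1 : ∀ u : Cn n, Integrable (fun x => fderiv ℝ f x u) := fun u => by
    have h2 : Continuous (fun x => fderiv ℝ f x u) :=
      (hf.continuous_fderiv (by simp)).clm_apply continuous_const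
    exact h2.integrable_of_hasCompactSupport (hs.fderiv_apply (𝕜 := ℝ) u)
  simp only [dzb]
  rw [integral_div, integral_add (h1 _) ((h1 _).const_mul _), integral_const_mul,
    integral_fderiv_eq_zero hf hs, integral_fderiv_eq_zero hf hs]
  simp

/-- A function which is smooth on `U` and has compact support in `U` is smooth. -/
theorem contDiff_of_support {E F : Type*} [NormedAddCommGroup E] [NormedSpace ℝ E]
    [NormedAddCommGroup F] [NormedSpace ℝ F] {m : WithTop ℕ∞} {f : E → F} {U : Set E}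
    (hU : IsOpen U) (hf : ContDiffOn ℝ m f U) (hs : tsupport f ⊆ U) : ContDiff ℝ m f := by
  rw [contDiff_iff_contDiffAt]
  intro x
  by_cases hx : x ∈ U
  · exact hf.contDiffAt (hU.mem_nhds hx)
  · have h1 : x ∉ tsupport f := fun h => hx (hs h)
    exact contDiffAt_const.congr_of_eventuallyEq (notMem_tsupport_iff_eventuallyEq.1 h1)

end Pool.Agent.KRFQ
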